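import Pool.Agent.Lib.MP_377081_al.Constr

section

/-!
# Events: definitions (paper 194, section 5)
-/

set_option autoImplicit false

namespace Pool.Agent.HJI

open Equiv

variable {L X Y Z Om P P' C C0 : Type} [Group L]

/-- Action of a list of events (the head is the latest). -/
noncomputable def evAct (γ : L →* Perm (C × P)) : List (L × (P ↪ X)) → Perm (C × X)
  | [] => 1
  | e :: M => eact γ e.1 e.2 * evAct γ M

/-- The permutation of the tile given by a labelled word. -/
noncomputable def evp (p : L →* D) (Q : Piece X P) (l : List (Option L)) : Perm X :=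
  Q.A.ev (l.map (Option.map p))

/-- The events of a labelled word. -/
noncomputable def events (p : L →* D) (Q : Piece X P) : List (Option L) → List (L × (P ↪ X))
  | [] => []
  | none :: l => events p Q l
  | some v :: l => (v, Q.port.trans ((evp p Q l)⁻¹).toEmbedding) :: events p Q l

/-- Two token maps are disjoint. -/
def Disj (y y' : P ↪ X) : Prop := ∀ i j, y i ≠ y' j

open Classical in
/-- (5.2) Insertion of a new event. -/
noncomputable def ins (v : L) (y : P ↪ X) : List (L × (P ↪ X)) → List (L × (P ↪ X))
  | [] => [(v, y)]
  | e :: M => if e.2 = y then (v * e.1, y) :: M else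
      if Disj e.2 y then e :: ins v y M else (v, y) :: e :: M

open Classical in
/-- Does the insertion lengthen the list? -/
noncomputable def isStart (y : P ↪ X) : List (L × (P ↪ X)) → Bool
  | [] => true
  | e :: M => if e.2 = y then false else if Disj e.2 y then isStart y M else true

/-- The internal action of an event of the tile in the extension. -/
noncomputable def evIn [DecidableEq P] (p : L →* D) (o' o : P) (h : o' ≠ o) (v : L) (y : P ↪ X) :
    Perm (CE P × X) :=
  eact ((gamE o' o h).comp p) v y

/-- The outer tokens. -/
def outT (o : P) (y : P ↪ X) : P ↪ CE P × X :=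
  ⟨fun i => (some (i, 2), y o), fun i j h => by simpa using h⟩

/-- Moving a token map by a permutation. -/
def moveT (σ : Perm X) (y : P ↪ X) : P ↪ X := y.trans σ.toEmbedding

/-- Level-up with reduction: the accumulated internal permutation and the reduced list. -/
noncomputable def red [DecidableEq P] (p : L →* D) (o' o : P) (h : o' ≠ o) :
    List (L × (P ↪ X)) → Perm (CE P × X) × List (L × (P ↪ CE P × X))
  | [] => (1, [])
  | e :: M => (evIn p o' o h e.1 e.2 * (red p o' o h M).1,
      ins e.1 (moveT (red p o' o h M).1⁻¹ (outT o e.2)) (red p o' o h M).2)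

/-- The lifted action on the ports. -/
noncomputable def gamUp [DecidableEq P] (p : L →* D) (o' o : P) (h : o' ≠ o)
    (γ : L →* Perm (C × P)) : L →* Perm ((C × CE P) × P) :=
  ((Equiv.prodAssoc C (CE P) P).symm.permCongrHom.toMonoidHom).comp
    (glueD p (gamE o' o h) (portE o) (gamE_portE h) γ)

open Classical in
/-- The labelled word of a word. -/
noncomputable def lab (B : FS D Om) (om : Om) :
    List (Option D) → List (Option (D × (Om → T)))
  | [] => []
  | none :: l => none :: lab B om l
  | some v :: l => some (v, fun o => if B.ev l o = om then v.2 else 1) :: lab B om l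

end Pool.Agent.HJI
end

section

/-!
# HJ-22 Events
-/

set_option autoImplicit false

namespace Pool.Agent.HJI

open Equiv

variable {L X Y Z Om P P' C C0 : Type} [Group L]

theorem events_length (p : L →* D) (Q : Piece X P) (l : List (Option L)) :
    (events p Q l).length ≤ l.length := by
  induction l with
  | nil => simp [events]
  | cons a l ih =>
    cases a with
    | none => simp only [events, List.length_cons]; omega
    | some v => simp only [events, List.length_cons]; omega

theorem evp_cons (p : L →* D) (Q : Piece X P) (a : Option L) (l : List (Option L)) :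
    evp p Q (a :: l) = Q.A.step (Option.map p a) * evp p Q l := by
  simp [evp, FS.ev]

/-- Conjugation of an event by a tilewise permutation. -/
theorem tw_eact (γ : L →* Perm (C × P)) (v : L) (y : P ↪ X) (s : Perm X) :
    tw C s * eact γ v y = eact γ v (y.trans s.toEmbedding) * tw C s := by
  ext1 ⟨c, x⟩
  simp only [Perm.coe_mul, Function.comp_apply]
  by_cases hx : x ∈ Set.range y
  · obtain ⟨i, rfl⟩ := hx
    rw [eact_token, tw_apply, tw_apply]
    exact (eact_token γ v (y.trans s.toEmbedding) c i).symm
  · have h2 : s x ∉ Set.range (y.trans s.toEmbedding) := by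
      rintro ⟨i, hz⟩
      exact hx ⟨i, s.injective hz⟩
    rw [eact_other _ _ _ _ _ hx, tw_apply, eact_other _ _ _ _ _ h2]

/-- (5.1) -/
theorem base_rep (p : L →* D) (Q : Piece X P) (l : List (Option L)) (γ : L →* Perm (C × P)) :
    (glue p Q γ).ev l = tw C (evp p Q l) * evAct γ (events p Q l) := by
  induction l with
  | nil => simp [FS.ev, evp, events, evAct]
  | cons a l ih =>
    rw [FS.ev_cons, ih, evp_cons]
    cases a with
    | none =>
      show tw C Q.A.a * _ = _
      rw [map_mul, mul_assoc]
      rfl
    | some v =>
      show (eact γ v Q.port * tw C (Q.A.d (p v))) * _ = tw C (Q.A.d (p v) * evp p Q l) *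
        (eact γ v (Q.port.trans ((evp p Q l)⁻¹).toEmbedding) * evAct γ (events p Q l))
      rw [← mul_assoc (tw C (Q.A.d (p v) * evp p Q l)), tw_eact]
      have h : ((Q.port.trans ((evp p Q l)⁻¹).toEmbedding).trans
          (Q.A.d (p v) * evp p Q l).toEmbedding) = Q.port := by
        ext i
        show (Q.A.d (p v) * evp p Q l) ((evp p Q l)⁻¹ (Q.port i)) = Q.port i
        simp [Q.fix]
      rw [h, map_mul]
      simp only [mul_assoc]

/-- Events at disjoint tokens commute. -/
theorem eact_comm (γ : L →* Perm (C × P)) (v v' : L) {y y' : P ↪ X} (h : Disj y y') :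
    eact γ v y * eact γ v' y' = eact γ v' y' * eact γ v y := by
  ext1 ⟨c, x⟩
  simp only [Perm.coe_mul, Function.comp_apply]
  by_cases hx : x ∈ Set.range y
  · obtain ⟨i, rfl⟩ := hx
    have h1 : ∀ j, y j ∉ Set.range y' := by
      rintro j ⟨k, hk⟩
      exact h j k hk.symm
    rw [eact_other _ _ _ _ _ (h1 i), eact_token, eact_other _ _ _ _ _ (h1 _)]
  · by_cases hx' : x ∈ Set.range y'
    · obtain ⟨i, rfl⟩ := hx'
      have h1 : ∀ j, y' j ∉ Set.range y := by
        rintro j ⟨k, hk⟩
        exact h k j hk
      rw [eact_other _ _ _ _ _ (h1 i), eact_token, eact_other _ _ _ _ _ (h1 _)]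
    · rw [eact_other _ _ _ _ _ hx, eact_other _ _ _ _ _ hx', eact_other _ _ _ _ _ hx]

theorem evAct_ins (γ : L →* Perm (C × P)) (v : L) (y : P ↪ X) (M : List (L × (P ↪ X))) :
    evAct γ (ins v y M) = eact γ v y * evAct γ M := by
  induction M with
  | nil => rfl
  | cons e M ih =>
    by_cases h1 : e.2 = y
    · simp only [ins, h1, if_true, evAct]
      rw [eact_mul, mul_assoc]
    · by_cases h2 : Disj e.2 y
      · simp only [ins, h1, h2, if_true, if_false, evAct, ih]
        rw [← mul_assoc, eact_comm γ _ _ h2, mul_assoc]
      · simp only [ins, h1, h2, if_false, evAct]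

theorem length_ins (v : L) (y : P ↪ X) (M : List (L × (P ↪ X))) :
    (ins v y M).length = M.length + (if isStart y M then 1 else 0) := by
  induction M with
  | nil => simp [ins, isStart]
  | cons e M ih =>
    by_cases h1 : e.2 = y
    · simp [ins, isStart, h1]
    · by_cases h2 : Disj e.2 y
      · simp only [ins, isStart, h1, h2, if_true, if_false, List.length_cons, ih]
        omega
      · simp [ins, isStart, h1, h2]
theorem isStart_ins_self (v : L) (y : P ↪ X) (M : List (L × (P ↪ X))) :
    isStart y (ins v y M) = false := by
  induction M with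
  | nil => simp [ins, isStart]
  | cons e M ih =>
    by_cases h1 : e.2 = y
    · simp [ins, isStart, h1]
    · by_cases h2 : Disj e.2 y
      · simp only [ins, isStart, h1, h2, if_true, if_false, ih]
      · simp [ins, isStart, h1, h2]
theorem isStart_ins_disj [Nonempty P] (v : L) {y y' : P ↪ X} (h : Disj y y')
    (M : List (L × (P ↪ X))) : isStart y' (ins v y M) = isStart y' M := by
  have hne : y ≠ y' := by
    rintro rfl
    obtain ⟨i⟩ := ‹Nonempty P›
    exact h i i rfl
  induction M with
  | nil => simp [ins, isStart, hne, h]
  | cons e M ih =>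
    by_cases h1 : e.2 = y
    · subst h1
      simp [ins, isStart, hne, h]
    · by_cases h2 : Disj e.2 y
      · simp only [ins, isStart, h1, h2, if_true, if_false, ih]
      · simp [ins, isStart, h1, h2, hne, h]

end Pool.Agent.HJI
end
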