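import Pool.Agent.Lib.MP_377081_al.Step0
import Pool.Agent.Lib.MP_377081_al.Events

section

/-!
# HJ-1 ThreeCyc
-/

set_option autoImplicit false

namespace Pool.Agent.HJI

open Equiv

variable {L X Y Z Om P P' C C0 : Type} [Group L]

section ThreeCyc
variable [Fintype X] [DecidableEq X]

theorem c3_isThreeCycle {x y z : X} (hxy : x ≠ y) (hyz : y ≠ z) (hxz : x ≠ z) :
    (c3 x y z).IsThreeCycle := by
  unfold c3
  rw [swap_comm x y]
  exact Perm.isThreeCycle_swap_mul_swap_same hxy.symm hyz hxz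
theorem c3_apply {x y z : X} (hxy : x ≠ y) (hyz : y ≠ z) (hxz : x ≠ z) :
    c3 x y z x = y ∧ c3 x y z y = z ∧ c3 x y z z = x ∧
      ∀ u, u ≠ x → u ≠ y → u ≠ z → c3 x y z u = u := by
  refine ⟨?_, ?_, ?_, ?_⟩
  · simp only [c3, Perm.mul_apply]
    rw [swap_apply_of_ne_of_ne hxy hxz, swap_apply_left]
  · simp only [c3, Perm.mul_apply]
    rw [swap_apply_left, swap_apply_of_ne_of_ne hxz.symm hyz.symm]
  · simp only [c3, Perm.mul_apply]
    rw [swap_apply_right, swap_apply_right]
  · intro u h1 h2 h3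
    simp only [c3, Perm.mul_apply]
    rw [swap_apply_of_ne_of_ne h2 h3, swap_apply_of_ne_of_ne h1 h2]
theorem conj_c3 (σ : Perm X) (x y z : X) : σ * c3 x y z * σ⁻¹ = c3 (σ x) (σ y) (σ z) := by
  unfold c3
  rw [swap_apply_apply, swap_apply_apply]
  group
theorem Cy.symm {G : Subgroup (Perm X)} {x y : X} (h : Cy G x y) : Cy G y x := by
  rcases h with h | ⟨σ, hσ, h3, hxy⟩
  · exact Or.inl h.symm
  · refine Or.inr ⟨σ⁻¹, G.inv_mem hσ, h3.inv, ?_⟩
    rw [Perm.inv_eq_iff_eq, hxy]

/-- a three-cycle is determined by its action on a moved point -/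
theorem eq_c3_of_isThreeCycle {σ : Perm X} (h3 : σ.IsThreeCycle) {x y : X} (hxy : x ≠ y)
    (h : σ x = y) : ∃ w, w ≠ x ∧ w ≠ y ∧ σ = c3 x y w := by
  have hord : σ ^ 3 = 1 := by
    have := h3.orderOf
    rw [← this]; exact pow_orderOf_eq_one σ
  have hcube : ∀ u, σ (σ (σ u)) = u := by
    intro u
    have := congrArg (fun τ : Perm X => τ u) hord
    simpa [pow_succ, Perm.mul_apply] using this
  have hwy : σ y ≠ y := by
    intro hh
    have : σ y = σ x := by rw [hh, h]
    exact hxy (σ.injective this).symm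
  have hwx : σ y ≠ x := by
    intro hh
    have h1 := hcube x
    rw [h, hh, h] at h1
    exact hxy h1.symm
  refine ⟨σ y, hwx, hwy, ?_⟩
  have hw : σ (σ y) = x := by
    have h1 := hcube x
    rwa [h] at h1
  have hsup : ({x, y, σ y} : Finset X) = σ.support := by
    apply Finset.eq_of_subset_of_card_le
    · intro u hu
      simp only [Finset.mem_insert, Finset.mem_singleton] at hu
      rw [Perm.mem_support]
      rcases hu with rfl | rfl | rfl
      · rw [h]; exact hxy.symm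
      · exact hwy
      · rw [hw]; exact hwx.symm
    · rw [h3.card_support]
      rw [Finset.card_insert_of_notMem, Finset.card_insert_of_notMem, Finset.card_singleton]
      · simpa using hwy.symm
      · simp only [Finset.mem_insert, Finset.mem_singleton, not_or]
        exact ⟨hxy, hwx.symm⟩
  obtain ⟨a1, a2, a3, a4⟩ := c3_apply (x := x) (y := y) (z := σ y) hxy hwy.symm hwx.symm
  ext u
  by_cases hu1 : u = x
  · subst hu1; rw [a1, h]
  by_cases hu2 : u = y
  · subst hu2; rw [a2]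
  by_cases hu3 : u = σ y
  · rw [hu3, a3, hw]
  rw [a4 u hu1 hu2 hu3]
  have : u ∉ σ.support := by
    rw [← hsup]
    simp only [Finset.mem_insert, Finset.mem_singleton, not_or]
    exact ⟨hu1, hu2, hu3⟩
  exact Perm.notMem_support.mp this

theorem isThreeCycle_conj {σ τ : Perm X} (h3 : σ.IsThreeCycle) : (τ * σ * τ⁻¹).IsThreeCycle := by
  unfold Perm.IsThreeCycle at h3 ⊢
  rw [Perm.cycleType_conj]; exact h3

theorem Cy.trans {G : Subgroup (Perm X)} {x y z : X} (h : Cy G x y) (h' : Cy G y z) : Cy G x z := by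
  by_cases hxy : x = y
  · subst hxy; exact h'
  by_cases hyz : y = z
  · subst hyz; exact h
  by_cases hxz : x = z
  · exact Or.inl hxz
  rcases h with h | ⟨σ, hσ, h3, hx⟩
  · exact absurd h hxy
  rcases h' with h' | ⟨τ, hτ, h3', hy⟩
  · exact absurd h' hyz
  obtain ⟨v, hv1, hv2, rfl⟩ := eq_c3_of_isThreeCycle h3' hyz hy
  obtain ⟨a1, a2, a3, a4⟩ := c3_apply (x := y) (y := z) (z := v) hyz hv2.symm hv1.symm
  by_cases hxv : x = v
  · subst hxv
    refine Or.inr ⟨(c3 y z x)⁻¹, G.inv_mem hτ, h3'.inv, ?_⟩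
    rw [Perm.inv_eq_iff_eq, a2]
  · refine Or.inr ⟨c3 y z v * σ * (c3 y z v)⁻¹, G.mul_mem (G.mul_mem hτ hσ) (G.inv_mem hτ),
      isThreeCycle_conj h3, ?_⟩
    have : (c3 y z v)⁻¹ x = x := by
      rw [Perm.inv_eq_iff_eq, a4 x hxy hxz hxv]
    rw [Perm.mul_apply, Perm.mul_apply, this, hx, a1]

theorem c3_rot {x y z : X} (hxy : x ≠ y) (hyz : y ≠ z) (hxz : x ≠ z) :
    c3 y z x = c3 x y z := by
  obtain ⟨a1, a2, a3, a4⟩ := c3_apply hxy hyz hxz
  obtain ⟨b1, b2, b3, b4⟩ := c3_apply (x := y) (y := z) (z := x) hyz hxz.symm hxy.symm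
  ext u
  by_cases hu1 : u = x
  · subst hu1; rw [a1, b3]
  by_cases hu2 : u = y
  · subst hu2; rw [a2, b1]
  by_cases hu3 : u = z
  · subst hu3; rw [a3, b2]
  rw [a4 u hu1 hu2 hu3, b4 u hu2 hu3 hu1]

theorem c3_inv {x y z : X} (hxy : x ≠ y) (hyz : y ≠ z) (hxz : x ≠ z) :
    (c3 x z y)⁻¹ = c3 x y z := by
  obtain ⟨a1, a2, a3, a4⟩ := c3_apply hxy hyz hxz
  obtain ⟨b1, b2, b3, b4⟩ := c3_apply (x := x) (y := z) (z := y) hxz hyz.symm hxy
  ext u
  rw [Perm.inv_eq_iff_eq]
  by_cases hu1 : u = x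
  · subst hu1; rw [a1, b3]
  by_cases hu2 : u = y
  · subst hu2; rw [a2, b2]
  by_cases hu3 : u = z
  · subst hu3; rw [a3, b1]
  rw [a4 u hu1 hu2 hu3, b4 u hu1 hu3 hu2]

theorem c3_mem {G : Subgroup (Perm X)} {x y z : X} (hxy : x ≠ y) (hyz : y ≠ z) (hxz : x ≠ z)
    (h : Cy G x y) (h' : Cy G y z) : c3 x y z ∈ G := by
  rcases h with h | ⟨σ, hσ, h3, hx⟩
  · exact absurd h hxy
  rcases h' with h' | ⟨τ, hτ, h3', hy⟩
  · exact absurd h' hyz
  obtain ⟨w, hw1, hw2, rfl⟩ := eq_c3_of_isThreeCycle h3 hxy hx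
  obtain ⟨v, hv1, hv2, rfl⟩ := eq_c3_of_isThreeCycle h3' hyz hy
  by_cases hwz : w = z
  · subst hwz; exact hσ
  by_cases hvx : v = x
  · subst hvx
    rw [← c3_rot hxy hyz hxz]; exact hτ
  obtain ⟨a1, a2, a3, a4⟩ := c3_apply (x := y) (y := z) (z := v) hyz hv2.symm hv1.symm
  have hcx : c3 y z v x = x := a4 x hxy hxz (Ne.symm hvx)
  have hconj := conj_c3 (c3 y z v) x y w
  rw [hcx, a1] at hconj
  have hmem : c3 y z v * c3 x y w * (c3 y z v)⁻¹ ∈ G :=
    G.mul_mem (G.mul_mem hτ hσ) (G.inv_mem hτ)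
  rw [hconj] at hmem
  by_cases hvw : v = w
  · subst hvw
    rw [a3] at hmem
    rw [← c3_inv hxy hyz hxz]
    exact G.inv_mem hmem
  · have hcw : c3 y z v w = w := a4 w hw2 hwz (Ne.symm hvw)
    rw [hcw] at hmem
    have key : c3 x y z = (c3 x z w)⁻¹ * c3 x y w := by
      obtain ⟨b1, b2, b3, b4⟩ := c3_apply hxy hyz hxz
      obtain ⟨d1, d2, d3, d4⟩ := c3_apply (x := x) (y := z) (z := w) hxz (Ne.symm hwz) hw1.symm
      obtain ⟨e1, e2, e3, e4⟩ := c3_apply (x := x) (y := y) (z := w) hxy hw2.symm hw1.symm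
      ext u
      rw [Perm.mul_apply, eq_comm, Perm.inv_eq_iff_eq]
      by_cases hu1 : u = x
      · subst hu1; rw [b1, e1, d4 y hxy.symm hyz hw2.symm]
      by_cases hu2 : u = y
      · subst hu2; rw [b2, e2, d2]
      by_cases hu3 : u = z
      · subst hu3; rw [b3, e4 u hu1 hu2 (Ne.symm hwz), d1]
      by_cases hu4 : u = w
      · subst hu4; rw [b4 u hu1 hu2 hu3, e3, d3]
      rw [b4 u hu1 hu2 hu3, e4 u hu1 hu2 hu4, d4 u hu1 hu3 hu4]
    rw [key]
    exact G.mul_mem (G.inv_mem hmem) hσ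

theorem Cy.of_c3 {G : Subgroup (Perm X)} {x y z : X} (hxy : x ≠ y) (hyz : y ≠ z) (hxz : x ≠ z)
    (h : c3 x y z ∈ G) : Cy G x y ∧ Cy G x z ∧ Cy G y z := by
  obtain ⟨a1, a2, a3, a4⟩ := c3_apply hxy hyz hxz
  have h3 := c3_isThreeCycle hxy hyz hxz
  refine ⟨Or.inr ⟨_, h, h3, a1⟩, Or.inr ⟨_, G.inv_mem h, h3.inv, ?_⟩, Or.inr ⟨_, h, h3, a2⟩⟩
  rw [Perm.inv_eq_iff_eq, a3]

theorem alt_le_of_cy {G : Subgroup (Perm X)} (h : ∀ x y, Cy G x y) : alternatingGroup X ≤ G := by
  rw [← Perm.closure_three_cycles_eq_alternating, Subgroup.closure_le]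
  intro σ hσ
  have h3 : σ.IsThreeCycle := hσ
  have hne : σ ≠ 1 := by
    intro h1
    have := h3.card_support
    rw [h1] at this
    simp at this
  obtain ⟨x, hx⟩ : ∃ x, σ x ≠ x := by
    by_contra hcon
    push Not at hcon
    exact hne (Perm.ext hcon)
  obtain ⟨w, hw1, hw2, hw⟩ := eq_c3_of_isThreeCycle h3 (Ne.symm hx) rfl
  change σ ∈ G
  rw [hw]
  exact c3_mem (Ne.symm hx) hw2.symm hw1.symm (h _ _) (h _ _)

end ThreeCyc

end Pool.Agent.HJI
end

section

section

/-!
# HJ-14 CompatB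
-/

set_option autoImplicit false

namespace Pool.Agent.HJI

open Equiv

variable {L X Y Z Om P P' C C0 : Type} [Group L]

private theorem cb_inv1 {X : Type} (σ : Perm X) (x : X) : σ⁻¹ (σ x) = x := σ.symm_apply_apply x

private theorem cb_inv2 {X : Type} (σ : Perm X) (x : X) : σ (σ⁻¹ x) = x := σ.apply_symm_apply x

/-- The set with a lamp at a port is glued from copies of the piece. -/
private noncomputable def cbAtlas {X P : Type} (Q : Piece X P) (i : P) :
    Atlas (MonoidHom.id D) Q (Q.A.lamp (Q.port i)) T where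
  e := Equiv.prodComm T X
  ha := fun _ _ => rfl
  hd := fun v c x hx => by
    have h : x ≠ Q.port i := fun h => hx ⟨i, h.symm⟩
    show (Q.A.lamp (Q.port i)).d v (x, c) = (Q.A.d v x, c)
    simp [FS.lamp, h]

private theorem cb_lam {X P : Type} (Q : Piece X P) (i : P) {w : F} {ψ : Perm X}
    (h : ActsBy Q w ψ) (y : X) : Q.A.lam (Q.port i) w y = 1 := by
  have h1 := h (X × T) T (Q.A.lamp (Q.port i)) (cbAtlas Q i) 1 y
  have h2 : (Q.A.lamp (Q.port i)).hom w (y, 1) = (ψ y, 1) := h1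
  rw [FS.lam, h2]

theorem Stage.compatB (S : Stage) {n1 n2 m ρ : ℕ} {φ : Perm S.X} {l : List (Option D)}
    (hl : l.length ≤ ρ) (hw : Good S.Q S.B S.om φ (wd l)) (i : Fin 6)
    (b1 : LocAt (theta S.Q m) (theta S.Q n1) 1)
    (hb1 : ∀ y, b1.b y ≠ cen (Fin 2) n1 (S.Q.port 2))
    (b2 : LocAt (theta S.Q m) (coreS S.Q S.B S.om n1 n2) i)
    (hfar : ∀ l : List (Option D), l.length ≤ ρ →
      (theta S.Q m).A.ev l ((theta S.Q m).port 1) ≠ (theta S.Q m).port 0) :
    Lampless (coreS S.Q S.B S.om n1 n2) ((coreS S.Q S.B S.om n1 n2).port i)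
      (omS S.Q S.B S.om n1) (omP S.Q S.Om n1) (wd l) := by
  intro Y C A t c0 z
  by_cases hj' : ((omS S.Q S.B S.om n1).prod A).Fixed
      (omP S.Q S.Om n1, t.e (c0, (coreS S.Q S.B S.om n1 n2).port i))
  swap
  · exact FS.lam_not_fixed _ hj' _ _
  have hA : A.Fixed (t.e (c0, (coreS S.Q S.B S.om n1 n2).port i)) := (FS.prod_fixed.1 hj').2
  by_cases hav : ((omS S.Q S.B S.om n1).prod A).Avoid l z
      {(omP S.Q S.Om n1, t.e (c0, (coreS S.Q S.B S.om n1 n2).port i))}
  · exact FS.lam_avoid l z hav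
  -- the lockstep map
  set β : XT (Fin 2) S.X m → (XT (Fin 2) S.X n1 × (S.Om → T)) × Y :=
    fun y => ((b1.b y, 1), t.e (c0, b2.b y)) with hβ
  have hβp : β ((theta S.Q m).port 1) =
      (omP S.Q S.Om n1, t.e (c0, (coreS S.Q S.B S.om n1 n2).port i)) := by
    show ((b1.b _, 1), t.e (c0, b2.b _)) = _
    rw [b1.hport, b2.hport]
    rfl
  have ha : ∀ y, β ((theta S.Q m).A.a y) = ((omS S.Q S.B S.om n1).prod A).a (β y) := by
    intro y
    refine Prod.ext (Prod.ext (b1.ha y) ?_) ?_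
    · funext u
      simp [hβ, FS.prod, omS, FS.ext]
    · show t.e (c0, b2.b ((theta S.Q m).A.a y)) = A.a (t.e (c0, b2.b y))
      rw [t.ha, b2.ha]
  have hd : ∀ v y, y ∉ ({(theta S.Q m).port 0} : Set (XT (Fin 2) S.X m)) →
      β ((theta S.Q m).A.d v y) = ((omS S.Q S.B S.om n1).prod A).d v (β y) := by
    intro v y hy
    have hy' : y ≠ (theta S.Q m).port 0 := hy
    refine Prod.ext (Prod.ext (b1.hd v y hy') ?_) ?_
    · funext u
      have := hb1 y
      simp [hβ, FS.prod, omS, FS.ext, this]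
    · show t.e (c0, b2.b ((theta S.Q m).A.d v y)) = A.d v (t.e (c0, b2.b y))
      by_cases hp : b2.b y ∈ Set.range (coreS S.Q S.B S.om n1 n2).port
      · have h1 := b2.hnp y hp
        rw [h1, (theta S.Q m).fix v 1, b2.hport, hA v]
      · rw [t.hd v c0 _ hp, b2.hd v y hy']
        rfl
  have hjj : ∀ y, y ∉ ({(theta S.Q m).port 0} : Set (XT (Fin 2) S.X m)) →
      (β y = (omP S.Q S.Om n1, t.e (c0, (coreS S.Q S.B S.om n1 n2).port i)) ↔
        y = (theta S.Q m).port 1) := by
    intro y _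
    constructor
    · intro h
      rw [← hβp] at h
      exact b1.inj (congrArg (fun q => q.1.1) h)
    · intro h
      rw [h, hβp]
  -- the visit of the lamp
  have hav' : ∃ l' : List (Option D), l' <:+ l ∧ ((omS S.Q S.B S.om n1).prod A).ev l' z =
      (omP S.Q S.Om n1, t.e (c0, (coreS S.Q S.B S.om n1 n2).port i)) := by
    by_contra hcon
    apply hav
    intro l' hl' hmem
    exact hcon ⟨l', hl', hmem⟩
  obtain ⟨l', hl', hev⟩ := hav'
  have hlen' : l'.length ≤ ρ := hl'.length_le.trans hl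
  set y0 := (theta S.Q m).A.ev (invw l') ((theta S.Q m).port 1) with hy0
  have hβ0 : β y0 = z := by
    have h1 : β ((theta S.Q m).A.ev (invw l') ((theta S.Q m).port 1)) =
        ((omS S.Q S.B S.om n1).prod A).ev (invw l') (β ((theta S.Q m).port 1)) := by
      apply lockstep ha hd
      intro q hq hmem
      refine hfar q ?_ hmem
      have h2 := hq.length_le
      rw [invw_length] at h2
      omega
    rw [hy0, h1, hβp, ← hev, FS.ev_invw, cb_inv1]
  have hy0' : (theta S.Q m).A.ev l' y0 = (theta S.Q m).port 1 := by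
    rw [hy0, FS.ev_invw, cb_inv2]
  have hav0 : (theta S.Q m).A.Avoid l y0 {(theta S.Q m).port 0} := by
    intro l'' hl'' hmem
    have hmem' : (theta S.Q m).A.ev l'' y0 = (theta S.Q m).port 0 := hmem
    rcases List.suffix_or_suffix_of_suffix hl' hl'' with ⟨p, hp⟩ | ⟨p, hp⟩
    · rw [← hp, FS.ev_append, Perm.mul_apply, hy0'] at hmem'
      refine hfar p ?_ hmem'
      have h2 := hl''.length_le
      rw [← hp, List.length_append] at h2
      omega
    · rw [← hp, FS.ev_append, Perm.mul_apply, hmem'] at hy0'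
      refine hfar (invw p) ?_ ?_
      · rw [invw_length]
        have h2 := hlen'
        rw [← hp, List.length_append] at h2
        omega
      · rw [FS.ev_invw, ← hy0', cb_inv1]
  have hfin := lockstep_lam ha hd (fun v => (theta S.Q m).fix v 1) hj' hjj l y0 hav0
  rw [hβ0] at hfin
  rw [hfin]
  exact cb_lam (theta S.Q m) 1 ((theta_built S.Q m).actsBy hw.1.1) y0

end Pool.Agent.HJI
end

section

/-!
# HJ-19 EvenT
-/

set_option autoImplicit false

namespace Pool.Agent.HJI

open Equiv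

variable {L X Y Z Om P P' C C0 : Type} [Group L]

theorem Even4.of_trans {A : FS D X} (hA : A.Trans) (h : 4 ∣ Nat.card {x : X // A.a x ≠ x}) :
    Even4 A := by
  intro S ha hd
  by_cases hS : ∃ x, x ∈ S
  · obtain ⟨x, hx⟩ := hS
    have hall : ∀ y, y ∈ S := fun y => hA.eq_univ ha hd x hx y
    have : Nat.card {x : X // x ∈ S ∧ A.a x ≠ x} = Nat.card {x : X // A.a x ≠ x} :=
      Nat.card_congr (Equiv.subtypeEquivRight (fun y => by simp [hall y]))
    rw [this]; exact h
  · push Not at hS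
    have : IsEmpty {x : X // x ∈ S ∧ A.a x ≠ x} := ⟨fun x => hS x.1 x.2.1⟩
    rw [Nat.card_of_isEmpty]; exact dvd_zero 4

theorem Even4.sum [Finite X] [Finite Y] {A : FS D X} {B : FS D Y} (hA : Even4 A) (hB : Even4 B) :
    Even4 (A.sum B) := by
  intro S ha hd
  have h1 := hA {x | Sum.inl x ∈ S} (fun x hx => ha _ hx) (fun v x hx => hd v _ hx)
  have h2 := hB {y | Sum.inr y ∈ S} (fun x hx => ha _ hx) (fun v x hx => hd v _ hx)
  have h3 : Nat.card {z : X ⊕ Y // z ∈ S ∧ (A.sum B).a z ≠ z} =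
      Nat.card {x : X // x ∈ {x | Sum.inl x ∈ S} ∧ A.a x ≠ x} +
      Nat.card {y : Y // y ∈ {y | Sum.inr y ∈ S} ∧ B.a y ≠ y} := by
    rw [← Nat.card_sum]
    refine Nat.card_congr (Equiv.trans Equiv.subtypeSum (Equiv.sumCongr ?_ ?_))
    · refine Equiv.subtypeEquivRight (fun x => ?_)
      simp [FS.sum]
    · refine Equiv.subtypeEquivRight (fun x => ?_)
      simp [FS.sum]
  rw [h3]
  exact dvd_add h1 h2

theorem Even4.glue [Finite C] [Finite X] (Q : Piece X P) (hQ : Even4 Q.A) (γ : D →* Perm (C × P)) :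
    Even4 (glue (MonoidHom.id D) Q γ) := by
  classical
  intro S ha hd
  have := Fintype.ofFinite C
  let e : {z : C × X // z ∈ S ∧ (Pool.Agent.HJI.glue (MonoidHom.id D) Q γ).a z ≠ z} ≃
      (Σ c : C, {x : X // x ∈ {x | (c, x) ∈ S} ∧ Q.A.a x ≠ x}) :=
    { toFun := fun z => ⟨z.1.1, ⟨z.1.2, z.2.1, fun h => z.2.2 (Prod.ext rfl h)⟩⟩
      invFun := fun s => ⟨(s.1, s.2.1), s.2.2.1, fun h => s.2.2.2 (congrArg Prod.snd h)⟩
      left_inv := fun z => rfl
      right_inv := fun s => rfl }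
  rw [Nat.card_congr e, Nat.card_sigma]
  apply Finset.dvd_sum
  intro c _
  apply hQ
  · intro x hx
    exact ha (c, x) hx
  · intro v x hx
    by_cases hp : x ∈ Set.range Q.port
    · obtain ⟨i, rfl⟩ := hp
      rw [Q.fix]; exact hx
    · have h1 := hd v (c, x) hx
      rw [glue_nonport _ _ _ _ _ _ hp] at h1
      exact h1

theorem four_dvd_ext [Finite Y] [Finite Om] [Nonempty Om] (B : FS D Om) (om : Om) (A : FS D Y)
    (e0 : Y) : 4 ∣ Nat.card {z : Y × (Om → T) // (B.ext om A e0).a z ≠ z} := by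
  classical
  obtain ⟨u0⟩ := (inferInstance : Nonempty Om)
  set a := (B.ext om A e0).a with hadef
  let sh : T → Y × (Om → T) → Y × (Om → T) := fun t z => (z.1, fun u => t * z.2 u)
  have hsh : ∀ t z, a (sh t z) = sh t (a z) := by
    intro t z
    rfl
  have hmul : ∀ t s z, sh t (sh s z) = sh (t * s) z := by
    intro t s z
    simp [sh, mul_assoc]
  have hone : ∀ z, sh 1 z = z := by
    intro z
    simp [sh]
  have hmv : ∀ t z, a z ≠ z → a (sh t z) ≠ sh t z := by
    intro t z hz h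
    apply hz
    rw [hsh] at h
    have h2 := congrArg (sh t⁻¹) h
    rw [hmul, hmul, inv_mul_cancel, hone, hone] at h2
    exact h2
  let e : {z : Y × (Om → T) // a z ≠ z} ≃ T × {z : Y × (Om → T) // a z ≠ z ∧ z.2 u0 = 1} :=
    { toFun := fun z => (z.1.2 u0, ⟨sh (z.1.2 u0)⁻¹ z.1, hmv _ _ z.2, by simp [sh]⟩)
      invFun := fun s => ⟨sh s.1 s.2.1, hmv _ _ s.2.2.1⟩
      left_inv := fun z => by
        apply Subtype.ext
        show sh (z.1.2 u0) (sh (z.1.2 u0)⁻¹ z.1) = z.1
        rw [hmul, mul_inv_cancel, hone]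
      right_inv := fun s => by
        obtain ⟨t, z, hz, hz1⟩ := s
        have h1 : (sh t z).2 u0 = t := by
          show t * z.2 u0 = t
          rw [hz1, mul_one]
        apply Prod.ext
        · exact h1
        · apply Subtype.ext
          show sh ((sh t z).2 u0)⁻¹ (sh t z) = z
          rw [h1, hmul, inv_mul_cancel, hone] }
  rw [Nat.card_congr e, Nat.card_prod]
  have hT : Nat.card T = 60 := by
    rw [Nat.card_eq_fintype_card]
    decide +kernel
  rw [hT]
  exact Dvd.dvd.mul_right (by norm_num) _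

end Pool.Agent.HJI
end

section

/-!
# HJ-9 ExtSet
-/

set_option autoImplicit false

namespace Pool.Agent.HJI

open Equiv

variable {L X Y Z Om P P' C C0 : Type} [Group L]

instance T_nontrivial : Nontrivial T :=
  alternatingGroup.nontrivial_of_three_le_card (by simp)

theorem ext_ker_le [Nonempty Y] (B : FS D Om) (om : Om) (A : FS D Y) (e0 : Y) :
    (B.ext om A e0).hom.ker ≤ B.hom.ker := by
  classical
  intro w hw
  rw [MonoidHom.mem_ker] at hw ⊢
  ext1 u
  by_contra hu
  rw [Perm.one_apply] at hu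
  obtain ⟨y⟩ := ‹Nonempty Y›
  obtain ⟨c, hc⟩ := exists_ne ((B.prod A).lam (om, e0) w (u, y))
  have h1 := B.ext_hom om A e0 w y (fun u' => if u' = B.hom w u then c else 1)
  rw [hw, Perm.one_apply] at h1
  have h2 := congrFun (congrArg Prod.snd h1) (B.hom w u)
  have h3 : B.hom w⁻¹ (B.hom w u) = u := by
    rw [← Perm.mul_apply, ← map_mul, inv_mul_cancel, map_one, Perm.one_apply]
  simp only [if_true, h3, if_neg (fun h : u = B.hom w u => hu h.symm), mul_one] at h2
  exact hc h2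

/-- Transitivity of the alternating group. -/
theorem exists_even_map {α : Type} [Fintype α] [DecidableEq α] (x x' z : α) (hz : z ≠ x)
    (hz' : z ≠ x') : ∃ φ ∈ alternatingGroup α, φ x = x' := by
  by_cases h : x = x'
  · exact ⟨1, one_mem _, h⟩
  · refine ⟨swap x z * swap x x',
      (Perm.isThreeCycle_swap_mul_swap_same hz.symm h hz').mem_alternatingGroup, ?_⟩
    rw [Perm.mul_apply, swap_apply_left, swap_apply_of_ne_of_ne (fun h' => h h'.symm) hz'.symm]

theorem Stage.exists_even_map (S : Stage) (x x' : S.X) :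
    ∃ φ ∈ alternatingGroup S.X, φ x = x' := by
  obtain ⟨y, -⟩ := S.tfix
  have n01 : y 0 ≠ y 1 := fun h => by simpa using y.injective h
  have n02 : y 0 ≠ y 2 := fun h => by simpa using y.injective h
  have n12 : y 1 ≠ y 2 := fun h => by simpa using y.injective h
  have : ∃ i : Fin 8, y i ≠ x ∧ y i ≠ x' := by
    by_contra hc
    push Not at hc
    have h0 := hc 0
    have h1 := hc 1
    have h2 := hc 2
    by_cases e0 : y 0 = x
    · have e1 : y 1 ≠ x := fun h => n01 (e0.trans h.symm)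
      have e2 : y 2 ≠ x := fun h => n02 (e0.trans h.symm)
      exact n12 ((h1 e1).trans (h2 e2).symm)
    · by_cases e1 : y 1 = x
      · have e2 : y 2 ≠ x := fun h => n12 (e1.trans h.symm)
        exact n02 ((h0 e0).trans (h2 e2).symm)
      · exact n01 ((h0 e0).trans (h1 e1).symm)
  obtain ⟨i, hi, hi'⟩ := this
  exact Pool.Agent.HJI.exists_even_map x x' (y i) hi hi'

/-- `F` is transitive on `Om × Y`. -/
theorem Stage.prod_trans (S : Stage) {Y C : Type} (A : FS D Y)
    (t : Atlas (MonoidHom.id D) S.Q A C) (hA : A.Trans) (z z' : S.Om × Y) :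
    (S.B.prod A).Rel z z' := by
  -- same copy
  have h1 : ∀ (o : S.Om) (c : C) (x x' : S.X),
      (S.B.prod A).Rel (o, t.e (c, x)) (o, t.e (c, x')) := by
    intro o c x x'
    obtain ⟨φ, hφ, hx⟩ := S.exists_even_map x x'
    obtain ⟨w, hw⟩ := S.good φ hφ
    refine ⟨w, ?_⟩
    rw [FS.prod_hom, hw.2, hw.1.1 Y C A t, hx, Perm.one_apply]
  obtain ⟨y8, hy8⟩ := S.tfix
  have h2 : ∀ (s : Option D) (o : S.Om) (y : Y), (S.B.prod A).Rel (o, y) (S.B.step s o, y) := by
    intro s o y
    obtain ⟨⟨c, x⟩, rfl⟩ := t.e.surjective y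
    refine (h1 o c x (y8 0)).trans ?_
    cases s with
    | none =>
      refine (FS.Rel.a (S.B.prod A) (o, t.e (c, y8 0))).trans ?_
      have e : (S.B.prod A).a (o, t.e (c, y8 0)) = (S.B.a o, t.e (c, S.Q.A.a (y8 0))) :=
        Prod.ext rfl (t.ha _ _)
      rw [e]
      exact h1 _ _ _ _
    | some v =>
      refine (FS.Rel.d (S.B.prod A) v (o, t.e (c, y8 0))).trans ?_
      have e : (S.B.prod A).d v (o, t.e (c, y8 0)) = (S.B.d v o, t.e (c, S.Q.A.d v (y8 0))) :=
        Prod.ext rfl (t.hd v _ _ (hy8 0).1)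
      rw [e]
      exact h1 _ _ _ _
  have h3 : ∀ (o o' : S.Om) (y : Y), (S.B.prod A).Rel (o, y) (o', y) := by
    intro o o' y
    have := S.trO.eq_univ (S := {o' | (S.B.prod A).Rel (o, y) (o', y)})
      (fun x hx => FS.Rel.trans hx (h2 none x y)) (fun v x hx => FS.Rel.trans hx (h2 (some v) x y))
      o (FS.Rel.refl _ _) o'
    exact this
  have h4 : ∀ (o : S.Om) (y y' : Y), (S.B.prod A).Rel (o, y) (o, y') := by
    intro o y y'
    obtain ⟨w, rfl⟩ := hA y y'
    refine FS.Rel.trans (y := (S.B.hom w o, A.hom w y)) ⟨w, FS.prod_hom _ _ _ _ _⟩ (h3 _ _ _)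
  obtain ⟨o, y⟩ := z
  obtain ⟨o', y'⟩ := z'
  exact (h3 o o' y).trans (h4 o' y y')

theorem Stage.ext_trans (S : Stage) (hpl : ∀ x : T, ∃ w : F, PureLamp S.Q S.B S.om x w)
    {Y C : Type} (A : FS D Y) (t : Atlas (MonoidHom.id D) S.Q A C) (hA : A.Trans) (c0 : C)
    (h0 : A.Fixed (t.e (c0, S.Q.port 2))) :
    (S.B.ext S.om A (t.e (c0, S.Q.port 2))).Trans := by
  classical
  set e0 := t.e (c0, S.Q.port 2) with he0
  set E := S.B.ext S.om A e0 with hE
  -- change one coordinate
  have h1 : ∀ (y : Y) (m : S.Om → T) (u : S.Om) (q : T),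
      E.Rel (y, m) (y, Function.update m u q) := by
    intro y m u q
    obtain ⟨f, hf⟩ := S.prod_trans A t hA (u, y) (S.om, e0)
    set l := (S.B.prod A).lam (S.om, e0) f (u, y) with hl
    obtain ⟨w, hw1, hw2, hw3⟩ := hpl (l * (q * (m u)⁻¹) * l⁻¹)
    obtain ⟨hw4, hw5⟩ := hw3 Y C A t c0 h0
    rw [← he0] at hw4 hw5
    have hAw : A.hom w = 1 := ActsBy.one_iff.1 hw1 Y C A ⟨t⟩
    have hPw : (S.B.prod A).hom w = 1 := by
      ext1 z
      obtain ⟨o, y⟩ := z
      rw [FS.prod_hom, hw2, hAw]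
      rfl
    have hlam : ∀ z, (S.B.prod A).lam (S.om, e0) (f⁻¹ * w * f) z =
        ((S.B.prod A).lam (S.om, e0) f z)⁻¹ *
          (S.B.prod A).lam (S.om, e0) w ((S.B.prod A).hom f z) *
          (S.B.prod A).lam (S.om, e0) f z := by
      intro z
      rw [FS.lam_mul, FS.lam_mul, hPw, Perm.one_apply, FS.lam_inv, ← Perm.mul_apply, ← map_mul,
        inv_mul_cancel, map_one, Perm.one_apply]
    have hBg : S.B.hom (f⁻¹ * w * f) = 1 := by
      rw [map_mul, map_mul, hw2, mul_one, ← map_mul, inv_mul_cancel, map_one]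
    have hAg : A.hom (f⁻¹ * w * f) = 1 := by
      rw [map_mul, map_mul, hAw, mul_one, ← map_mul, inv_mul_cancel, map_one]
    refine ⟨f⁻¹ * w * f, ?_⟩
    rw [hE, FS.ext_hom, hAg, map_inv S.B.hom, hBg]
    refine Prod.ext rfl ?_
    funext u'
    simp only [inv_one, Perm.one_apply]
    rw [hlam]
    by_cases hu : u' = u
    · subst hu
      rw [hf, hw4, Function.update_self, ← hl]
      group
    · rw [Function.update_of_ne hu, hw5 _ (fun h => hu ?_)]
      · group
      · rw [← hf] at h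
        exact congrArg Prod.fst (((S.B.prod A).hom f).injective h)
  -- change all coordinates
  have h2 : ∀ (y : Y) (m m' : S.Om → T), E.Rel (y, m) (y, m') := by
    intro y m m'
    haveI := Fintype.ofFinite S.Om
    have h3 : ∀ s : Finset S.Om, E.Rel (y, m) (y, fun u => if u ∈ s then m' u else m u) := by
      intro s
      induction s using Finset.induction_on with
      | empty => simpa using FS.Rel.refl E (y, m)
      | insert u s hu ih =>
        refine ih.trans ?_
        have h4 := h1 y (fun u => if u ∈ s then m' u else m u) u (m' u)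
        have e : (fun v => if v ∈ insert u s then m' v else m v) =
            Function.update (fun u => if u ∈ s then m' u else m u) u (m' u) := by
          funext v
          by_cases hv : v = u
          · subst hv; simp
          · rw [Function.update_of_ne hv]
            simp [hv]
        rw [e]
        exact h4
    have h5 := h3 Finset.univ
    simpa using h5
  rintro ⟨y, m⟩ ⟨y', m'⟩
  obtain ⟨w, rfl⟩ := hA y y'
  have h6 : E.Rel (y, m) (E.hom w (y, m)) := ⟨w, rfl⟩
  rw [hE, FS.ext_hom] at h6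
  exact h6.trans (h2 _ _ _)

end Pool.Agent.HJI
end

section

/-!
# HJ-6 FinIdxA
-/

set_option autoImplicit false

namespace Pool.Agent.HJI

open Equiv

variable {L X Y Z Om P P' C C0 : Type} [Group L]

/-- The standalone A-set. -/
noncomputable def selfAtlas (Q : Piece X P) : Atlas (MonoidHom.id D) Q Q.A Unit where
  e := Equiv.punitProd X
  ha := fun _ _ => rfl
  hd := fun _ _ _ _ => rfl

theorem ActsBy.hom_eq {Q : Piece X P} {w : F} {φ : Perm X} (h : ActsBy Q w φ) :
    Q.A.hom w = φ := by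
  ext1 x
  exact h X Unit Q.A (selfAtlas Q) () x

theorem Stage.AA_even (S : Stage) {w : F} (hw : w ∈ S.AA) :
    S.Q.A.hom w ∈ alternatingGroup S.X := by
  obtain ⟨φ, h, hg⟩ := hw
  rw [hg.1.1.hom_eq]
  exact h

theorem Stage.AA_good (S : Stage) {w : F} (hw : w ∈ S.AA) :
    Good S.Q S.B S.om (S.Q.A.hom w) w := by
  obtain ⟨φ, h, hg⟩ := hw
  rw [hg.1.1.hom_eq]
  exact hg

theorem Stage.mem_N_of_hom (S : Stage) {w : F} (hw : w ∈ S.AA) (h : S.Q.A.hom w = 1) :
    w ∈ S.N := by
  have := S.AA_good hw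
  rw [h] at this
  exact this

theorem Stage.hom_of_mem_N (S : Stage) {w : F} (hw : w ∈ S.N) : S.Q.A.hom w = 1 :=
  ActsBy.hom_eq hw.1.1

/-- The map from `AA` to the alternating group. -/
noncomputable def Stage.rho (S : Stage) : S.AA →* alternatingGroup S.X :=
  (S.Q.A.hom.comp S.AA.subtype).codRestrict _ (fun w => S.AA_even w.2)

theorem Stage.rho_apply (S : Stage) (w : S.AA) : ((S.rho w : alternatingGroup S.X) : Perm S.X) =
    S.Q.A.hom w := rfl

theorem Stage.rho_surj (S : Stage) : Function.Surjective S.rho := by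
  rintro ⟨φ, hφ⟩
  obtain ⟨w, hw⟩ := S.good φ hφ
  refine ⟨⟨w, φ, hφ, hw⟩, Subtype.ext ?_⟩
  rw [S.rho_apply]
  exact hw.1.1.hom_eq

theorem Stage.conj_all (S : Stage) (N H0 : Subgroup F) [H0.Normal] (hN : S.N ≤ N)
    (hidx : H0.index ≠ 0) (hlt : H0.index < Nat.card (alternatingGroup S.X))
    (hcard : 5 ≤ Nat.card S.X)
    (hnorm : ∀ h ∈ H0, ∀ w ∈ N, h * w * h⁻¹ ∈ N) (f : F)
    (hne : ∃ w ∈ S.AA, w ∉ S.N ∧ f * w * f⁻¹ ∈ N) :
    ∀ w ∈ S.AA, f * w * f⁻¹ ∈ N := by
  haveI : IsSimpleGroup (alternatingGroup S.X) := alternatingGroup.isSimpleGroup hcard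
  -- image of `H0`
  have hH : (H0.subgroupOf S.AA).map S.rho = ⊤ := by
    haveI : ((H0.subgroupOf S.AA).map S.rho).Normal :=
      Subgroup.Normal.map inferInstance _ S.rho_surj
    rcases this.eq_bot_or_eq_top with h | h
    · exfalso
      have h1 : ((H0.subgroupOf S.AA).map S.rho).index ∣ (H0.subgroupOf S.AA).index :=
        Subgroup.index_map_dvd _ S.rho_surj
      have h2 : (H0.subgroupOf S.AA).index ∣ H0.index := Subgroup.relIndex_dvd_index_of_normal _ _
      have h3 := Nat.le_of_dvd (Nat.pos_of_ne_zero hidx) (h1.trans h2)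
      rw [h, Subgroup.index_bot] at h3
      omega
    · exact h
  let R : Subgroup S.AA := (N.comap (MulAut.conj f).toMonoidHom).subgroupOf S.AA
  have hR : ∀ r : S.AA, r ∈ R ↔ f * r * f⁻¹ ∈ N := fun r => Iff.rfl
  have hRtop : R.map S.rho = ⊤ := by
    haveI : (R.map S.rho).Normal := by
      refine ⟨?_⟩
      rintro _ ⟨r, hr, rfl⟩ g
      have hg : g ∈ (H0.subgroupOf S.AA).map S.rho := by rw [hH]; trivial
      obtain ⟨h, hh, rfl⟩ := hg
      refine ⟨h * r * h⁻¹, ?_, by rw [map_mul, map_mul, map_inv]⟩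
      have hr' : f * r * f⁻¹ ∈ N := hr
      have hh' : (h : F) ∈ H0 := hh
      show f * ((h : F) * r * (h : F)⁻¹) * f⁻¹ ∈ N
      have h1 := hnorm (f * h * f⁻¹) (Subgroup.Normal.conj_mem inferInstance _ hh' f) _ hr'
      have e : f * ((h : F) * r * (h : F)⁻¹) * f⁻¹ =
          f * h * f⁻¹ * (f * r * f⁻¹) * (f * h * f⁻¹)⁻¹ := by group
      rw [e]
      exact h1
    rcases this.eq_bot_or_eq_top with h | h
    · exfalso
      obtain ⟨w, hw, hwN, hwf⟩ := hne
      have h1 : S.rho ⟨w, hw⟩ ∈ R.map S.rho := ⟨⟨w, hw⟩, hwf, rfl⟩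
      rw [h, Subgroup.mem_bot] at h1
      apply hwN
      apply S.mem_N_of_hom hw
      have h2 := congrArg (Subtype.val) h1
      exact h2
    · exact h
  intro w hw
  have h1 : S.rho ⟨w, hw⟩ ∈ R.map S.rho := by rw [hRtop]; trivial
  obtain ⟨r, hr, hrw⟩ := h1
  have hr' : f * r * f⁻¹ ∈ N := hr
  have h2 : w * (r : F)⁻¹ ∈ S.N := by
    apply S.mem_N_of_hom (S.AA.mul_mem hw (S.AA.inv_mem r.2))
    have h3 := congrArg (Subtype.val) hrw
    rw [S.rho_apply, S.rho_apply] at h3
    rw [map_mul, map_inv, h3, mul_inv_cancel]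
  have h4 : f * (w * (r : F)⁻¹) * f⁻¹ ∈ N :=
    hN (Subgroup.Normal.conj_mem inferInstance _ h2 f)
  have h5 := N.mul_mem h4 hr'
  have e : f * (w * (r : F)⁻¹) * f⁻¹ * (f * r * f⁻¹) = f * w * f⁻¹ := by group
  rwa [e] at h5

theorem conj_even {α : Type} [Fintype α] [DecidableEq α] {ψ : Perm α} (φ : Perm α)
    (h : ψ ∈ alternatingGroup α) : φ * ψ * φ⁻¹ ∈ alternatingGroup α := by
  rw [Perm.mem_alternatingGroup] at h ⊢
  rw [map_mul, map_mul, h, mul_one, map_inv, mul_inv_cancel]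

theorem Stage.AAF_le (S : Stage) (N H0 : Subgroup F) [H0.Normal] (hN : S.N ≤ N)
    (hidx : H0.index ≠ 0) (hlt : H0.index < Nat.card (alternatingGroup S.X))
    (hcard : 5 ≤ Nat.card S.X)
    (hnorm : ∀ h ∈ H0, ∀ w ∈ N, h * w * h⁻¹ ∈ N) (hne : ∃ w ∈ S.AA, w ∈ N ∧ w ∉ S.N) :
    S.AAF ≤ N := by
  -- a good element for a 3-cycle of nonports
  obtain ⟨y, hy⟩ := S.tfix
  obtain ⟨ψ, hψ, hψ1, hψp⟩ : ∃ ψ ∈ alternatingGroup S.X, ψ ≠ 1 ∧
      ∀ i, ψ (S.Q.port i) = S.Q.port i := by
    have n01 : y 0 ≠ y 1 := fun h => by simpa using y.injective h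
    have n02 : y 0 ≠ y 2 := fun h => by simpa using y.injective h
    have n12 : y 1 ≠ y 2 := fun h => by simpa using y.injective h
    refine ⟨swap (y 0) (y 1) * swap (y 0) (y 2),
      (Perm.isThreeCycle_swap_mul_swap_same n01 n02 n12).mem_alternatingGroup, ?_, ?_⟩
    · intro h
      have h1 := congrArg (fun σ : Perm S.X => σ (y 2)) h
      simp only [Perm.mul_apply, swap_apply_right, swap_apply_left, Perm.one_apply] at h1
      exact n12 h1
    · intro i
      have hp : ∀ k, S.Q.port i ≠ y k := fun k h => (hy k).1 ⟨i, h⟩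
      rw [Perm.mul_apply, swap_apply_of_ne_of_ne (hp 0) (hp 2),
        swap_apply_of_ne_of_ne (hp 0) (hp 1)]
  obtain ⟨κ, hκ⟩ := S.good ψ hψ
  have hκA : κ ∈ S.AA := ⟨ψ, hψ, hκ⟩
  have hconjne : ∀ φ : Perm S.X, φ * ψ * φ⁻¹ ≠ 1 := by
    intro φ h
    apply hψ1
    rw [mul_inv_eq_one] at h
    exact mul_left_cancel (h.trans (mul_one _).symm)
  have key : ∀ g : F, ∀ w ∈ S.AA, g⁻¹ * w * g⁻¹⁻¹ ∈ N := by
    intro g
    induction g using F_induction with
    | h1 =>
      obtain ⟨w, hw, hwN, hwS⟩ := hne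
      apply S.conj_all N H0 hN hidx hlt hcard hnorm
      exact ⟨w, hw, hwS, by simpa using hwN⟩
    | h2 s w ih =>
      apply S.conj_all N H0 hN hidx hlt hcard hnorm
      cases s with
      | none =>
        refine ⟨letF none * κ * (letF none)⁻¹, ⟨_, conj_even _ hψ, Good.conj_semi Semi.a hκ⟩, ?_, ?_⟩
        · intro h
          have h1 := S.hom_of_mem_N h
          rw [(Good.conj_semi Semi.a hκ).1.1.hom_eq] at h1
          exact hconjne _ h1
        · have h1 := ih κ hκA
          have e : (letF none * w)⁻¹ * (letF none * κ * (letF none)⁻¹) * (letF none * w)⁻¹⁻¹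
              = w⁻¹ * κ * w⁻¹⁻¹ := by group
          rw [e]
          exact h1
      | some v =>
        refine ⟨letF (some v) * κ * (letF (some v))⁻¹, ⟨_, conj_even _ hψ, Good.conj_d hκ hψp v⟩,
          ?_, ?_⟩
        · intro h
          have h1 := S.hom_of_mem_N h
          rw [(Good.conj_d hκ hψp v).1.1.hom_eq] at h1
          exact hconjne _ h1
        · have h1 := ih κ hκA
          have e : (letF (some v) * w)⁻¹ * (letF (some v) * κ * (letF (some v))⁻¹) *
              (letF (some v) * w)⁻¹⁻¹ = w⁻¹ * κ * w⁻¹⁻¹ := by group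
          rw [e]
          exact h1
  unfold Stage.AAF Subgroup.normalClosure
  rw [Subgroup.closure_le]
  intro x hx
  rw [Group.mem_conjugatesOfSet_iff] at hx
  obtain ⟨w, hw, hx⟩ := hx
  rw [isConj_iff] at hx
  obtain ⟨c, rfl⟩ := hx
  have := key c⁻¹ w hw
  rwa [inv_inv] at this

end Pool.Agent.HJI
end

section

/-!
# HJ-8 FinIdxC
-/

set_option autoImplicit false

namespace Pool.Agent.HJI

open Equiv

variable {L X Y Z Om P P' C C0 : Type} [Group L]

/-- A letter of `D` corrected by a pure lamp is lampless. -/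
theorem PureLamp.lampless_letter {Q : Piece X (Fin 4)} {B : FS D Om} {om : Om} (v : D) {w : F}
    (h : PureLamp Q B om v.2 w) : Lampless Q (Q.port 2) B om (letF (some v) * w⁻¹) := by
  classical
  intro Y C A t c0 z
  by_cases hf : (B.prod A).Fixed (om, t.e (c0, Q.port 2))
  · have h1 : (B.prod A).hom w⁻¹ z = z := by
      obtain ⟨o, y⟩ := z
      rw [FS.prod_hom, map_inv, map_inv, h.2.1, ActsBy.one_iff.1 h.1 Y C A ⟨t⟩]
      rfl
    have hA : A.Fixed (t.e (c0, Q.port 2)) := (FS.prod_fixed.1 hf).2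
    obtain ⟨h2, h3⟩ := h.2.2 Y C A t c0 hA
    rw [FS.lam_mul, FS.lam_inv, h1, FS.lam_d _ hf]
    by_cases hz : z = (om, t.e (c0, Q.port 2))
    · rw [if_pos hz, hz, h2, mul_inv_cancel]
    · rw [if_neg hz, h3 z hz, inv_one, mul_one]
  · exact FS.lam_not_fixed _ hf _ _

theorem Stage.exists_lampless_rep (S : Stage)
    (hpl : ∀ x : T, ∃ w ∈ S.AAF, PureLamp S.Q S.B S.om x w) (w : F) :
    ∃ w' : F, w'⁻¹ * w ∈ S.AAF ∧
      (∀ (Y C : Type) (A : FS D Y), Nonempty (Atlas (MonoidHom.id D) S.Q A C) →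
        A.hom w' = A.hom w) ∧
      S.B.hom w' = S.B.hom w ∧ Lampless S.Q (S.Q.port 2) S.B S.om w' := by
  induction w using F_induction with
  | h1 =>
    exact ⟨1, by simp, fun Y C A _ => rfl, rfl, Lampless.one _ _ _ _⟩
  | h2 s w ih =>
    obtain ⟨w', h1, h2, h3, h4⟩ := ih
    cases s with
    | none =>
      refine ⟨letF none * w', ?_, ?_, ?_, (Lampless.a _ _ _ _).mul h4⟩
      · have : (letF none * w')⁻¹ * (letF none * w) = w'⁻¹ * w := by group
        rwa [this]
      · intro Y C A t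
        rw [map_mul, map_mul, h2 Y C A t]
      · rw [map_mul, map_mul, h3]
    | some v =>
      obtain ⟨l, hl, hp⟩ := hpl v.2
      refine ⟨letF (some v) * l⁻¹ * w', ?_, ?_, ?_, hp.lampless_letter.mul h4⟩
      · have : (letF (some v) * l⁻¹ * w')⁻¹ * (letF (some v) * w) =
            (w'⁻¹ * l * w'⁻¹⁻¹) * (w'⁻¹ * w) := by group
        rw [this]
        exact S.AAF.mul_mem (Subgroup.Normal.conj_mem inferInstance l hl _) h1
      · intro Y C A t
        rw [map_mul, map_mul, map_mul, map_inv, h2 Y C A t, ActsBy.one_iff.1 hp.1 Y C A t, inv_one,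
          mul_one]
      · rw [map_mul, map_mul, map_mul, map_inv, h3, hp.2.1, inv_one, mul_one]

theorem Stage.kerA_inf_K_le (S : Stage) (hpl : ∀ x : T, ∃ w ∈ S.AAF, PureLamp S.Q S.B S.om x w) :
    KerA S.Q ⊓ S.K ≤ S.AAF ⊔ S.N := by
  intro w hw
  obtain ⟨hw1, hw2⟩ := Subgroup.mem_inf.1 hw
  obtain ⟨w', h1, h2, h3, h4⟩ := S.exists_lampless_rep hpl w
  have hN : w' ∈ S.N := by
    refine ⟨⟨?_, h4⟩, ?_⟩
    · rw [ActsBy.one_iff]
      intro Y C A t
      rw [h2 Y C A t]
      exact ActsBy.one_iff.1 hw1 Y C A t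
    · rw [h3]
      exact hw2
  have : w = w' * (w'⁻¹ * w) := by group
  rw [this]
  exact Subgroup.mul_mem _ (Subgroup.mem_sup_right hN) (Subgroup.mem_sup_left h1)

theorem Stage.K_index_ne_zero (S : Stage) : S.K.index ≠ 0 := by
  rw [Stage.K, Subgroup.index_ker]
  have : Finite (Perm S.Om) := inferInstance
  exact Nat.card_pos.ne'

instance (S : Stage) : S.K.Normal := by
  unfold Stage.K
  infer_instance

theorem Stage.AAF_sup_index (S : Stage) (ha : S.Q.A.a ∈ alternatingGroup S.X) :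
    (S.AAF ⊔ (KerA S.Q ⊓ S.K)).index ≠ 0 := by
  have hnone : letF none ∈ S.AAF ⊔ KerA S.Q := by
    obtain ⟨k, hk⟩ := S.good _ ha
    have h1 : letF none * k⁻¹ ∈ KerA S.Q := by
      have h2 := (Semi.a (Q := S.Q) (B := S.B) (om := S.om)).1.mul hk.1.1.inv
      rw [mul_inv_cancel] at h2
      exact h2
    have h3 : k ∈ S.AAF := S.AA_le_AAF ⟨_, ha, hk⟩
    have : (letF none : F) = (letF none * k⁻¹) * k := by group
    rw [this]
    exact Subgroup.mul_mem _ (Subgroup.mem_sup_right h1) (Subgroup.mem_sup_left h3)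
  have hsurj : Function.Surjective
      (fun v : D => (QuotientGroup.mk (letF (some v)) : F ⧸ (S.AAF ⊔ KerA S.Q))) := by
    intro q
    obtain ⟨w, rfl⟩ := QuotientGroup.mk_surjective q
    induction w using F_induction with
    | h1 =>
      refine ⟨1, ?_⟩
      have h1 : (letF (some 1) : F) = 1 := map_one (Monoid.Coprod.inr : D →* F)
      show ((letF (some 1) : F) : F ⧸ (S.AAF ⊔ KerA S.Q)) = _
      rw [h1]
    | h2 s w ih =>
      obtain ⟨v, hv⟩ := ih
      cases s with
      | none =>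
        refine ⟨v, ?_⟩
        have h1 : ((letF none : F) : F ⧸ (S.AAF ⊔ KerA S.Q)) = 1 :=
          (QuotientGroup.eq_one_iff _).2 hnone
        rw [QuotientGroup.mk_mul, h1, one_mul]
        exact hv
      | some u =>
        refine ⟨u * v, ?_⟩
        have h1 : (letF (some (u * v)) : F) = letF (some u) * letF (some v) :=
          map_mul (Monoid.Coprod.inr : D →* F) u v
        show ((letF (some (u * v)) : F) : F ⧸ (S.AAF ⊔ KerA S.Q)) = _
        rw [h1, QuotientGroup.mk_mul, QuotientGroup.mk_mul]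
        exact congrArg _ hv
  have hW : (S.AAF ⊔ KerA S.Q).index ≠ 0 := by
    have : Finite (F ⧸ (S.AAF ⊔ KerA S.Q)) := Finite.of_surjective _ hsurj
    exact Subgroup.index_ne_zero_of_finite
  have hM : (S.AAF ⊔ (KerA S.Q ⊓ S.K)).relIndex (S.AAF ⊔ KerA S.Q) ≠ 0 := by
    have e : S.AAF ⊔ KerA S.Q = KerA S.Q ⊔ (S.AAF ⊔ (KerA S.Q ⊓ S.K)) := by
      apply le_antisymm
      · exact sup_le (le_sup_of_le_right le_sup_left) le_sup_left
      · exact sup_le le_sup_right (sup_le le_sup_left (inf_le_left.trans le_sup_right))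
    rw [e, Subgroup.relIndex_sup_right]
    have h1 : (S.AAF ⊔ (KerA S.Q ⊓ S.K)).relIndex (KerA S.Q) ∣
        (KerA S.Q ⊓ S.K).relIndex (KerA S.Q) := Subgroup.relIndex_dvd_of_le_left _ le_sup_right
    have h2 : (KerA S.Q ⊓ S.K).relIndex (KerA S.Q) ≠ 0 := by
      rw [Subgroup.inf_relIndex_left]
      exact fun h => S.K_index_ne_zero (Subgroup.index_eq_zero_of_relIndex_eq_zero h)
    exact fun h => h2 (by rw [h] at h1; exact Nat.eq_zero_of_zero_dvd h1)
  have hle : S.AAF ⊔ (KerA S.Q ⊓ S.K) ≤ S.AAF ⊔ KerA S.Q :=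
    sup_le le_sup_left (inf_le_left.trans le_sup_right)
  rw [← Subgroup.relIndex_mul_index hle]
  exact mul_ne_zero hM hW

end Pool.Agent.HJI
end

section

/-!
# HJ-4 LambdaB
-/

set_option autoImplicit false

namespace Pool.Agent.HJI

open Equiv

variable {L X Y Z Om P P' C C0 : Type} [Group L]

/-- Elements acting trivially on all A-sets, without lamps off the fibre over the lamp point. -/
private def ZG (S : Stage) : Set F :=
  {k | ActsBy S.Q k 1 ∧
    ∀ (Y C : Type) (A : FS D Y) (t : Atlas (MonoidHom.id D) S.Q A C) (c0 : C) (o : S.Om) (y : Y),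
      y ≠ t.e (c0, S.Q.port 2) → (S.B.prod A).lam (S.om, t.e (c0, S.Q.port 2)) k (o, y) = 1}

private theorem ZG_one (S : Stage) : (1 : F) ∈ ZG S :=
  ⟨ActsBy.one _, fun _ _ _ _ _ _ _ _ => FS.lam_one _ _ _⟩

private theorem ActsBy.hom_eq_one {Q : Piece X P} {w : F} (h : ActsBy Q w 1) {A : FS D Y}
    (t : Atlas (MonoidHom.id D) Q A C) : A.hom w = 1 :=
  (ActsBy.one_iff.1 h) Y C A ⟨t⟩

private theorem ZG_mul (S : Stage) {k l : F} (hk : k ∈ ZG S) (hl : l ∈ ZG S) : k * l ∈ ZG S := by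
  refine ⟨by simpa using hk.1.mul hl.1, ?_⟩
  intro Y C A t c0 o y hy
  rw [FS.lam_mul, hl.2 Y C A t c0 o y hy, mul_one, FS.prod_hom]
  apply hk.2 Y C A t c0
  rw [ActsBy.hom_eq_one hl.1 t]
  exact hy

private theorem ZG_conj (S : Stage) {k : F} (hk : k ∈ ZG S) (s : D) :
    letF (some s) * k * (letF (some s))⁻¹ ∈ ZG S := by
  refine ⟨hk.1.conj_one _, ?_⟩
  intro Y C A t c0 o y hy
  by_cases hj : (S.B.prod A).Fixed (S.om, t.e (c0, S.Q.port 2))
  · have hA : A.Fixed (t.e (c0, S.Q.port 2)) := (FS.prod_fixed.1 hj).2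
    have hinv : ∀ u : Y, u ≠ t.e (c0, S.Q.port 2) →
        A.hom (letF (some s))⁻¹ u ≠ t.e (c0, S.Q.port 2) := by
      intro u hu h
      apply hu
      rw [map_inv, FS.hom_letF, FS.step, Perm.inv_eq_iff_eq] at h
      rw [h]
      exact hA s
    have hne : ∀ (o' : S.Om) (u : Y), u ≠ t.e (c0, S.Q.port 2) →
        (S.B.prod A).lam (S.om, t.e (c0, S.Q.port 2)) (letF (some s)) (o', u) = 1 := by
      intro o' u hu
      rw [FS.lam_d _ hj, if_neg]
      intro h
      exact hu (congrArg Prod.snd h)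
    have h1 := hinv y hy
    have hsp : (S.B.prod A).hom (letF (some s))⁻¹ (o, y) =
        (S.B.hom (letF (some s))⁻¹ o, A.hom (letF (some s))⁻¹ y) := FS.prod_hom _ _ _ _ _
    rw [FS.lam_mul, FS.lam_mul, FS.lam_inv, hsp, hne _ _ h1, hk.2 Y C A t c0 _ _ h1,
      inv_one, mul_one, mul_one, FS.prod_hom, ActsBy.hom_eq_one hk.1 t]
    exact hne _ _ h1
  · exact FS.lam_not_fixed _ hj _ _

theorem Stage.exists_translations (S : Stage) (ha : S.Q.A.a ∈ alternatingGroup S.X) :
    ∃ k : Fin 2 → F,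
      (∀ i, ActsBy S.Q (k i) 1) ∧
      (∀ i (Y C : Type) (A : FS D Y) (t : Atlas (MonoidHom.id D) S.Q A C) (c0 : C) (o : S.Om) (y : Y),
        y ≠ t.e (c0, S.Q.port 2) → (S.B.prod A).lam (S.om, t.e (c0, S.Q.port 2)) (k i) (o, y) = 1) ∧
      S.B.hom (k 0) S.om ≠ S.om ∧ S.B.hom (k 1) S.om ≠ S.om ∧
      S.B.hom (k 0) S.om ≠ S.B.hom (k 1) S.om := by
  classical
  obtain ⟨kap, hkap⟩ := S.good _ ha
  have hz : letF none * kap⁻¹ ∈ ZG S := by
    have h1 : Semi S.Q S.B S.om (S.Q.A.a * S.Q.A.a⁻¹) (letF none * kap⁻¹) :=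
      Semi.a.mul hkap.1.inv
    rw [mul_inv_cancel] at h1
    exact ⟨h1.1, fun Y C A t c0 o y _ => h1.2 Y C A t c0 (o, y)⟩
  have hzB : S.B.hom (letF none * kap⁻¹) = S.B.a := by
    rw [map_mul, map_inv, hkap.2, inv_one, mul_one, FS.hom_letF]
    rfl
  have hall : ∀ o : S.Om, ∃ k ∈ ZG S, S.B.hom k S.om = o := by
    intro o
    apply FS.Trans.eq_univ S.trO (S := {o | ∃ k ∈ ZG S, S.B.hom k S.om = o}) _ _ S.om
      ⟨1, ZG_one S, by simp⟩
    · rintro x ⟨k, hk, rfl⟩
      exact ⟨_, ZG_mul S hz hk, by rw [map_mul, hzB, Perm.mul_apply]⟩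
    · rintro s x ⟨k, hk, rfl⟩
      refine ⟨_, ZG_conj S hk s, ?_⟩
      rw [map_mul, map_mul, map_inv, FS.hom_letF, FS.step, Perm.mul_apply, Perm.mul_apply]
      congr 2
      rw [Perm.inv_eq_iff_eq]
      exact (S.om_fix s).symm
  have : Fintype S.Om := Fintype.ofFinite _
  have hc : 3 ≤ Fintype.card S.Om := by
    rw [← Nat.card_eq_fintype_card]
    exact S.cardO
  have h2 : 1 < (Finset.univ.erase S.om).card := by
    rw [Finset.card_erase_of_mem (Finset.mem_univ _), Finset.card_univ]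
    omega
  obtain ⟨o1, h1, o2, h2, h12⟩ := Finset.one_lt_card.1 h2
  rw [Finset.mem_erase] at h1 h2
  obtain ⟨k1, hk1, e1⟩ := hall o1
  obtain ⟨k2, hk2, e2⟩ := hall o2
  refine ⟨![k1, k2], ?_, ?_, ?_, ?_, ?_⟩
  · intro i
    fin_cases i
    · exact hk1.1
    · exact hk2.1
  · intro i
    fin_cases i
    · exact hk1.2
    · exact hk2.2
  · show S.B.hom k1 S.om ≠ S.om
    rw [e1]; exact h1.1
  · show S.B.hom k2 S.om ≠ S.om
    rw [e2]; exact h2.1
  · show S.B.hom k1 S.om ≠ S.B.hom k2 S.om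
    rw [e1, e2]; exact h12

end Pool.Agent.HJI
end

section

/-!
# HJ-11 Pot
-/

set_option autoImplicit false

namespace Pool.Agent.HJI

open Equiv

variable {L X Y Z Om P P' C C0 : Type} [Group L]

theorem pot_a (Q : Piece X (Fin 4)) (k : ℕ) (y : XT (Fin 2) X k) :
    pot k ((theta Q k).A.a y) = pot k y := by
  induction k with
  | zero => rfl
  | succ k ih =>
    obtain ⟨c, y⟩ := y
    rcases c with _ | ⟨i, m⟩
    · exact ih y
    · rfl

theorem pot_none (k : ℕ) (y : XT (Fin 2) X k) : pot (X := X) (k + 1) (none, y) = pot k y := rfl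

theorem pot_some (k : ℕ) (i : Fin 2) (m : Fin 3) (y : XT (Fin 2) X k) :
    pot (X := X) (k + 1) (some (i, m), y) = if i = 0 then -((k : ℤ) + 1) else (k : ℤ) + 1 := rfl

theorem pot_port_zero (Q : Piece X (Fin 4)) (k : ℕ) : pot k ((theta Q k).port 0) = -k := by
  cases k with
  | zero => rfl
  | succ k =>
    show pot (X := X) (k + 1) (some ((0 : Fin 2), (2 : Fin 3)), (theta Q k).port 1) = _
    rw [pot_some, if_pos rfl]
    push_cast
    ring
theorem pot_port_one (Q : Piece X (Fin 4)) (k : ℕ) : pot k ((theta Q k).port 1) = k := by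
  cases k with
  | zero => rfl
  | succ k =>
    show pot (X := X) (k + 1) (some ((1 : Fin 2), (2 : Fin 3)), (theta Q k).port 1) = _
    rw [pot_some, if_neg (by decide)]
    push_cast
    ring

theorem pot_port (Q : Piece X (Fin 4)) (k : ℕ) (i : Fin 2) :
    pot k ((theta Q k).port i) = if i = 0 then -(k : ℤ) else k := by
  fin_cases i
  · exact pot_port_zero Q k
  · exact pot_port_one Q k

theorem pot_pr (Q : Piece X (Fin 4)) (k : ℕ) (z : CE (Fin 2) × Fin 2) :
    |pot (X := X) (k + 1) ((prE 0 1 z).1, (theta Q k).port (prE 0 1 z).2) -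
      pot (X := X) (k + 1) (z.1, (theta Q k).port z.2)| ≤ 1 := by
  obtain ⟨c, j⟩ := z
  rcases c with _ | ⟨i, m⟩
  · show |pot (X := X) (k + 1) (some (j, 0), (theta Q k).port 0) -
      pot (X := X) (k + 1) (none, (theta Q k).port j)| ≤ 1
    rw [pot_some, pot_none, pot_port]
    split_ifs
    · rw [abs_le]; constructor <;> linarith
    · rw [abs_le]; constructor <;> linarith
  · by_cases h1 : j = 0
    · subst h1
      by_cases h2 : m = 0
      · subst h2
        have hpr : prE (0 : Fin 2) 1 (some (i, 0), 0) = (none, i) := by simp [prE]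
        rw [hpr]
        show |pot (X := X) (k + 1) (none, (theta Q k).port i) -
          pot (X := X) (k + 1) (some (i, 0), (theta Q k).port 0)| ≤ 1
        rw [pot_some, pot_none, pot_port]
        split_ifs
        · rw [abs_le]; constructor <;> linarith
        · rw [abs_le]; constructor <;> linarith
      · have hpr : prE (0 : Fin 2) 1 (some (i, m), 0) = (some (i, m - 1), 1) := by simp [prE, h2]
        rw [hpr]
        show |pot (X := X) (k + 1) (some (i, m - 1), (theta Q k).port 1) -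
          pot (X := X) (k + 1) (some (i, m), (theta Q k).port 0)| ≤ 1
        rw [pot_some, pot_some]
        simp
    · by_cases h2 : j = 1 ∧ m ≠ 2
      · have hpr : prE (0 : Fin 2) 1 (some (i, m), j) = (some (i, m + 1), 0) := by
          simp [prE, h2]
        rw [hpr]
        show |pot (X := X) (k + 1) (some (i, m + 1), (theta Q k).port 0) -
          pot (X := X) (k + 1) (some (i, m), (theta Q k).port j)| ≤ 1
        rw [pot_some, pot_some]
        simp
      · have hpr : prE (0 : Fin 2) 1 (some (i, m), j) = (some (i, m), j) := by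
          simp only [prE, if_neg h1, if_neg h2]
        rw [hpr]
        simp

theorem pot_d (Q : Piece X (Fin 4)) (k : ℕ) (v : D) (y : XT (Fin 2) X k) :
    |pot k ((theta Q k).A.d v y) - pot k y| ≤ 1 := by
  induction k with
  | zero =>
    show |(0 : ℤ) - 0| ≤ 1
    simp
  | succ k ih =>
    obtain ⟨c, y⟩ := y
    have hg : (theta Q (k + 1)).A.d v (c, y) =
        (glue (MonoidHom.id D) (theta Q k) (gamE (0 : Fin 2) 1 (by decide))).d v (c, y) := rfl
    rw [hg]
    by_cases hy : y ∈ Set.range (theta Q k).port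
    · obtain ⟨j, rfl⟩ := hy
      rw [glue_port]
      cases hj : jtE (0 : Fin 2) 1 (c, j) with
      | none =>
        rw [gamE, edgeHom_none _ _ _ _ _ _ hj]
        simp
      | some m =>
        rw [gamE, edgeHom_some _ _ _ _ _ _ _ hj]
        split_ifs
        · simp
        · exact pot_pr Q k (c, j)
    · rw [glue_nonport _ _ _ _ _ _ hy]
      rcases c with _ | ⟨i, m⟩
      · exact ih y
      · rw [pot_some, pot_some]
        simp

theorem pot_cen (k : ℕ) (x : X) : pot k (cen (Fin 2) k x) = 0 := by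
  induction k with
  | zero => rfl
  | succ k ih => exact ih

end Pool.Agent.HJI
end

section

/-!
# HJ-23 Up
-/

set_option autoImplicit false

namespace Pool.Agent.HJI

open Equiv

variable {L X Y Z Om P P' C C0 : Type} [Group L]

/-- The ports of the copies as a piece. -/
private noncomputable def upP [DecidableEq P] (o' o : P) (h : o' ≠ o) : Piece (CE P × P) P where
  A :=
    { a := 1
      ha := fun _ => rfl
      d := gamE o' o h }
  port := portE o
  fix := gamE_portE h

private theorem up_gamUp [DecidableEq P] (p : L →* D) (o' o : P) (h : o' ≠ o)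
    (γ : L →* Perm (C × P)) (v : L) (c : C) (ce : CE P) (i : P) :
    gamUp p o' o h γ v ((c, ce), i) = (Equiv.prodAssoc C (CE P) P).symm
      ((glue p (upP o' o h) γ).d v (c, (ce, i))) := rfl

private theorem up_gamUp_port [DecidableEq P] (p : L →* D) (o' o : P) (h : o' ≠ o)
    (γ : L →* Perm (C × P)) (v : L) (c : C) (k : P) :
    gamUp p o' o h γ v ((c, some (k, 2)), o) =
      (((γ v (c, k)).1, some ((γ v (c, k)).2, 2)), o) := by
  rw [up_gamUp]
  have h1 := glue_port p (upP o' o h) γ v c k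
  have h2 : (upP o' o h).port k = (some (k, 2), o) := rfl
  rw [h2] at h1
  rw [h1]
  rfl

private theorem up_gamUp_other [DecidableEq P] (p : L →* D) (o' o : P) (h : o' ≠ o)
    (γ : L →* Perm (C × P)) (v : L) (c : C) (ce : CE P) (i : P)
    (hn : (ce, i) ∉ Set.range (portE o)) :
    gamUp p o' o h γ v ((c, ce), i) =
      ((c, (gamE o' o h (p v) (ce, i)).1), (gamE o' o h (p v) (ce, i)).2) := by
  rw [up_gamUp]
  have h1 := glue_nonport p (upP o' o h) γ v c (ce, i) hn
  rw [h1]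
  rfl

private theorem up_move (γ : L →* Perm (C × P)) (v : L) (y : P ↪ X) (A : Perm X) :
    eact γ v y * tw C A = tw C A * eact γ v (moveT A⁻¹ y) := by
  ext1 z
  obtain ⟨c, x⟩ := z
  rw [Perm.mul_apply, Perm.mul_apply, tw_apply]
  by_cases hx : x ∈ Set.range (moveT A⁻¹ y)
  · obtain ⟨i, rfl⟩ := hx
    rw [eact_token, tw_apply]
    have h1 : ∀ j, A (moveT A⁻¹ y j) = y j := by
      intro j
      show A (A⁻¹ (y j)) = y j
      rw [← Perm.mul_apply, mul_inv_cancel, Perm.one_apply]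
    rw [h1, h1, eact_token]
  · rw [eact_other _ _ _ _ _ hx, tw_apply, eact_other]
    rintro ⟨i, hi⟩
    apply hx
    refine ⟨i, ?_⟩
    show A⁻¹ (y i) = x
    rw [hi, ← Perm.mul_apply, inv_mul_cancel, Perm.one_apply]

theorem glue_ext_ev [DecidableEq P] (p : L →* D) (Q : Piece X P) (o' o : P) (h : o' ≠ o)
    (γ : L →* Perm (C × P)) (l : List (Option L)) (c : C) (ce : CE P) (x : X) :
    (glue p (Q.ext o' o h) γ).ev l (c, (ce, x)) =
      Equiv.prodAssoc C (CE P) X ((glue p Q (gamUp p o' o h γ)).ev l ((c, ce), x)) := by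
  symm
  refine intertwine (A := glue p Q (gamUp p o' o h γ)) (B := glue p (Q.ext o' o h) γ)
    (β := Equiv.prodAssoc C (CE P) X) ?_ ?_ l ((c, ce), x)
  · rintro ⟨⟨c, ce⟩, x⟩
    rfl
  · rintro v ⟨⟨c, ce⟩, x⟩
    show _ = (glue p (Q.ext o' o h) γ).d v (c, (ce, x))
    have hport : ∀ k, (Q.ext o' o h).port k = (some (k, 2), Q.port o) := fun k => rfl
    by_cases hx : x ∈ Set.range Q.port
    · obtain ⟨i, rfl⟩ := hx
      rw [glue_port]
      by_cases hn : (ce, i) ∈ Set.range (portE o)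
      · obtain ⟨k, hk⟩ := hn
        have hk' : ((some (k, 2) : CE P), o) = (ce, i) := hk
        rw [Prod.mk.injEq] at hk'
        obtain ⟨rfl, rfl⟩ := hk'
        have h1 := glue_port p (Q.ext o' o h) γ v c k
        rw [hport] at h1
        rw [up_gamUp_port, h1]
        rfl
      · have hn2 : (ce, Q.port i) ∉ Set.range (Q.ext o' o h).port := by
          rintro ⟨k, hk⟩
          rw [hport, Prod.mk.injEq] at hk
          exact hn ⟨k, Prod.ext hk.1 (Q.port.injective hk.2)⟩
        rw [up_gamUp_other p o' o h γ v c ce i hn, glue_nonport p (Q.ext o' o h) γ v c _ hn2]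
        have h1 : (Q.ext o' o h).A.d (p v) (ce, Q.port i) =
            ((gamE o' o h (p v) (ce, i)).1, Q.port (gamE o' o h (p v) (ce, i)).2) :=
          glue_port (MonoidHom.id D) Q (gamE o' o h) (p v) ce i
        rw [h1]
        rfl
    · have hn2 : (ce, x) ∉ Set.range (Q.ext o' o h).port := by
        rintro ⟨k, hk⟩
        rw [hport, Prod.mk.injEq] at hk
        exact hx ⟨o, hk.2⟩
      rw [glue_nonport _ _ _ _ _ _ hx, glue_nonport p (Q.ext o' o h) γ v c _ hn2]
      have h1 : (Q.ext o' o h).A.d (p v) (ce, x) = (ce, Q.A.d (p v) x) :=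
        glue_nonport (MonoidHom.id D) Q (gamE o' o h) (p v) ce x hx
      rw [h1]
      rfl

theorem eact_gamUp [DecidableEq P] (p : L →* D) (o' o : P) (h : o' ≠ o)
    (γ : L →* Perm (C × P)) (v : L) (y : P ↪ X) (z : (C × CE P) × X) :
    Equiv.prodAssoc C (CE P) X (eact (gamUp p o' o h γ) v y z) =
      (tw C (evIn p o' o h v y) * eact γ v (outT o y)) (Equiv.prodAssoc C (CE P) X z) := by
  obtain ⟨⟨c, ce⟩, x⟩ := z
  show _ = (tw C (evIn p o' o h v y) * eact γ v (outT o y)) (c, (ce, x))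
  rw [Perm.mul_apply]
  have hout : ∀ k, outT o y k = (some (k, 2), y o) := fun k => rfl
  by_cases hx : x ∈ Set.range y
  · obtain ⟨i, rfl⟩ := hx
    rw [eact_token]
    by_cases hn : (ce, i) ∈ Set.range (portE o)
    · obtain ⟨k, hk⟩ := hn
      have hk' : ((some (k, 2) : CE P), o) = (ce, i) := hk
      rw [Prod.mk.injEq] at hk'
      obtain ⟨rfl, rfl⟩ := hk'
      have h1 := eact_token γ v (outT o y) c k
      rw [hout] at h1
      rw [up_gamUp_port, h1, tw_apply, hout]
      have h2 : evIn p o' o h v y (some ((γ v (c, k)).2, 2), y o) =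
          (some ((γ v (c, k)).2, 2), y o) := by
        have h3 := eact_token ((gamE o' o h).comp p) v y (some ((γ v (c, k)).2, 2)) o
        have h4 := gamE_portE h (p v) (γ v (c, k)).2
        have h5 : ((gamE o' o h).comp p) v (some ((γ v (c, k)).2, 2), o) =
            (some ((γ v (c, k)).2, 2), o) := h4
        rw [h5] at h3
        exact h3
      rw [h2]
      rfl
    · have hn2 : (ce, y i) ∉ Set.range (outT o y) := by
        rintro ⟨k, hk⟩
        rw [hout, Prod.mk.injEq] at hk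
        exact hn ⟨k, Prod.ext hk.1 (y.injective hk.2)⟩
      rw [up_gamUp_other p o' o h γ v c ce i hn, eact_other γ v (outT o y) c _ hn2, tw_apply]
      have h1 : evIn p o' o h v y (ce, y i) =
          ((gamE o' o h (p v) (ce, i)).1, y (gamE o' o h (p v) (ce, i)).2) :=
        eact_token ((gamE o' o h).comp p) v y ce i
      rw [h1]
      rfl
  · have hn2 : (ce, x) ∉ Set.range (outT o y) := by
      rintro ⟨k, hk⟩
      rw [hout, Prod.mk.injEq] at hk
      exact hx ⟨o, hk.2⟩
    rw [eact_other _ _ _ _ _ hx, eact_other γ v (outT o y) c _ hn2, tw_apply]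
    have h1 : evIn p o' o h v y (ce, x) = (ce, x) :=
      eact_other ((gamE o' o h).comp p) v y ce x hx
    rw [h1]
    rfl

theorem evAct_gamUp [DecidableEq P] (p : L →* D) (o' o : P) (h : o' ≠ o)
    (γ : L →* Perm (C × P)) (M : List (L × (P ↪ X))) (z : (C × CE P) × X) :
    Equiv.prodAssoc C (CE P) X (evAct (gamUp p o' o h γ) M z) =
      (tw C (red p o' o h M).1 * evAct γ (red p o' o h M).2) (Equiv.prodAssoc C (CE P) X z) := by
  induction M with
  | nil =>
    show Equiv.prodAssoc C (CE P) X ((1 : Perm ((C × CE P) × X)) z) =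
      (tw C (1 : Perm (CE P × X)) * 1) (Equiv.prodAssoc C (CE P) X z)
    rw [map_one, one_mul, Perm.one_apply, Perm.one_apply]
  | cons e M ih =>
    show Equiv.prodAssoc C (CE P) X ((eact (gamUp p o' o h γ) e.1 e.2 *
        evAct (gamUp p o' o h γ) M) z) =
      (tw C (evIn p o' o h e.1 e.2 * (red p o' o h M).1) *
        evAct γ (ins e.1 (moveT (red p o' o h M).1⁻¹ (outT o e.2)) (red p o' o h M).2))
        (Equiv.prodAssoc C (CE P) X z)
    rw [evAct_ins, Perm.mul_apply, eact_gamUp, ih, ← Perm.mul_apply]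
    congr 1
    rw [map_mul]
    have h1 := up_move γ e.1 (outT o e.2) (red p o' o h M).1
    rw [mul_assoc, ← mul_assoc (eact γ e.1 (outT o e.2)), h1]
    simp only [mul_assoc]

end Pool.Agent.HJI
end

section

/-!
# HJ-27 Upper
-/

set_option autoImplicit false

namespace Pool.Agent.HJI

open Equiv

variable {L X Y Z Om P P' C C0 : Type} [Group L]

theorem lab_length (B : FS D Om) (om : Om) (l : List (Option D)) :
    (lab B om l).length = l.length := by
  induction l with
  | nil => rfl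
  | cons o l ih =>
    cases o with
    | none => simp [lab, ih]
    | some v => simp [lab, ih]

theorem XT_card (P X : Type) [Finite P] [Finite X] (k : ℕ) :
    Nat.card (XT P X k) = (1 + 3 * Nat.card P) ^ k * Nat.card X := by
  induction k with
  | zero => simp [XT]
  | succ k ih =>
    have h1 : Nat.card (XT P X (k + 1)) = Nat.card (CE P) * Nat.card (XT P X k) := by
      show Nat.card (CE P × XT P X k) = _
      rw [Nat.card_prod]
    have h3 : Nat.card (Fin 3) = 3 := by
      rw [Nat.card_eq_fintype_card, Fintype.card_fin]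
    have h2 : Nat.card (CE P) = 1 + 3 * Nat.card P := by
      show Nat.card (Option (P × Fin 3)) = _
      rw [Finite.card_option, Nat.card_prod, h3]
      ring
    rw [h1, h2, ih]
    ring

/-- Number of the data. -/
theorem upper_count {G A Dat E : Type} [Finite Dat] [Finite E] (S : Set G) (m : ℕ) (f : A → G)
    (W : Set A) (hf : ∀ g ∈ S, ∃ a ∈ W, f a = g)
    (u : A → Dat) (M : A → List E) (hM : ∀ a ∈ W, (M a).length ≤ m)
    (hinj : ∀ a ∈ W, ∀ a' ∈ W, u a = u a' → M a = M a' → f a = f a') :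
    S.ncard ≤ Nat.card Dat * (Nat.card E + 1) ^ m := by
  classical
  choose r hr1 hr2 using hf
  let φ : S → Dat × (Fin m → Option E) := fun g =>
    (u (r g.1 g.2), fun i => (M (r g.1 g.2))[(i : ℕ)]?)
  have hφ : Function.Injective φ := by
    intro g g' h
    have h1 : u (r g.1 g.2) = u (r g'.1 g'.2) := congrArg Prod.fst h
    have h2 : ∀ i : Fin m, (M (r g.1 g.2))[(i : ℕ)]? = (M (r g'.1 g'.2))[(i : ℕ)]? :=
      fun i => congrFun (congrArg Prod.snd h) i
    have h3 : M (r g.1 g.2) = M (r g'.1 g'.2) := by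
      apply List.ext_getElem?
      intro i
      by_cases hi : i < m
      · exact h2 ⟨i, hi⟩
      · have l1 := hM _ (hr1 g.1 g.2)
        have l2 := hM _ (hr1 g'.1 g'.2)
        rw [List.getElem?_eq_none (by omega), List.getElem?_eq_none (by omega)]
    have h4 := hinj _ (hr1 g.1 g.2) _ (hr1 g'.1 g'.2) h1 h3
    rw [hr2, hr2] at h4
    exact Subtype.ext h4
  have h5 := Nat.card_le_card_of_injective φ hφ
  rw [Nat.card_coe_set_eq, Nat.card_prod, Nat.card_fun, Finite.card_option,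
    Nat.card_eq_fintype_card (α := Fin m), Fintype.card_fin] at h5
  exact h5

/-- The exponential estimate. -/
theorem upper_real (c : ℝ) (hc : 1 < c) (K b : ℝ) (hK : 1 ≤ K) (hb : 1 ≤ b) :
    ∃ n0 : ℕ, ∀ n ≥ n0, (2 / 3 : ℝ) ^ n * Real.log (K * b ^ n) ≤ Real.log c / 2 := by
  have hlc : 0 < Real.log c := Real.log_pos hc
  have h1 : Filter.Tendsto (fun n : ℕ => (n : ℝ) * (2 / 3 : ℝ) ^ n) Filter.atTop (nhds 0) :=
    tendsto_self_mul_const_pow_of_lt_one (by norm_num) (by norm_num)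
  have h2 : Filter.Tendsto (fun n : ℕ => (2 / 3 : ℝ) ^ n) Filter.atTop (nhds 0) :=
    tendsto_pow_atTop_nhds_zero_of_lt_one (by norm_num) (by norm_num)
  have h3 : Filter.Tendsto (fun n : ℕ => (2 / 3 : ℝ) ^ n * Real.log K +
      ((n : ℝ) * (2 / 3 : ℝ) ^ n) * Real.log b) Filter.atTop (nhds (0 * Real.log K +
        0 * Real.log b)) := (h2.mul_const _).add (h1.mul_const _)
  rw [zero_mul, zero_mul, add_zero] at h3
  have h4 := h3.eventually_le_const (show (0 : ℝ) < Real.log c / 2 by linarith)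
  obtain ⟨n0, hn0⟩ := Filter.eventually_atTop.1 h4
  refine ⟨n0, fun n hn => ?_⟩
  have h5 := hn0 n hn
  rw [Real.log_mul (by positivity) (by positivity), Real.log_pow]
  calc (2 / 3 : ℝ) ^ n * (Real.log K + n * Real.log b)
      = (2 / 3 : ℝ) ^ n * Real.log K + ((n : ℝ) * (2 / 3 : ℝ) ^ n) * Real.log b := by ring
    _ ≤ _ := h5

theorem upper_growth [DecidableEq P] [Finite P] [Finite X] [Finite Om] (Q : Piece X P) (o' o : P)
    (h : o' ≠ o) (B : FS D Om) (om : Om) (c : ℝ) (hc : 1 < c)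
    (hrep : ∀ k : ℕ, ∃ c : ℕ, ∀ l : List (Option (D × (Om → T))),
      ∃ (π : Perm (XT P X k)) (M : List ((D × (Om → T)) × (P ↪ XT P X k))),
        3 ^ k * M.length ≤ 2 ^ k * l.length + c ∧
        ∀ (C : Type) (γ : (D × (Om → T)) →* Perm (C × P)),
          (glue (MonoidHom.fst D (Om → T)) (Q.extN o' o h k) γ).ev l = tw C π * evAct γ M) :
    ∃ n0 : ℕ, ∀ n ≥ n0, ∃ R0 : ℕ, ∀ R ≥ R0, ∀ N : Subgroup F,
      (∀ l l' : List (Option D), B.ev l = B.ev l' →
        (∀ (C : Type) (γ : (D × (Om → T)) →* Perm (C × P)),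
          (glue (MonoidHom.fst D (Om → T)) (Q.extN o' o h n) γ).ev (lab B om l) =
            (glue (MonoidHom.fst D (Om → T)) (Q.extN o' o h n) γ).ev (lab B om l')) →
        (wd l)⁻¹ * wd l' ∈ N) →
      (((fun w : F => (w : F ⧸ N)) '' Ball R).ncard : ℝ) ≤ c ^ R := by
  classical
  have hlc : 0 < Real.log c := Real.log_pos hc
  -- size of the set of events
  set a : ℕ := 1 + 3 * Nat.card P with ha
  set K : ℕ := Nat.card (D × (Om → T)) * Nat.card X ^ Nat.card P + 1 with hK
  have hE : ∀ n, Nat.card ((D × (Om → T)) × (P ↪ XT P X n)) + 1 ≤ K * (a ^ Nat.card P) ^ n := by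
    intro n
    have h1 : Nat.card (P ↪ XT P X n) ≤ Nat.card (P → XT P X n) :=
      Nat.card_le_card_of_injective (fun f : P ↪ XT P X n => (f : P → XT P X n))
        (fun f g hfg => DFunLike.coe_injective hfg)
    rw [Nat.card_fun, XT_card] at h1
    rw [Nat.card_prod]
    have h2 : ((1 + 3 * Nat.card P) ^ n * Nat.card X) ^ Nat.card P =
        (a ^ Nat.card P) ^ n * Nat.card X ^ Nat.card P := by
      rw [mul_pow, ← pow_mul, ← pow_mul, mul_comm n]
    rw [h2] at h1
    have h3 : 1 ≤ (a ^ Nat.card P) ^ n := Nat.one_le_pow _ _ (Nat.pow_pos (by omega))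
    calc Nat.card (D × (Om → T)) * Nat.card (P ↪ XT P X n) + 1
        ≤ Nat.card (D × (Om → T)) * ((a ^ Nat.card P) ^ n * Nat.card X ^ Nat.card P) +
            (a ^ Nat.card P) ^ n := Nat.add_le_add (Nat.mul_le_mul_left _ h1) h3
      _ = K * (a ^ Nat.card P) ^ n := by rw [hK]; ring
  obtain ⟨n0, hn0⟩ := upper_real c hc (K : ℝ) ((a ^ Nat.card P : ℕ) : ℝ)
    (by rw [hK]; push_cast; have : (0 : ℝ) ≤ Nat.card (D × (Om → T)) * Nat.card X ^ Nat.card P := by
          positivity
        linarith)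
    (by exact_mod_cast Nat.one_le_pow _ _ (show 0 < a by omega))
  refine ⟨n0, fun n hn => ?_⟩
  obtain ⟨cn, hcn⟩ := hrep n
  choose π M hlen hact using hcn
  set Dn : ℝ := ((Nat.card (Perm Om × Perm (XT P X n)) : ℕ) : ℝ) with hDn
  set En : ℝ := ((Nat.card ((D × (Om → T)) × (P ↪ XT P X n)) + 1 : ℕ) : ℝ) with hEn
  have hDn1 : 1 ≤ Dn := by
    rw [hDn]
    exact_mod_cast Nat.card_pos
  have hEn1 : 1 ≤ En := by
    rw [hEn]
    exact_mod_cast Nat.le_add_left 1 _
  have hEnle : (2 / 3 : ℝ) ^ n * Real.log En ≤ Real.log c / 2 := by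
    refine le_trans ?_ (hn0 n hn)
    apply mul_le_mul_of_nonneg_left _ (by positivity)
    apply Real.log_le_log (by linarith)
    rw [hEn]
    exact_mod_cast hE n
  set Cn : ℝ := Real.log Dn + Real.log En * (cn / 3 ^ n) with hCn
  obtain ⟨R0, hR0⟩ := exists_nat_ge (Cn / (Real.log c / 2))
  refine ⟨R0, fun R hR N hN => ?_⟩
  set m : ℕ := (2 ^ n * R + cn) / 3 ^ n with hm
  have hcount := upper_count (G := F ⧸ N) (A := List (Option D))
    (Dat := Perm Om × Perm (XT P X n)) (E := (D × (Om → T)) × (P ↪ XT P X n))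
    ((fun w : F => (w : F ⧸ N)) '' Ball R) m (fun l => ((wd l : F) : F ⧸ N))
    {l | l.length ≤ R}
    (by
      rintro g ⟨w, ⟨l, hl, rfl⟩, rfl⟩
      exact ⟨l, hl, rfl⟩)
    (fun l => (B.ev l, π (lab B om l))) (fun l => M (lab B om l))
    (by
      intro l hl
      have h1 := hlen (lab B om l)
      rw [lab_length] at h1
      rw [hm, Nat.le_div_iff_mul_le (by positivity), mul_comm]
      refine h1.trans (Nat.add_le_add_right (Nat.mul_le_mul_left _ hl) _))
    (by
      intro l _ l' _ h1 h2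
      have h3 : B.ev l = B.ev l' := congrArg Prod.fst h1
      have h4 : π (lab B om l) = π (lab B om l') := congrArg Prod.snd h1
      apply QuotientGroup.eq.2
      apply hN l l' h3
      intro C γ
      rw [hact, hact, h4, h2])
  have hcount' : (((fun w : F => (w : F ⧸ N)) '' Ball R).ncard : ℝ) ≤ Dn * En ^ m := by
    rw [hDn, hEn]
    exact_mod_cast hcount
  refine hcount'.trans ?_
  rw [← Real.log_le_log_iff (by positivity) (by positivity), Real.log_mul (by positivity)
    (by positivity), Real.log_pow, Real.log_pow]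
  have hm1 : (m : ℝ) ≤ (2 / 3 : ℝ) ^ n * R + cn / 3 ^ n := by
    have h1 : (m : ℝ) ≤ ((2 ^ n * R + cn : ℕ) : ℝ) / ((3 ^ n : ℕ) : ℝ) := Nat.cast_div_le
    refine h1.trans (le_of_eq ?_)
    push_cast
    rw [div_pow]
    ring
  have hlE : 0 ≤ Real.log En := Real.log_nonneg hEn1
  have hR1 : Cn ≤ Real.log c / 2 * R := by
    have h1 : Cn / (Real.log c / 2) ≤ R := hR0.trans (by exact_mod_cast hR)
    rw [div_le_iff₀ (by linarith)] at h1
    linarith
  calc Real.log Dn + m * Real.log En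
      ≤ Real.log Dn + ((2 / 3 : ℝ) ^ n * R + cn / 3 ^ n) * Real.log En := by
        have := mul_le_mul_of_nonneg_right hm1 hlE
        linarith
    _ = Cn + ((2 / 3 : ℝ) ^ n * Real.log En) * R := by rw [hCn]; ring
    _ ≤ Real.log c / 2 * R + Real.log c / 2 * R := by
        have h1 : (0 : ℝ) ≤ R := Nat.cast_nonneg _
        have := mul_le_mul_of_nonneg_right hEnle h1
        linarith
    _ = R * Real.log c := by ring

end Pool.Agent.HJI
end

section

/-!
# HJ-2 AEven
-/

set_option autoImplicit false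

namespace Pool.Agent.HJI

open Equiv

variable {L X Y Z Om P P' C C0 : Type} [Group L]

theorem Stage.a_mem (S : Stage) : S.Q.A.a ∈ alternatingGroup S.X := by
  classical
  rw [Equiv.Perm.mem_alternatingGroup]
  have hsq : S.Q.A.a ^ 2 = 1 := by
    ext1 x
    rw [pow_two, Equiv.Perm.mul_apply, S.Q.A.ha]
    rfl
  rw [Equiv.Perm.sign_of_pow_two_eq_one hsq]
  have hcard : Fintype.card S.X - Fintype.card (Function.fixedPoints S.Q.A.a) =
      Nat.card {x : S.X // S.Q.A.a x ≠ x} := by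
    rw [Nat.card_eq_fintype_card]
    have h1 := Fintype.card_subtype_compl (fun x : S.X => S.Q.A.a x = x)
    have h2 : Fintype.card (Function.fixedPoints S.Q.A.a) =
        Fintype.card {x : S.X // S.Q.A.a x = x} :=
      Fintype.card_congr (Equiv.refl _)
    rw [h2]
    exact h1.symm
  rw [hcard]
  obtain ⟨k, hk⟩ := S.even
  rw [hk, show 4 * k / 2 = 2 * k by omega, pow_mul]
  simp

end Pool.Agent.HJI
end
end
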