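import Pool.Agent.Lib.MP_377081_al.Step0
import Pool.Agent.Lib.MP_377081_al.AEven

section

/-!
# HJ-3 LambdaA
-/

set_option autoImplicit false

namespace Pool.Agent.HJI

open Equiv

variable {L X Y Z Om P P' C C0 : Type} [Group L]

/-! ### The involution exchanging ports and tokens -/

/-- The ports and the tokens. -/
private def ptEmb (Q : Piece X (Fin 4)) (y : Fin 4 ↪ X) (hy : ∀ i, y i ∉ Set.range Q.port) :
    Fin 4 ⊕ Fin 4 ↪ X where
  toFun := Sum.elim Q.port y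
  inj' := by
    rintro (i | i) (j | j) h
    · simp only [Sum.elim_inl] at h
      rw [Q.port.injective h]
    · simp only [Sum.elim_inl, Sum.elim_inr] at h
      exact absurd ⟨i, h⟩ (hy j)
    · simp only [Sum.elim_inl, Sum.elim_inr] at h
      exact absurd ⟨j, h.symm⟩ (hy i)
    · simp only [Sum.elim_inr] at h
      rw [y.injective h]

private def sg : Perm (Fin 4 ⊕ Fin 4) :=
  swap (Sum.inl 0) (Sum.inr 0) * swap (Sum.inl 1) (Sum.inr 1) * swap (Sum.inl 2) (Sum.inr 2) *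
    swap (Sum.inl 3) (Sum.inr 3)

private theorem sg_inl (i : Fin 4) : sg (Sum.inl i) = Sum.inr i := by
  revert i
  decide

private theorem sg_inr (i : Fin 4) : sg (Sum.inr i) = Sum.inl i := by
  revert i
  decide

private theorem sg_sign : Perm.sign sg = 1 := by
  simp only [sg, Perm.sign_mul]
  rw [Perm.sign_swap (by simp), Perm.sign_swap (by simp), Perm.sign_swap (by simp),
    Perm.sign_swap (by simp)]
  simp

private theorem exists_exch [Fintype X] [DecidableEq X] (Q : Piece X (Fin 4)) (y : Fin 4 ↪ X)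
    (hy : ∀ i, y i ∉ Set.range Q.port) :
    ∃ φ ∈ alternatingGroup X, (∀ i, φ (Q.port i) = y i) ∧ (∀ i, φ (y i) = Q.port i) ∧
      ∀ x, x ∉ Set.range Q.port → x ∉ Set.range y → φ x = x := by
  refine ⟨sg.viaFintypeEmbedding (ptEmb Q y hy), ?_, ?_, ?_, ?_⟩
  · rw [Perm.mem_alternatingGroup, Perm.viaFintypeEmbedding_sign, sg_sign]
  · intro i
    have h := Perm.viaFintypeEmbedding_apply_image sg (ptEmb Q y hy) (Sum.inl i)
    rw [sg_inl] at h
    exact h
  · intro i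
    have h := Perm.viaFintypeEmbedding_apply_image sg (ptEmb Q y hy) (Sum.inr i)
    rw [sg_inr] at h
    exact h
  · intro x h1 h2
    apply Perm.viaFintypeEmbedding_apply_notMem_range
    rintro ⟨(i | i), hi⟩
    · exact h1 ⟨i, hi⟩
    · exact h2 ⟨i, hi⟩

/-! ### The elements `ν` -/

open Classical in
/-- Properties of the elements `ν t`. -/
private structure NuSpec (S : Stage) (y : Fin 4 ↪ S.X) (t : T) (n : F) : Prop where
  mem : n ∈ S.AAF
  hB : S.B.hom n = 1
  pt : ∀ (Y C : Type) (A : FS D Y) (e : Atlas (MonoidHom.id D) S.Q A C) (c : C) (i : Fin 4),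
    A.hom n (e.e (c, S.Q.port i)) = A.d (tD t) (e.e (c, S.Q.port i))
  tok : ∀ (Y C : Type) (A : FS D Y) (e : Atlas (MonoidHom.id D) S.Q A C) (c : C) (i : Fin 4),
    ∃ c' i', A.hom n (e.e (c, y i)) = e.e (c', y i') ∧
      A.d (tD t)⁻¹ (e.e (c, S.Q.port i)) = e.e (c', S.Q.port i')
  oth : ∀ (Y C : Type) (A : FS D Y) (e : Atlas (MonoidHom.id D) S.Q A C) (c : C) (x : S.X),
    x ∉ Set.range S.Q.port → x ∉ Set.range y → A.hom n (e.e (c, x)) = e.e (c, x)
  lam : ∀ (Y C : Type) (A : FS D Y) (e : Atlas (MonoidHom.id D) S.Q A C) (c0 : C),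
    A.Fixed (e.e (c0, S.Q.port 2)) → ∀ z,
      (S.B.prod A).lam (S.om, e.e (c0, S.Q.port 2)) n z =
        (if z = (S.om, e.e (c0, S.Q.port 2)) then t else 1) *
          (if z = (S.om, e.e (c0, y 2)) then t⁻¹ else 1)

private theorem exists_nu (S : Stage) (y : Fin 4 ↪ S.X)
    (hy : ∀ i, y i ∉ Set.range S.Q.port ∧ ∀ t : T, S.Q.A.d (tD t) (y i) = y i) (t : T) :
    ∃ n, NuSpec S y t n := by
  classical
  obtain ⟨φ, hφ, h1, h2, h3⟩ := exists_exch S.Q y (fun i => (hy i).1)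
  obtain ⟨w, hw⟩ := S.good φ hφ
  have hwA : ∀ {Y C : Type} {A : FS D Y} (e : Atlas (MonoidHom.id D) S.Q A C) (c : C) (x : S.X),
      A.hom w (e.e (c, x)) = e.e (c, φ x) := fun e c x => hw.1.1 _ _ _ e c x
  have hwI : ∀ {Y C : Type} {A : FS D Y} (e : Atlas (MonoidHom.id D) S.Q A C) (c : C) (x x' : S.X),
      φ x' = x → (A.hom w)⁻¹ (e.e (c, x)) = e.e (c, x') := by
    intro Y C A e c x x' h
    rw [Perm.inv_eq_iff_eq, hwA e, h]
  have hdI : ∀ {Y : Type} (A : FS D Y) (v : D) (u : Y), A.d v (A.d v⁻¹ u) = u := by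
    intro Y A v u
    rw [← Perm.mul_apply, ← map_mul, mul_inv_cancel, map_one, Perm.one_apply]
  have htI : ∀ u : T, (tD u)⁻¹ = tD u⁻¹ := fun u => rfl
  have hap : ∀ {Y : Type} (A : FS D Y) (u : Y),
      A.hom (letF (some (tD t)) * w * (letF (some (tD t)))⁻¹ * w⁻¹) u =
        A.d (tD t) (A.hom w (A.d (tD t)⁻¹ ((A.hom w)⁻¹ u))) := by
    intro Y A u
    rw [map_mul, map_mul, map_mul, map_inv, map_inv, FS.hom_letF, Perm.mul_apply, Perm.mul_apply,
      Perm.mul_apply, map_inv]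
    rfl
  have hB : S.B.hom (letF (some (tD t)) * w * (letF (some (tD t)))⁻¹ * w⁻¹) = 1 := by
    rw [map_mul, map_mul, map_mul, map_inv, map_inv, hw.2, mul_one, inv_one, mul_one,
      mul_inv_cancel]
  have hpt : ∀ (Y C : Type) (A : FS D Y) (e : Atlas (MonoidHom.id D) S.Q A C) (c : C) (i : Fin 4),
      A.hom (letF (some (tD t)) * w * (letF (some (tD t)))⁻¹ * w⁻¹) (e.e (c, S.Q.port i)) =
        A.d (tD t) (e.e (c, S.Q.port i)) := by
    intro Y C A e c i
    rw [hap, hwI e c _ _ (h2 i), e.hd _ _ _ (hy i).1]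
    have : S.Q.A.d ((MonoidHom.id D) (tD t)⁻¹) (y i) = y i := (hy i).2 t⁻¹
    rw [this, hwA e, h2]
  refine ⟨_, ?_, hB, hpt, ?_, ?_, ?_⟩
  · have hwm : w ∈ S.AAF := S.AA_le_AAF ⟨φ, hφ, hw⟩
    exact mul_mem ((inferInstance : S.AAF.Normal).conj_mem w hwm _) (inv_mem hwm)
  · intro Y C A e c i
    obtain ⟨c', i', h⟩ := e.port_eq (tD t)⁻¹ c i
    refine ⟨c', i', ?_, h⟩
    rw [hap, hwI e c _ _ (h1 i), h, hwA e, h1, e.hd _ _ _ (hy i').1]
    have : S.Q.A.d ((MonoidHom.id D) (tD t)) (y i') = y i' := (hy i').2 t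
    rw [this]
  · intro Y C A e c x hx1 hx2
    have hn1 : S.Q.A.d (tD t)⁻¹ x ∉ Set.range S.Q.port := Piece.notMem_port hx1 _
    have hn2 : S.Q.A.d (tD t)⁻¹ x ∉ Set.range y := by
      rintro ⟨i, hi⟩
      apply hx2
      refine ⟨i, (S.Q.A.d (tD t)⁻¹).injective ?_⟩
      rw [← hi]
      exact (hy i).2 t⁻¹
    rw [hap, hwI e c _ _ (h3 x hx1 hx2), e.hd _ _ _ hx1]
    show A.d (tD t) (A.hom w (e.e (c, S.Q.A.d (tD t)⁻¹ x))) = _
    rw [hwA e, h3 _ hn1 hn2, e.hd _ _ _ hn1]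
    show e.e (c, S.Q.A.d (tD t) (S.Q.A.d (tD t)⁻¹ x)) = _
    rw [hdI]
  · intro Y C A e c0 hf z
    set j : S.Om × Y := (S.om, e.e (c0, S.Q.port 2)) with hj
    have hjf : (S.B.prod A).Fixed j := FS.prod_fixed.2 ⟨S.om_fix, hf⟩
    have hlw : ∀ z, (S.B.prod A).lam j w z = 1 := fun z => hw.1.2 Y C A e c0 z
    have hlw' : ∀ z, (S.B.prod A).lam j w⁻¹ z = 1 := fun z => hw.1.inv.2 Y C A e c0 z
    have hfj : ∀ v, (S.B.prod A).hom (letF (some v)) j = j := by
      intro v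
      rw [FS.hom_letF]
      exact hjf v
    have hfj' : ∀ v, (S.B.prod A).hom (letF (some v))⁻¹ j = j := by
      intro v
      rw [map_inv, Perm.inv_eq_iff_eq, hfj]
    have hnuj : (S.B.prod A).hom (letF (some (tD t)) * w * (letF (some (tD t)))⁻¹ * w⁻¹) j = j := by
      rw [hj, FS.prod_hom, hB, hpt Y C A e, hf]
      rfl
    have e1 : (S.B.prod A).hom (w * (letF (some (tD t)))⁻¹ * w⁻¹) z = j ↔ z = j := by
      constructor
      · intro h
        apply ((S.B.prod A).hom (letF (some (tD t)) * w * (letF (some (tD t)))⁻¹ * w⁻¹)).injective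
        rw [hnuj]
        have : letF (some (tD t)) * w * (letF (some (tD t)))⁻¹ * w⁻¹ =
          letF (some (tD t)) * (w * (letF (some (tD t)))⁻¹ * w⁻¹) := by group
        rw [this, map_mul, Perm.mul_apply, h, hfj]
      · rintro rfl
        have : w * (letF (some (tD t)))⁻¹ * w⁻¹ = (letF (some (tD t)))⁻¹ *
          (letF (some (tD t)) * w * (letF (some (tD t)))⁻¹ * w⁻¹) := by group
        rw [this, map_mul, Perm.mul_apply, hnuj, hfj']
    have e2 : (S.B.prod A).hom w⁻¹ z = j ↔ z = (S.om, e.e (c0, y 2)) := by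
      rw [map_inv, Perm.inv_eq_iff_eq, hj, FS.prod_hom, hw.2, hwA e, h1]
      rfl
    have e3 : (S.B.prod A).lam j (letF (some (tD t)))⁻¹ ((S.B.prod A).hom w⁻¹ z) =
        if z = (S.om, e.e (c0, y 2)) then t⁻¹ else 1 := by
      rw [FS.lam_inv, FS.lam_d _ hjf]
      have e4 : (S.B.prod A).hom (letF (some (tD t)))⁻¹ ((S.B.prod A).hom w⁻¹ z) = j ↔
          z = (S.om, e.e (c0, y 2)) := by
        rw [← e2, map_inv, Perm.inv_eq_iff_eq, hfj]
      by_cases h : z = (S.om, e.e (c0, y 2))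
      · rw [if_pos (e4.2 h), if_pos h]
        rfl
      · rw [if_neg (fun h' => h (e4.1 h')), if_neg h, inv_one]
    have e5 : letF (some (tD t)) * w * (letF (some (tD t)))⁻¹ * w⁻¹ =
        letF (some (tD t)) * (w * ((letF (some (tD t)))⁻¹ * w⁻¹)) := by group
    have e6 : w * ((letF (some (tD t)))⁻¹ * w⁻¹) = w * (letF (some (tD t)))⁻¹ * w⁻¹ := by group
    rw [e5, FS.lam_mul, FS.lam_mul, FS.lam_mul, hlw, hlw', mul_one, one_mul, e3, e6,
      FS.lam_d _ hjf]
    congr 1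
    by_cases h : z = j
    · rw [if_pos (e1.2 h), if_pos h]
      rfl
    · rw [if_neg (fun h' => h (e1.1 h')), if_neg h]

/-! ### Ports -/

/-- `w` acts as `x` on the ports. -/
private def PtOn (Q : Piece X P) (x : T) (w : F) : Prop :=
  ∀ (Y C : Type) (A : FS D Y) (e : Atlas (MonoidHom.id D) Q A C) (c : C) (i : P),
    A.hom w (e.e (c, Q.port i)) = A.d (tD x) (e.e (c, Q.port i))

private theorem PtOn.mul {Q : Piece X P} {x x' : T} {w w' : F} (h : PtOn Q x w) (h' : PtOn Q x' w') :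
    PtOn Q (x * x') (w * w') := by
  intro Y C A e c i
  have e1 : tD (x * x') = tD x * tD x' := rfl
  rw [map_mul, Perm.mul_apply, h' Y C A e, e1, map_mul, Perm.mul_apply]
  obtain ⟨c', i', hc⟩ := e.port_eq (tD x') c i
  rw [hc, h Y C A e]

private theorem PtOn.inv {Q : Piece X P} {x : T} {w : F} (h : PtOn Q x w) :
    PtOn Q x⁻¹ w⁻¹ := by
  intro Y C A e c i
  have e1 : tD x⁻¹ = (tD x)⁻¹ := rfl
  obtain ⟨c', i', hc⟩ := e.port_eq (tD x)⁻¹ c i
  rw [map_inv, Perm.inv_eq_iff_eq, e1, hc, h Y C A e, ← hc, ← Perm.mul_apply, ← map_mul,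
    mul_inv_cancel, map_one, Perm.one_apply]

private theorem PtOn.one (Q : Piece X P) : PtOn Q 1 1 := by
  intro Y C A e c i
  have e1 : tD 1 = 1 := rfl
  rw [e1, map_one, map_one]

/-! ### The commutator -/

private theorem pinv {α : Type} (f : Perm α) (x : α) : f (f⁻¹ x) = x := by
  rw [← Perm.mul_apply, mul_inv_cancel, Perm.one_apply]

private theorem comm_fix {α : Type} {f g : Perm α} {x : α} (h1 : g x = x) (h2 : g (f⁻¹ x) = f⁻¹ x) :
    (f * g * f⁻¹ * g⁻¹) x = x := by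
  have h3 : g⁻¹ x = x := by rw [Perm.inv_eq_iff_eq, h1]
  rw [Perm.mul_apply, Perm.mul_apply, Perm.mul_apply, h3, h2, pinv]

private theorem comm_fix' {α : Type} {f g : Perm α} {x : α} (h1 : f x = x)
    (h2 : f (g⁻¹ x) = g⁻¹ x) : (f * g * f⁻¹ * g⁻¹) x = x := by
  have h3 : f⁻¹ (g⁻¹ x) = g⁻¹ x := by rw [Perm.inv_eq_iff_eq, h2]
  rw [Perm.mul_apply, Perm.mul_apply, Perm.mul_apply, h3, pinv, h1]

private theorem NuSpec.inv_tok {S : Stage} {y : Fin 4 ↪ S.X} {t : T} {n : F} (h : NuSpec S y t n)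
    (hy : ∀ i, y i ∉ Set.range S.Q.port) {Y C : Type} {A : FS D Y}
    (e : Atlas (MonoidHom.id D) S.Q A C) (c : C) (i : Fin 4) :
    ∃ c' i', (A.hom n)⁻¹ (e.e (c, y i)) = e.e (c', y i') := by
  obtain ⟨⟨c', x'⟩, hx⟩ := e.e.surjective ((A.hom n)⁻¹ (e.e (c, y i)))
  have hx' : A.hom n (e.e (c', x')) = e.e (c, y i) := by
    rw [hx, pinv]
  by_cases h1 : x' ∈ Set.range S.Q.port
  · exfalso
    obtain ⟨i', rfl⟩ := h1
    rw [h.pt Y C A e] at hx'
    obtain ⟨c'', i'', h2⟩ := e.port_eq (tD t) c' i'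
    rw [h2] at hx'
    have h3 := congrArg Prod.snd (e.e.injective hx')
    exact hy i ⟨i'', h3⟩
  · by_cases h2 : x' ∈ Set.range y
    · obtain ⟨i', rfl⟩ := h2
      exact ⟨c', i', hx.symm⟩
    · exfalso
      rw [h.oth Y C A e c' x' h1 h2] at hx'
      have h3 := congrArg Prod.snd (e.e.injective hx')
      exact h2 ⟨i, h3.symm⟩

private theorem NuSpec.fix_j {S : Stage} {y : Fin 4 ↪ S.X} {t : T} {n : F} (h : NuSpec S y t n)
    {Y C : Type} {A : FS D Y}
    (e : Atlas (MonoidHom.id D) S.Q A C) (c0 : C) (hf : A.Fixed (e.e (c0, S.Q.port 2))) :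
    (S.B.prod A).hom n (S.om, e.e (c0, S.Q.port 2)) = (S.om, e.e (c0, S.Q.port 2)) := by
  rw [FS.prod_hom, h.hB, h.pt Y C A e, hf]
  rfl

private theorem NuSpec.fix_jy {S : Stage} {y : Fin 4 ↪ S.X} {t : T} {n : F} (h : NuSpec S y t n)
    {Y C : Type} {A : FS D Y}
    (e : Atlas (MonoidHom.id D) S.Q A C) (c0 : C) (hf : A.Fixed (e.e (c0, S.Q.port 2))) :
    (S.B.prod A).hom n (S.om, e.e (c0, y 2)) = (S.om, e.e (c0, y 2)) := by
  obtain ⟨c', i', h1, h2⟩ := h.tok Y C A e c0 2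
  rw [hf] at h2
  have h3 := e.e.injective h2
  rw [Prod.mk.injEq] at h3
  have h4 : (2 : Fin 4) = i' := S.Q.port.injective h3.2
  rw [FS.prod_hom, h.hB, h1, ← h3.1, ← h4]
  rfl

private theorem exists_comm (S : Stage) (t s : T) :
    ∃ w ∈ S.AAF, PortActor S.Q S.B S.om (t * s * t⁻¹ * s⁻¹) w := by
  classical
  obtain ⟨y0, hy0⟩ := S.tfix
  let y : Fin 4 ↪ S.X := (Fin.castAddEmb 4).trans y0
  let z : Fin 4 ↪ S.X := (Fin.natAddEmb 4).trans y0
  have hy : ∀ i, y i ∉ Set.range S.Q.port ∧ ∀ t : T, S.Q.A.d (tD t) (y i) = y i := fun i => hy0 _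
  have hz : ∀ i, z i ∉ Set.range S.Q.port ∧ ∀ t : T, S.Q.A.d (tD t) (z i) = z i := fun i => hy0 _
  have hyz : ∀ i j, y i ≠ z j := by
    intro i j h
    have h1 := y0.injective h
    have h2 : (i : ℕ) = 4 + (j : ℕ) := congrArg Fin.val h1
    have h3 := i.2
    omega
  have hyz1 : ∀ i, y i ∉ Set.range z := fun i ⟨j, hj⟩ => hyz i j hj.symm
  have hyz2 : ∀ i, z i ∉ Set.range y := fun i ⟨j, hj⟩ => hyz j i hj
  obtain ⟨n, hn⟩ := exists_nu S y hy t
  obtain ⟨n', hn'⟩ := exists_nu S z hz s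
  refine ⟨n * n' * n⁻¹ * n'⁻¹, mul_mem (mul_mem (mul_mem hn.mem hn'.mem) (inv_mem hn.mem))
    (inv_mem hn'.mem), ?_, ?_⟩
  · rw [map_mul, map_mul, map_mul, map_inv, map_inv, hn.hB, hn'.hB]
    simp
  · intro Y C A e
    have hhom : A.hom (n * n' * n⁻¹ * n'⁻¹) = A.hom n * A.hom n' * (A.hom n)⁻¹ * (A.hom n')⁻¹ := by
      rw [map_mul, map_mul, map_mul, map_inv, map_inv]
    refine ⟨?_, ?_, ?_⟩
    · have hp : PtOn S.Q t n := hn.pt
      have hp' : PtOn S.Q s n' := hn'.pt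
      exact (((hp.mul hp').mul hp.inv).mul hp'.inv) Y C A e
    · intro c x hx
      rw [hhom]
      by_cases h1 : x ∈ Set.range y
      · obtain ⟨i, rfl⟩ := h1
        obtain ⟨c', i', h2⟩ := hn.inv_tok (fun i => (hy i).1) e c i
        apply comm_fix
        · exact hn'.oth Y C A e c _ (hy i).1 (hyz1 i)
        · rw [h2]
          exact hn'.oth Y C A e c' _ (hy i').1 (hyz1 i')
      · by_cases h2 : x ∈ Set.range z
        · obtain ⟨i, rfl⟩ := h2
          obtain ⟨c', i', h2⟩ := hn'.inv_tok (fun i => (hz i).1) e c i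
          apply comm_fix'
          · exact hn.oth Y C A e c _ (hz i).1 (hyz2 i)
          · rw [h2]
            exact hn.oth Y C A e c' _ (hz i').1 (hyz2 i')
        · have h3 := hn.oth Y C A e c x hx h1
          have h4 := hn'.oth Y C A e c x hx h2
          apply comm_fix h4
          have h5 : (A.hom n)⁻¹ (e.e (c, x)) = e.e (c, x) := by rw [Perm.inv_eq_iff_eq, h3]
          rw [h5, h4]
    · intro c0 hf
      have hl := hn.lam Y C A e c0 hf
      have hl' := hn'.lam Y C A e c0 hf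
      have f1 := hn.fix_j e c0 hf
      have f2 := hn.fix_jy e c0 hf
      have f1' := hn'.fix_j e c0 hf
      have f2' := hn'.fix_jy e c0 hf
      have f3 : (S.B.prod A).hom n (S.om, e.e (c0, z 2)) = (S.om, e.e (c0, z 2)) := by
        rw [FS.prod_hom, hn.hB, hn.oth Y C A e c0 _ (hz 2).1 (hyz2 2)]
        rfl
      have f3' : (S.B.prod A).hom n' (S.om, e.e (c0, y 2)) = (S.om, e.e (c0, y 2)) := by
        rw [FS.prod_hom, hn'.hB, hn'.oth Y C A e c0 _ (hy 2).1 (hyz1 2)]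
        rfl
      set j : S.Om × Y := (S.om, e.e (c0, S.Q.port 2)) with hj
      set jy : S.Om × Y := (S.om, e.e (c0, y 2)) with hjy
      set jz : S.Om × Y := (S.om, e.e (c0, z 2)) with hjz
      have hjy' : j ≠ jy := by
        intro h
        have h1 := congrArg Prod.snd h
        have h2 := congrArg Prod.snd (e.e.injective h1)
        exact (hy 2).1 ⟨2, h2⟩
      have hjz' : j ≠ jz := by
        intro h
        have h1 := congrArg Prod.snd h
        have h2 := congrArg Prod.snd (e.e.injective h1)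
        exact (hz 2).1 ⟨2, h2⟩
      have hjyz : jy ≠ jz := by
        intro h
        have h1 := congrArg Prod.snd h
        have h2 := congrArg Prod.snd (e.e.injective h1)
        exact hyz 2 2 h2
      have iffx : ∀ {f : Perm (S.Om × Y)} {p : S.Om × Y}, f p = p → ∀ u, f u = p ↔ u = p :=
        fun {f p} h u => ⟨fun h' => f.injective (by rw [h', h]), fun h' => by rw [h', h]⟩
      have iffx' : ∀ {f : Perm (S.Om × Y)} {p : S.Om × Y}, f p = p → ∀ u, f⁻¹ u = p ↔ u = p :=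
        fun {f p} h u => by rw [Perm.inv_eq_iff_eq, h]
      -- values of the cocycles are invariant
      have g1 : ∀ u, (S.B.prod A).lam j n ((S.B.prod A).hom n' u) = (S.B.prod A).lam j n u := by
        intro u
        rw [hl, hl]
        simp only [iffx f1', iffx f3']
      have g2 : ∀ u, (S.B.prod A).lam j n (((S.B.prod A).hom n)⁻¹ u) = (S.B.prod A).lam j n u := by
        intro u
        rw [hl, hl]
        simp only [iffx' f1, iffx' f2]
      have g3 : ∀ u, (S.B.prod A).lam j n (((S.B.prod A).hom n')⁻¹ u) = (S.B.prod A).lam j n u := by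
        intro u
        rw [hl, hl]
        simp only [iffx' f1', iffx' f3']
      have g4 : ∀ u, (S.B.prod A).lam j n' (((S.B.prod A).hom n)⁻¹ u) = (S.B.prod A).lam j n' u := by
        intro u
        rw [hl', hl']
        simp only [iffx' f1, iffx' f3]
      have g5 : ∀ u, (S.B.prod A).lam j n' (((S.B.prod A).hom n')⁻¹ u) =
          (S.B.prod A).lam j n' u := by
        intro u
        rw [hl', hl']
        simp only [iffx' f1', iffx' f2']
      have key : ∀ u, (S.B.prod A).lam j (n * n' * n⁻¹ * n'⁻¹) u =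
          (S.B.prod A).lam j n u * (S.B.prod A).lam j n' u * ((S.B.prod A).lam j n u)⁻¹ *
            ((S.B.prod A).lam j n' u)⁻¹ := by
        intro u
        have e5 : n * n' * n⁻¹ * n'⁻¹ = n * (n' * (n⁻¹ * n'⁻¹)) := by group
        rw [e5, FS.lam_mul, FS.lam_mul, FS.lam_mul, FS.lam_inv, FS.lam_inv]
        simp only [map_mul, map_inv, Perm.mul_apply, g1, g2, g3, g4, g5]
        group
      constructor
      · rw [key, hl, hl', if_pos rfl, if_pos rfl, if_neg hjy', if_neg hjz', mul_one, mul_one]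
      · intro u hu
        rw [key, hl, hl', if_neg hu, if_neg hu, one_mul, one_mul]
        by_cases h1 : u = jy
        · have h2 : u ≠ jz := by rw [h1]; exact hjyz
          rw [if_neg h2]
          group
        · rw [if_neg h1]
          group

private theorem PortActor.mul {Q : Piece X (Fin 4)} {B : FS D Om} {om : Om} {x x' : T} {w w' : F}
    (h : PortActor Q B om x w) (h' : PortActor Q B om x' w') :
    PortActor Q B om (x * x') (w * w') := by
  refine ⟨by rw [map_mul, h.1, h'.1, mul_one], ?_⟩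
  intro Y C A e
  have hp : PtOn Q x w := fun Y C A e => (h.2 Y C A e).1
  have hp' : PtOn Q x' w' := fun Y C A e => (h'.2 Y C A e).1
  refine ⟨(hp.mul hp') Y C A e, ?_, ?_⟩
  · intro c y hy
    rw [map_mul, Perm.mul_apply, (h'.2 Y C A e).2.1 c y hy, (h.2 Y C A e).2.1 c y hy]
  · intro c0 hf
    have hj : (B.prod A).hom w' (om, e.e (c0, Q.port 2)) = (om, e.e (c0, Q.port 2)) := by
      rw [FS.prod_hom, h'.1, (h'.2 Y C A e).1, hf]
      rfl
    constructor
    · rw [FS.lam_mul, hj, ((h.2 Y C A e).2.2 c0 hf).1, ((h'.2 Y C A e).2.2 c0 hf).1]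
    · intro z hz
      have hz' : (B.prod A).hom w' z ≠ (om, e.e (c0, Q.port 2)) := by
        intro h1
        apply hz
        apply ((B.prod A).hom w').injective
        rw [h1, hj]
      rw [FS.lam_mul, ((h.2 Y C A e).2.2 c0 hf).2 _ hz', ((h'.2 Y C A e).2.2 c0 hf).2 _ hz, mul_one]

private theorem PortActor.inv {Q : Piece X (Fin 4)} {B : FS D Om} {om : Om} {x : T} {w : F}
    (h : PortActor Q B om x w) : PortActor Q B om x⁻¹ w⁻¹ := by
  refine ⟨by rw [map_inv, h.1, inv_one], ?_⟩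
  intro Y C A e
  have hp : PtOn Q x w := fun Y C A e => (h.2 Y C A e).1
  refine ⟨hp.inv Y C A e, ?_, ?_⟩
  · intro c y hy
    rw [map_inv, Perm.inv_eq_iff_eq, (h.2 Y C A e).2.1 c y hy]
  · intro c0 hf
    have hj : (B.prod A).hom w (om, e.e (c0, Q.port 2)) = (om, e.e (c0, Q.port 2)) := by
      rw [FS.prod_hom, h.1, (h.2 Y C A e).1, hf]
      rfl
    have hj' : (B.prod A).hom w⁻¹ (om, e.e (c0, Q.port 2)) = (om, e.e (c0, Q.port 2)) := by
      rw [map_inv, Perm.inv_eq_iff_eq, hj]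
    constructor
    · rw [FS.lam_inv, hj', ((h.2 Y C A e).2.2 c0 hf).1]
    · intro z hz
      have hz' : (B.prod A).hom w⁻¹ z ≠ (om, e.e (c0, Q.port 2)) := by
        intro h1
        apply hz
        apply ((B.prod A).hom w⁻¹).injective
        rw [h1, hj']
      rw [FS.lam_inv, ((h.2 Y C A e).2.2 c0 hf).2 _ hz', inv_one]

private theorem PortActor.one (Q : Piece X (Fin 4)) (B : FS D Om) (om : Om) :
    PortActor Q B om 1 1 := by
  refine ⟨map_one _, ?_⟩
  intro Y C A e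
  refine ⟨PtOn.one Q Y C A e, ?_, ?_⟩
  · intro c y hy
    rw [map_one, Perm.one_apply]
  · intro c0 hf
    exact ⟨FS.lam_one _ _ _, fun z _ => FS.lam_one _ _ _⟩

private def Msub (S : Stage) : Subgroup T where
  carrier := {x | ∃ w ∈ S.AAF, PortActor S.Q S.B S.om x w}
  mul_mem' := by
    rintro a b ⟨w, hw, h⟩ ⟨w', hw', h'⟩
    exact ⟨w * w', mul_mem hw hw', h.mul h'⟩
  one_mem' := ⟨1, one_mem _, PortActor.one _ _ _⟩
  inv_mem' := by
    rintro a ⟨w, hw, h⟩
    exact ⟨w⁻¹, inv_mem hw, h.inv⟩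

theorem Stage.exists_portActor (S : Stage) (x : T) :
    ∃ w ∈ S.AAF, PortActor S.Q S.B S.om x w := by
  have h1 : commutator T ≤ Msub S := by
    rw [commutator_def, Subgroup.commutator_le]
    intro g1 _ g2 _
    exact exists_comm S g1 g2
  have h2 : commutator T = ⊤ := commutator_alternatingGroup_eq_top (by simp)
  rw [h2] at h1
  exact h1 (Subgroup.mem_top x)

end Pool.Agent.HJI
end

section

/-!
# HJ-10 Reach
-/

set_option autoImplicit false

namespace Pool.Agent.HJI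

open Equiv

variable {L X Y Z Om P P' C C0 : Type} [Group L]

theorem glue_rel (Q : Piece X P) (γ : D →* Perm (C × P)) (c : C) {x y : X} (h : Q.A.Rel x y) :
    (glue (MonoidHom.id D) Q γ).Rel (c, x) (c, y) := by
  obtain ⟨w, rfl⟩ := h
  have key : (Q.A.hom w x) ∈ {z : X | (glue (MonoidHom.id D) Q γ).Rel (c, x) (c, z)} := by
    apply FS.closed_hom
    · intro z hz
      exact FS.Rel.trans hz (FS.Rel.a _ (c, z))
    · intro v z hz
      by_cases hp : z ∈ Set.range Q.port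
      · obtain ⟨i, rfl⟩ := hp
        rw [Q.fix]
        exact hz
      · have h1 := FS.Rel.d (glue (MonoidHom.id D) Q γ) v (c, z)
        rw [glue_nonport _ _ _ _ _ _ hp] at h1
        exact FS.Rel.trans hz h1
    · exact FS.Rel.refl _ _
  exact key

private theorem reach_chi (j : Fin 3) : ∃ v : D, chi j v = -1 := by
  fin_cases j
  · exact ⟨((-1, 1), 1), rfl⟩
  · exact ⟨((1, -1), 1), rfl⟩
  · exact ⟨((-1, 1), 1), by simp [chi]⟩

private theorem reach_joint {X : Type} (Q : Piece X (Fin 2)) (h : (0 : Fin 2) ≠ 1)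
    (z : CE (Fin 2) × Fin 2) (j : Fin 3) (hj : jtE (0 : Fin 2) 1 z = some j) :
    (Q.ext 0 1 h).A.Rel (z.1, Q.port z.2)
      ((prE (0 : Fin 2) 1 z).1, Q.port (prE (0 : Fin 2) 1 z).2) := by
  obtain ⟨v, hv⟩ := reach_chi j
  have h1 := FS.Rel.d (Q.ext 0 1 h).A v (z.1, Q.port z.2)
  have h2 : (Q.ext 0 1 h).A.d v (z.1, Q.port z.2)
      = ((prE (0 : Fin 2) 1 z).1, Q.port (prE (0 : Fin 2) 1 z).2) := by
    show (glue (MonoidHom.id D) Q (gamE 0 1 h)).d v (z.1, Q.port z.2) = _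
    rw [glue_port]
    have h3 : gamE (0 : Fin 2) 1 h v (z.1, z.2) = prE (0 : Fin 2) 1 z := by
      unfold gamE
      rw [edgeHom_some _ _ _ _ _ _ j hj, if_neg]
      rw [hv]
      decide
    rw [h3]
  rwa [h2] at h1

private theorem reach_ext {X : Type} (Q : Piece X (Fin 2)) (h : (0 : Fin 2) ≠ 1)
    (hQ : Q.A.Trans) : (Q.ext 0 1 h).A.Trans := by
  have hin : ∀ (c : CE (Fin 2)) (x y : X), (Q.ext 0 1 h).A.Rel (c, x) (c, y) := by
    intro c x y
    exact glue_rel Q (gamE 0 1 h) c (hQ x y)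
  have h0 : ∀ i : Fin 2, (Q.ext 0 1 h).A.Rel (none, Q.port i) (some (i, 0), Q.port 0) := by
    intro i
    exact reach_joint Q h (none, i) 0 rfl
  have h1 : ∀ i : Fin 2, (Q.ext 0 1 h).A.Rel (some (i, 0), Q.port 1) (some (i, 1), Q.port 0) := by
    intro i
    exact reach_joint Q h (some (i, 0), 1) 1 rfl
  have h2 : ∀ i : Fin 2, (Q.ext 0 1 h).A.Rel (some (i, 1), Q.port 1) (some (i, 2), Q.port 0) := by
    intro i
    exact reach_joint Q h (some (i, 1), 1) 2 rfl
  have hc0 : ∀ (i : Fin 2) (x y : X), (Q.ext 0 1 h).A.Rel (none, x) (some (i, 0), y) := by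
    intro i x y
    exact ((hin none x (Q.port i)).trans (h0 i)).trans (hin _ _ _)
  have hc1 : ∀ (i : Fin 2) (x y : X), (Q.ext 0 1 h).A.Rel (none, x) (some (i, 1), y) := by
    intro i x y
    exact ((hc0 i x (Q.port 1)).trans (h1 i)).trans (hin _ _ _)
  have hc2 : ∀ (i : Fin 2) (x y : X), (Q.ext 0 1 h).A.Rel (none, x) (some (i, 2), y) := by
    intro i x y
    exact ((hc1 i x (Q.port 1)).trans (h2 i)).trans (hin _ _ _)
  have hall : ∀ (c : CE (Fin 2)) (x y : X), (Q.ext 0 1 h).A.Rel (none, x) (c, y) := by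
    intro c x y
    rcases c with _ | ⟨i, m⟩
    · exact hin _ _ _
    · fin_cases m
      · exact hc0 i x y
      · exact hc1 i x y
      · exact hc2 i x y
  rintro ⟨c, x⟩ ⟨c', y⟩
  exact ((hall c x x).symm).trans (hall c' x y)

theorem theta_trans (Q : Piece X (Fin 4)) (hQ : Q.A.Trans) (k : ℕ) : (theta Q k).A.Trans := by
  induction k with
  | zero => exact hQ
  | succ k ih => exact reach_ext (theta Q k) (by decide) ih

end Pool.Agent.HJI
end

section

/-!
# HJ-16 Sub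
-/

set_option autoImplicit false

namespace Pool.Agent.HJI

open Equiv

variable {L X Y Z Om P P' C C0 : Type} [Group L]

/-- The action on the ports of the big piece. -/
noncomputable def subGam {Qs : Piece Z P'} {A : FS D Y} (t : Atlas (MonoidHom.id D) Qs A C)
    (i : P' ↪ P) : D →* Perm (C × P) :=
  (Perm.viaEmbeddingHom (emb C i)).comp t.gam

theorem subGam_apply {Qs : Piece Z P'} {A : FS D Y} (t : Atlas (MonoidHom.id D) Qs A C)
    (i : P' ↪ P) (v : D) (c : C) (j : P') :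
    subGam t i v (c, i j) = ((t.gam v (c, j)).1, i (t.gam v (c, j)).2) := by
  have h := Perm.viaEmbedding_apply (t.gam v) (emb C i) (c, j)
  exact h

theorem subGam_other {Qs : Piece Z P'} {A : FS D Y} (t : Atlas (MonoidHom.id D) Qs A C)
    (i : P' ↪ P) (v : D) (c : C) (k : P) (hk : k ∉ Set.range i) :
    subGam t i v (c, k) = (c, k) := by
  show (t.gam v).viaEmbedding (emb C i) (c, k) = (c, k)
  apply Perm.viaEmbedding_apply_of_notMem
  rintro ⟨⟨c', j⟩, h⟩
  exact hk ⟨j, congrArg Prod.snd h⟩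

/-- The embedding of an A-set of the sub-piece into an A-set of the piece. -/
def subMap {S : Set X} (e : C × S ≃ Y) (y : Y) : C × X := ((e.symm y).1, ((e.symm y).2 : X))

theorem subMap_e {S : Set X} (e : C × S ≃ Y) (c : C) (s : S) : subMap e (e (c, s)) = (c, (s : X)) := by
  simp [subMap]

theorem subMap_injective {S : Set X} (e : C × S ≃ Y) : Function.Injective (subMap e) := by
  intro y y' h
  obtain ⟨⟨c, s⟩, rfl⟩ := e.surjective y
  obtain ⟨⟨c', s'⟩, rfl⟩ := e.surjective y'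
  rw [subMap_e, subMap_e, Prod.mk.injEq] at h
  obtain ⟨rfl, h2⟩ := h
  rw [Subtype.ext h2]

theorem subMap_a (Q : Piece X P) (S : Set X) (ha : ∀ x ∈ S, Q.A.a x ∈ S)
    (hd : ∀ v, ∀ x ∈ S, Q.A.d v x ∈ S) (i : P' ↪ P) (hi : ∀ j, Q.port (i j) ∈ S) {A : FS D Y}
    (t : Atlas (MonoidHom.id D) (Q.sub S ha hd i hi) A C) (y : Y) :
    subMap t.e (A.a y) = (glue (MonoidHom.id D) Q (subGam t i)).a (subMap t.e y) := by
  obtain ⟨⟨c, s⟩, rfl⟩ := t.e.surjective y
  rw [t.ha, subMap_e, subMap_e, glue_a]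
  rfl

theorem subMap_d (Q : Piece X P) (S : Set X) (ha : ∀ x ∈ S, Q.A.a x ∈ S)
    (hd : ∀ v, ∀ x ∈ S, Q.A.d v x ∈ S) (i : P' ↪ P) (hi : ∀ j, Q.port (i j) ∈ S) {A : FS D Y}
    (t : Atlas (MonoidHom.id D) (Q.sub S ha hd i hi) A C) (v : D) (y : Y) :
    subMap t.e (A.d v y) = (glue (MonoidHom.id D) Q (subGam t i)).d v (subMap t.e y) := by
  obtain ⟨⟨c, s⟩, rfl⟩ := t.e.surjective y
  by_cases hs : s ∈ Set.range (Q.sub S ha hd i hi).port
  · obtain ⟨j, rfl⟩ := hs
    rw [t.gam_spec, subMap_e, subMap_e]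
    show _ = (glue (MonoidHom.id D) Q (subGam t i)).d v (c, Q.port (i j))
    rw [glue_port, subGam_apply]
    rfl
  · rw [t.hd v c s hs, subMap_e, subMap_e]
    show (c, Q.A.d v s) = _
    by_cases hs' : (s : X) ∈ Set.range Q.port
    · obtain ⟨k, hk⟩ := hs'
      have hk' : k ∉ Set.range i := by
        rintro ⟨j, rfl⟩
        exact hs ⟨j, Subtype.ext hk⟩
      rw [← hk, glue_port, subGam_other _ _ _ _ _ hk', Q.fix]
    · rw [glue_nonport _ _ _ _ _ _ hs']
      rfl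

theorem sub_actsBy (Q : Piece X P) (S : Set X) (ha : ∀ x ∈ S, Q.A.a x ∈ S)
    (hd : ∀ v, ∀ x ∈ S, Q.A.d v x ∈ S) (i : P' ↪ P) (hi : ∀ j, Q.port (i j) ∈ S) {w : F}
    {φ : Perm X} (h : ActsBy Q w φ) (ψ : Perm S) (hψ : ∀ x, (ψ x : X) = φ x) :
    ActsBy (Q.sub S ha hd i hi) w ψ := by
  intro Y C A t c x
  apply subMap_injective t.e
  rw [intertwine_hom (subMap_a Q S ha hd i hi t) (subMap_d Q S ha hd i hi t), subMap_e, subMap_e, hψ]
  exact h _ _ _ (glueAtlas (MonoidHom.id D) Q (subGam t i)) c x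

theorem sub_lampless (Q : Piece X P) (S : Set X) (ha : ∀ x ∈ S, Q.A.a x ∈ S)
    (hd : ∀ v, ∀ x ∈ S, Q.A.d v x ∈ S) (i : P' ↪ P) (hi : ∀ j, Q.port (i j) ∈ S) {w : F} (j : P')
    (B : FS D Om) (om : Om) (h : Lampless Q (Q.port (i j)) B om w) :
    Lampless (Q.sub S ha hd i hi) ((Q.sub S ha hd i hi).port j) B om w := by
  intro Y C A t c0 z
  have h1 := h _ _ _ (glueAtlas (MonoidHom.id D) Q (subGam t i)) c0 (z.1, subMap t.e z.2)
  have h2 := FS.lam_map (A := B.prod A) (B := B.prod (glue (MonoidHom.id D) Q (subGam t i)))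
    (β := fun z : Om × Y => (z.1, subMap t.e z.2))
    (fun z z' hz => by
      have e1 := congrArg Prod.fst hz
      have e2 := congrArg Prod.snd hz
      exact Prod.ext e1 (subMap_injective t.e e2))
    (fun z => Prod.ext rfl (subMap_a Q S ha hd i hi t z.2))
    (fun v z => Prod.ext rfl (subMap_d Q S ha hd i hi t v z.2))
    (om, t.e (c0, (Q.sub S ha hd i hi).port j)) w z
  rw [← h2]
  simp only [subMap_e]
  exact h1

end Pool.Agent.HJI
end

section

/-!
# HJ-15 Tile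
-/

set_option autoImplicit false

namespace Pool.Agent.HJI

open Equiv

variable {L X Y Z Om P P' C C0 : Type} [Group L]

/-! ### Elements of `D` -/

private theorem exists_T_map (k k' : Fin 5) : ∃ t : T, (t : Perm (Fin 5)) k = k' := by
  by_cases h : k = k'
  · exact ⟨1, by simpa using h⟩
  · obtain ⟨m, hm1, hm2⟩ : ∃ m : Fin 5, m ≠ k ∧ m ≠ k' := by
      revert k k'
      decide
    refine ⟨⟨swap k k' * swap k' m, ?_⟩, ?_⟩
    · rw [Equiv.Perm.mem_alternatingGroup, map_mul, Equiv.Perm.sign_swap h,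
        Equiv.Perm.sign_swap (Ne.symm hm2)]
      simp
    · show (swap k k' * swap k' m) k = k'
      rw [Perm.mul_apply, swap_apply_of_ne_of_ne h (Ne.symm hm1), swap_apply_left]

/-- An element of `D` with a given character equal to `-1`. -/
private def vch (j : Fin 3) : D :=
  match j with
  | 0 => ((-1, 1), 1)
  | 1 => ((1, -1), 1)
  | 2 => ((-1, 1), 1)

private theorem chi_vch (j : Fin 3) : chi j (vch j) ≠ 1 := by
  fin_cases j <;> simp [chi, vch]

/-! ### Orbits in gluings -/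

private theorem glue_rel_port (Q : Piece X P) (γ : D →* Perm (C × P)) (v : D) (z : C × P) :
    (glue (MonoidHom.id D) Q γ).Rel (z.1, Q.port z.2) ((γ v z).1, Q.port (γ v z).2) := by
  have h := FS.Rel.d (glue (MonoidHom.id D) Q γ) v (z.1, Q.port z.2)
  rw [glue_port] at h
  exact h

private theorem glue_rel_edge (Q : Piece X P) (pr : C × P → C × P) (jt : C × P → Option (Fin 3))
    (h1 : ∀ z, jt (pr z) = jt z) (h2 : ∀ z, pr (pr z) = z) (z : C × P) (j : Fin 3)
    (hj : jt z = some j) :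
    (glue (MonoidHom.id D) Q (edgeHom pr jt h1 h2)).Rel (z.1, Q.port z.2)
      ((pr z).1, Q.port (pr z).2) := by
  have h := glue_rel_port Q (edgeHom pr jt h1 h2) (vch j) z
  rw [edgeHom_some _ _ _ _ _ _ _ hj, if_neg (chi_vch j)] at h
  exact h

private theorem sum_rel_inl (A : FS D X) (B : FS D Y) {x x' : X} (h : A.Rel x x') :
    (A.sum B).Rel (Sum.inl x) (Sum.inl x') := by
  obtain ⟨w, rfl⟩ := h
  exact ⟨w, (intertwine_hom (A := A) (B := A.sum B) (β := Sum.inl) (fun _ => rfl)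
    (fun _ _ => rfl) w x).symm⟩

private theorem sum_rel_inr (A : FS D X) (B : FS D Y) {y y' : Y} (h : B.Rel y y') :
    (A.sum B).Rel (Sum.inr y) (Sum.inr y') := by
  obtain ⟨w, rfl⟩ := h
  exact ⟨w, (intertwine_hom (A := B) (B := A.sum B) (β := Sum.inr) (fun _ => rfl)
    (fun _ _ => rfl) w y).symm⟩

private theorem jt50 : ∀ i : Fin 6, jtE (4 : Fin 6) 5 (some (i, 0), 5) = some 1 := by decide
private theorem pr50 : ∀ i : Fin 6, prE (4 : Fin 6) 5 (some (i, 0), 5) = (some (i, 1), 4) := by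
  decide
private theorem jt51 : ∀ i : Fin 6, jtE (4 : Fin 6) 5 (some (i, 1), 5) = some 2 := by decide
private theorem pr51 : ∀ i : Fin 6, prE (4 : Fin 6) 5 (some (i, 1), 5) = (some (i, 2), 4) := by
  decide

/-! ### The core piece -/

section CoreLemmas
variable (Q : Piece X (Fin 4)) (B : FS D Z) (z0 : Z) (hz : B.Fixed z0)

private theorem core_inl (hQ : Q.A.Trans) (k : Fin 5) (x x' : X) :
    (core Q B z0 hz).A.Rel (k, Sum.inl x) (k, Sum.inl x') :=
  glue_rel (Q.addP B z0 hz) gamB k (sum_rel_inl Q.A B (hQ x x'))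

private theorem core_inr (hB : B.Trans) (k : Fin 5) (y y' : Z) :
    (core Q B z0 hz).A.Rel (k, Sum.inr y) (k, Sum.inr y') :=
  glue_rel (Q.addP B z0 hz) gamB k (sum_rel_inr Q.A B (hB y y'))

private theorem core_junc (k k' : Fin 5) :
    (core Q B z0 hz).A.Rel ((junc k).1, (Q.addP B z0 hz).port (junc k).2)
      ((junc k').1, (Q.addP B z0 hz).port (junc k').2) := by
  obtain ⟨t, ht⟩ := exists_T_map k k'
  have h := glue_rel_port (Q.addP B z0 hz) gamB (tD t) (junc k)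
  rw [gamB_junc] at h
  have h2 : ((tD t).2 : Perm (Fin 5)) k = k' := ht
  rw [h2] at h
  exact h

private theorem core_joint :
    (core Q B z0 hz).A.Rel (0, Sum.inl (Q.port 2)) (0, Sum.inr z0) := by
  have h := glue_rel_port (Q.addP B z0 hz) gamB (vch 0) (0, Sum.inl 2)
  have h1 : juncInv (0, Sum.inl 2) = none := by decide
  have h2 : jtB (0, Sum.inl 2) = some 0 := by decide
  rw [gamB_other _ _ h1, edgeB, edgeHom_some _ _ _ _ _ _ _ h2, if_neg (chi_vch 0)] at h
  exact h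

private theorem core_mem_inl (hQ : Q.A.Trans) (k : Fin 5) (hk : k ≠ 4) (x : X) :
    (core Q B z0 hz).A.Rel ((core Q B z0 hz).port 0) (k, Sum.inl x) := by
  have h0 : (core Q B z0 hz).A.Rel ((core Q B z0 hz).port 0) (0, Sum.inl (Q.port 0)) :=
    core_inl Q B z0 hz hQ 0 (Q.port 3) (Q.port 0)
  refine h0.trans ?_
  have h1 : (core Q B z0 hz).A.Rel (0, Sum.inl (Q.port 0)) (k, Sum.inl (Q.port 0)) := by
    fin_cases k
    · exact core_junc Q B z0 hz 0 0
    · exact core_junc Q B z0 hz 0 1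
    · exact core_junc Q B z0 hz 0 2
    · exact core_junc Q B z0 hz 0 3
    · exact absurd rfl hk
  exact h1.trans (core_inl Q B z0 hz hQ k _ _)

private theorem core_mem_inr (hQ : Q.A.Trans) (hB : B.Trans) (z : Z) :
    (core Q B z0 hz).A.Rel ((core Q B z0 hz).port 0) (0, Sum.inr z) :=
  ((core_mem_inl Q B z0 hz hQ 0 (by decide) (Q.port 2)).trans (core_joint Q B z0 hz)).trans
    (core_inr Q B z0 hz hB 0 z0 z)

private theorem core_port45 (hQ : Q.A.Trans) :
    (core Q B z0 hz).A.Rel ((core Q B z0 hz).port 4) ((core Q B z0 hz).port 5) :=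
  core_inl Q B z0 hz hQ 4 (Q.port 0) (Q.port 3)

/-! ### The iterated extension -/

private theorem coreN_succ_in (k : ℕ) (c : CE (Fin 6))
    {x y : XT (Fin 6) (Fin 5 × (X ⊕ Z)) k} (h : (coreN Q B z0 hz k).A.Rel x y) :
    (coreN Q B z0 hz (k + 1)).A.Rel (c, x) (c, y) :=
  glue_rel (coreN Q B z0 hz k) (gamE 4 5 (by decide)) c h

private theorem coreN_edge (k : ℕ) (z : CE (Fin 6) × Fin 6) (j : Fin 3)
    (hj : jtE 4 5 z = some j) :
    (coreN Q B z0 hz (k + 1)).A.Rel (z.1, (coreN Q B z0 hz k).port z.2)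
      ((prE 4 5 z).1, (coreN Q B z0 hz k).port (prE 4 5 z).2) :=
  glue_rel_edge (coreN Q B z0 hz k) _ _ _ _ z j hj

private theorem coreN_new_port (k : ℕ)
    (h45 : (coreN Q B z0 hz k).A.Rel ((coreN Q B z0 hz k).port 4) ((coreN Q B z0 hz k).port 5))
    (i : Fin 6) :
    (coreN Q B z0 hz (k + 1)).A.Rel ((none : CE (Fin 6)), (coreN Q B z0 hz k).port i)
      ((coreN Q B z0 hz (k + 1)).port i) := by
  have e0 : (coreN Q B z0 hz (k + 1)).A.Rel ((none : CE (Fin 6)), (coreN Q B z0 hz k).port i)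
      ((some (i, 0) : CE (Fin 6)), (coreN Q B z0 hz k).port 4) :=
    coreN_edge Q B z0 hz k (none, i) 0 rfl
  have i0 : ∀ m : Fin 3, (coreN Q B z0 hz (k + 1)).A.Rel
      ((some (i, m) : CE (Fin 6)), (coreN Q B z0 hz k).port 4)
      ((some (i, m) : CE (Fin 6)), (coreN Q B z0 hz k).port 5) :=
    fun m => coreN_succ_in Q B z0 hz k _ h45
  have e1 : (coreN Q B z0 hz (k + 1)).A.Rel
      ((some (i, 0) : CE (Fin 6)), (coreN Q B z0 hz k).port 5)
      ((some (i, 1) : CE (Fin 6)), (coreN Q B z0 hz k).port 4) := by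
    have h1 : jtE (4 : Fin 6) 5 (some (i, 0), 5) = some 1 := jt50 i
    have h2 : prE (4 : Fin 6) 5 (some (i, 0), 5) = (some (i, 1), 4) := pr50 i
    have h := coreN_edge Q B z0 hz k (some (i, 0), 5) 1 h1
    rw [h2] at h
    exact h
  have e2 : (coreN Q B z0 hz (k + 1)).A.Rel
      ((some (i, 1) : CE (Fin 6)), (coreN Q B z0 hz k).port 5)
      ((some (i, 2) : CE (Fin 6)), (coreN Q B z0 hz k).port 4) := by
    have h1 : jtE (4 : Fin 6) 5 (some (i, 1), 5) = some 2 := jt51 i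
    have h2 : prE (4 : Fin 6) 5 (some (i, 1), 5) = (some (i, 2), 4) := pr51 i
    have h := coreN_edge Q B z0 hz k (some (i, 1), 5) 2 h1
    rw [h2] at h
    exact h
  exact ((((e0.trans (i0 0)).trans e1).trans (i0 1)).trans e2).trans (i0 2)

private theorem coreN_port45 (hQ : Q.A.Trans) (k : ℕ) :
    (coreN Q B z0 hz k).A.Rel ((coreN Q B z0 hz k).port 4) ((coreN Q B z0 hz k).port 5) := by
  induction k with
  | zero => exact core_port45 Q B z0 hz hQ
  | succ k ih =>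
    exact ((coreN_new_port Q B z0 hz k ih 4).symm.trans (coreN_succ_in Q B z0 hz k none ih)).trans
      (coreN_new_port Q B z0 hz k ih 5)

private theorem coreN_mem_succ (hQ : Q.A.Trans) (k : ℕ)
    {x : XT (Fin 6) (Fin 5 × (X ⊕ Z)) k}
    (h : (coreN Q B z0 hz k).A.Rel ((coreN Q B z0 hz k).port 0) x) :
    (coreN Q B z0 hz (k + 1)).A.Rel ((coreN Q B z0 hz (k + 1)).port 0)
      ((none : CE (Fin 6)), x) :=
  (coreN_new_port Q B z0 hz k (coreN_port45 Q B z0 hz hQ k) 0).symm.trans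
    (coreN_succ_in Q B z0 hz k none h)

private theorem coreN_mem_cen (hQ : Q.A.Trans) (k : ℕ) (x : Fin 5 × (X ⊕ Z))
    (h : (core Q B z0 hz).A.Rel ((core Q B z0 hz).port 0) x) :
    (coreN Q B z0 hz k).A.Rel ((coreN Q B z0 hz k).port 0) (cen (Fin 6) k x) := by
  induction k with
  | zero => exact h
  | succ k ih => exact coreN_mem_succ Q B z0 hz hQ k ih

end CoreLemmas

/-! ### The invariant sets -/

/-- The points of the connecting copies. -/
private def THs (X Z : Type) : (n : ℕ) → XT (Fin 6) (Fin 5 × (X ⊕ Z)) n → Prop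
  | 0, z => z.1 = 4 ∧ ∃ x, z.2 = Sum.inl x
  | k + 1, z => THs X Z k z.2 ∧ (z.1 = none ∨ ∃ m, z.1 = some (4, m) ∨ z.1 = some (5, m))

/-- The candidate for the orbit. -/
private def MAs (X Z : Type) : (n : ℕ) → XT (Fin 6) (Fin 5 × (X ⊕ Z)) n → Prop
  | 0, z => z.1 ≠ 4
  | k + 1, z => (z.1 = none ∧ MAs X Z k z.2) ∨ (∃ i m, i < 4 ∧ z.1 = some (i, m) ∧ THs X Z k z.2)

private def ptT (z : CE (Fin 6) × Fin 6) : Prop :=
  (z.2 = 4 ∨ z.2 = 5) ∧ (z.1 = none ∨ ∃ m, z.1 = some (4, m) ∨ z.1 = some (5, m))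

private def ptM (z : CE (Fin 6) × Fin 6) : Prop :=
  (z.1 = none ∧ z.2 < 4) ∨ (∃ i m, i < 4 ∧ z.1 = some (i, m) ∧ (z.2 = 4 ∨ z.2 = 5))

private instance : DecidablePred ptT := fun z => by unfold ptT; infer_instance
private instance : DecidablePred ptM := fun z => by unfold ptM; infer_instance

set_option maxRecDepth 100000 in
private theorem ptT_prE : ∀ z : CE (Fin 6) × Fin 6, ptT z → ptT (prE 4 5 z) := by decide

set_option maxRecDepth 100000 in
private theorem ptM_prE : ∀ z : CE (Fin 6) × Fin 6, ptM z → ptM (prE 4 5 z) := by decide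

private theorem edge_closed {C P : Type} {pr : C × P → C × P} {jt : C × P → Option (Fin 3)}
    {h1 : ∀ z, jt (pr z) = jt z} {h2 : ∀ z, pr (pr z) = z} (S : C × P → Prop)
    (hS : ∀ z, S z → S (pr z)) (v : D) (z : C × P) (h : S z) : S (edgeHom pr jt h1 h2 v z) := by
  cases hj : jt z with
  | none => rw [edgeHom_none _ _ _ _ _ _ hj]; exact h
  | some j =>
    rw [edgeHom_some _ _ _ _ _ _ _ hj]
    split_ifs
    · exact h
    · exact hS z h

section Inv
variable (Q : Piece X (Fin 4)) (B : FS D Z) (z0 : Z) (hz : B.Fixed z0)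

private theorem port_cases (k : ℕ) (i : Fin 6) :
    (THs X Z k ((coreN Q B z0 hz k).port i) ↔ (i = 4 ∨ i = 5)) ∧
    (MAs X Z k ((coreN Q B z0 hz k).port i) ↔ i < 4) := by
  induction k generalizing i with
  | zero =>
    have h1 : ∀ i : Fin 6, ((portB i).1 = 4 ↔ (i = 4 ∨ i = 5)) := by decide
    have h2 : ∀ i : Fin 6, ((portB i).1 ≠ 4 ↔ i < 4) := by decide
    have h3 : ∀ i : Fin 6, ∃ x, (portB i).2 = Sum.inl x := by decide
    constructor
    · constructor
      · intro h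
        exact (h1 i).1 h.1
      · intro h
        refine ⟨(h1 i).2 h, ?_⟩
        obtain ⟨x, hx⟩ := h3 i
        refine ⟨Q.port x, ?_⟩
        show (Q.addP B z0 hz).port (portB i).2 = _
        rw [hx]
        rfl
    · exact h2 i
  | succ k ih =>
    have h5 := (ih 5).1.2 (Or.inr rfl)
    constructor
    · constructor
      · rintro ⟨-, h | ⟨m, h | h⟩⟩
        · have h' : (some (i, 2) : CE (Fin 6)) = none := h
          exact absurd h' (by simp)
        · left
          have h' : (some (i, 2) : CE (Fin 6)) = some (4, m) := h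
          simp at h'
          exact h'.1
        · right
          have h' : (some (i, 2) : CE (Fin 6)) = some (5, m) := h
          simp at h'
          exact h'.1
      · intro h
        refine ⟨h5, Or.inr ⟨2, ?_⟩⟩
        rcases h with rfl | rfl
        · exact Or.inl rfl
        · exact Or.inr rfl
    · constructor
      · rintro (⟨h, -⟩ | ⟨i', m, hi', h, -⟩)
        · have h' : (some (i, 2) : CE (Fin 6)) = none := h
          exact absurd h' (by simp)
        · have h' : (some (i, 2) : CE (Fin 6)) = some (i', m) := h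
          simp at h'
          rw [h'.1]
          exact hi'
      · intro h
        exact Or.inr ⟨i, 2, h, rfl, h5⟩

private theorem TH_a (k : ℕ) (x : XT (Fin 6) (Fin 5 × (X ⊕ Z)) k) (h : THs X Z k x) :
    THs X Z k ((coreN Q B z0 hz k).A.a x) := by
  induction k with
  | zero =>
    obtain ⟨c, y⟩ := x
    obtain ⟨h1, x', h2⟩ := h
    have h2' : y = Sum.inl x' := h2
    subst h2'
    exact ⟨h1, Q.A.a x', rfl⟩
  | succ k ih =>
    obtain ⟨c, y⟩ := x
    exact ⟨ih y h.1, h.2⟩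

private theorem MA_a (k : ℕ) (x : XT (Fin 6) (Fin 5 × (X ⊕ Z)) k) (h : MAs X Z k x) :
    MAs X Z k ((coreN Q B z0 hz k).A.a x) := by
  induction k with
  | zero =>
    obtain ⟨c, y⟩ := x
    exact h
  | succ k ih =>
    obtain ⟨c, y⟩ := x
    rcases h with ⟨h1, h2⟩ | ⟨i, m, hi, h1, h2⟩
    · exact Or.inl ⟨h1, ih y h2⟩
    · exact Or.inr ⟨i, m, hi, h1, TH_a Q B z0 hz k y h2⟩

private theorem TH_d (k : ℕ) (v : D) (x : XT (Fin 6) (Fin 5 × (X ⊕ Z)) k) (h : THs X Z k x) :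
    THs X Z k ((coreN Q B z0 hz k).A.d v x) := by
  induction k with
  | zero =>
    obtain ⟨c, y⟩ := x
    obtain ⟨h1, x', h2⟩ := h
    have h1' : c = 4 := h1
    have h2' : y = Sum.inl x' := h2
    subst h1' h2'
    by_cases hx : (Sum.inl x' : X ⊕ Z) ∈ Set.range (Q.addP B z0 hz).port
    · obtain ⟨i, hi⟩ := hx
      have hg : gamB v (4, i) = (4, i) := by
        have e1 : ∀ i : Fin 4 ⊕ Unit, juncInv (4, i) = none := by decide
        have e2 : ∀ i : Fin 4 ⊕ Unit, jtB (4, i) = none := by decide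
        rw [gamB_other v _ (e1 i), edgeB, edgeHom_none _ _ _ _ _ _ (e2 i)]
      have hd := glue_port (MonoidHom.id D) (Q.addP B z0 hz) gamB v 4 i
      rw [hg, hi] at hd
      show THs X Z 0 ((glue (MonoidHom.id D) (Q.addP B z0 hz) gamB).d v (4, Sum.inl x'))
      rw [hd]
      exact ⟨rfl, x', rfl⟩
    · show THs X Z 0 ((glue (MonoidHom.id D) (Q.addP B z0 hz) gamB).d v (4, Sum.inl x'))
      rw [glue_nonport _ _ _ _ _ _ hx]
      exact ⟨rfl, Q.A.d v x', rfl⟩
  | succ k ih =>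
    obtain ⟨c, y⟩ := x
    by_cases hy : y ∈ Set.range (coreN Q B z0 hz k).port
    · obtain ⟨i, rfl⟩ := hy
      have hp : ptT (c, i) := ⟨(port_cases Q B z0 hz k i).1.1 h.1, h.2⟩
      have hp' := edge_closed (pr := prE 4 5) (jt := jtE 4 5) (h1 := jtE_prE (by decide))
        (h2 := prE_prE (by decide)) ptT ptT_prE v (c, i) hp
      show THs X Z (k + 1) ((glue (MonoidHom.id D) (coreN Q B z0 hz k)
        (gamE 4 5 (by decide))).d v (c, (coreN Q B z0 hz k).port i))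
      rw [glue_port]
      exact ⟨(port_cases Q B z0 hz k _).1.2 hp'.1, hp'.2⟩
    · show THs X Z (k + 1) ((glue (MonoidHom.id D) (coreN Q B z0 hz k)
        (gamE 4 5 (by decide))).d v (c, y))
      rw [glue_nonport _ _ _ _ _ _ hy]
      exact ⟨ih y h.1, h.2⟩

private theorem MA_d (k : ℕ) (v : D) (x : XT (Fin 6) (Fin 5 × (X ⊕ Z)) k) (h : MAs X Z k x) :
    MAs X Z k ((coreN Q B z0 hz k).A.d v x) := by
  induction k with
  | zero =>
    obtain ⟨c, y⟩ := x
    have h' : c ≠ 4 := h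
    by_cases hy : y ∈ Set.range (Q.addP B z0 hz).port
    · obtain ⟨i, rfl⟩ := hy
      show MAs X Z 0 ((glue (MonoidHom.id D) (Q.addP B z0 hz) gamB).d v
        (c, (Q.addP B z0 hz).port i))
      rw [glue_port]
      show (gamB v (c, i)).1 ≠ 4
      rcases juncInv_none_or (c, i) with hj | ⟨k, hk⟩
      · rw [gamB_other v _ hj, edgeB]
        have e1 : ∀ z : Fin 5 × (Fin 4 ⊕ Unit), z.1 ≠ 4 → (prB z).1 ≠ 4 := by decide
        exact edge_closed (fun z => z.1 ≠ 4) e1 v (c, i) h'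
      · rw [← hk, gamB_junc]
        have e1 : ∀ k : Fin 5, (junc k).1 ≠ 4 := by decide
        exact e1 _
    · show MAs X Z 0 ((glue (MonoidHom.id D) (Q.addP B z0 hz) gamB).d v (c, y))
      rw [glue_nonport _ _ _ _ _ _ hy]
      exact h'
  | succ k ih =>
    obtain ⟨c, y⟩ := x
    by_cases hy : y ∈ Set.range (coreN Q B z0 hz k).port
    · obtain ⟨i, rfl⟩ := hy
      have hp : ptM (c, i) := by
        rcases h with ⟨h1, h2⟩ | ⟨i', m, hi', h1, h2⟩
        · exact Or.inl ⟨h1, (port_cases Q B z0 hz k i).2.1 h2⟩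
        · exact Or.inr ⟨i', m, hi', h1, (port_cases Q B z0 hz k i).1.1 h2⟩
      have hp' := edge_closed (pr := prE 4 5) (jt := jtE 4 5) (h1 := jtE_prE (by decide))
        (h2 := prE_prE (by decide)) ptM ptM_prE v (c, i) hp
      show MAs X Z (k + 1) ((glue (MonoidHom.id D) (coreN Q B z0 hz k)
        (gamE 4 5 (by decide))).d v (c, (coreN Q B z0 hz k).port i))
      rw [glue_port]
      rcases hp' with ⟨h1, h2⟩ | ⟨i', m, hi', h1, h2⟩
      · exact Or.inl ⟨h1, (port_cases Q B z0 hz k _).2.2 h2⟩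
      · exact Or.inr ⟨i', m, hi', h1, (port_cases Q B z0 hz k _).1.2 h2⟩
    · show MAs X Z (k + 1) ((glue (MonoidHom.id D) (coreN Q B z0 hz k)
        (gamE 4 5 (by decide))).d v (c, y))
      rw [glue_nonport _ _ _ _ _ _ hy]
      rcases h with ⟨h1, h2⟩ | ⟨i', m, hi', h1, h2⟩
      · exact Or.inl ⟨h1, ih y h2⟩
      · exact Or.inr ⟨i', m, hi', h1, TH_d Q B z0 hz k v y h2⟩

end Inv

private theorem TH_bas (k : ℕ) (x : XT (Fin 6) (Fin 5 × (X ⊕ Z)) k) (h : THs X Z k x) :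
    (bas (Fin 6) k x).1 = 4 := by
  induction k with
  | zero => exact h.1
  | succ k ih => exact ih x.2 h.1

private theorem MA_cen (k : ℕ) (x : XT (Fin 6) (Fin 5 × (X ⊕ Z)) k) (h : MAs X Z k x)
    (hb : (bas (Fin 6) k x).1 ≠ 4) : x = cen (Fin 6) k (bas (Fin 6) k x) := by
  induction k with
  | zero => rfl
  | succ k ih =>
    obtain ⟨c, y⟩ := x
    rcases h with ⟨h1, h2⟩ | ⟨i', m, hi', h1, h2⟩
    · exact Prod.ext h1 (ih y h2 hb)
    · exact absurd (TH_bas k y h2) hb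

section Tile
variable (Q : Piece X (Fin 4)) (B : FS D Z) (z0 : Z) (hz : B.Fixed z0) (n : ℕ)

theorem tile_port_mem (hQ : Q.A.Trans) (i : Fin 4) :
    (coreN Q B z0 hz n).port (four i) ∈ tileSet Q B z0 hz n := by
  show (coreN Q B z0 hz n).A.Rel ((coreN Q B z0 hz n).port 0) ((coreN Q B z0 hz n).port (four i))
  induction n with
  | zero =>
    fin_cases i
    · exact core_mem_inl Q B z0 hz hQ 0 (by decide) (Q.port 3)
    · exact core_mem_inl Q B z0 hz hQ 1 (by decide) (Q.port 3)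
    · exact core_mem_inl Q B z0 hz hQ 2 (by decide) (Q.port 3)
    · exact core_mem_inl Q B z0 hz hQ 3 (by decide) (Q.port 3)
  | succ k ih =>
    exact (coreN_mem_succ Q B z0 hz hQ k ih).trans
      (coreN_new_port Q B z0 hz k (coreN_port45 Q B z0 hz hQ k) (four i))

theorem tile_core_mem (hQ : Q.A.Trans) (k : Fin 5) (hk : k ≠ 4) (x : X) :
    cen (Fin 6) n (k, Sum.inl x) ∈ tileSet Q B z0 hz n :=
  coreN_mem_cen Q B z0 hz hQ n _ (core_mem_inl Q B z0 hz hQ k hk x)

theorem tile_om_mem (hQ : Q.A.Trans) (hB : B.Trans) (z : Z) :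
    cen (Fin 6) n ((0 : Fin 5), (Sum.inr z : X ⊕ Z)) ∈ tileSet Q B z0 hz n :=
  coreN_mem_cen Q B z0 hz hQ n _ (core_mem_inr Q B z0 hz hQ hB z)

theorem tile_centre (y : XT (Fin 6) (Fin 5 × (X ⊕ Z)) n) (hy : y ∈ tileSet Q B z0 hz n)
    (h : (bas (Fin 6) n y).1 ≠ 4) : y = cen (Fin 6) n (bas (Fin 6) n y) := by
  obtain ⟨w, rfl⟩ := hy
  refine MA_cen n _ ?_ h
  exact FS.closed_hom (A := (coreN Q B z0 hz n).A) (S := {x | MAs X Z n x})
    (fun x hx => MA_a Q B z0 hz n x hx) (fun v x hx => MA_d Q B z0 hz n v x hx) w _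
    ((port_cases Q B z0 hz n 0).2.2 (by decide))

end Tile

end Pool.Agent.HJI
end

section

/-!
# HJ-18 AltNew
-/

set_option autoImplicit false

namespace Pool.Agent.HJI

open Equiv

variable {L X Y Z Om P P' C C0 : Type} [Group L]

theorem twN_cen (P : Type) {X : Type} (φ : Perm X) (k : ℕ) (x : X) :
    twN P φ k (cen P k x) = cen P k (φ x) := by
  induction k with
  | zero => rfl
  | succ k ih =>
    show ((none : CE P), twN P φ k (cen P k x)) = (none, cen P k (φ x))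
    rw [ih]

theorem twN_fix (P : Type) {X : Type} (φ : Perm X) (k : ℕ) (y : XT P X k)
    (h : φ (bas P k y) = bas P k y) : twN P φ k y = y := by
  induction k with
  | zero => exact h
  | succ k ih =>
    show ((y.1 : CE P), twN P φ k y.2) = y
    rw [ih y.2 h]
    rfl

theorem c3_map {X Y : Type} [DecidableEq X] [DecidableEq Y] {f : X → Y} (hf : Function.Injective f)
    (x y z u : X) : c3 (f x) (f y) (f z) (f u) = f (c3 x y z u) := by
  simp only [c3, Perm.mul_apply, hf.swap_apply]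

theorem c3_fix {X : Type} [DecidableEq X] {x y z u : X} (h1 : u ≠ x) (h2 : u ≠ y) (h3 : u ≠ z) :
    c3 x y z u = u := by
  simp only [c3, Perm.mul_apply]
  rw [swap_apply_of_ne_of_ne h2 h3, swap_apply_of_ne_of_ne h1 h2]

theorem exists_even_perm {X : Type} [Fintype X] [DecidableEq X] {p q y z a b : X} (hpq : p ≠ q)
    (hyz : y ≠ z) (hab : a ≠ b) (ha : a ≠ p) (ha' : a ≠ q) (hb : b ≠ p) (hb' : b ≠ q) :
    ∃ φ ∈ alternatingGroup X, φ p = y ∧ φ q = z := by
  have key : ∃ σ : Perm X, σ p = y ∧ σ q = z := by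
    refine ⟨swap (swap p y q) z * swap p y, ?_, ?_⟩
    · rw [Perm.mul_apply, swap_apply_left]
      apply swap_apply_of_ne_of_ne
      · intro h
        have h2 : swap p y p = swap p y q := by rw [swap_apply_left]; exact h
        exact hpq ((swap p y).injective h2)
      · exact hyz
    · rw [Perm.mul_apply, swap_apply_left]
  obtain ⟨σ, h1, h2⟩ := key
  rcases Int.units_eq_one_or (Perm.sign σ) with hs | hs
  · exact ⟨σ, Perm.mem_alternatingGroup.2 hs, h1, h2⟩
  · refine ⟨σ * swap a b, ?_, ?_, ?_⟩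
    · rw [Perm.mem_alternatingGroup, map_mul, hs, Perm.sign_swap hab]
      rfl
    · rw [Perm.mul_apply, swap_apply_of_ne_of_ne (Ne.symm ha) (Ne.symm hb), h1]
    · rw [Perm.mul_apply, swap_apply_of_ne_of_ne (Ne.symm ha') (Ne.symm hb'), h2]

/-- The set of permutations induced by good elements. -/
def goodG {X Om : Type} (Q : Piece X (Fin 4)) (B : FS D Om) (om : Om) : Subgroup (Perm X) where
  carrier := {ψ | ∃ w : F, Good Q B om ψ w}
  mul_mem' := by
    rintro a b ⟨w, h⟩ ⟨w', h'⟩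
    exact ⟨w * w', h.mul h'⟩
  one_mem' := ⟨1, Good.one⟩
  inv_mem' := by
    rintro a ⟨w, h⟩
    exact ⟨w⁻¹, h.inv⟩

theorem mem_goodG {X Om : Type} {Q : Piece X (Fin 4)} {B : FS D Om} {om : Om} {ψ : Perm X} :
    ψ ∈ goodG Q B om ↔ ∃ w : F, Good Q B om ψ w := Iff.rfl

theorem coreS_hom {Q : Piece X (Fin 4)} {B : FS D Om} {om : Om} {n1 n2 : ℕ} {w : F}
    {Φ : Perm (XT (Fin 6) (Fin 5 × (X ⊕ (XT (Fin 2) X n1 × (Om → T)))) n2)}
    (h : ActsBy (coreS Q B om n1 n2) w Φ) (x) : (coreS Q B om n1 n2).A.hom w x = Φ x :=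
  h _ Unit (coreS Q B om n1 n2).A (Built.refl (coreS Q B om n1 n2)).t () x

theorem semi_restr {Q : Piece X (Fin 4)} {B : FS D Om} {om : Om} {n1 n2 : ℕ}
    (hp : ∀ i, (coreS Q B om n1 n2).port (four i) ∈ tileS Q B om n1 n2) {w : F}
    {Φ : Perm (XT (Fin 6) (Fin 5 × (X ⊕ (XT (Fin 2) X n1 × (Om → T)))) n2)}
    (h : ActsBy (coreS Q B om n1 n2) w Φ)
    (hl : ∀ i, Lampless (coreS Q B om n1 n2) ((coreS Q B om n1 n2).port i)
        (omS Q B om n1) (omP Q Om n1) w) :
    ∃ ψ : Perm (tileS Q B om n1 n2), (∀ x, (ψ x : _) = Φ x) ∧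
      Semi (newQ Q B om n1 n2 hp) (omS Q B om n1) (omP Q Om n1) ψ w := by
  have hinv : ∀ x, Φ x ∈ tileS Q B om n1 n2 ↔ x ∈ tileS Q B om n1 n2 := by
    intro x
    rw [← coreS_hom h]
    constructor
    · intro hx
      exact FS.Rel.trans hx (FS.Rel.symm ⟨w, rfl⟩)
    · intro hx
      exact FS.Rel.trans hx ⟨w, rfl⟩
  refine ⟨Φ.subtypePerm hinv, fun x => rfl, ?_, ?_⟩
  · exact sub_actsBy _ _ _ _ _ _ h _ (fun x => rfl)
  · exact sub_lampless _ _ _ _ _ _ 2 _ _ (hl (four 2))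

theorem coreS_e_cen (Q : Piece X (Fin 4)) (B : FS D Om) (om : Om) (n1 n2 : ℕ) (k : Fin 5)
    (z : X ⊕ (XT (Fin 2) X n1 × (Om → T))) :
    (coreS_built Q B om n1 n2).t.e ((cenC (Fin 6) n2, k), z) = cen (Fin 6) n2 (k, z) := by
  have := (core Q (omS Q B om n1) (omP Q Om n1) (omP_fixed Q B om n1)).extN_built_cen 4 5
    (by decide) n2 (k, z)
  exact this

theorem coreS_a_cen (Q : Piece X (Fin 4)) (B : FS D Om) (om : Om) (n1 n2 : ℕ) (k : Fin 5)
    (x : X) :
    (coreS Q B om n1 n2).A.a (cen (Fin 6) n2 (k, Sum.inl x)) =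
      cen (Fin 6) n2 (k, Sum.inl (Q.A.a x)) := by
  rw [← coreS_e_cen, (coreS_built Q B om n1 n2).t.ha, ← coreS_e_cen]
  rfl

theorem addS_port_inl (Q : Piece X (Fin 4)) (B : FS D Om) (om : Om) (n1 : ℕ)
    (x : X) (h : (Sum.inl x : X ⊕ (XT (Fin 2) X n1 × (Om → T))) ∈ Set.range (addS Q B om n1).port) :
    x ∈ Set.range Q.port := by
  obtain ⟨(i | i), hi⟩ := h
  · exact ⟨i, Sum.inl_injective hi⟩
  · exact absurd hi Sum.inr_ne_inl

theorem coreS_d_cen (Q : Piece X (Fin 4)) (B : FS D Om) (om : Om) (n1 n2 : ℕ) (k : Fin 5)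
    (x : X) (hx : x ∉ Set.range Q.port) (v : D) :
    (coreS Q B om n1 n2).A.d v (cen (Fin 6) n2 (k, Sum.inl x)) =
      cen (Fin 6) n2 (k, Sum.inl (Q.A.d v x)) := by
  rw [← coreS_e_cen, (coreS_built Q B om n1 n2).t.hd _ _ _ (fun h => hx (addS_port_inl _ _ _ _ _ h)),
    ← coreS_e_cen]
  rfl

theorem coreS_port_cen (Q : Piece X (Fin 4)) (B : FS D Om) (om : Om) (n1 n2 : ℕ) (k : Fin 5)
    (x : X) (hx : x ∉ Set.range Q.port) (i : Fin 6) :
    (coreS Q B om n1 n2).port i ≠ cen (Fin 6) n2 (k, Sum.inl x) := by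
  intro h
  obtain ⟨c, j, hj⟩ := (coreS_built Q B om n1 n2).hp i
  rw [h, ← coreS_e_cen] at hj
  have h2 := congrArg Prod.snd ((coreS_built Q B om n1 n2).t.e.injective hj)
  exact hx (addS_port_inl Q B om n1 x ⟨j, h2.symm⟩)

theorem Stage.alt_new (S : Stage) {n1 n2 : ℕ}
    (hp : ∀ i, (coreS S.Q S.B S.om n1 n2).port (four i) ∈ tileS S.Q S.B S.om n1 n2)
    [Fintype (tileS S.Q S.B S.om n1 n2)] [DecidableEq (tileS S.Q S.B S.om n1 n2)]
    (hcard : 5 ≤ Nat.card S.X)
    (hcore : ∀ (k : Fin 5) (x : S.X), k ≠ 4 →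
      cen (Fin 6) n2 (k, (Sum.inl x : S.X ⊕ (XT (Fin 2) S.X n1 × (S.Om → T)))) ∈
        tileS S.Q S.B S.om n1 n2)
    (hcen : ∀ y ∈ tileS S.Q S.B S.om n1 n2, (bas (Fin 6) n2 y).1 ≠ 4 →
      y = cen (Fin 6) n2 (bas (Fin 6) n2 y))
    (hw : ∀ φ ∈ alternatingGroup S.X, ∃ w : F,
      ActsBy (addS S.Q S.B S.om n1) w (liftS S.Q S.Om n1 φ) ∧
      ∀ i, Lampless (coreS S.Q S.B S.om n1 n2) ((coreS S.Q S.B S.om n1 n2).port i)
        (omS S.Q S.B S.om n1) (omP S.Q S.Om n1) w)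
    (hj : ∀ x : T, ∃ w : F, ActsBy (coreS S.Q S.B S.om n1 n2) w
        (twN (Fin 6) ((x : Perm (Fin 5)).viaEmbedding (jpt S.Q _)) n2) ∧
      (∀ i, Lampless (coreS S.Q S.B S.om n1 n2) ((coreS S.Q S.B S.om n1 n2).port i)
        (omS S.Q S.B S.om n1) (omP S.Q S.Om n1) w) ∧
      (omS S.Q S.B S.om n1).hom w = 1)
    (ψ : Perm (tileS S.Q S.B S.om n1 n2)) (hψ : ψ ∈ alternatingGroup (tileS S.Q S.B S.om n1 n2)) :
    ∃ w : F, Good (newQ S.Q S.B S.om n1 n2 hp) (omS S.Q S.B S.om n1) (omP S.Q S.Om n1) ψ w := by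
  set G := goodG (newQ S.Q S.B S.om n1 n2 hp) (omS S.Q S.B S.om n1) (omP S.Q S.Om n1) with hG
  -- points of the centre
  have hne4 : ∀ k : Fin 4, (k.castSucc : Fin 5) ≠ 4 := by decide
  let pt : Fin 4 → S.X → tileS S.Q S.B S.om n1 n2 := fun k x =>
    ⟨cen (Fin 6) n2 (k.castSucc, Sum.inl x), hcore _ _ (hne4 k)⟩
  have pt_inj : ∀ k x k' x', pt k x = pt k' x' → k = k' ∧ x = x' := by
    intro k x k' x' h
    have h1 := cen_injective n2 (congrArg Subtype.val h)
    rw [Prod.mk.injEq] at h1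
    exact ⟨Fin.castSucc_injective _ h1.1, Sum.inl_injective h1.2⟩
  -- the five points attached to `y`, `z`
  let jun : S.X → S.X → Fin 5 → tileS S.Q S.B S.om n1 n2 := fun y z =>
    ![pt 0 y, pt 1 y, pt 2 y, pt 3 y, pt 0 z]
  have jun_inj : ∀ y z, y ≠ z → Function.Injective (jun y z) := by
    intro y z hyz i j h
    fin_cases i <;> fin_cases j <;> first | rfl | (exfalso; have h1 := pt_inj _ _ _ _ h; simp_all) 
  -- junction actors
  have hJ : ∀ i j k : Fin 5, i ≠ j → j ≠ k → i ≠ k →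
      c3 (jun (S.Q.port 0) (S.Q.port 1) i) (jun (S.Q.port 0) (S.Q.port 1) j)
        (jun (S.Q.port 0) (S.Q.port 1) k) ∈ G := by
    intro i j k hij hjk hik
    obtain ⟨w, h1, h2, h3⟩ := hj ⟨c3 i j k, (c3_isThreeCycle hij hjk hik).mem_alternatingGroup⟩
    obtain ⟨ψ', h4, h5⟩ := semi_restr hp h1 h2
    have h01 : S.Q.port 0 ≠ S.Q.port 1 := fun h => absurd (S.Q.port.injective h) (by decide)
    have hinj := jun_inj _ _ h01
    have hval : ∀ m : Fin 5, (jun (S.Q.port 0) (S.Q.port 1) m).1 =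
        cen (Fin 6) n2 (jpt S.Q _ m) := by
      intro m
      fin_cases m <;> rfl
    have heq : ψ' = c3 (jun (S.Q.port 0) (S.Q.port 1) i) (jun (S.Q.port 0) (S.Q.port 1) j)
        (jun (S.Q.port 0) (S.Q.port 1) k) := by
      ext1 u
      by_cases hu : u ∈ Set.range (jun (S.Q.port 0) (S.Q.port 1))
      · obtain ⟨m, rfl⟩ := hu
        rw [c3_map hinj]
        apply Subtype.ext
        rw [h4, hval, twN_cen, Perm.viaEmbedding_apply, hval]
      · rw [c3_fix (fun h => hu ⟨i, h.symm⟩) (fun h => hu ⟨j, h.symm⟩) (fun h => hu ⟨k, h.symm⟩)]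
        apply Subtype.ext
        rw [h4]
        apply twN_fix
        apply Perm.viaEmbedding_apply_of_notMem
        rintro ⟨m, hm⟩
        apply hu
        refine ⟨m, Subtype.ext ?_⟩
        have h6 : (bas (Fin 6) n2 u.1).1 ≠ 4 := by
          rw [← hm]
          show (junc m).1 ≠ 4
          exact (by decide : ∀ m : Fin 5, (junc m).1 ≠ 4) m
        rw [hval, hcen u.1 u.2 h6, ← hm]
    rw [← heq]
    exact ⟨w, h5, h3⟩
  -- nonports
  obtain ⟨yy, hyy⟩ := S.tfix
  have hnp : ∀ i j, yy i ≠ S.Q.port j := fun i j h => (hyy i).1 ⟨j, h.symm⟩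
  -- translates
  have hJ2 : ∀ y z : S.X, y ≠ z → ∀ i j k : Fin 5, i ≠ j → j ≠ k → i ≠ k →
      c3 (jun y z i) (jun y z j) (jun y z k) ∈ G := by
    intro y z hyz i j k hij hjk hik
    have h01 : S.Q.port 0 ≠ S.Q.port 1 := fun h => absurd (S.Q.port.injective h) (by decide)
    obtain ⟨φ, hφ, hφ0, hφ1⟩ := exists_even_perm (a := yy 0) (b := yy 1) h01 hyz
      (fun h => absurd (yy.injective h) (by decide)) (hnp _ _) (hnp _ _) (hnp _ _) (hnp _ _)
    obtain ⟨w, h1, h2⟩ := hw φ hφ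
    obtain ⟨ψ', h4, h5⟩ := semi_restr hp ((coreS_built S.Q S.B S.om n1 n2).actsBy h1) h2
    have hpt : ∀ m x, ψ' (pt m x) = pt m (φ x) := by
      intro m x
      apply Subtype.ext
      rw [h4]
      show (coreS_built S.Q S.B S.om n1 n2).lift _ (cen (Fin 6) n2 (m.castSucc, Sum.inl x)) =
        cen (Fin 6) n2 (m.castSucc, Sum.inl (φ x))
      rw [← coreS_e_cen, Built.lift_e, ← coreS_e_cen]
      rfl
    have hjun : ∀ m, ψ' (jun (S.Q.port 0) (S.Q.port 1) m) = jun y z m := by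
      intro m
      fin_cases m
      · exact (hpt 0 _).trans (by rw [hφ0]; rfl)
      · exact (hpt 1 _).trans (by rw [hφ0]; rfl)
      · exact (hpt 2 _).trans (by rw [hφ0]; rfl)
      · exact (hpt 3 _).trans (by rw [hφ0]; rfl)
      · exact (hpt 0 _).trans (by rw [hφ1]; rfl)
    obtain ⟨g, hg⟩ := hJ i j k hij hjk hik
    have h7 := Good.conj_semi h5 hg
    rw [conj_c3, hjun, hjun, hjun] at h7
    exact ⟨_, h7⟩
  have hthird : ∀ i j : Fin 5, i ≠ j → ∃ k, j ≠ k ∧ i ≠ k := by decide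
  have hcy : ∀ y z : S.X, y ≠ z → ∀ i j : Fin 5, Cy G (jun y z i) (jun y z j) := by
    intro y z hyz i j
    by_cases hij : i = j
    · rw [hij]; exact Or.inl rfl
    · obtain ⟨k, hjk, hik⟩ := hthird i j hij
      have hinj := jun_inj _ _ hyz
      exact (Cy.of_c3 (hinj.ne hij) (hinj.ne hjk) (hinj.ne hik) (hJ2 y z hyz i j k hij hjk hik)).1
  have hex : ∀ y : S.X, ∃ z, y ≠ z := by
    intro y
    by_cases h : y = yy 0
    · exact ⟨yy 1, by rw [h]; exact fun h => absurd (yy.injective h) (by decide)⟩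
    · exact ⟨yy 0, h⟩
  have hpt0 : ∀ (k : Fin 4) (y : S.X), Cy G (pt k y) (pt 0 y) := by
    intro k y
    obtain ⟨z, hz⟩ := hex y
    have h := hcy y z hz k.castSucc 0
    have h8 : jun y z k.castSucc = pt k y := by fin_cases k <;> rfl
    rwa [h8] at h
  have hptE : ∀ (k : Fin 4) (y : S.X) (k' : Fin 4) (y' : S.X), Cy G (pt k y) (pt k' y') := by
    intro k y k' y'
    refine Cy.trans (hpt0 k y) (Cy.trans ?_ (Cy.symm (hpt0 k' y')))
    by_cases h : y = y'
    · rw [h]; exact Or.inl rfl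
    · exact hcy y y' h 0 4
  -- two auxiliary points
  have haux : ∀ u : tileS S.Q S.B S.om n1 n2, ∃ x1 x2 : S.X, x1 ≠ x2 ∧ u ≠ pt 0 x1 ∧ u ≠ pt 0 x2 ∧
      x1 ∉ Set.range S.Q.port ∧ x2 ∉ Set.range S.Q.port := by
    intro u
    have hi : ∀ i j : Fin 8, i ≠ j → yy i ≠ yy j := fun i j h h' => h (yy.injective h')
    by_cases h0 : u = pt 0 (yy 0)
    · refine ⟨yy 1, yy 2, hi _ _ (by decide), ?_, ?_, (hyy 1).1, (hyy 2).1⟩
      · intro h
        exact hi 0 1 (by decide) (pt_inj _ _ _ _ (h0.symm.trans h)).2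
      · intro h
        exact hi 0 2 (by decide) (pt_inj _ _ _ _ (h0.symm.trans h)).2
    · by_cases h1 : u = pt 0 (yy 1)
      · refine ⟨yy 0, yy 2, hi _ _ (by decide), h0, ?_, (hyy 0).1, (hyy 2).1⟩
        intro h
        exact hi 1 2 (by decide) (pt_inj _ _ _ _ (h1.symm.trans h)).2
      · exact ⟨yy 0, yy 1, hi _ _ (by decide), h0, h1, (hyy 0).1, (hyy 1).1⟩
  set p0 := pt 0 (S.Q.port 0) with hp0
  have hc3 : ∀ (u : tileS S.Q S.B S.om n1 n2) (x1 x2 : S.X), x1 ≠ x2 → u ≠ pt 0 x1 → u ≠ pt 0 x2 →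
      Cy G p0 u → c3 u (pt 0 x1) (pt 0 x2) ∈ G := by
    intro u x1 x2 h12 h1 h2 hu
    exact c3_mem h1 (fun h => h12 (pt_inj _ _ _ _ h).2) h2
      (Cy.trans (Cy.symm hu) (hptE _ _ _ _)) (hptE _ _ _ _)
  have hEa : ∀ u, Cy G p0 u → Cy G p0 ((newQ S.Q S.B S.om n1 n2 hp).A.a u) := by
    intro u hu
    obtain ⟨x1, x2, h12, h1, h2, -, -⟩ := haux u
    obtain ⟨g, hg⟩ := hc3 u x1 x2 h12 h1 h2 hu
    have h7 := Good.conj_semi (Semi.a (Q := newQ S.Q S.B S.om n1 n2 hp)) hg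
    rw [conj_c3] at h7
    have ha : ∀ x, (newQ S.Q S.B S.om n1 n2 hp).A.a (pt 0 x) = pt 0 (S.Q.A.a x) := by
      intro x
      apply Subtype.ext
      exact coreS_a_cen S.Q S.B S.om n1 n2 _ x
    have hinj := (newQ S.Q S.B S.om n1 n2 hp).A.a.injective
    have h8 := (Cy.of_c3 (G := G) (hinj.ne h1) (hinj.ne (fun h => h12 (pt_inj _ _ _ _ h).2))
      (hinj.ne h2) ⟨_, h7⟩).1
    rw [ha] at h8
    exact Cy.trans (hptE _ _ _ _) (Cy.symm h8)
  have hEd : ∀ v u, Cy G p0 u → Cy G p0 ((newQ S.Q S.B S.om n1 n2 hp).A.d v u) := by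
    intro v u hu
    by_cases hup : u ∈ Set.range (newQ S.Q S.B S.om n1 n2 hp).port
    · obtain ⟨i, rfl⟩ := hup
      rw [(newQ S.Q S.B S.om n1 n2 hp).fix]
      exact hu
    · obtain ⟨x1, x2, h12, h1, h2, hn1, hn2⟩ := haux u
      obtain ⟨g, hg⟩ := hc3 u x1 x2 h12 h1 h2 hu
      have hport : ∀ i x, x ∉ Set.range S.Q.port → (newQ S.Q S.B S.om n1 n2 hp).port i ≠ pt 0 x := by
        intro i x hx h
        exact coreS_port_cen S.Q S.B S.om n1 n2 _ x hx (four i) (congrArg Subtype.val h)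
      have h7 := Good.conj_d hg (fun i => c3_fix (fun h => hup ⟨i, h⟩) (hport i x1 hn1)
        (hport i x2 hn2)) v
      rw [conj_c3] at h7
      have hd : ∀ x, x ∉ Set.range S.Q.port →
          (newQ S.Q S.B S.om n1 n2 hp).A.d v (pt 0 x) = pt 0 (S.Q.A.d v x) := by
        intro x hx
        apply Subtype.ext
        exact coreS_d_cen S.Q S.B S.om n1 n2 _ x hx v
      have hinj := ((newQ S.Q S.B S.om n1 n2 hp).A.d v).injective
      have h8 := (Cy.of_c3 (G := G) (hinj.ne h1) (hinj.ne (fun h => h12 (pt_inj _ _ _ _ h).2))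
        (hinj.ne h2) ⟨_, h7⟩).1
      rw [hd x1 hn1] at h8
      exact Cy.trans (hptE _ _ _ _) (Cy.symm h8)
  -- everything is reached
  have hall : ∀ u : tileS S.Q S.B S.om n1 n2, Cy G p0 u := by
    rintro ⟨u, hu⟩
    have hrel : (coreS S.Q S.B S.om n1 n2).A.Rel p0.1 u := FS.Rel.trans (FS.Rel.symm p0.2) hu
    obtain ⟨w, hw'⟩ := hrel
    have := FS.closed_hom (A := (coreS S.Q S.B S.om n1 n2).A)
      (S := {x | ∃ h : x ∈ tileS S.Q S.B S.om n1 n2, Cy G p0 ⟨x, h⟩})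
      (by
        rintro x ⟨h, hx⟩
        exact ⟨_, hEa ⟨x, h⟩ hx⟩)
      (by
        rintro v x ⟨h, hx⟩
        exact ⟨_, hEd v ⟨x, h⟩ hx⟩) w p0.1 ⟨p0.2, Or.inl rfl⟩
    rw [hw'] at this
    exact this.2
  have hle : alternatingGroup (tileS S.Q S.B S.om n1 n2) ≤ G :=
    alt_le_of_cy fun x y => Cy.trans (Cy.symm (hall x)) (hall y)
  exact hle hψ

end Pool.Agent.HJI
end
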