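import Pool.Agent.Lib.MP_377081_al.GoodAlg

/-!
# First facts about the next stage
-/

set_option autoImplicit false

namespace Pool.Agent.HJI

open Equiv

variable {X Y Z Om P P' C : Type}

/-- The base coordinate of a point of the iterated extension. -/
def bas (P : Type) {X : Type} : (k : ℕ) → XT P X k → X
  | 0, x => x
  | k + 1, z => bas P k z.2

theorem bas_cen (k : ℕ) (x : X) : bas P k (cen P k x) = x := by
  induction k with
  | zero => rfl
  | succ k ih => exact ih

/-- The port of `theta` is not in the centre copy at position `port 2`. -/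
theorem bas_theta_port (Q : Piece X (Fin 4)) (k : ℕ) (i : Fin 2) :
    bas (Fin 2) k ((theta Q k).port i) = Q.port 0 ∨ bas (Fin 2) k ((theta Q k).port i) = Q.port 3 := by
  induction k generalizing i with
  | zero =>
    fin_cases i
    · exact Or.inl rfl
    · exact Or.inr rfl
  | succ k ih => exact ih 1

theorem theta_port_one_bas (Q : Piece X (Fin 4)) (k : ℕ) :
    bas (Fin 2) k ((theta Q k).port 1) = Q.port 3 := by
  induction k with
  | zero => rfl
  | succ k ih => exact ih

theorem theta_port_one_ne (Q : Piece X (Fin 4)) (k : ℕ) (x : X) (hx : x ≠ Q.port 3) :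
    (theta Q k).port 1 ≠ cen (Fin 2) k x := by
  intro h
  have := theta_port_one_bas Q k
  rw [h, bas_cen] at this
  exact hx this

theorem port2_ne_port3 (Q : Piece X (Fin 4)) : Q.port 2 ≠ Q.port 3 := by
  intro h
  exact absurd (Q.port.injective h) (by decide)

/-- A `D`-fixed nonport stays fixed in a gluing. -/
theorem glue_fixed_nonport (Q : Piece X P) (γ : D →* Perm (C × P)) (c : C) (x : X)
    (hx : x ∉ Set.range Q.port) (h : Q.A.Fixed x) : (glue (MonoidHom.id D) Q γ).Fixed (c, x) := by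
  intro v
  rw [glue_nonport _ _ _ _ _ _ hx]
  exact Prod.ext rfl (h v)

/-- The lamp point of the corridor is fixed. -/
theorem theta_cen_fixed (Q : Piece X (Fin 4)) (k : ℕ) :
    (theta Q k).A.Fixed (cen (Fin 2) k (Q.port 2)) := by
  induction k with
  | zero => exact fun v => Q.fix v 2
  | succ k ih =>
    refine glue_fixed_nonport (theta Q k) _ none (cen (Fin 2) k (Q.port 2)) ?_ ih
    rintro ⟨i, hi⟩
    have h := bas_theta_port Q k i
    rw [hi, bas_cen] at h
    rcases h with h | h
    · exact absurd (Q.port.injective h) (by decide)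
    · exact absurd (Q.port.injective h) (by decide)

theorem omP_fixed (Q : Piece X (Fin 4)) (B : FS D Om) (om : Om) (n : ℕ) :
    (omS Q B om n).Fixed (omP Q Om n) := by
  intro v
  refine Prod.ext ((theta Q n).fix v 1) ?_
  funext u
  have h : (theta Q n).port 1 ≠ cen (Fin 2) n (Q.port 2) := theta_port_one_ne Q n _ (port2_ne_port3 Q)
  simp [omS, omP, FS.ext, h]

/-- The piece `X + Omega'` (five ports). -/
noncomputable def addS (Q : Piece X (Fin 4)) (B : FS D Om) (om : Om) (n : ℕ) :
    Piece (X ⊕ (XT (Fin 2) X n × (Om → T))) (Fin 4 ⊕ Unit) :=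
  Q.addP (omS Q B om n) (omP Q Om n) (omP_fixed Q B om n)

/-- The piece `B_{n2}` of the next stage. -/
noncomputable def coreS (Q : Piece X (Fin 4)) (B : FS D Om) (om : Om) (n1 n2 : ℕ) :
    Piece (XT (Fin 6) (Fin 5 × (X ⊕ (XT (Fin 2) X n1 × (Om → T)))) n2) (Fin 6) :=
  coreN Q (omS Q B om n1) (omP Q Om n1) (omP_fixed Q B om n1) n2

/-- `B_{n2}` is built from `X + Omega'`. -/
noncomputable def coreS_built (Q : Piece X (Fin 4)) (B : FS D Om) (om : Om) (n1 n2 : ℕ) :
    Built (addS Q B om n1) (coreS Q B om n1 n2) (CT (Fin 6) n2 × Fin 5) :=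
  (Built.up (addS Q B om n1) gamB portB gamB_portB).trans
    ((core Q (omS Q B om n1) (omP Q Om n1) (omP_fixed Q B om n1)).extN_built 4 5 (by decide) n2)

/-- The set of points of the new tile. -/
def tileS (Q : Piece X (Fin 4)) (B : FS D Om) (om : Om) (n1 n2 : ℕ) :
    Set (XT (Fin 6) (Fin 5 × (X ⊕ (XT (Fin 2) X n1 × (Om → T)))) n2) :=
  tileSet Q (omS Q B om n1) (omP Q Om n1) (omP_fixed Q B om n1) n2

/-- The permutation of `X + Omega'` induced by a permutation of the tile. -/
noncomputable def liftS (Q : Piece X (Fin 4)) (Om : Type) (n : ℕ) (φ : Perm X) :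
    Perm (X ⊕ (XT (Fin 2) X n × (Om → T))) :=
  Equiv.sumCongr φ (Equiv.prodCongr ((theta_built Q n).lift φ) (Equiv.refl (Om → T)))

/-- (4.2) Good elements act on `Omega'` by `(y, m) ↦ (φ^ y, m)`. -/
theorem omS_good {Q : Piece X (Fin 4)} {B : FS D Om} {om : Om} (n : ℕ) {φ : Perm X} {w : F}
    (h : Good Q B om φ w) (y : XT (Fin 2) X n) (m : Om → T) :
    (omS Q B om n).hom w (y, m) = ((theta_built Q n).lift φ y, m) := by
  have hB : B.hom w = 1 := h.2
  have hB' : B.hom w⁻¹ = 1 := by rw [map_inv, hB, inv_one]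
  have h1 : (theta Q n).A.hom w y = (theta_built Q n).lift φ y := by
    obtain ⟨⟨c, x⟩, rfl⟩ := (theta_built Q n).t.e.surjective y
    rw [h.1.1 _ _ _ (theta_built Q n).t, Built.lift_e]
  have h2 : ∀ z, (B.prod (theta Q n).A).lam (om, cen (Fin 2) n (Q.port 2)) w z = 1 := by
    intro z
    have h3 := h.1.2 _ _ _ (theta_built Q n).t (cenC (Fin 2) n, ()) z
    have h4 : (theta_built Q n).t.e ((cenC (Fin 2) n, ()), Q.port 2) = cen (Fin 2) n (Q.port 2) :=
      (Q.report ends).extN_built_cen 0 1 (by decide) n (Q.port 2)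
    rwa [h4] at h3
  rw [omS, FS.ext_hom, h1, hB']
  simp [h2]

/-- The new tile as a piece (ports = the first four ports of `B_n`). -/
noncomputable def newQ (Q : Piece X (Fin 4)) (B : FS D Om) (om : Om) (n1 n2 : ℕ)
    (hp : ∀ i, (coreS Q B om n1 n2).port (four i) ∈ tileS Q B om n1 n2) :
    Piece (tileS Q B om n1 n2) (Fin 4) :=
  (coreS Q B om n1 n2).sub (tileS Q B om n1 n2)
    (tileSet_a Q (omS Q B om n1) (omP Q Om n1) (omP_fixed Q B om n1) n2)
    (tileSet_d Q (omS Q B om n1) (omP Q Om n1) (omP_fixed Q B om n1) n2) four hp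

/-- A copy of the corridor `Θ` at the port `i` of `Q`. -/
structure LocAt (Θ : Piece X (Fin 2)) (Q : Piece Y P) (i : P) where
  b : X → Y
  inj : Function.Injective b
  hport : b (Θ.port 1) = Q.port i
  ha : ∀ y, b (Θ.A.a y) = Q.A.a (b y)
  hd : ∀ v y, y ≠ Θ.port 0 → b (Θ.A.d v y) = Q.A.d v (b y)
  hnp : ∀ y, b y ∈ Set.range Q.port → y = Θ.port 1

/-- The potential on the corridor. -/
def pot {X : Type} : (k : ℕ) → XT (Fin 2) X k → ℤ
  | 0, _ => 0
  | k + 1, (none, y) => pot k y
  | k + 1, (some (i, _), _) => if i = 0 then -((k : ℤ) + 1) else (k : ℤ) + 1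

/-- The junction points of the core piece. -/
def jpt (Q : Piece X (Fin 4)) (Z : Type) : Fin 5 ↪ Fin 5 × (X ⊕ Z) where
  toFun k := ((junc k).1, (junc k).2.elim (fun i => Sum.inl (Q.port i)) (fun _ => Sum.inl (Q.port 0)))
  inj' := by
    have h01 : Q.port 0 ≠ Q.port 1 := fun h => absurd (Q.port.injective h) (by decide)
    intro j k h
    fin_cases j <;> fin_cases k <;> simp_all [junc]

/-- All invariant subsets have `4 ∣ #moved points`. -/
def Even4 (A : FS D X) : Prop :=
  ∀ S : Set X, (∀ x ∈ S, A.a x ∈ S) → (∀ v, ∀ x ∈ S, A.d v x ∈ S) →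
    4 ∣ Nat.card {x : X // x ∈ S ∧ A.a x ≠ x}

section ThreeCyc
variable [Fintype X] [DecidableEq X]

/-- The relation: equal, or moved to each other by a 3-cycle of `G`. -/
def Cy (G : Subgroup (Perm X)) (x y : X) : Prop := x = y ∨ ∃ σ ∈ G, σ.IsThreeCycle ∧ σ x = y

/-- The 3-cycle `x → y → z → x`. -/
def c3 {X : Type} [DecidableEq X] (x y z : X) : Perm X := swap x y * swap y z

end ThreeCyc

end Pool.Agent.HJI
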