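import Pool.Agent.Lib.MP_377081_al.Events
import Pool.Agent.Lib.MP_377081_al.Step0

/-!
# HJ-26 BSets
-/

set_option autoImplicit false

namespace Pool.Agent.HJI

open Equiv

variable {L X Y Z Om P P' C C0 : Type} [Group L]

theorem lab_length (B : FS D Om) (om : Om) (l : List (Option D)) :
    (lab B om l).length = l.length := by
  induction l with
  | nil => rfl
  | cons s l ih =>
    cases s with
    | none => simp only [lab, List.length_cons, ih]
    | some v => simp only [lab, List.length_cons, ih]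

/-- The set glued with the labels forgotten. -/
private theorem bsets_act (Q : Piece X P) (B : FS D Om) (om : Om) {A : FS D Y}
    (t : Atlas (MonoidHom.id D) Q A C) (l : List (Option D)) (z : C × X) :
    t.e ((glue (MonoidHom.fst D (Om → T)) Q (t.gam.comp (MonoidHom.fst D (Om → T)))).ev
      (lab B om l) z) = A.ev l (t.e z) := by
  induction l with
  | nil => rfl
  | cons s l ih =>
    cases s with
    | none =>
      rw [lab, FS.ev_cons, FS.ev_cons, Perm.mul_apply, Perm.mul_apply, ← ih]
      generalize (glue (MonoidHom.fst D (Om → T)) Q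
        (t.gam.comp (MonoidHom.fst D (Om → T)))).ev (lab B om l) z = w
      obtain ⟨c, x⟩ := w
      exact (t.ha c x).symm
    | some v =>
      rw [lab, FS.ev_cons, FS.ev_cons, Perm.mul_apply, Perm.mul_apply, ← ih]
      generalize (glue (MonoidHom.fst D (Om → T)) Q
        (t.gam.comp (MonoidHom.fst D (Om → T)))).ev (lab B om l) z = w
      obtain ⟨c, x⟩ := w
      show t.e ((glue (MonoidHom.fst D (Om → T)) Q
        (t.gam.comp (MonoidHom.fst D (Om → T)))).d _ (c, x)) = A.d v (t.e (c, x))
      by_cases hx : x ∈ Set.range Q.port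
      · obtain ⟨i, rfl⟩ := hx
        rw [glue_port, t.gam_spec]
        rfl
      · rw [glue_nonport _ _ _ _ _ _ hx, t.hd v c x hx]
        rfl

section lamp

variable {Q : Piece X P} {A : FS D Y} (t : Atlas (MonoidHom.id D) Q A C) {c0 : C} {i : P}

open Classical in
/-- The action of the labels on the lamp coordinate. -/
private noncomputable def bsets_fun (c0 : C) (i : P) (v : D × (Om → T))
    (z : (Om × C × T) × P) : (Om × C × T) × P :=
  ((z.1.1, (t.gam v.1 (z.1.2.1, z.2)).1,
    if (z.1.2.1, z.2) = (c0, i) then v.2 z.1.1 * z.1.2.2 else z.1.2.2),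
      (t.gam v.1 (z.1.2.1, z.2)).2)

private noncomputable def bsets_gam (Om : Type) (h : ∀ v, t.gam v (c0, i) = (c0, i)) :
    (D × (Om → T)) →* Perm ((Om × C × T) × P) :=
  mkHom (bsets_fun t c0 i)
    (by
      rintro ⟨⟨o, c, s⟩, k⟩
      simp [bsets_fun])
    (by
      rintro v w ⟨⟨o, c, s⟩, k⟩
      have hiff : ((t.gam w.1 (c, k)).1, (t.gam w.1 (c, k)).2) = (c0, i) ↔ (c, k) = (c0, i) := by
        constructor
        · intro h1
          have h2 : t.gam w.1 (c, k) = t.gam w.1 (c0, i) := by rw [h w.1]; exact h1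
          exact (t.gam w.1).injective h2
        · intro h1
          rw [h1, h w.1]
      simp only [bsets_fun, hiff]
      by_cases h1 : (c, k) = (c0, i)
      · simp [h1, h w.1, mul_assoc]
      · have h2 : ¬ (t.gam w.1) (c, k) = (c0, i) := fun h3 => h1 (hiff.1 h3)
        simp [h1, h2])

private theorem bsets_gam_apply (h : ∀ v, t.gam v (c0, i) = (c0, i)) (v : D × (Om → T))
    (z : (Om × C × T) × P) : bsets_gam t Om h v z = bsets_fun t c0 i v z := rfl

private theorem bsets_lam (B : FS D Om) (om : Om) (h : ∀ v, t.gam v (c0, i) = (c0, i))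
    (hf : (B.prod A).Fixed (om, t.e (c0, Q.port i))) (l : List (Option D)) (o : Om) (c : C) (s : T)
    (x : X) :
    ((glue (MonoidHom.fst D (Om → T)) Q (bsets_gam t Om h)).ev (lab B om l) ((o, c, s), x)).1.1
        = o ∧
      t.e (((glue (MonoidHom.fst D (Om → T)) Q (bsets_gam t Om h)).ev (lab B om l)
          ((o, c, s), x)).1.2.1,
        ((glue (MonoidHom.fst D (Om → T)) Q (bsets_gam t Om h)).ev (lab B om l)
          ((o, c, s), x)).2) = A.ev l (t.e (c, x)) ∧
      ((glue (MonoidHom.fst D (Om → T)) Q (bsets_gam t Om h)).ev (lab B om l)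
          ((o, c, s), x)).1.2.2 =
        (B.prod A).lam (om, t.e (c0, Q.port i)) (wd l) (o, t.e (c, x)) * s := by
  classical
  induction l with
  | nil =>
    refine ⟨rfl, rfl, ?_⟩
    rw [wd_nil, FS.lam_one, one_mul]
    rfl
  | cons a l ih =>
    have hcur : (B.prod A).hom (wd l) (o, t.e (c, x)) = (B.ev l o, A.ev l (t.e (c, x))) := by
      rw [FS.hom_wd, FS.prod_ev]
    cases a with
    | none =>
      rw [lab, FS.ev_cons, A.ev_cons, Perm.mul_apply, Perm.mul_apply, wd_cons, FS.lam_mul,
        FS.lam_a, one_mul]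
      obtain ⟨h1, h2, h3⟩ := ih
      rw [← h2, ← h3]
      generalize (glue (MonoidHom.fst D (Om → T)) Q (bsets_gam t Om h)).ev (lab B om l)
        ((o, c, s), x) = w at h1 h2 h3 ⊢
      obtain ⟨⟨o1, c1, s1⟩, x1⟩ := w
      exact ⟨h1, (t.ha c1 x1).symm, rfl⟩
    | some v =>
      rw [lab, FS.ev_cons, A.ev_cons, Perm.mul_apply, Perm.mul_apply, wd_cons, FS.lam_mul, hcur,
        FS.lam_d _ hf, mul_assoc]
      obtain ⟨h1, h2, h3⟩ := ih
      rw [← h2, ← h3]
      generalize (glue (MonoidHom.fst D (Om → T)) Q (bsets_gam t Om h)).ev (lab B om l)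
        ((o, c, s), x) = w at h1 h2 h3 ⊢
      obtain ⟨⟨o1, c1, s1⟩, x1⟩ := w
      have ho : o1 = o := h1
      subst ho
      clear h1 h2 h3
      set lb : D × (Om → T) := (v, fun o' => if B.ev l o' = om then v.2 else 1) with hlb
      have hst : (glue (MonoidHom.fst D (Om → T)) Q (bsets_gam t Om h)).step (some lb) =
        (glue (MonoidHom.fst D (Om → T)) Q (bsets_gam t Om h)).d lb := rfl
      rw [hst]
      by_cases hx : x1 ∈ Set.range Q.port
      · obtain ⟨k, rfl⟩ := hx
        rw [glue_port, bsets_gam_apply]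
        refine ⟨rfl, (t.gam_spec v c1 k).symm, ?_⟩
        by_cases hc : (c1, k) = (c0, i)
        · have h5 : (bsets_fun t c0 i lb ((o1, c1, s1), k)).1.2.2 = lb.2 o1 * s1 := if_pos hc
          show (bsets_fun t c0 i lb ((o1, c1, s1), k)).1.2.2 = _
          rw [h5]
          obtain ⟨hc1, hk⟩ := Prod.mk.inj hc
          subst hc1 hk
          congr 1
          by_cases h6 : B.ev l o1 = om
          · rw [if_pos (by rw [h6])]
            exact if_pos h6
          · rw [if_neg (fun h7 => h6 (congrArg Prod.fst h7))]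
            exact if_neg h6
        · have h5 : (bsets_fun t c0 i lb ((o1, c1, s1), k)).1.2.2 = s1 := if_neg hc
          show (bsets_fun t c0 i lb ((o1, c1, s1), k)).1.2.2 = _
          rw [h5, if_neg, one_mul]
          intro h4
          apply hc
          have h5 := t.e.injective (congrArg Prod.snd h4)
          have h6 := Prod.mk.inj h5
          exact Prod.ext h6.1 (Q.port.injective h6.2)
      · rw [glue_nonport _ _ _ _ _ _ hx]
        refine ⟨rfl, (t.hd v c1 x1 hx).symm, ?_⟩
        rw [if_neg, one_mul]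
        intro h4
        apply hx
        have h5 := t.e.injective (congrArg Prod.snd h4)
        exact ⟨i, (Prod.mk.inj h5).2.symm⟩

end lamp

theorem class_eq (Q : Piece X P) (B : FS D Om) (om : Om) (hom : B.Fixed om)
    (l l' : List (Option D)) (h1 : B.ev l = B.ev l')
    (h2 : ∀ (C : Type) (γ : (D × (Om → T)) →* Perm (C × P)),
      (glue (MonoidHom.fst D (Om → T)) Q γ).ev (lab B om l) =
        (glue (MonoidHom.fst D (Om → T)) Q γ).ev (lab B om l')) :
    ActsBy Q ((wd l)⁻¹ * wd l') 1 ∧ (∀ i, Lampless Q (Q.port i) B om ((wd l)⁻¹ * wd l')) ∧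
      B.hom ((wd l)⁻¹ * wd l') = 1 := by
  have hA : ∀ (Y C : Type) (A : FS D Y), Atlas (MonoidHom.id D) Q A C → A.ev l = A.ev l' := by
    intro Y C A t
    ext1 y
    obtain ⟨z, rfl⟩ := t.e.surjective y
    rw [← bsets_act Q B om t l z, ← bsets_act Q B om t l' z, h2]
  refine ⟨?_, ?_, ?_⟩
  · rw [ActsBy.one_iff]
    rintro Y C A ⟨t⟩
    rw [map_mul, map_inv, A.hom_wd, A.hom_wd, hA Y C A t, inv_mul_cancel]
  · intro i Y C A t c0 z
    by_cases hf : (B.prod A).Fixed (om, t.e (c0, Q.port i))
    · have hfix : ∀ v, t.gam v (c0, i) = (c0, i) := by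
        intro v
        have h3 := (FS.prod_fixed.1 hf).2 v
        rw [t.gam_spec] at h3
        have h4 := Prod.mk.inj (t.e.injective h3)
        exact Prod.ext h4.1 (Q.port.injective h4.2)
      obtain ⟨o, y⟩ := z
      obtain ⟨⟨c, x⟩, rfl⟩ := t.e.surjective y
      have h3 := (bsets_lam t B om hfix hf l o c 1 x).2.2
      have h4 := (bsets_lam t B om hfix hf l' o c 1 x).2.2
      rw [h2 (Om × C × T) (bsets_gam t Om hfix)] at h3
      rw [h3, mul_one, mul_one] at h4
      have h5 : (B.prod A).hom (wd l') (o, t.e (c, x)) =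
          (B.prod A).hom (wd l) (o, t.e (c, x)) := by
        rw [FS.hom_wd, FS.hom_wd, FS.prod_ev, FS.prod_ev, h1, hA Y C A t]
      rw [FS.lam_mul, FS.lam_inv, h5]
      have h6 : (B.prod A).hom (wd l)⁻¹ ((B.prod A).hom (wd l) (o, t.e (c, x))) =
          (o, t.e (c, x)) := by
        rw [map_inv]; simp
      rw [h6, h4, inv_mul_cancel]
    · exact FS.lam_not_fixed _ hf _ _
  · rw [map_mul, map_inv, B.hom_wd, B.hom_wd, h1, inv_mul_cancel]

end Pool.Agent.HJI
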