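import Pool.Agent.Lib.MP_377081_al.AEven

/-!
# HJ-28 BaseStage
-/

set_option autoImplicit false

namespace Pool.Agent.HJI

open Equiv

variable {L X Y Z Om P P' C C0 : Type} [Group L]

namespace Base

/-- The points of the base tile. -/
abbrev X0 := Fin 5 ⊕ (Fin 4 × Fin 3)

/-- The involution as a function. -/
def aF : X0 → X0
  | Sum.inl i => Fin.cases (Sum.inl 0) (fun k => Sum.inr (k, 0)) i
  | Sum.inr (k, 0) => Sum.inl k.succ
  | Sum.inr (k, 1) => Sum.inr (k, 2)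
  | Sum.inr (k, 2) => Sum.inr (k, 1)

theorem aF_aF : ∀ x, aF (aF x) = x := by decide

/-- The involution. -/
def a0 : Perm X0 := ⟨aF, aF, aF_aF, aF_aF⟩

/-- The action of `D`. -/
def d0 : D →* Perm X0 :=
  (Perm.sumCongrHom (Fin 5) (Fin 4 × Fin 3)).comp
    (MonoidHom.prod ((alternatingGroup (Fin 5)).subtype.comp (MonoidHom.snd _ _))
      ((tw (Fin 4)).comp ((unitsHom (swap (0 : Fin 3) 1) (by decide)).comp (chi 0))))

theorem d0_inl (v : D) (i : Fin 5) : d0 v (Sum.inl i) = Sum.inl (v.2.1 i) := rfl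

theorem d0_inr2 (v : D) (k : Fin 4) : d0 v (Sum.inr (k, 2)) = Sum.inr (k, 2) := by
  have h : ∀ u : ℤˣ, (unitsHom (swap (0 : Fin 3) 1) (by decide)) u 2 = 2 := by decide
  show Sum.inr (k, (unitsHom (swap (0 : Fin 3) 1) (by decide)) (chi 0 v) 2) = _
  rw [h]

theorem d0_tD_inr (t : T) (z : Fin 4 × Fin 3) : d0 (tD t) (Sum.inr z) = Sum.inr z := by
  have h : chi 0 (tD t) = 1 := rfl
  show Sum.inr (z.1, (unitsHom (swap (0 : Fin 3) 1) (by decide)) (chi 0 (tD t)) z.2) = _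
  rw [h, map_one]
  rfl

/-- The base tile. -/
def Q0 : Piece X0 (Fin 4) where
  A := { a := a0, ha := aF_aF, d := d0 }
  port := ⟨fun i => Sum.inr (i, 2), fun i j h => by simpa using h⟩
  fix := fun v i => d0_inr2 v i

theorem Q0_port (i : Fin 4) : Q0.port i = Sum.inr (i, 2) := rfl

theorem Q0_a (x : X0) : Q0.A.a x = aF x := rfl

theorem inl_nonport (i : Fin 5) : (Sum.inl i : X0) ∉ Set.range Q0.port := by
  rintro ⟨j, h⟩
  rw [Q0_port] at h
  cases h

theorem inr0_nonport (k : Fin 4) : (Sum.inr (k, 0) : X0) ∉ Set.range Q0.port := by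
  rintro ⟨j, h⟩
  rw [Q0_port] at h
  simp at h

theorem inr1_nonport (k : Fin 4) : (Sum.inr (k, 1) : X0) ∉ Set.range Q0.port := by
  rintro ⟨j, h⟩
  rw [Q0_port] at h
  simp at h

/-- The base set `Om`. -/
def B0 : FS D (Fin 4) where
  a := swap 0 1 * swap 2 3
  ha := by decide
  d := (unitsHom (swap (1 : Fin 4) 2) (by decide)).comp (chi 0)

theorem B0_d (v : D) : B0.d v = (unitsHom (swap (1 : Fin 4) 2) (by decide)) (chi 0 v) := rfl

theorem B0_fixed : B0.Fixed 0 := by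
  intro v
  have h : ∀ u : ℤˣ, (unitsHom (swap (1 : Fin 4) 2) (by decide)) u 0 = 0 := by decide
  rw [B0_d, h]

theorem B0_tD (t : T) : B0.d (tD t) = 1 := by
  have h : chi 0 (tD t) = 1 := rfl
  rw [B0_d, h, map_one]

/-- The element of `D` with `chi 0 = -1`. -/
def dm : D := ((-1, 1), 1)

theorem B0_trans : B0.Trans := by
  have h1 : B0.Rel 0 1 := by
    have := FS.Rel.a B0 0
    have e : B0.a 0 = 1 := by decide
    rwa [e] at this
  have h2 : B0.Rel 1 2 := by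
    have := FS.Rel.d B0 dm 1
    have e : B0.d dm 1 = 2 := by decide
    rwa [e] at this
  have h3 : B0.Rel 2 3 := by
    have := FS.Rel.a B0 2
    have e : B0.a 2 = 3 := by decide
    rwa [e] at this
  have h : ∀ x, B0.Rel 0 x := by
    intro x
    fin_cases x
    · exact FS.Rel.refl _ _
    · exact h1
    · exact h1.trans h2
    · exact (h1.trans h2).trans h3
  intro x y
  exact (h x).symm.trans (h y)

theorem exists_t (k : Fin 4) : ∃ t : T, t.1 0 = k.succ := by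
  have h1 : (0 : Fin 5) ≠ k.succ := (Fin.succ_ne_zero k).symm
  have h2 : k.succ ≠ (k + 1).succ := by
    intro h
    have := Fin.succ_injective _ h
    revert this
    revert k
    decide
  refine ⟨⟨swap 0 k.succ * swap k.succ (k + 1).succ, ?_⟩, ?_⟩
  · rw [Perm.mem_alternatingGroup, map_mul, Perm.sign_swap h1, Perm.sign_swap h2]
    decide
  · show (swap 0 k.succ) ((swap k.succ (k + 1).succ) 0) = k.succ
    rw [swap_apply_of_ne_of_ne h1 (Fin.succ_ne_zero _).symm, swap_apply_left]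

theorem Q0_rel_inl (i : Fin 5) : Q0.A.Rel (Sum.inl 0) (Sum.inl i) := by
  refine Fin.cases ?_ (fun k => ?_) i
  · exact FS.Rel.refl _ _
  · obtain ⟨t, ht⟩ := exists_t k
    have := FS.Rel.d Q0.A (tD t) (Sum.inl 0)
    have e : Q0.A.d (tD t) (Sum.inl 0) = Sum.inl k.succ := by
      show d0 (tD t) (Sum.inl 0) = _
      rw [d0_inl]
      exact congrArg Sum.inl ht
    rwa [e] at this

theorem Q0_trans : Q0.A.Trans := by
  have h0 : ∀ k : Fin 4, Q0.A.Rel (Sum.inl 0) (Sum.inr (k, 0)) := fun k => by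
    have := FS.Rel.a Q0.A (Sum.inl k.succ)
    exact (Q0_rel_inl k.succ).trans this
  have h1 : ∀ k : Fin 4, Q0.A.Rel (Sum.inl 0) (Sum.inr (k, 1)) := fun k => by
    have := FS.Rel.d Q0.A dm (Sum.inr (k, 0))
    have e : ∀ k : Fin 4, d0 dm (Sum.inr (k, 0)) = Sum.inr (k, 1) := by decide
    have e' : Q0.A.d dm (Sum.inr (k, 0)) = Sum.inr (k, 1) := e k
    rw [e'] at this
    exact (h0 k).trans this
  have h2 : ∀ k : Fin 4, Q0.A.Rel (Sum.inl 0) (Sum.inr (k, 2)) := fun k => by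
    have := FS.Rel.a Q0.A (Sum.inr (k, 1))
    exact (h1 k).trans this
  have h : ∀ x, Q0.A.Rel (Sum.inl 0) x := by
    rintro (i | ⟨k, j⟩)
    · exact Q0_rel_inl i
    · fin_cases j
      · exact h0 k
      · exact h1 k
      · exact h2 k
  intro x y
  exact (h x).symm.trans (h y)

/-! ## The commutators -/

section comm
variable {A : FS D Y} (s : Atlas (MonoidHom.id D) Q0 A C)

theorem S_inl (t : T) (c : C) (i : Fin 5) :
    A.d (tD t) (s.e (c, Sum.inl i)) = s.e (c, Sum.inl (t.1 i)) :=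
  s.hd (tD t) c _ (inl_nonport i)

theorem S_inr0 (t : T) (c : C) (k : Fin 4) :
    A.d (tD t) (s.e (c, Sum.inr (k, 0))) = s.e (c, Sum.inr (k, 0)) := by
  rw [s.hd (tD t) c _ (inr0_nonport k)]
  show s.e (c, d0 (tD t) (Sum.inr (k, 0))) = _
  rw [d0_tD_inr]

theorem S_inr1 (t : T) (c : C) (k : Fin 4) :
    A.d (tD t) (s.e (c, Sum.inr (k, 1))) = s.e (c, Sum.inr (k, 1)) := by
  rw [s.hd (tD t) c _ (inr1_nonport k)]
  show s.e (c, d0 (tD t) (Sum.inr (k, 1))) = _
  rw [d0_tD_inr]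

theorem S_inr2 (t : T) (c : C) (k : Fin 4) :
    ∃ c' k', A.d (tD t) (s.e (c, Sum.inr (k, 2))) = s.e (c', Sum.inr (k', 2)) :=
  s.port_eq (tD t) c k

theorem S_inv (t : T) (y : Y) : A.d (tD t) (A.d (tD t⁻¹) y) = y := by
  have h : tD t * tD t⁻¹ = 1 := by
    show ((1 * 1, t * t⁻¹) : D) = 1
    rw [mul_inv_cancel]
    rfl
  rw [← Perm.mul_apply, ← map_mul, h, map_one, Perm.one_apply]

theorem a_inl0 (c : C) : A.a (s.e (c, Sum.inl 0)) = s.e (c, Sum.inl 0) := s.ha c _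
theorem a_inlS (c : C) (k : Fin 4) : A.a (s.e (c, Sum.inl k.succ)) = s.e (c, Sum.inr (k, 0)) :=
  s.ha c _
theorem a_inr0 (c : C) (k : Fin 4) : A.a (s.e (c, Sum.inr (k, 0))) = s.e (c, Sum.inl k.succ) :=
  s.ha c _
theorem a_inr1 (c : C) (k : Fin 4) : A.a (s.e (c, Sum.inr (k, 1))) = s.e (c, Sum.inr (k, 2)) :=
  s.ha c _
theorem a_inr2 (c : C) (k : Fin 4) : A.a (s.e (c, Sum.inr (k, 2))) = s.e (c, Sum.inr (k, 1)) :=
  s.ha c _

end comm

/-- The conjugated element. -/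
def hw (t : T) : F := letF none * letF (some (tD t)) * letF none

theorem hom_hw (A : FS D Y) (t : T) (y : Y) : A.hom (hw t) y = A.a (A.d (tD t) (A.a y)) := by
  rw [hw, map_mul, map_mul, Perm.mul_apply, Perm.mul_apply, FS.hom_letF, FS.hom_letF]
  rfl

/-- The commutator. -/
def cw (t t' : T) : F := letF (some (tD t)) * hw t' * letF (some (tD t⁻¹)) * hw t'⁻¹

theorem hom_cw (A : FS D Y) (t t' : T) (y : Y) :
    A.hom (cw t t') y = A.d (tD t) (A.hom (hw t') (A.d (tD t⁻¹) (A.hom (hw t'⁻¹) y))) := by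
  rw [cw, map_mul, map_mul, map_mul, Perm.mul_apply, Perm.mul_apply, Perm.mul_apply, FS.hom_letF,
    FS.hom_letF]
  rfl

theorem hw_inv (A : FS D Y) (t : T) (y : Y) : A.hom (hw t) (A.hom (hw t⁻¹) y) = y := by
  rw [hom_hw, hom_hw, A.ha, S_inv, A.ha]

theorem tinv_ne {t : T} {k : Fin 4} (ht : t.1 0 = k.succ) : ∃ m : Fin 4, (t⁻¹).1 0 = m.succ := by
  have h : (t⁻¹).1 0 ≠ 0 := by
    intro h
    have h2 : t.1 ((t⁻¹).1 0) = t.1 0 := by rw [h]
    have h3 : t.1 ((t⁻¹).1 0) = 0 := by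
      show t.1 (t.1⁻¹ 0) = 0
      simp
    rw [h3, ht] at h2
    exact (Fin.succ_ne_zero k) h2.symm
  exact ⟨((t⁻¹).1 0).pred h, (Fin.succ_pred _ h).symm⟩

theorem t_tinv (t : T) (i : Fin 5) : t.1 ((t⁻¹).1 i) = i := by
  show t.1 (t.1⁻¹ i) = i
  simp

theorem cw_acts {t t' : T} {k l : Fin 4} (ht : t.1 0 = k.succ) (ht' : t'.1 0 = l.succ) :
    ActsBy Q0 (cw t t') (c3 (Sum.inl 0) (Sum.inl k.succ) (Sum.inr (l, 0))) := by
  intro Y C A s c x
  have n1 : (Sum.inl 0 : X0) ≠ Sum.inl k.succ := by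
    intro h
    exact (Fin.succ_ne_zero k) (Sum.inl_injective h).symm
  have n2 : (Sum.inl k.succ : X0) ≠ Sum.inr (l, 0) := by
    intro h; cases h
  have n3 : (Sum.inl 0 : X0) ≠ Sum.inr (l, 0) := by
    intro h; cases h
  obtain ⟨q1, q2, q3, q4⟩ := c3_apply n1 n2 n3
  obtain ⟨m, hm⟩ := tinv_ne ht
  obtain ⟨m', hm'⟩ := tinv_ne ht'
  rw [hom_cw]
  rcases x with i | ⟨j, i⟩
  · refine Fin.cases ?_ (fun j => ?_) i
    · rw [q1, hom_hw A t'⁻¹, a_inl0, S_inl, hm', a_inlS, S_inr0, hom_hw, a_inr0, S_inl, ← hm',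
        t_tinv, a_inl0, S_inl, ht]
    · rw [hom_hw A t'⁻¹, a_inlS, S_inr0, a_inr0, S_inl]
      by_cases hj : (t⁻¹).1 j.succ = 0
      · have hjk : j = k := by
          have h2 := t_tinv t j.succ
          rw [hj, ht] at h2
          exact (Fin.succ_injective _ h2).symm
        subst hjk
        rw [hj, q2, hom_hw, a_inl0, S_inl, ht', a_inlS, S_inr0]
      · obtain ⟨i', hi'⟩ : ∃ i' : Fin 4, (t⁻¹).1 j.succ = i'.succ :=
          ⟨_, (Fin.succ_pred _ hj).symm⟩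
        have hjk : j ≠ k := by
          rintro rfl
          apply hj
          rw [← ht]
          show t.1⁻¹ (t.1 0) = 0
          simp
        rw [hi', hom_hw, a_inlS, S_inr0, a_inr0, S_inl, ← hi', t_tinv, q4]
        · intro h; exact (Fin.succ_ne_zero j) (Sum.inl_injective h)
        · intro h; exact hjk (Fin.succ_injective _ (Sum.inl_injective h))
        · intro h; cases h
  · fin_cases i
    · show A.d (tD t) (A.hom (hw t') (A.d (tD t⁻¹) (A.hom (hw t'⁻¹) (s.e (c, Sum.inr (j, 0)))))) =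
        s.e (c, c3 (Sum.inl 0) (Sum.inl k.succ) (Sum.inr (l, 0)) (Sum.inr (j, 0)))
      by_cases hj : (t'⁻¹).1 j.succ = 0
      · have hjl : j = l := by
          have h2 := t_tinv t' j.succ
          rw [hj, ht'] at h2
          exact (Fin.succ_injective _ h2).symm
        subst hjl
        rw [hom_hw A t'⁻¹, a_inr0, S_inl, hj, a_inl0, S_inl, hm, hom_hw, a_inlS, S_inr0, a_inr0,
          S_inl, ← hm, t_tinv, q3]
      · obtain ⟨i', hi'⟩ : ∃ i' : Fin 4, (t'⁻¹).1 j.succ = i'.succ :=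
          ⟨_, (Fin.succ_pred _ hj).symm⟩
        have hjl : j ≠ l := by
          rintro rfl
          apply hj
          rw [← ht']
          show t'.1⁻¹ (t'.1 0) = 0
          simp
        rw [hom_hw A t'⁻¹, a_inr0, S_inl, hi', a_inlS, S_inr0, hom_hw, a_inr0, S_inl, ← hi',
          t_tinv, a_inlS, S_inr0, q4]
        · intro h; cases h
        · intro h; cases h
        · intro h
          exact hjl (Prod.mk.inj (Sum.inr_injective h)).1
    · show A.d (tD t) (A.hom (hw t') (A.d (tD t⁻¹) (A.hom (hw t'⁻¹) (s.e (c, Sum.inr (j, 1)))))) =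
        s.e (c, c3 (Sum.inl 0) (Sum.inl k.succ) (Sum.inr (l, 0)) (Sum.inr (j, 1)))
      have h1 : A.d (tD t⁻¹) (A.hom (hw t'⁻¹) (s.e (c, Sum.inr (j, 1)))) =
          A.hom (hw t'⁻¹) (s.e (c, Sum.inr (j, 1))) := by
        rw [hom_hw, a_inr1]
        obtain ⟨c', k', h⟩ := S_inr2 s t'⁻¹ c j
        rw [h, a_inr2, S_inr1]
      rw [h1, hw_inv, S_inr1, q4]
      · intro h; cases h
      · intro h; cases h
      · intro h
        exact absurd (Prod.mk.inj (Sum.inr_injective h)).2 (by decide)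
    · show A.d (tD t) (A.hom (hw t') (A.d (tD t⁻¹) (A.hom (hw t'⁻¹) (s.e (c, Sum.inr (j, 2)))))) =
        s.e (c, c3 (Sum.inl 0) (Sum.inl k.succ) (Sum.inr (l, 0)) (Sum.inr (j, 2)))
      have h0 : ∀ (t'' : T) (c' : C) (k' : Fin 4), A.hom (hw t'') (s.e (c', Sum.inr (k', 2))) =
          s.e (c', Sum.inr (k', 2)) := by
        intro t'' c' k'
        rw [hom_hw, a_inr2, S_inr1, a_inr1]
      rw [h0]
      obtain ⟨c', k', h⟩ := S_inr2 s t⁻¹ c j
      rw [h, h0, ← h, S_inv, q4]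
      · intro h; cases h
      · intro h; cases h
      · intro h
        exact absurd (Prod.mk.inj (Sum.inr_injective h)).2 (by decide)

theorem B0_hw (t : T) (y : Fin 4) : B0.hom (hw t) y = y := by
  rw [hom_hw, B0_tD, Perm.one_apply, B0.ha]

theorem B0_cw (t t' : T) : B0.hom (cw t t') = 1 := by
  ext1 y
  rw [hom_cw, B0_hw, B0_hw, B0_tD, B0_tD]
  rfl

theorem cw_lampless (t t' : T) : Lampless Q0 (Q0.port 2) B0 0 (cw t t') := by
  classical
  intro Y C A s c0 z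
  by_cases hf : (B0.prod A).Fixed (0, s.e (c0, Q0.port 2))
  · have hlw : ∀ (u : T) (y : Fin 4 × Y), (B0.prod A).lam (0, s.e (c0, Q0.port 2)) (hw u) y =
        if (B0.prod A).a y = (0, s.e (c0, Q0.port 2)) then u else 1 := by
      intro u y
      rw [hw, FS.lam_mul, FS.lam_mul, FS.lam_a, FS.lam_a, one_mul, mul_one, FS.lam_d _ hf,
        FS.hom_letF]
      by_cases hy : (B0.prod A).a y = (0, s.e (c0, Q0.port 2))
      · rw [if_pos hy]; exact if_pos hy
      · rw [if_neg hy]; exact if_neg hy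
    have hinj : ∀ (g : Perm (Fin 4 × Y)) (x y : Fin 4 × Y), g x = x → (g y = x ↔ y = x) := by
      intro g x y hx
      exact ⟨fun h => g.injective (by rw [h, hx]), fun h => by rw [h, hx]⟩
    -- the point `a j` is fixed by `T`
    have haj : ∀ u : T, (B0.prod A).d (tD u) ((B0.prod A).a (0, s.e (c0, Q0.port 2))) =
        (B0.prod A).a (0, s.e (c0, Q0.port 2)) := by
      intro u
      show ((B0.d (tD u) (B0.a 0), A.d (tD u) (A.a (s.e (c0, Sum.inr (2, 2))))) : Fin 4 × Y) =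
        (B0.a 0, A.a (s.e (c0, Sum.inr (2, 2))))
      rw [B0_tD, a_inr2, S_inr1, Perm.one_apply]
    have hj : ∀ u : T, (B0.prod A).hom (hw u) (0, s.e (c0, Q0.port 2)) =
        (0, s.e (c0, Q0.port 2)) := by
      intro u
      rw [hom_hw, haj, (B0.prod A).ha]
    have hne : (B0.prod A).a (0, s.e (c0, Q0.port 2)) ≠ (0, s.e (c0, Q0.port 2)) := by
      intro h
      have h1 : B0.a 0 = 0 := congrArg Prod.fst h
      exact absurd h1 (by decide)
    have hd : ∀ v : D, (B0.prod A).hom (letF (some v)) = (B0.prod A).d v := by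
      intro v
      rw [FS.hom_letF]
      rfl
    have hhw : ∀ (u : T) (y : Fin 4 × Y), (B0.prod A).a ((B0.prod A).hom (hw u) y) =
        (B0.prod A).d (tD u) ((B0.prod A).a y) := by
      intro u y
      rw [hom_hw, (B0.prod A).ha]
    rw [cw, FS.lam_mul, FS.lam_mul, FS.lam_mul, hlw, hlw, FS.lam_d _ hf, FS.lam_d _ hf, hd]
    rw [hinj _ _ _ (hj t'), hinj _ _ _ (hf (tD t⁻¹)), hinj _ _ _ (hj t'⁻¹)]
    have e1 : (B0.prod A).a ((B0.prod A).d (tD t⁻¹) ((B0.prod A).hom (hw t'⁻¹) z)) =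
        (0, s.e (c0, Q0.port 2)) ↔ (B0.prod A).a z = (0, s.e (c0, Q0.port 2)) := by
      have e2 : ∀ y, (B0.prod A).a y = (0, s.e (c0, Q0.port 2)) ↔
          y = (B0.prod A).a (0, s.e (c0, Q0.port 2)) := by
        intro y
        constructor
        · intro h; rw [← h, (B0.prod A).ha]
        · intro h; rw [h, (B0.prod A).ha]
      rw [e2, hinj _ _ _ (haj t⁻¹), ← e2, hhw, hinj _ _ _ (hf (tD t'⁻¹))]
    rw [if_congr e1 rfl rfl]
    by_cases h1 : z = (0, s.e (c0, Q0.port 2))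
    · subst h1
      rw [if_pos rfl, if_pos rfl, if_neg hne, if_neg hne]
      show t * 1 * t⁻¹ * 1 = 1
      simp
    · rw [if_neg h1, if_neg h1]
      by_cases h2 : (B0.prod A).a z = (0, s.e (c0, Q0.port 2))
      · rw [if_pos h2, if_pos h2]
        simp
      · rw [if_neg h2, if_neg h2]
        simp
  · exact FS.lam_not_fixed _ hf _ _

theorem cw_good {t t' : T} {k l : Fin 4} (ht : t.1 0 = k.succ) (ht' : t'.1 0 = l.succ) :
    Good Q0 B0 0 (c3 (Sum.inl 0) (Sum.inl k.succ) (Sum.inr (l, 0))) (cw t t') :=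
  ⟨⟨cw_acts ht ht', cw_lampless t t'⟩, B0_cw t t'⟩

/-- The group of permutations of the tile realized by good elements. -/
def G0 : Subgroup (Perm X0) where
  carrier := {φ | ∃ w : F, Good Q0 B0 0 φ w}
  mul_mem' := by
    rintro φ ψ ⟨w, h⟩ ⟨w', h'⟩
    exact ⟨w * w', h.mul h'⟩
  one_mem' := ⟨1, Good.one⟩
  inv_mem' := by
    rintro φ ⟨w, h⟩
    exact ⟨w⁻¹, h.inv⟩

theorem c3_G0 (k l : Fin 4) : c3 (Sum.inl 0) (Sum.inl k.succ) (Sum.inr (l, 0)) ∈ G0 := by
  obtain ⟨t, ht⟩ := exists_t k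
  obtain ⟨t', ht'⟩ := exists_t l
  exact ⟨cw t t', cw_good ht ht'⟩

theorem cy_inlS (k : Fin 4) : Cy G0 (Sum.inl 0) (Sum.inl k.succ) := by
  refine (Cy.of_c3 ?_ ?_ ?_ (c3_G0 k 0)).1
  · intro h
    exact (Fin.succ_ne_zero k) (Sum.inl_injective h).symm
  · intro h; cases h
  · intro h; cases h

theorem cy_inr0 (l : Fin 4) : Cy G0 (Sum.inl 0) (Sum.inr (l, 0)) := by
  refine (Cy.of_c3 ?_ ?_ ?_ (c3_G0 0 l)).2.1
  · intro h
    exact (Fin.succ_ne_zero 0) (Sum.inl_injective h).symm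
  · intro h; cases h
  · intro h; cases h

theorem cy_inl (i : Fin 5) : Cy G0 (Sum.inl 0) (Sum.inl i) := by
  refine Fin.cases ?_ (fun k => ?_) i
  · exact Or.inl rfl
  · exact cy_inlS k

theorem exists_two (u : X0) : ∃ k k' : Fin 4, u ≠ Sum.inl k.succ ∧ u ≠ Sum.inl k'.succ ∧
    (Sum.inl k.succ : X0) ≠ Sum.inl k'.succ := by
  revert u
  decide

theorem cy_a (u : X0) (hu : Cy G0 (Sum.inl 0) u) : Cy G0 (Sum.inl 0) (Q0.A.a u) := by
  obtain ⟨k, k', h1, h2, h3⟩ := exists_two u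
  have hc : c3 u (Sum.inl k.succ) (Sum.inl k'.succ) ∈ G0 :=
    c3_mem h1 h3 h2 (hu.symm.trans (cy_inlS k)) ((cy_inlS k).symm.trans (cy_inlS k'))
  obtain ⟨w, hw⟩ := hc
  have h4 := Good.conj_semi (Semi.a (Q := Q0) (B := B0) (om := 0)) hw
  rw [conj_c3] at h4
  have h5 : c3 (Q0.A.a u) (Q0.A.a (Sum.inl k.succ)) (Q0.A.a (Sum.inl k'.succ)) ∈ G0 := ⟨_, h4⟩
  have h6 := (Cy.of_c3 (fun h => h1 (Q0.A.a.injective h)) (fun h => h3 (Q0.A.a.injective h))
    (fun h => h2 (Q0.A.a.injective h)) h5).1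
  have h7 : Cy G0 (Sum.inl 0) (Q0.A.a (Sum.inl k.succ)) := cy_inr0 k
  exact h7.trans h6.symm

theorem cy_d (v : D) (u : X0) (hu : Cy G0 (Sum.inl 0) u) : Cy G0 (Sum.inl 0) (Q0.A.d v u) := by
  by_cases hp : u ∈ Set.range Q0.port
  · obtain ⟨i, rfl⟩ := hp
    rw [Q0.fix]
    exact hu
  obtain ⟨k, k', h1, h2, h3⟩ := exists_two u
  have hc : c3 u (Sum.inl k.succ) (Sum.inl k'.succ) ∈ G0 :=
    c3_mem h1 h3 h2 (hu.symm.trans (cy_inlS k)) ((cy_inlS k).symm.trans (cy_inlS k'))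
  obtain ⟨w, hw⟩ := hc
  have hfix : ∀ i, c3 u (Sum.inl k.succ) (Sum.inl k'.succ) (Q0.port i) = Q0.port i := by
    intro i
    refine (c3_apply h1 h3 h2).2.2.2 _ ?_ ?_ ?_
    · intro h; exact hp ⟨i, h⟩
    · intro h; cases h
    · intro h; cases h
  have h4 := Good.conj_d hw hfix v
  rw [conj_c3] at h4
  have h5 : c3 (Q0.A.d v u) (Q0.A.d v (Sum.inl k.succ)) (Q0.A.d v (Sum.inl k'.succ)) ∈ G0 := ⟨_, h4⟩
  have h6 := (Cy.of_c3 (fun h => h1 ((Q0.A.d v).injective h)) (fun h => h3 ((Q0.A.d v).injective h))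
    (fun h => h2 ((Q0.A.d v).injective h)) h5).1
  have h7 : Cy G0 (Sum.inl 0) (Q0.A.d v (Sum.inl k.succ)) := by
    show Cy G0 (Sum.inl 0) (d0 v (Sum.inl k.succ))
    rw [d0_inl]
    exact cy_inl _
  exact h7.trans h6.symm

theorem cy_all (x y : X0) : Cy G0 x y := by
  have h : ∀ x : X0, Cy G0 (Sum.inl 0) x := fun x =>
    FS.Trans.eq_univ Q0_trans (S := {u | Cy G0 (Sum.inl 0) u}) cy_a cy_d (Sum.inl 0)
      (Or.inl rfl) x
  exact (h x).symm.trans (h y)

theorem even0 : 4 ∣ Nat.card {x : X0 // Q0.A.a x ≠ x} := by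
  have h : Nat.card {x : X0 // aF x ≠ x} = 16 := by
    rw [Nat.card_eq_fintype_card]
    decide
  have h2 : Nat.card {x : X0 // Q0.A.a x ≠ x} = 16 := h
  rw [h2]
  exact ⟨4, rfl⟩

/-- The base stage. -/
noncomputable def S0 : Stage where
  X := X0
  Om := Fin 4
  Q := Q0
  B := B0
  om := 0
  om_fix := B0_fixed
  trX := Q0_trans
  trO := B0_trans
  cardO := by rw [Nat.card_eq_fintype_card]; decide
  tfix := by
    refine ⟨⟨fun i => Sum.inr ((finProdFinEquiv (m := 4) (n := 2)).symm i |>.1,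
      ((finProdFinEquiv (m := 4) (n := 2)).symm i).2.castSucc), ?_⟩, ?_⟩
    · intro i j h
      have h1 := Prod.mk.inj (Sum.inr_injective h)
      apply (finProdFinEquiv (m := 4) (n := 2)).symm.injective
      exact Prod.ext h1.1 (Fin.castSucc_injective _ h1.2)
    · intro i
      refine ⟨?_, fun t => d0_tD_inr t _⟩
      rintro ⟨j, h⟩
      rw [Q0_port] at h
      have h1 := (Prod.mk.inj (Sum.inr_injective h)).2
      have h2 : ∀ j : Fin 2, (2 : Fin 3) ≠ j.castSucc := by decide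
      exact h2 _ h1
  even := even0
  good := fun φ hφ => alt_le_of_cy cy_all hφ

end Base

theorem exists_stage : Nonempty Stage := ⟨Base.S0⟩

end Pool.Agent.HJI
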