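import Pool.Agent.Lib.MP_377081_al.Defs

/-!
# Basic lemmas: words, orbits, cocycles, gluings, atlases
-/

set_option autoImplicit false

namespace Pool.Agent.HJI

open Equiv

variable {L X Y Z Om P P' C C0 : Type} [Group L]

/-! ## Words -/

theorem FS.ev_nil (A : FS L X) : A.ev [] = 1 := rfl

theorem FS.ev_cons (A : FS L X) (s : Option L) (l : List (Option L)) :
    A.ev (s :: l) = A.step s * A.ev l := by simp [FS.ev]

theorem FS.ev_append (A : FS L X) (l l' : List (Option L)) :
    A.ev (l ++ l') = A.ev l * A.ev l' := by simp [FS.ev]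

theorem wd_nil : wd [] = 1 := rfl

theorem wd_cons (s : Option D) (l : List (Option D)) : wd (s :: l) = letF s * wd l := by simp [wd]

theorem wd_append (l l' : List (Option D)) : wd (l ++ l') = wd l * wd l' := by simp [wd]

@[simp] theorem FS.hom_a (A : FS D X) : A.hom (Monoid.Coprod.inl (-1)) = A.a := by
  simp only [FS.hom, Monoid.Coprod.lift_apply_inl, unitsHom]
  simp

@[simp] theorem FS.hom_d (A : FS D X) (v : D) : A.hom (Monoid.Coprod.inr v) = A.d v := by
  simp only [FS.hom, Monoid.Coprod.lift_apply_inr]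

theorem FS.hom_letF (A : FS D X) (s : Option D) : A.hom (letF s) = A.step s := by
  cases s <;> simp [letF, FS.step]

theorem FS.hom_wd (A : FS D X) (l : List (Option D)) : A.hom (wd l) = A.ev l := by
  induction l with
  | nil => simp [wd_nil, FS.ev_nil]
  | cons s l ih => rw [wd_cons, map_mul, A.hom_letF, ih, A.ev_cons]

/-- The inverse letter. -/
def invL : Option L → Option L
  | none => none
  | some v => some v⁻¹

/-- The inverse word. -/
def invw (l : List (Option L)) : List (Option L) := (l.map invL).reverse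

theorem invw_length (l : List (Option L)) : (invw l).length = l.length := by simp [invw]

theorem FS.step_invL (A : FS L X) (s : Option L) : A.step (invL s) = (A.step s)⁻¹ := by
  cases s with
  | none =>
    simp only [invL, FS.step]
    rw [eq_inv_iff_mul_eq_one]
    ext1 x
    exact A.ha x
  | some v => simp [invL, FS.step]

theorem FS.ev_invw (A : FS L X) (l : List (Option L)) : A.ev (invw l) = (A.ev l)⁻¹ := by
  induction l with
  | nil => simp [invw, FS.ev_nil]
  | cons s l ih =>
    have : invw (s :: l) = invw l ++ [invL s] := by simp [invw]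
    rw [this, A.ev_append, ih, A.ev_cons, A.ev_cons, mul_inv_rev, A.ev_nil, mul_one, A.step_invL]

theorem letF_invL (s : Option D) : letF (invL s) = (letF s)⁻¹ := by
  cases s with
  | none =>
    simp only [invL, letF]
    rw [eq_inv_iff_mul_eq_one, ← map_mul]
    simp
  | some v => simp [invL, letF]

theorem wd_invw (l : List (Option D)) : wd (invw l) = (wd l)⁻¹ := by
  induction l with
  | nil => simp [invw, wd_nil]
  | cons s l ih =>
    have : invw (s :: l) = invw l ++ [invL s] := by simp [invw]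
    rw [this, wd_append, ih, wd_cons, wd_cons, mul_inv_rev, wd_nil, mul_one, letF_invL]

/-- Induction on elements of `F` (letters on the left). -/
theorem F_induction {p : F → Prop} (h1 : p 1) (h2 : ∀ s w, p w → p (letF s * w)) (w : F) : p w := by
  induction w using Monoid.Coprod.induction_on' with
  | one => exact h1
  | inl_mul m w ih =>
    rcases Int.units_eq_one_or m with rfl | rfl
    · simpa using ih
    · exact h2 none w ih
  | inr_mul n w ih => exact h2 (some n) w ih

theorem wd_surj (w : F) : ∃ l, wd l = w := by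
  induction w using F_induction with
  | h1 => exact ⟨[], rfl⟩
  | h2 s w ih =>
    obtain ⟨l, rfl⟩ := ih
    exact ⟨s :: l, wd_cons s l⟩

/-- Two homomorphisms from `F` agreeing on letters are equal. -/
theorem F_hom_ext {G : Type} [Group G] {f g : F →* G} (h : ∀ s, f (letF s) = g (letF s)) : f = g := by
  refine DFunLike.ext _ _ fun w => ?_
  induction w using F_induction with
  | h1 => simp
  | h2 s w ih => rw [map_mul, map_mul, h, ih]

theorem mem_Ball_one (r : ℕ) : (1 : F) ∈ Ball r := ⟨[], by simp, rfl⟩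

theorem Ball_mono {r r' : ℕ} (h : r ≤ r') : Ball r ⊆ Ball r' := fun _ ⟨l, hl, hw⟩ => ⟨l, hl.trans h, hw⟩

theorem mul_mem_Ball {r r' : ℕ} {w w' : F} (h : w ∈ Ball r) (h' : w' ∈ Ball r') :
    w * w' ∈ Ball (r + r') := by
  obtain ⟨l, hl, rfl⟩ := h
  obtain ⟨l', hl', rfl⟩ := h'
  exact ⟨l ++ l', by simp; omega, wd_append l l'⟩

theorem inv_mem_Ball {r : ℕ} {w : F} (h : w ∈ Ball r) : w⁻¹ ∈ Ball r := by
  obtain ⟨l, hl, rfl⟩ := h
  exact ⟨invw l, by rw [invw_length]; exact hl, wd_invw l⟩

theorem exists_mem_Ball (w : F) : ∃ r, w ∈ Ball r := by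
  obtain ⟨l, rfl⟩ := wd_surj w
  exact ⟨l.length, l, le_rfl, rfl⟩

instance D_finite : Finite D := inferInstance

theorem Ball_finite (r : ℕ) : (Ball r).Finite := by
  have : Ball r = wd '' {l : List (Option D) | l.length ≤ r} := by
    ext w
    simp [Ball]
  rw [this]
  exact (List.finite_length_le (Option D) r).image _

/-! ## Trajectories -/

theorem FS.Avoid.cons {A : FS L X} {s : Option L} {l : List (Option L)} {x : X} {S : Set X} :
    A.Avoid (s :: l) x S ↔ A.ev (s :: l) x ∉ S ∧ A.Avoid l x S := by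
  constructor
  · intro h
    exact ⟨h _ (List.suffix_refl _), fun l' hl' => h l' (hl'.trans (List.suffix_cons s l))⟩
  · rintro ⟨h1, h2⟩ l' hl'
    rw [List.suffix_cons_iff] at hl'
    rcases hl' with rfl | hl'
    · exact h1
    · exact h2 l' hl'

theorem FS.Avoid.nil {A : FS L X} {x : X} {S : Set X} : A.Avoid [] x S ↔ x ∉ S := by
  constructor
  · intro h
    simpa [FS.ev_nil] using h [] (List.suffix_refl _)
  · intro h l' hl'
    rw [List.suffix_nil] at hl'
    subst hl'
    simpa [FS.ev_nil] using h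

theorem FS.Avoid.start {A : FS L X} {l : List (Option L)} {x : X} {S : Set X} (h : A.Avoid l x S) :
    x ∉ S := by simpa [FS.ev_nil] using h [] (List.nil_suffix)

theorem FS.Avoid.end {A : FS L X} {l : List (Option L)} {x : X} {S : Set X} (h : A.Avoid l x S) :
    A.ev l x ∉ S := h l (List.suffix_refl _)

theorem FS.Avoid.mono {A : FS L X} {l : List (Option L)} {x : X} {S S' : Set X} (h : A.Avoid l x S)
    (hS : S' ⊆ S) : A.Avoid l x S' := fun l' hl' h' => h l' hl' (hS h')

/-- If `β` intertwines the letters off the bad set, it intertwines words along trajectories avoiding the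
bad set. -/
theorem lockstep {A : FS L X} {B : FS L Y} {β : X → Y} {Bad : Set X}
    (ha : ∀ x, β (A.a x) = B.a (β x)) (hd : ∀ v x, x ∉ Bad → β (A.d v x) = B.d v (β x))
    (l : List (Option L)) (x : X) (h : A.Avoid l x Bad) : β (A.ev l x) = B.ev l (β x) := by
  induction l with
  | nil => rfl
  | cons s l ih =>
    rw [FS.Avoid.cons] at h
    rw [A.ev_cons, B.ev_cons, Perm.mul_apply, Perm.mul_apply, ← ih h.2]
    cases s with
    | none => exact ha _
    | some v => exact hd v _ h.2.end

/-- A global intertwiner. -/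
theorem intertwine {A : FS L X} {B : FS L Y} {β : X → Y}
    (ha : ∀ x, β (A.a x) = B.a (β x)) (hd : ∀ v x, β (A.d v x) = B.d v (β x))
    (l : List (Option L)) (x : X) : β (A.ev l x) = B.ev l (β x) :=
  lockstep (Bad := ∅) ha (fun v x _ => hd v x) l x (fun _ _ => id)

theorem intertwine_hom {A : FS D X} {B : FS D Y} {β : X → Y}
    (ha : ∀ x, β (A.a x) = B.a (β x)) (hd : ∀ v x, β (A.d v x) = B.d v (β x))
    (w : F) (x : X) : β (A.hom w x) = B.hom w (β x) := by
  obtain ⟨l, rfl⟩ := wd_surj w
  rw [A.hom_wd, B.hom_wd]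
  exact intertwine ha hd l x

/-! ## Orbits -/

/-- A set closed under the letters is invariant. -/
theorem FS.closed_hom {A : FS D X} {S : Set X} (ha : ∀ x ∈ S, A.a x ∈ S)
    (hd : ∀ v, ∀ x ∈ S, A.d v x ∈ S) (w : F) (x : X) (hx : x ∈ S) : A.hom w x ∈ S := by
  induction w using F_induction with
  | h1 => simpa using hx
  | h2 s w ih =>
    rw [map_mul, Perm.mul_apply, A.hom_letF]
    cases s with
    | none => exact ha _ ih
    | some v => exact hd v _ ih

/-- In a transitive set a nonempty set closed under the letters is everything. -/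
theorem FS.Trans.eq_univ {A : FS D X} (h : A.Trans) {S : Set X} (ha : ∀ x ∈ S, A.a x ∈ S)
    (hd : ∀ v, ∀ x ∈ S, A.d v x ∈ S) (x : X) (hx : x ∈ S) (y : X) : y ∈ S := by
  obtain ⟨w, rfl⟩ := h x y
  exact FS.closed_hom ha hd w x hx

/-- The orbit relation. -/
def FS.Rel (A : FS D X) (x y : X) : Prop := ∃ w : F, A.hom w x = y

theorem FS.Rel.refl (A : FS D X) (x : X) : A.Rel x x := ⟨1, by simp⟩

theorem FS.Rel.symm {A : FS D X} {x y : X} (h : A.Rel x y) : A.Rel y x := by
  obtain ⟨w, rfl⟩ := h
  exact ⟨w⁻¹, by simp⟩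

theorem FS.Rel.trans {A : FS D X} {x y z : X} (h : A.Rel x y) (h' : A.Rel y z) : A.Rel x z := by
  obtain ⟨w, rfl⟩ := h
  obtain ⟨w', rfl⟩ := h'
  exact ⟨w' * w, by simp⟩

theorem FS.Rel.a (A : FS D X) (x : X) : A.Rel x (A.a x) := ⟨letF none, by simp [A.hom_letF, FS.step]⟩

theorem FS.Rel.d (A : FS D X) (v : D) (x : X) : A.Rel x (A.d v x) :=
  ⟨letF (some v), by simp [A.hom_letF, FS.step]⟩

/-! ## Products and cocycles -/

theorem FS.prod_step (A : FS L X) (B : FS L Y) (s : Option L) (x : X) (y : Y) :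
    (A.prod B).step s (x, y) = (A.step s x, B.step s y) := by
  cases s <;> rfl

theorem FS.prod_ev (A : FS L X) (B : FS L Y) (l : List (Option L)) (x : X) (y : Y) :
    (A.prod B).ev l (x, y) = (A.ev l x, B.ev l y) := by
  induction l with
  | nil => rfl
  | cons s l ih => simp only [FS.ev_cons, Perm.mul_apply, ih, FS.prod_step]

theorem FS.prod_hom (A : FS D X) (B : FS D Y) (w : F) (x : X) (y : Y) :
    (A.prod B).hom w (x, y) = (A.hom w x, B.hom w y) := by
  obtain ⟨l, rfl⟩ := wd_surj w
  simp only [FS.hom_wd, FS.prod_ev]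

theorem FS.prod_fixed {A : FS L X} {B : FS L Y} {x : X} {y : Y} :
    (A.prod B).Fixed (x, y) ↔ A.Fixed x ∧ B.Fixed y := by
  constructor
  · intro h
    exact ⟨fun v => congrArg Prod.fst (h v), fun v => congrArg Prod.snd (h v)⟩
  · rintro ⟨h1, h2⟩ v
    exact Prod.ext (h1 v) (h2 v)

theorem FS.lamp_step (A : FS D Y) (j : Y) (s : Option D) (y : Y) (t : T) :
    (A.lamp j).step s (y, t) = (A.step s y, ((A.lamp j).step s (y, 1)).2 * t) := by
  cases s with
  | none => simp [FS.step, FS.lamp]
  | some v => simp [FS.step, FS.lamp]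

theorem FS.lamp_hom (A : FS D Y) (j : Y) (w : F) (y : Y) (t : T) :
    (A.lamp j).hom w (y, t) = (A.hom w y, A.lam j w y * t) := by
  induction w using F_induction generalizing t with
  | h1 => simp [FS.lam]
  | h2 s w ih =>
    have h1 : ∀ t, (A.lamp j).hom (letF s * w) (y, t) =
        (A.hom (letF s * w) y, ((A.lamp j).step s (A.hom w y, 1)).2 * (A.lam j w y * t)) := by
      intro t
      rw [map_mul, Perm.mul_apply, ih, FS.hom_letF, FS.lamp_step, map_mul, Perm.mul_apply, FS.hom_letF]
    rw [FS.lam, h1 t, h1 1]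
    simp [mul_assoc]

theorem FS.lam_one (A : FS D Y) (j : Y) (y : Y) : A.lam j 1 y = 1 := by simp [FS.lam]

theorem FS.lam_mul (A : FS D Y) (j : Y) (w w' : F) (y : Y) :
    A.lam j (w * w') y = A.lam j w (A.hom w' y) * A.lam j w' y := by
  have h := A.lamp_hom j (w * w') y 1
  rw [map_mul, Perm.mul_apply, A.lamp_hom, A.lamp_hom] at h
  simpa using (congrArg Prod.snd h).symm

theorem FS.lam_inv (A : FS D Y) (j : Y) (w : F) (y : Y) :
    A.lam j w⁻¹ y = (A.lam j w (A.hom w⁻¹ y))⁻¹ := by
  have h := A.lam_mul j w w⁻¹ y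
  rw [mul_inv_cancel, A.lam_one] at h
  exact eq_inv_of_mul_eq_one_right h.symm

theorem FS.lam_a (A : FS D Y) (j : Y) (y : Y) : A.lam j (letF none) y = 1 := by
  simp [FS.lam, FS.hom_letF, FS.step, FS.lamp]

open Classical in
theorem FS.lam_d (A : FS D Y) {j : Y} (hj : A.Fixed j) (v : D) (y : Y) :
    A.lam j (letF (some v)) y = if y = j then v.2 else 1 := by
  simp [FS.lam, FS.hom_letF, FS.step, FS.lamp, hj]

/-- Without a fixed lamp point there are no lamps. -/
theorem FS.lam_not_fixed (A : FS D Y) {j : Y} (hj : ¬ A.Fixed j) (w : F) (y : Y) :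
    A.lam j w y = 1 := by
  induction w using F_induction with
  | h1 => exact A.lam_one j y
  | h2 s w ih =>
    rw [A.lam_mul, ih, mul_one]
    cases s with
    | none => exact A.lam_a j _
    | some v => simp [FS.lam, FS.hom_letF, FS.step, FS.lamp, hj]

/-- Naturality of the cocycle under injective equivariant maps. -/
theorem FS.lam_map {A : FS D X} {B : FS D Y} {β : X → Y} (hβ : Function.Injective β)
    (ha : ∀ x, β (A.a x) = B.a (β x)) (hd : ∀ v x, β (A.d v x) = B.d v (β x)) (j : X)
    (w : F) (x : X) : B.lam (β j) w (β x) = A.lam j w x := by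
  have hf : B.Fixed (β j) ↔ A.Fixed j := by
    constructor
    · intro h v
      exact hβ (by rw [hd, h v])
    · intro h v
      rw [← hd, h v]
  by_cases hj : A.Fixed j
  · induction w using F_induction with
    | h1 => rw [A.lam_one, B.lam_one]
    | h2 s w ih =>
      rw [A.lam_mul, B.lam_mul, ih, ← intertwine_hom ha hd w x]
      congr 1
      cases s with
      | none => rw [A.lam_a, B.lam_a]
      | some v =>
        rw [A.lam_d hj, B.lam_d (hf.2 hj)]
        by_cases h : (A.hom w) x = j
        · rw [if_pos h, if_pos (by rw [h])]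
        · rw [if_neg h, if_neg (fun h' => h (hβ h'))]
  · rw [A.lam_not_fixed hj, B.lam_not_fixed (fun h => hj (hf.1 h))]

/-- If the trajectory of `x` never meets the lamp, the cocycle is trivial. -/
theorem FS.lam_avoid {A : FS D X} {j : X} (l : List (Option D)) (x : X) (h : A.Avoid l x {j}) :
    A.lam j (wd l) x = 1 := by
  by_cases hj : A.Fixed j
  · induction l with
    | nil => exact A.lam_one j x
    | cons s l ih =>
      rw [FS.Avoid.cons] at h
      rw [wd_cons, A.lam_mul, ih h.2, mul_one]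
      cases s with
      | none => exact A.lam_a j _
      | some v =>
        rw [A.lam_d hj, if_neg]
        rw [A.hom_wd]
        exact h.2.end
  · exact A.lam_not_fixed hj _ _

/-- Comparison of cocycles along a lockstep map. -/
theorem lockstep_lam {A : FS D X} {B : FS D Y} {β : X → Y} {Bad : Set X}
    (ha : ∀ x, β (A.a x) = B.a (β x)) (hd : ∀ v x, x ∉ Bad → β (A.d v x) = B.d v (β x))
    {j : X} {j' : Y} (hj : A.Fixed j) (hj' : B.Fixed j') (hjj : ∀ x, x ∉ Bad → (β x = j' ↔ x = j))
    (l : List (Option D)) (x : X) (h : A.Avoid l x Bad) :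
    B.lam j' (wd l) (β x) = A.lam j (wd l) x := by
  induction l with
  | nil => rw [wd_nil, A.lam_one, B.lam_one]
  | cons s l ih =>
    rw [FS.Avoid.cons] at h
    rw [wd_cons, A.lam_mul, B.lam_mul, ih h.2]
    congr 1
    cases s with
    | none => rw [A.lam_a, B.lam_a]
    | some v =>
      rw [A.lam_d hj, B.lam_d hj', A.hom_wd, B.hom_wd, ← lockstep ha hd l x h.2]
      by_cases h' : A.ev l x = j
      · rw [if_pos h', if_pos ((hjj _ h.2.end).2 h')]
      · rw [if_neg h', if_neg (fun h'' => h' ((hjj _ h.2.end).1 h''))]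

/-! ## The set `ext` -/

theorem FS.ext_hom (B : FS D Om) (om : Om) (A : FS D Y) (e0 : Y) (w : F) (y : Y) (m : Om → T) :
    (B.ext om A e0).hom w (y, m) =
      (A.hom w y, fun u => (B.prod A).lam (om, e0) w (B.hom w⁻¹ u, y) * m (B.hom w⁻¹ u)) := by
  classical
  induction w using F_induction with
  | h1 => simp [FS.lam_one]
  | h2 s w ih =>
    rw [map_mul, Perm.mul_apply, ih, FS.hom_letF, map_mul, Perm.mul_apply, FS.hom_letF]
    have key : ∀ u, B.hom w⁻¹ (B.hom (letF s)⁻¹ u) = B.hom (letF s * w)⁻¹ u := by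
      intro u; simp
    have key2 : ∀ u, B.hom w (B.hom (letF s * w)⁻¹ u) = B.hom (letF s)⁻¹ u := by
      intro u; simp
    cases s with
    | none =>
      refine Prod.ext rfl ?_
      funext u
      have h1 : B.a.symm u = B.hom (letF none)⁻¹ u := by
        rw [map_inv, FS.hom_letF]; rfl
      simp only [FS.step, FS.ext, Equiv.prodCongr_apply, Prod.map, Equiv.arrowCongr_apply,
        Function.comp_apply, Equiv.coe_refl, id_eq, h1, key, FS.lam_mul, FS.lam_a, one_mul]
    | some v =>
      have h1 : B.d v⁻¹ = B.hom (letF (some v))⁻¹ := by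
        rw [map_inv, map_inv, FS.hom_letF]; rfl
      refine Prod.ext rfl ?_
      funext u
      simp only [FS.step, FS.ext, mkHom_apply, h1, key, FS.lam_mul, FS.prod_hom, key2]
      by_cases hf : A.Fixed e0 ∧ B.Fixed om
      · rw [FS.lam_d _ (FS.prod_fixed.2 ⟨hf.2, hf.1⟩)]
        have h2 : ((B.hom (letF (some v))⁻¹ u, A.hom w y) = (om, e0)) ↔
            (u = om ∧ A.hom w y = e0) := by
          rw [Prod.mk.injEq]
          have : B.hom (letF (some v))⁻¹ u = om ↔ u = om := by
            rw [← h1]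
            exact hf.2.iff v⁻¹ u
          rw [this]
        simp only [h2, hf, and_true, mul_assoc]
      · rw [FS.lam_not_fixed (B.prod A) (fun h => hf ⟨(FS.prod_fixed.1 h).2, (FS.prod_fixed.1 h).1⟩)
          (letF (some v))]
        simp only [hf, and_false, if_false, one_mul]

/-! ## Events, gluings and atlases -/

theorem eact_token (γ : L →* Perm (C × P)) (v : L) (y : P ↪ X) (c : C) (i : P) :
    eact γ v y (c, y i) = ((γ v (c, i)).1, y (γ v (c, i)).2) := by
  have h := Perm.viaEmbedding_apply (γ v) (emb C y) (c, i)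
  exact h

theorem eact_other (γ : L →* Perm (C × P)) (v : L) (y : P ↪ X) (c : C) (x : X)
    (hx : x ∉ Set.range y) : eact γ v y (c, x) = (c, x) := by
  apply Perm.viaEmbedding_apply_of_notMem
  rintro ⟨⟨c', i⟩, h⟩
  exact hx ⟨i, congrArg Prod.snd h⟩

theorem eact_mul (γ : L →* Perm (C × P)) (v w : L) (y : P ↪ X) :
    eact γ (v * w) y = eact γ v y * eact γ w y := by
  have := (Perm.viaEmbeddingHom (emb C y)).map_mul (γ v) (γ w)
  simpa [eact, Perm.viaEmbeddingHom_apply] using this

theorem eact_one (γ : L →* Perm (C × P)) (y : P ↪ X) : eact γ 1 y = 1 := by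
  have := (Perm.viaEmbeddingHom (emb C y)).map_one
  simpa [eact, Perm.viaEmbeddingHom_apply] using this

theorem glue_a (p : L →* D) (Q : Piece X P) (γ : L →* Perm (C × P)) (c : C) (x : X) :
    (glue p Q γ).a (c, x) = (c, Q.A.a x) := rfl

theorem glue_port (p : L →* D) (Q : Piece X P) (γ : L →* Perm (C × P)) (v : L) (c : C) (i : P) :
    (glue p Q γ).d v (c, Q.port i) = ((γ v (c, i)).1, Q.port (γ v (c, i)).2) := by
  show eact γ v Q.port (tw C (Q.A.d (p v)) (c, Q.port i)) = _
  rw [tw_apply, Q.fix, eact_token]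

theorem Piece.notMem_port {Q : Piece X P} {x : X} (hx : x ∉ Set.range Q.port) (v : D) :
    Q.A.d v x ∉ Set.range Q.port := by
  rintro ⟨i, hi⟩
  apply hx
  refine ⟨i, (Q.A.d v).injective ?_⟩
  rw [Q.fix, hi]

theorem glue_nonport (p : L →* D) (Q : Piece X P) (γ : L →* Perm (C × P)) (v : L) (c : C) (x : X)
    (hx : x ∉ Set.range Q.port) : (glue p Q γ).d v (c, x) = (c, Q.A.d (p v) x) := by
  show eact γ v Q.port (tw C (Q.A.d (p v)) (c, x)) = _
  rw [tw_apply, eact_other _ _ _ _ _ (Piece.notMem_port hx _)]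

/-- The canonical atlas of a gluing. -/
noncomputable def glueAtlas (p : L →* D) (Q : Piece X P) (γ : L →* Perm (C × P)) :
    Atlas p Q (glue p Q γ) C where
  e := Equiv.refl _
  ha := fun _ _ => rfl
  hd := fun v c x hx => glue_nonport p Q γ v c x hx

theorem Atlas.port_eq {p : L →* D} {Q : Piece X P} {A : FS L Y} (t : Atlas p Q A C) (v : L) (c : C)
    (i : P) : ∃ c' i', A.d v (t.e (c, Q.port i)) = t.e (c', Q.port i') := by
  obtain ⟨⟨c', x'⟩, h⟩ := t.e.surjective (A.d v (t.e (c, Q.port i)))
  by_cases hx : x' ∈ Set.range Q.port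
  · obtain ⟨i', rfl⟩ := hx
    exact ⟨c', i', h.symm⟩
  · exfalso
    have h1 := t.hd v⁻¹ c' x' hx
    rw [h, map_inv] at h1
    have h2 : (A.d v)⁻¹ ((A.d v) (t.e (c, Q.port i))) = t.e (c, Q.port i) := by simp
    rw [h2] at h1
    have h3 := t.e.injective h1
    have h4 : Q.port i = Q.A.d (p v⁻¹) x' := congrArg Prod.snd h3
    exact Piece.notMem_port hx (p v⁻¹) ⟨i, h4⟩

/-- Auxiliary function for `Atlas.gam`. -/
noncomputable def Atlas.gamFun {p : L →* D} {Q : Piece X P} {A : FS L Y} (t : Atlas p Q A C) (v : L)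
    (z : C × P) : C × P :=
  ((t.port_eq v z.1 z.2).choose, (t.port_eq v z.1 z.2).choose_spec.choose)

theorem Atlas.gamFun_spec {p : L →* D} {Q : Piece X P} {A : FS L Y} (t : Atlas p Q A C) (v : L)
    (z : C × P) :
    A.d v (t.e (z.1, Q.port z.2)) = t.e ((t.gamFun v z).1, Q.port (t.gamFun v z).2) :=
  (t.port_eq v z.1 z.2).choose_spec.choose_spec

theorem Atlas.gamFun_unique {p : L →* D} {Q : Piece X P} {A : FS L Y} (t : Atlas p Q A C) (v : L)
    (z z' : C × P) (h : A.d v (t.e (z.1, Q.port z.2)) = t.e (z'.1, Q.port z'.2)) :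
    t.gamFun v z = z' := by
  rw [t.gamFun_spec] at h
  have h' := t.e.injective h
  rw [Prod.mk.injEq] at h'
  exact Prod.ext h'.1 (Q.port.injective h'.2)

/-- The action on the ports of an atlas. -/
noncomputable def Atlas.gam {p : L →* D} {Q : Piece X P} {A : FS L Y} (t : Atlas p Q A C) :
    L →* Perm (C × P) :=
  mkHom t.gamFun
    (fun z => t.gamFun_unique 1 z z (by rw [map_one, Perm.one_apply]))
    (fun v w z => t.gamFun_unique (v * w) z _ (by
      rw [map_mul, Perm.mul_apply, t.gamFun_spec w z, t.gamFun_spec v]))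

theorem Atlas.gam_spec {p : L →* D} {Q : Piece X P} {A : FS L Y} (t : Atlas p Q A C) (v : L) (c : C)
    (i : P) : A.d v (t.e (c, Q.port i)) = t.e ((t.gam v (c, i)).1, Q.port (t.gam v (c, i)).2) :=
  t.gamFun_spec v (c, i)

/-- An A-set is isomorphic to the gluing given by its action on the ports. -/
theorem Atlas.iso_d {p : L →* D} {Q : Piece X P} {A : FS L Y} (t : Atlas p Q A C) (v : L)
    (z : C × X) : t.e ((glue p Q t.gam).d v z) = A.d v (t.e z) := by
  obtain ⟨c, x⟩ := z
  by_cases hx : x ∈ Set.range Q.port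
  · obtain ⟨i, rfl⟩ := hx
    rw [glue_port, t.gam_spec]
  · rw [glue_nonport _ _ _ _ _ _ hx, t.hd v c x hx]

theorem Atlas.iso_a {p : L →* D} {Q : Piece X P} {A : FS L Y} (t : Atlas p Q A C)
    (z : C × X) : t.e ((glue p Q t.gam).a z) = A.a (t.e z) := by
  obtain ⟨c, x⟩ := z
  rw [glue_a, t.ha]

end Pool.Agent.HJI
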