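import Pool.Agent.Lib.MP_377081_al.Basic

/-!
# Constructions: gluings as pieces, corridors, the next stage (paper 194, sections 3 and 4)
-/

set_option autoImplicit false

namespace Pool.Agent.HJI

open Equiv

variable {L X Y Z Om P P' C C0 X0 P0 X1 P1 : Type} [Group L]

/-! ## General constructions -/

/-- Disjoint union. -/
def FS.sum (A : FS L X) (B : FS L Y) : FS L (X ⊕ Y) where
  a := Equiv.sumCongr A.a B.a
  ha := by rintro (x | x) <;> simp [A.ha, B.ha]
  d := mkHom (fun v => Sum.map (A.d v) (B.d v)) (by rintro (x | x) <;> simp)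
    (by rintro v w (x | x) <;> simp)

/-- Restriction to an invariant subset. -/
def FS.restr (A : FS L X) (S : Set X) (ha : ∀ x ∈ S, A.a x ∈ S) (hd : ∀ v, ∀ x ∈ S, A.d v x ∈ S) :
    FS L S where
  a := Function.Involutive.toPerm (fun x : S => (⟨A.a x, ha x x.2⟩ : S))
    (fun x => Subtype.ext (A.ha x))
  ha := fun x => Subtype.ext (A.ha x)
  d := mkHom (fun v (x : S) => (⟨A.d v x, hd v x x.2⟩ : S)) (fun x => Subtype.ext (by simp))
    (fun v w x => Subtype.ext (by simp))

@[simp] theorem FS.restr_a (A : FS L X) (S : Set X) (ha : ∀ x ∈ S, A.a x ∈ S)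
    (hd : ∀ v, ∀ x ∈ S, A.d v x ∈ S) (x : S) : ((A.restr S ha hd).a x : X) = A.a x := rfl

@[simp] theorem FS.restr_d (A : FS L X) (S : Set X) (ha : ∀ x ∈ S, A.a x ∈ S)
    (hd : ∀ v, ∀ x ∈ S, A.d v x ∈ S) (v : L) (x : S) : ((A.restr S ha hd).d v x : X) = A.d v x := rfl

/-- The piece `Q` with fewer ports. -/
def Piece.report (Q : Piece X P) (i : P' ↪ P) : Piece X P' where
  A := Q.A
  port := i.trans Q.port
  fix := fun v j => Q.fix v (i j)

/-- An invariant subset of a piece. -/
def Piece.sub (Q : Piece X P) (S : Set X) (ha : ∀ x ∈ S, Q.A.a x ∈ S)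
    (hd : ∀ v, ∀ x ∈ S, Q.A.d v x ∈ S) (i : P' ↪ P) (hi : ∀ j, Q.port (i j) ∈ S) : Piece S P' where
  A := Q.A.restr S ha hd
  port := ⟨fun j => ⟨Q.port (i j), hi j⟩, fun _ _ h =>
    i.injective (Q.port.injective (congrArg Subtype.val h))⟩
  fix := fun v j => Subtype.ext (Q.fix v (i j))

/-- The disjoint union of a piece and an `F`-set with a fixed point. -/
def Piece.addP (Q : Piece X P) (B : FS D Z) (z0 : Z) (hz : B.Fixed z0) :
    Piece (X ⊕ Z) (P ⊕ Unit) where
  A := Q.A.sum B
  port := Function.Embedding.sumMap Q.port ⟨fun _ => z0, fun _ _ _ => rfl⟩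
  fix := by
    rintro v (i | i)
    · exact congrArg Sum.inl (Q.fix v i)
    · exact congrArg Sum.inr (hz v)

/-- A gluing as a piece. -/
noncomputable def Piece.up (Q : Piece X P) (γ : D →* Perm (C × P)) (π : P' ↪ C × P)
    (h : ∀ v i, γ v (π i) = π i) : Piece (C × X) P' where
  A := glue (MonoidHom.id D) Q γ
  port := π.trans (emb C Q.port)
  fix := fun v i => by
    show (glue (MonoidHom.id D) Q γ).d v ((π i).1, Q.port (π i).2) = ((π i).1, Q.port (π i).2)
    rw [glue_port, Prod.mk.eta, h v i]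

/-- V-joints: `z` and `pr z` are exchanged by `v` iff the character `jt z` is nontrivial on `v`. -/
def edgeHom (pr : Y → Y) (jt : Y → Option (Fin 3)) (h1 : ∀ z, jt (pr z) = jt z)
    (h2 : ∀ z, pr (pr z) = z) : D →* Perm Y :=
  mkHom (fun v z => match jt z with
    | none => z
    | some j => if chi j v = 1 then z else pr z)
    (by
      intro z
      cases h : jt z <;> simp)
    (by
      intro v w z
      cases h : jt z with
      | none => simp [h]
      | some j =>
        rcases Int.units_eq_one_or (chi j v) with hv | hv <;>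
          rcases Int.units_eq_one_or (chi j w) with hw | hw <;>
          simp [hv, hw, h, h1, h2, map_mul])

theorem edgeHom_none (pr : Y → Y) (jt : Y → Option (Fin 3)) (h1 : ∀ z, jt (pr z) = jt z)
    (h2 : ∀ z, pr (pr z) = z) (v : D) (z : Y) (h : jt z = none) : edgeHom pr jt h1 h2 v z = z := by
  simp [edgeHom, h]

theorem edgeHom_some (pr : Y → Y) (jt : Y → Option (Fin 3)) (h1 : ∀ z, jt (pr z) = jt z)
    (h2 : ∀ z, pr (pr z) = z) (v : D) (z : Y) (j : Fin 3) (h : jt z = some j) :
    edgeHom pr jt h1 h2 v z = if chi j v = 1 then z else pr z := by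
  simp [edgeHom, h]

/-! ## Built pieces -/

/-- `Q1` is glued from copies of `Q0` (index set `C0`) and its ports are ports of copies of `Q0`. -/
structure Built (Q0 : Piece X0 P0) (Q1 : Piece X1 P1) (C0 : Type) where
  t : Atlas (MonoidHom.id D) Q0 Q1.A C0
  hp : ∀ i, ∃ c j, Q1.port i = t.e (c, Q0.port j)

/-- Composition of an atlas with a building structure. -/
def Atlas.comp {p : L →* D} {Q0 : Piece X0 P0} {Q1 : Piece X1 P1} {A : FS L Y}
    (t1 : Atlas p Q1 A C) (b : Built Q0 Q1 C0) : Atlas p Q0 A (C × C0) where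
  e := (Equiv.prodAssoc C C0 X0).trans ((Equiv.prodCongr (Equiv.refl C) b.t.e).trans t1.e)
  ha := by
    rintro ⟨c, c0⟩ x
    show A.a (t1.e (c, b.t.e (c0, x))) = t1.e (c, b.t.e (c0, Q0.A.a x))
    rw [t1.ha, b.t.ha]
  hd := by
    rintro v ⟨c, c0⟩ x hx
    show A.d v (t1.e (c, b.t.e (c0, x))) = t1.e (c, b.t.e (c0, Q0.A.d (p v) x))
    rw [t1.hd, b.t.hd _ _ _ hx]
    · rfl
    · rintro ⟨i, hi⟩
      obtain ⟨c', j, h⟩ := b.hp i
      rw [h] at hi
      exact hx ⟨j, congrArg Prod.snd (b.t.e.injective hi)⟩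

theorem Atlas.comp_e {p : L →* D} {Q0 : Piece X0 P0} {Q1 : Piece X1 P1} {A : FS L Y}
    (t1 : Atlas p Q1 A C) (b : Built Q0 Q1 C0) (c : C) (c0 : C0) (x : X0) :
    (t1.comp b).e ((c, c0), x) = t1.e (c, b.t.e (c0, x)) := rfl

/-- `Q` is built from itself. -/
def Built.refl (Q : Piece X P) : Built Q Q Unit where
  t :=
    { e := Equiv.punitProd X
      ha := fun _ _ => rfl
      hd := fun _ _ _ _ => rfl }
  hp := fun i => ⟨(), i, rfl⟩

/-- Transitivity. -/
def Built.trans {X2 P2 C1 : Type} {Q0 : Piece X0 P0} {Q1 : Piece X1 P1} {Q2 : Piece X2 P2}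
    (b : Built Q0 Q1 C0) (b' : Built Q1 Q2 C1) : Built Q0 Q2 (C1 × C0) where
  t := b'.t.comp b
  hp := fun i => by
    obtain ⟨c, j, h⟩ := b'.hp i
    obtain ⟨c', j', h'⟩ := b.hp j
    exact ⟨(c, c'), j', by rw [h, h', Atlas.comp_e]⟩

/-- Forgetting ports. -/
def Built.report (Q : Piece X P) (i : P' ↪ P) : Built Q (Q.report i) Unit where
  t :=
    { e := Equiv.punitProd X
      ha := fun _ _ => rfl
      hd := fun _ _ _ _ => rfl }
  hp := fun j => ⟨(), i j, rfl⟩

/-- A gluing is built from its tile. -/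
noncomputable def Built.up (Q : Piece X P) (γ : D →* Perm (C × P)) (π : P' ↪ C × P)
    (h : ∀ v i, γ v (π i) = π i) : Built Q (Q.up γ π h) C where
  t := glueAtlas (MonoidHom.id D) Q γ
  hp := fun i => ⟨(π i).1, (π i).2, rfl⟩

/-- If `Q1` is built from `Q0`, then so is `Q0 + Q1` (with one port of `Q1`). -/
def Built.addP {Q0 : Piece X0 P0} {Q1 : Piece X1 P1} (b : Built Q0 Q1 C0) (i : P1) :
    Built Q0 (Q0.addP Q1.A (Q1.port i) (fun v => Q1.fix v i)) (Option C0) where
  t :=
    { e :=
        { toFun := fun z => match z with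
            | (none, x) => Sum.inl x
            | (some c, x) => Sum.inr (b.t.e (c, x))
          invFun := fun z => match z with
            | Sum.inl x => (none, x)
            | Sum.inr y => (some (b.t.e.symm y).1, (b.t.e.symm y).2)
          left_inv := by rintro ⟨(_ | c), x⟩ <;> simp
          right_inv := by rintro (x | y) <;> simp }
      ha := by
        rintro (_ | c) x
        · rfl
        · exact congrArg Sum.inr (b.t.ha c x)
      hd := by
        rintro v (_ | c) x hx
        · rfl
        · exact congrArg Sum.inr (b.t.hd v c x hx) }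
  hp := by
    rintro (j | j)
    · exact ⟨none, j, rfl⟩
    · obtain ⟨c, j', h⟩ := b.hp i
      exact ⟨some c, j', congrArg Sum.inr h⟩

/-- The permutation of `X1` induced by a permutation of the tile `X0`. -/
def Built.lift {Q0 : Piece X0 P0} {Q1 : Piece X1 P1} (b : Built Q0 Q1 C0) (φ : Perm X0) : Perm X1 :=
  (b.t.e.symm.trans (tw C0 φ)).trans b.t.e

theorem Built.lift_e {Q0 : Piece X0 P0} {Q1 : Piece X1 P1} (b : Built Q0 Q1 C0) (φ : Perm X0) (c : C0)
    (x : X0) : b.lift φ (b.t.e (c, x)) = b.t.e (c, φ x) := by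
  simp [Built.lift]

theorem Built.actsBy {Q0 : Piece X0 P0} {Q1 : Piece X1 P1} (b : Built Q0 Q1 C0) {w : F} {φ : Perm X0}
    (h : ActsBy Q0 w φ) : ActsBy Q1 w (b.lift φ) := by
  intro Y C A t c x
  obtain ⟨⟨c0, x0⟩, rfl⟩ := b.t.e.surjective x
  rw [b.lift_e]
  exact h Y (C × C0) A (t.comp b) (c, c0) x0

theorem Built.lampless {Q0 : Piece X0 P0} {Q1 : Piece X1 P1} (b : Built Q0 Q1 C0) {w : F} {p : X0}
    {B : FS D Om} {om : Om} (h : Lampless Q0 p B om w) (c0 : C0) :
    Lampless Q1 (b.t.e (c0, p)) B om w := by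
  intro Y C A t c z
  exact h Y (C × C0) A (t.comp b) (c, c0) z

/-! ## The extension of a piece -/

/-- Index set of `Ext`. -/
abbrev CE (P : Type) := Option (P × Fin 3)

/-- Type of the joint at a port. -/
def jtE [DecidableEq P] (o' o : P) : CE P × P → Option (Fin 3)
  | (none, _) => some 0
  | (some (_, m), x) => if x = o' then some m else if x = o ∧ m ≠ 2 then some (m + 1) else none

/-- Partner of a port. -/
def prE [DecidableEq P] (o' o : P) : CE P × P → CE P × P
  | (none, i) => (some (i, 0), o')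
  | (some (i, m), x) =>
    if x = o' then (if m = 0 then (none, i) else (some (i, m - 1), o))
    else if x = o ∧ m ≠ 2 then (some (i, m + 1), o')
    else (some (i, m), x)

theorem jtE_prE [DecidableEq P] {o' o : P} (h : o' ≠ o) (z : CE P × P) :
    jtE o' o (prE o' o z) = jtE o' o z := by
  have h' : o ≠ o' := fun e => h e.symm
  rcases z with ⟨(_ | ⟨i, m⟩), x⟩
  · simp [prE, jtE]
  · by_cases h1 : x = o'
    · subst h1
      fin_cases m <;> simp [prE, jtE, h']
    · by_cases h2 : x = o
      · subst h2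
        fin_cases m <;> simp [prE, jtE, h']
      · simp [prE, jtE, h1, h2]

theorem prE_prE [DecidableEq P] {o' o : P} (h : o' ≠ o) (z : CE P × P) :
    prE o' o (prE o' o z) = z := by
  have h' : o ≠ o' := fun e => h e.symm
  rcases z with ⟨(_ | ⟨i, m⟩), x⟩
  · simp [prE]
  · by_cases h1 : x = o'
    · subst h1
      fin_cases m <;> simp [prE, h']
    · by_cases h2 : x = o
      · subst h2
        fin_cases m <;> simp [prE, h']
      · simp [prE, h1, h2]

/-- The action of `D` on the ports of the copies in `Ext`. -/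
def gamE [DecidableEq P] (o' o : P) (h : o' ≠ o) : D →* Perm (CE P × P) :=
  edgeHom (prE o' o) (jtE o' o) (jtE_prE h) (prE_prE h)

/-- The new ports. -/
def portE (o : P) : P ↪ CE P × P := ⟨fun i => (some (i, 2), o), fun i j h => by simpa using h⟩

theorem gamE_portE [DecidableEq P] {o' o : P} (h : o' ≠ o) (v : D) (i : P) :
    gamE o' o h v (portE o i) = portE o i := by
  apply edgeHom_none
  simp [portE, jtE, Ne.symm h]

/-- `Ext` (paper, section 3). -/
noncomputable def Piece.ext [DecidableEq P] (Q : Piece X P) (o' o : P) (h : o' ≠ o) :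
    Piece (CE P × X) P :=
  Q.up (gamE o' o h) (portE o) (gamE_portE h)

/-- Underlying type of the iterated extension. -/
def XT (P X : Type) : ℕ → Type
  | 0 => X
  | k + 1 => CE P × XT P X k

/-- Iterated extension. -/
noncomputable def Piece.extN [DecidableEq P] (Q : Piece X P) (o' o : P) (h : o' ≠ o) :
    (k : ℕ) → Piece (XT P X k) P
  | 0 => Q
  | k + 1 => (Piece.extN Q o' o h k).ext o' o h

instance XT.finite [Finite P] [Finite X] (k : ℕ) : Finite (XT P X k) := by
  induction k with
  | zero => exact inferInstanceAs (Finite X)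
  | succ k ih => exact inferInstanceAs (Finite (CE P × XT P X k))

/-- Index type of the iterated extension. -/
def CT (P : Type) : ℕ → Type
  | 0 => Unit
  | k + 1 => CE P × CT P k

instance CT.finite [Finite P] (k : ℕ) : Finite (CT P k) := by
  induction k with
  | zero => exact inferInstanceAs (Finite Unit)
  | succ k ih => exact inferInstanceAs (Finite (CE P × CT P k))

/-- The iterated extension is built from the piece. -/
noncomputable def Piece.extN_built [DecidableEq P] (Q : Piece X P) (o' o : P) (h : o' ≠ o) :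
    (k : ℕ) → Built Q (Q.extN o' o h k) (CT P k)
  | 0 => Built.refl Q
  | k + 1 => (Piece.extN_built Q o' o h k).trans
      (Built.up (Q.extN o' o h k) (gamE o' o h) (portE o) (gamE_portE h))

/-- The centre copy. -/
def cen (P : Type) {X : Type} : (k : ℕ) → X → XT P X k
  | 0, x => x
  | k + 1, x => (none, cen P k x)

/-- The index of the centre copy. -/
def cenC (P : Type) : (k : ℕ) → CT P k
  | 0 => ()
  | k + 1 => (none, cenC P k)

theorem Piece.extN_built_cen [DecidableEq P] (Q : Piece X P) (o' o : P) (h : o' ≠ o) (k : ℕ) (x : X) :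
    (Q.extN_built o' o h k).t.e (cenC P k, x) = cen P k x := by
  induction k with
  | zero => rfl
  | succ k ih =>
    show ((none : CE P), (Q.extN_built o' o h k).t.e (cenC P k, x)) = (none, cen P k x)
    rw [ih]

theorem cen_injective (k : ℕ) : Function.Injective (cen P k : X → XT P X k) := by
  induction k with
  | zero => exact fun _ _ h => h
  | succ k ih => exact fun x y h => ih (congrArg Prod.snd h)

/-- Tilewise extension of a permutation to the iterated extension. -/
def twN (P : Type) {X : Type} (φ : Perm X) : (k : ℕ) → Perm (XT P X k)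
  | 0 => φ
  | k + 1 => tw (CE P) (twN P φ k)

/-! ## Corridors -/

/-- The ports `p = 0` and `r = 3` of the tile. -/
def ends : Fin 2 ↪ Fin 4 := ⟨![0, 3], by decide⟩

/-- The corridor `theta_k`. Ports: `0 = o'`, `1 = o`. -/
noncomputable def theta (Q : Piece X (Fin 4)) (k : ℕ) : Piece (XT (Fin 2) X k) (Fin 2) :=
  (Q.report ends).extN 0 1 (by decide) k

/-- The corridor is built from the tile. -/
noncomputable def theta_built (Q : Piece X (Fin 4)) (k : ℕ) : Built Q (theta Q k) (CT (Fin 2) k × Unit) :=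
  (Built.report Q ends).trans ((Q.report ends).extN_built 0 1 (by decide) k)

/-! ## The next stage -/

/-- The new set `Omega'`. -/
noncomputable def omS (Q : Piece X (Fin 4)) (B : FS D Om) (om : Om) (n : ℕ) :
    FS D (XT (Fin 2) X n × (Om → T)) :=
  B.ext om (theta Q n).A (cen (Fin 2) n (Q.port 2))

/-- The base point of `Omega'`. -/
noncomputable def omP (Q : Piece X (Fin 4)) (Om : Type) (n : ℕ) : XT (Fin 2) X n × (Om → T) :=
  ((theta Q n).port 1, 1)

/-- The embedding of the junction. -/
def junc : Fin 5 → Fin 5 × (Fin 4 ⊕ Unit) :=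
  ![(0, Sum.inl 0), (1, Sum.inl 0), (2, Sum.inl 0), (3, Sum.inl 0), (0, Sum.inl 1)]

theorem junc_injective : Function.Injective junc := by decide

/-- Partner map of the joint of the core. -/
def prB (z : Fin 5 × (Fin 4 ⊕ Unit)) : Fin 5 × (Fin 4 ⊕ Unit) :=
  if z = (0, Sum.inl 2) then (0, Sum.inr ()) else if z = (0, Sum.inr ()) then (0, Sum.inl 2) else z

/-- Joint type of the core. -/
def jtB (z : Fin 5 × (Fin 4 ⊕ Unit)) : Option (Fin 3) :=
  if z = (0, Sum.inl 2) ∨ z = (0, Sum.inr ()) then some 0 else none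

/-- The joint of the core. -/
def edgeB : D →* Perm (Fin 5 × (Fin 4 ⊕ Unit)) :=
  edgeHom prB jtB (by decide) (by decide)

/-- Inverse of the embedding of the junction. -/
def juncInv (z : Fin 5 × (Fin 4 ⊕ Unit)) : Option (Fin 5) :=
  if z = junc 0 then some 0 else if z = junc 1 then some 1 else if z = junc 2 then some 2 else
  if z = junc 3 then some 3 else if z = junc 4 then some 4 else none

theorem juncInv_junc (k : Fin 5) : juncInv (junc k) = some k := by revert k; decide

theorem juncInv_none_or (z : Fin 5 × (Fin 4 ⊕ Unit)) : juncInv z = none ∨ ∃ k, junc k = z := by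
  revert z; decide

theorem juncInv_edgeB (v : D) (z : Fin 5 × (Fin 4 ⊕ Unit)) (h : juncInv z = none) :
    juncInv (edgeB v z) = none := by
  cases hz : jtB z with
  | none => rw [edgeB, edgeHom_none _ _ _ _ _ _ hz, h]
  | some j =>
    rw [edgeB, edgeHom_some _ _ _ _ _ _ _ hz]
    split_ifs
    · exact h
    · clear hz
      revert z
      decide

/-- The action of `D` on the ports of the core piece. -/
def gamB : D →* Perm (Fin 5 × (Fin 4 ⊕ Unit)) :=
  mkHom (fun v z => match juncInv z with
    | some k => junc ((v.2 : Perm (Fin 5)) k)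
    | none => edgeB v z)
    (by
      intro z
      rcases juncInv_none_or z with h | ⟨k, rfl⟩
      · simp [h]
      · simp [juncInv_junc])
    (by
      intro v w z
      rcases juncInv_none_or z with h | ⟨k, rfl⟩
      · have := juncInv_edgeB w z h
        simp [h, this]
      · simp [juncInv_junc])

theorem gamB_junc (v : D) (k : Fin 5) : gamB v (junc k) = junc ((v.2 : Perm (Fin 5)) k) := by
  simp [gamB, juncInv_junc]

theorem gamB_other (v : D) (z : Fin 5 × (Fin 4 ⊕ Unit)) (h : juncInv z = none) :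
    gamB v z = edgeB v z := by
  simp [gamB, h]

/-- The ports of the core piece: `0..3` the new ports, `4 = o'`, `5 = o`. -/
def portB : Fin 6 ↪ Fin 5 × (Fin 4 ⊕ Unit) :=
  ⟨![(0, Sum.inl 3), (1, Sum.inl 3), (2, Sum.inl 3), (3, Sum.inl 3), (4, Sum.inl 0), (4, Sum.inl 3)],
    by decide⟩

theorem gamB_portB (v : D) (i : Fin 6) : gamB v (portB i) = portB i := by
  have h1 : juncInv (portB i) = none := by revert i; decide
  have h2 : jtB (portB i) = none := by revert i; decide
  rw [gamB_other v _ h1, edgeB, edgeHom_none _ _ _ _ _ _ h2]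

/-- The core piece (paper: `B`), for a piece `Q` and an `F`-set `B` with fixed point `z0`. -/
noncomputable def core (Q : Piece X (Fin 4)) (B : FS D Z) (z0 : Z) (hz : B.Fixed z0) :
    Piece (Fin 5 × (X ⊕ Z)) (Fin 6) :=
  (Q.addP B z0 hz).up gamB portB gamB_portB

/-- The piece `B_n`. -/
noncomputable def coreN (Q : Piece X (Fin 4)) (B : FS D Z) (z0 : Z) (hz : B.Fixed z0) (n : ℕ) :
    Piece (XT (Fin 6) (Fin 5 × (X ⊕ Z)) n) (Fin 6) :=
  (core Q B z0 hz).extN 4 5 (by decide) n

/-- The new tile: the orbit of port `0` in `B_n`. -/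
def tileSet (Q : Piece X (Fin 4)) (B : FS D Z) (z0 : Z) (hz : B.Fixed z0) (n : ℕ) :
    Set (XT (Fin 6) (Fin 5 × (X ⊕ Z)) n) :=
  {x | (coreN Q B z0 hz n).A.Rel ((coreN Q B z0 hz n).port 0) x}

theorem tileSet_a (Q : Piece X (Fin 4)) (B : FS D Z) (z0 : Z) (hz : B.Fixed z0) (n : ℕ) :
    ∀ x ∈ tileSet Q B z0 hz n, (coreN Q B z0 hz n).A.a x ∈ tileSet Q B z0 hz n :=
  fun x hx => FS.Rel.trans hx (FS.Rel.a _ x)

theorem tileSet_d (Q : Piece X (Fin 4)) (B : FS D Z) (z0 : Z) (hz : B.Fixed z0) (n : ℕ) :
    ∀ v, ∀ x ∈ tileSet Q B z0 hz n, (coreN Q B z0 hz n).A.d v x ∈ tileSet Q B z0 hz n :=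
  fun v x hx => FS.Rel.trans hx (FS.Rel.d _ v x)

/-- The four new ports among the six. -/
def four : Fin 4 ↪ Fin 6 := Fin.castLEEmb (by decide)

end Pool.Agent.HJI
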