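import Mathlib

/-!
# MP_377081_al (S01190): definitions

A finitely generated hereditarily just infinite group of intermediate growth (paper 194, helper10).
-/

set_option autoImplicit false

namespace Pool.Agent.HJI

open Equiv

/-! ## Groups -/

/-- The group `A_5`. -/
abbrev T := alternatingGroup (Fin 5)

/-- `D = V × A_5`, `V` the Klein four group. -/
abbrev D := (ℤˣ × ℤˣ) × T

/-- The three nontrivial characters of `V`, as characters of `D`. -/
def chi (j : Fin 3) : D →* ℤˣ :=
  match j with
  | 0 => (MonoidHom.fst ℤˣ ℤˣ).comp (MonoidHom.fst (ℤˣ × ℤˣ) T)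
  | 1 => (MonoidHom.snd ℤˣ ℤˣ).comp (MonoidHom.fst (ℤˣ × ℤˣ) T)
  | 2 => ((MonoidHom.fst ℤˣ ℤˣ) * (MonoidHom.snd ℤˣ ℤˣ)).comp (MonoidHom.fst (ℤˣ × ℤˣ) T)

/-- The embedding of `T` into `D`. -/
def tD (t : T) : D := (1, t)

/-- `F = C_2 * D`. -/
abbrev F := Monoid.Coprod ℤˣ D

/-! ## Sets with an involution and an action of a label group -/

variable {L X Y Om P P' C C0 : Type} [Group L]

/-- A group action as a homomorphism to permutations. -/
def mkHom (f : L → X → X) (h1 : ∀ x, f 1 x = x) (h2 : ∀ v w x, f (v * w) x = f v (f w x)) :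
    L →* Perm X where
  toFun v :=
    { toFun := f v
      invFun := f v⁻¹
      left_inv := fun x => by rw [← h2, inv_mul_cancel, h1]
      right_inv := fun x => by rw [← h2, mul_inv_cancel, h1] }
  map_one' := by ext1 x; exact h1 x
  map_mul' v w := by ext1 x; exact h2 v w x

@[simp] theorem mkHom_apply (f : L → X → X) (h1 : ∀ x, f 1 x = x)
    (h2 : ∀ v w x, f (v * w) x = f v (f w x)) (v : L) (x : X) : mkHom f h1 h2 v x = f v x := rfl

/-- An `(a, L)`-set. For `L = D` this is the same thing as an `F`-set. -/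
structure FS (L X : Type) [Group L] where
  a : Perm X
  ha : ∀ x, a (a x) = x
  d : L →* Perm X

/-- Action of a letter: `none` is the letter `a`. -/
def FS.step (A : FS L X) : Option L → Perm X
  | none => A.a
  | some v => A.d v

/-- Action of a word; the head is applied last. -/
def FS.ev (A : FS L X) (l : List (Option L)) : Perm X := (l.map A.step).prod

/-- The homomorphism from `ℤˣ` given by an involution. -/
def unitsHom {G : Type} [Group G] (g : G) (h : g * g = 1) : ℤˣ →* G where
  toFun u := if u = 1 then 1 else g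
  map_one' := by simp
  map_mul' u v := by
    rcases Int.units_eq_one_or u with rfl | rfl <;>
      rcases Int.units_eq_one_or v with rfl | rfl <;> simp [h]

/-- The action of `F` on an `F`-set. -/
noncomputable def FS.hom (A : FS D X) : F →* Perm X :=
  Monoid.Coprod.lift (unitsHom A.a (by ext1 x; exact A.ha x)) A.d

/-- The letters, as elements of `F`. -/
def letF : Option D → F
  | none => Monoid.Coprod.inl (-1)
  | some v => Monoid.Coprod.inr v

/-- The element of `F` given by a word. -/
def wd (l : List (Option D)) : F := (l.map letF).prod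

/-- Elements of `F` given by words of length at most `r`. -/
def Ball (r : ℕ) : Set F := {w | ∃ l : List (Option D), l.length ≤ r ∧ wd l = w}

/-- The trajectory of `x` under the word `l` (all intermediate points, both ends included) avoids the
set `Z`. -/
def FS.Avoid (A : FS L X) (l : List (Option L)) (x : X) (Z : Set X) : Prop :=
  ∀ l' : List (Option L), l' <:+ l → A.ev l' x ∉ Z

/-- `j` is fixed by the label group. -/
def FS.Fixed (A : FS L X) (j : X) : Prop := ∀ v, A.d v j = j

/-- `X` is transitive. -/
def FS.Trans (A : FS D X) : Prop := ∀ x y : X, ∃ w : F, A.hom w x = y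

/-- Tilewise extension of a permutation. -/
def tw (C : Type) {X : Type} : Perm X →* Perm (C × X) where
  toFun σ := Equiv.prodCongr (Equiv.refl C) σ
  map_one' := by ext x <;> rfl
  map_mul' σ τ := by ext x <;> rfl

@[simp] theorem tw_apply (σ : Perm X) (c : C) (x : X) : tw C σ (c, x) = (c, σ x) := rfl

/-- Product of two `F`-sets (diagonal action). -/
def FS.prod (A : FS L X) (B : FS L Y) : FS L (X × Y) where
  a := Equiv.prodCongr A.a B.a
  ha := fun x => Prod.ext (A.ha x.1) (B.ha x.2)
  d := mkHom (fun v z => (A.d v z.1, B.d v z.2)) (by simp) (by simp)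

theorem FS.Fixed.iff {A : FS L Y} {j : Y} (h : A.Fixed j) (v : L) (y : Y) :
    A.d v y = j ↔ y = j :=
  ⟨fun h1 => (A.d v).injective (by rw [h1, h v]), fun h1 => by rw [h1, h v]⟩

open Classical in
/-- The set `Y × T` with a lamp at the point `j` (if `j` is fixed by `D`). -/
noncomputable def FS.lamp (A : FS D Y) (j : Y) : FS D (Y × T) where
  a := Equiv.prodCongr A.a (Equiv.refl T)
  ha := fun x => Prod.ext (A.ha x.1) rfl
  d := mkHom (fun v z => (A.d v z.1, (if z.1 = j ∧ A.Fixed j then v.2 else 1) * z.2)) (by simp) (by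
    rintro v w ⟨y, t⟩
    by_cases hf : A.Fixed j
    · simp only [hf, and_true, hf.iff]
      by_cases h' : y = j
      · simp [h', mul_assoc]
      · simp [h']
    · simp [hf])

/-- The lamp cocycle. -/
noncomputable def FS.lam (A : FS D Y) (j : Y) (w : F) (y : Y) : T := ((A.lamp j).hom w (y, 1)).2

open Classical in
/-- The set `Y × T^Om` (paper, section 4). -/
noncomputable def FS.ext (B : FS D Om) (om : Om) (A : FS D Y) (e0 : Y) : FS D (Y × (Om → T)) where
  a := Equiv.prodCongr A.a (Equiv.arrowCongr B.a (Equiv.refl T))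
  ha := fun x => Prod.ext (A.ha x.1) (by
    funext u
    have hb : B.a.symm (B.a.symm u) = u := by
      rw [Equiv.symm_apply_eq, Equiv.symm_apply_eq, B.ha]
    simp [Equiv.arrowCongr, hb])
  d := mkHom (fun v z => (A.d v z.1, fun u =>
      (if u = om ∧ z.1 = e0 ∧ A.Fixed e0 ∧ B.Fixed om then v.2 else 1) * z.2 (B.d v⁻¹ u)))
    (by simp) (by
    rintro v w ⟨y, m⟩
    by_cases hf : A.Fixed e0 ∧ B.Fixed om
    · refine Prod.ext (by simp) ?_
      funext u
      simp only [hf, and_true, hf.1.iff, hf.2.iff, mul_inv_rev, map_mul, Perm.coe_mul,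
        Function.comp_apply]
      by_cases h' : u = om ∧ y = e0
      · simp [h', mul_assoc]
      · simp [h']
    · simp [hf])

/-! ## Pieces and gluing -/

/-- A piece: an `F`-set with distinct `D`-fixed ports. -/
structure Piece (X P : Type) where
  A : FS D X
  port : P ↪ X
  fix : ∀ v i, A.d v (port i) = port i

/-- The embedding `C × P → C × X` given by `P → X`. -/
def emb (C : Type) {P X : Type} (y : P ↪ X) : C × P ↪ C × X :=
  Function.Embedding.prodMap (Function.Embedding.refl C) y

@[simp] theorem emb_apply (y : P ↪ X) (c : C) (i : P) : emb C y (c, i) = (c, y i) := rfl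

/-- The action of the label `v` transported to the tokens `y`. -/
noncomputable def eact (γ : L →* Perm (C × P)) (v : L) (y : P ↪ X) : Perm (C × X) :=
  (γ v).viaEmbedding (emb C y)

/-- The `D`-part of a gluing. -/
noncomputable def glueD (p : L →* D) (d : D →* Perm X) (port : P ↪ X)
    (fix : ∀ v i, d v (port i) = port i) (γ : L →* Perm (C × P)) : L →* Perm (C × X) where
  toFun v := eact γ v port * tw C (d (p v))
  map_one' := by
    ext1 x
    by_cases hx : x ∈ Set.range (emb C port)
    · obtain ⟨z, rfl⟩ := hx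
      simp only [eact, map_one, mul_one, Perm.viaEmbedding_apply, Perm.coe_one, id_eq]
    · simp only [eact, map_one, mul_one, Perm.viaEmbedding_apply_of_notMem _ _ _ hx, Perm.coe_one,
        id_eq]
  map_mul' v w := by
    have hfix : ∀ (u : D) (x : C × P), (tw C (d u)) (emb C port x) = emb C port x := by
      rintro u ⟨c, i⟩
      exact Prod.ext rfl (fix u i)
    have hmem : ∀ (u : D) (x : C × X), x ∉ Set.range (emb C port) →
        (tw C (d u)) x ∉ Set.range (emb C port) := by
      rintro u x hx ⟨z, hz⟩
      apply hx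
      refine ⟨z, ?_⟩
      have h2 : tw C (d u) (emb C port z) = tw C (d u) x := by rw [hfix, hz]
      exact (tw C (d u)).injective h2
    ext1 x
    simp only [eact, map_mul, Perm.coe_mul, Function.comp_apply]
    by_cases hx : x ∈ Set.range (emb C port)
    · obtain ⟨z, rfl⟩ := hx
      simp only [hfix, Perm.viaEmbedding_apply, Perm.coe_mul, Function.comp_apply]
    · have h1 := hmem (p w) x hx
      have h2 := hmem (p v) _ h1
      rw [Perm.viaEmbedding_apply_of_notMem _ _ _ h1, Perm.viaEmbedding_apply_of_notMem _ _ _ h2,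
        Perm.viaEmbedding_apply_of_notMem _ _ _ h2]

/-- The set glued from copies of the piece `Q`, indexed by `C`, with the action `γ` of the label group on
the ports. -/
noncomputable def glue (p : L →* D) (Q : Piece X P) (γ : L →* Perm (C × P)) : FS L (C × X) where
  a := tw C Q.A.a
  ha := fun x => Prod.ext rfl (Q.A.ha x.2)
  d := glueD p Q.A.d Q.port Q.fix γ

/-- An atlas: the `(a, L)`-set `A` on `Y` is an A-set of the piece `Q` (index set `C`). -/
structure Atlas (p : L →* D) (Q : Piece X P) (A : FS L Y) (C : Type) where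
  e : C × X ≃ Y
  ha : ∀ c x, A.a (e (c, x)) = e (c, Q.A.a x)
  hd : ∀ v c x, x ∉ Set.range Q.port → A.d v (e (c, x)) = e (c, Q.A.d (p v) x)

/-- `w` acts on all A-sets of `Q` tilewise by `φ`. -/
def ActsBy (Q : Piece X P) (w : F) (φ : Perm X) : Prop :=
  ∀ (Y C : Type) (A : FS D Y) (t : Atlas (MonoidHom.id D) Q A C) (c : C) (x : X),
    A.hom w (t.e (c, x)) = t.e (c, φ x)

/-- `w` is lampless for `B`, `om` and the point `p` of `Q`. -/
def Lampless (Q : Piece X P) (p : X) (B : FS D Om) (om : Om) (w : F) : Prop :=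
  ∀ (Y C : Type) (A : FS D Y) (t : Atlas (MonoidHom.id D) Q A C) (c0 : C) (z : Om × Y),
    (B.prod A).lam (om, t.e (c0, p)) w z = 1

/-- Semi-good elements. -/
def Semi (Q : Piece X (Fin 4)) (B : FS D Om) (om : Om) (φ : Perm X) (w : F) : Prop :=
  ActsBy Q w φ ∧ Lampless Q (Q.port 2) B om w

/-- Good elements. -/
def Good (Q : Piece X (Fin 4)) (B : FS D Om) (om : Om) (φ : Perm X) (w : F) : Prop :=
  Semi Q B om φ w ∧ B.hom w = 1

/-- Stages of the construction. Ports: `0 = p`, `1 = q`, `2 = e`, `3 = r`. -/
structure Stage where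
  X : Type
  Om : Type
  [fX : Fintype X]
  [dX : DecidableEq X]
  [fO : Finite Om]
  Q : Piece X (Fin 4)
  B : FS D Om
  om : Om
  om_fix : B.Fixed om
  trX : Q.A.Trans
  trO : B.Trans
  cardO : 3 ≤ Nat.card Om
  tfix : ∃ y : Fin 8 ↪ X, ∀ i, y i ∉ Set.range Q.port ∧ ∀ t : T, Q.A.d (tD t) (y i) = y i
  even : 4 ∣ Nat.card {x : X // Q.A.a x ≠ x}
  good : ∀ φ ∈ alternatingGroup X, ∃ w : F, Good Q B om φ w

attribute [instance] Stage.fX Stage.dX Stage.fO

/-- The kernel of the action on `Om`. -/
noncomputable def Stage.K (S : Stage) : Subgroup F := S.B.hom.ker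

end Pool.Agent.HJI
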