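import Pool.Agent.Lib.MP_377081_al.Step0
import Pool.Agent.Lib.MP_377081_al.Events

section

/-!
# HJ-13 CompatA
-/

set_option autoImplicit false

namespace Pool.Agent.HJI

open Equiv

variable {L X Y Z Om P P' C C0 : Type} [Group L]

/-- A potential changing by at most one under letters changes by at most the length under words. -/
theorem pot_traj {A : FS L X} {h : X → ℤ} (ha : ∀ x, |h (A.a x) - h x| ≤ 1)
    (hd : ∀ v x, |h (A.d v x) - h x| ≤ 1) (l : List (Option L)) (x : X) :
    |h (A.ev l x) - h x| ≤ l.length := by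
  induction l with
  | nil => simp [FS.ev_nil]
  | cons s l ih =>
    have h1 : |h (A.step s (A.ev l x)) - h (A.ev l x)| ≤ 1 := by
      cases s with
      | none => exact ha _
      | some v => exact hd v _
    have h2 : h (A.ev (s :: l) x) - h x
        = (h (A.step s (A.ev l x)) - h (A.ev l x)) + (h (A.ev l x) - h x) := by
      rw [A.ev_cons, Perm.mul_apply]
      ring
    rw [h2]
    refine (abs_add_le _ _).trans ?_
    simp only [List.length_cons]
    push_cast
    linarith

theorem pot_traj2 {A : FS L X} {h : X → ℤ} (ha : ∀ x, |h (A.a x) - h x| ≤ 1)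
    (hd : ∀ v x, |h (A.d v x) - h x| ≤ 1) {l l1 l2 : List (Option L)} (x : X)
    (h1 : l1 <:+ l) (h2 : l2 <:+ l) :
    |h (A.ev l1 x) - h (A.ev l2 x)| ≤ l.length := by
  rcases List.suffix_or_suffix_of_suffix h1 h2 with h3 | h3
  · obtain ⟨m, rfl⟩ := h3
    have h4 := pot_traj ha hd m (A.ev l1 x)
    rw [← Perm.mul_apply, ← A.ev_append] at h4
    rw [abs_sub_comm]
    refine h4.trans ?_
    have h5 := h2.length_le
    rw [List.length_append] at h5
    omega
  · obtain ⟨m, rfl⟩ := h3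
    have h4 := pot_traj ha hd m (A.ev l2 x)
    rw [← Perm.mul_apply, ← A.ev_append] at h4
    refine h4.trans ?_
    have h5 := h1.length_le
    rw [List.length_append] at h5
    omega

/-- Either the trajectory avoids the bad set, or the two trajectories arrive together in the bad set. -/
theorem lockstep_or {A : FS L X} {B : FS L Y} {β : X → Y} {Bad : Set X}
    (ha : ∀ x, β (A.a x) = B.a (β x)) (hd : ∀ v x, x ∉ Bad → β (A.d v x) = B.d v (β x))
    (l : List (Option L)) (x : X) : A.Avoid l x Bad ∨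
      ∃ l1, l1 <:+ l ∧ A.ev l1 x ∈ Bad ∧ β (A.ev l1 x) = B.ev l1 (β x) := by
  induction l with
  | nil =>
    by_cases hx : x ∈ Bad
    · exact Or.inr ⟨[], List.suffix_refl _, by simpa [FS.ev_nil] using hx, rfl⟩
    · exact Or.inl (FS.Avoid.nil.2 hx)
  | cons s l ih =>
    rcases ih with ih | ⟨l1, h1, h2, h3⟩
    · by_cases hx : A.ev (s :: l) x ∈ Bad
      · refine Or.inr ⟨s :: l, List.suffix_refl _, hx, ?_⟩
        rw [A.ev_cons, B.ev_cons, Perm.mul_apply, Perm.mul_apply, ← lockstep ha hd l x ih]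
        cases s with
        | none => exact ha _
        | some v => exact hd v _ ih.end
      · exact Or.inl (FS.Avoid.cons.2 ⟨hx, ih⟩)
    · exact Or.inr ⟨l1, h1.trans (List.suffix_cons s l), h2, h3⟩

theorem Stage.compatA (S : Stage) {n ρ : ℕ} (hρ : ρ < n) {φ : Perm S.X} {l : List (Option D)}
    (hl : l.length ≤ ρ) (hw : Good S.Q S.B S.om φ (wd l))
    (pt : XT (Fin 2) S.X n → ℤ)
    (pt_a : ∀ y, pt ((theta S.Q n).A.a y) = pt y)
    (pt_d : ∀ v y, |pt ((theta S.Q n).A.d v y) - pt y| ≤ 1)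
    (pt_port : pt ((theta S.Q n).port 1) = n) (pt_cen : pt (cen (Fin 2) n (S.Q.port 2)) = 0) :
    ActsBy (addS S.Q S.B S.om n) (wd l) (liftS S.Q S.Om n φ) := by
  classical
  intro Y C A t c x
  have hln : (l.length : ℤ) < n := by exact_mod_cast lt_of_le_of_lt hl hρ
  set Th := theta S.Q n with hTh
  set e0 : XT (Fin 2) S.X n := cen (Fin 2) n (S.Q.port 2) with he0
  set po : XT (Fin 2) S.X n := Th.port 1 with hpo
  -- the piece `X + U`
  let QU : Piece (S.X ⊕ XT (Fin 2) S.X n) (Fin 4 ⊕ Unit) :=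
    S.Q.addP Th.A (Th.port 1) (fun v => Th.fix v 1)
  let bU : Built S.Q QU (Option (CT (Fin 2) n × Unit)) := (theta_built S.Q n).addP 1
  have hQU : ActsBy QU (wd l) (bU.lift φ) := bU.actsBy hw.1.1
  have liftl : ∀ x, bU.lift φ (Sum.inl x) = Sum.inl (φ x) := fun x => bU.lift_e φ none x
  have liftr : ∀ y, bU.lift φ (Sum.inr y) = Sum.inr ((theta_built S.Q n).lift φ y) := by
    intro y
    obtain ⟨⟨c0, x0⟩, rfl⟩ := (theta_built S.Q n).t.e.surjective y
    rw [Built.lift_e]
    exact bU.lift_e φ (some c0) x0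
  let G : FS D (C × (S.X ⊕ XT (Fin 2) S.X n)) := glue (MonoidHom.id D) QU t.gam
  have hG : ∀ z : C × (S.X ⊕ XT (Fin 2) S.X n), G.ev l z = (z.1, bU.lift φ z.2) := by
    intro z
    have := hQU _ _ G (glueAtlas (MonoidHom.id D) QU t.gam) z.1 z.2
    rw [G.hom_wd] at this
    exact this
  let g : C × (S.X ⊕ XT (Fin 2) S.X n) → Y := fun z => match z with
    | (c, Sum.inl x) => t.e (c, Sum.inl x)
    | (c, Sum.inr y) => t.e (c, Sum.inr (y, 1))
  let Bad : Set (C × (S.X ⊕ XT (Fin 2) S.X n)) := {z | z.2 = Sum.inr e0}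
  have gport : ∀ c i, g (c, QU.port i) = t.e (c, (addS S.Q S.B S.om n).port i) := by
    rintro c (i | i) <;> rfl
  have oma : ∀ y, (omS S.Q S.B S.om n).a (y, 1) = (Th.A.a y, 1) := by
    intro y
    refine Prod.ext rfl ?_
    funext u
    simp [omS, FS.ext]
  have omd : ∀ v y, y ≠ e0 → (omS S.Q S.B S.om n).d v (y, 1) = (Th.A.d v y, 1) := by
    intro v y hy
    refine Prod.ext rfl ?_
    funext u
    simp only [omS, FS.ext, mkHom_apply]
    rw [if_neg (fun h => hy h.2.1)]
    simp
  have ga : ∀ z, g (G.a z) = A.a (g z) := by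
    rintro ⟨c, (x | y)⟩
    · exact (t.ha c (Sum.inl x)).symm
    · refine Eq.trans ?_ (t.ha c (Sum.inr (y, 1))).symm
      show t.e (c, Sum.inr (Th.A.a y, 1)) = t.e (c, Sum.inr ((omS S.Q S.B S.om n).a (y, 1)))
      rw [oma]
  have gd : ∀ v z, z ∉ Bad → g (G.d v z) = A.d v (g z) := by
    rintro v ⟨c, u⟩ hz
    by_cases hu : u ∈ Set.range QU.port
    · obtain ⟨i, rfl⟩ := hu
      rw [gport, t.gam_spec, ← gport]
      exact congrArg g (glue_port (MonoidHom.id D) QU t.gam v c i)
    · have h1 : G.d v (c, u) = (c, QU.A.d v u) := glue_nonport (MonoidHom.id D) QU t.gam v c u hu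
      rw [h1]
      rcases u with x | y
      · refine (t.hd v c (Sum.inl x) ?_).symm
        rintro ⟨(i | i), hi⟩
        · exact hu ⟨Sum.inl i, by
            have h2 : (Sum.inl (S.Q.port i) : S.X ⊕ (XT (Fin 2) S.X n × (S.Om → T))) = Sum.inl x := hi
            exact congrArg Sum.inl (Sum.inl_injective h2)⟩
        · exact absurd hi (by
            intro h2
            have h3 : (Sum.inr (omP S.Q S.Om n) : S.X ⊕ (XT (Fin 2) S.X n × (S.Om → T))) = Sum.inl x := h2
            cases h3)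
      · have hy : y ≠ e0 := fun h => hz (by show Sum.inr y = Sum.inr e0; rw [h])
        have hy' : y ≠ po := fun h => hu ⟨Sum.inr (), by rw [h]; rfl⟩
        refine Eq.trans ?_ (t.hd v c (Sum.inr (y, 1)) ?_).symm
        · show t.e (c, Sum.inr (Th.A.d v y, 1)) = t.e (c, Sum.inr ((omS S.Q S.B S.om n).d v (y, 1)))
          rw [omd v y hy]
        · rintro ⟨(i | i), hi⟩
          · have h3 : (Sum.inl (S.Q.port i) : S.X ⊕ (XT (Fin 2) S.X n × (S.Om → T))) =
              Sum.inr (y, 1) := hi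
            cases h3
          · have h3 : (Sum.inr (omP S.Q S.Om n) : S.X ⊕ (XT (Fin 2) S.X n × (S.Om → T))) =
              Sum.inr (y, 1) := hi
            exact hy' (congrArg Prod.fst (Sum.inr_injective h3)).symm
  -- the potential
  let h : C × (S.X ⊕ XT (Fin 2) S.X n) → ℤ := fun z => match z with
    | (_, Sum.inl _) => n
    | (_, Sum.inr y) => |pt y|
  have hport : ∀ c i, h (c, QU.port i) = n := by
    rintro c (i | i)
    · rfl
    · show |pt po| = n
      rw [pt_port]
      simp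
  have ha : ∀ z, |h (G.a z) - h z| ≤ 1 := by
    rintro ⟨c, (x | y)⟩
    · show |(n : ℤ) - n| ≤ 1
      simp
    · show abs (abs (pt (Th.A.a y)) - abs (pt y)) ≤ 1
      rw [pt_a]
      simp
  have hd : ∀ v z, |h (G.d v z) - h z| ≤ 1 := by
    rintro v ⟨c, u⟩
    by_cases hu : u ∈ Set.range QU.port
    · obtain ⟨i, rfl⟩ := hu
      have h1 : G.d v (c, QU.port i) = _ := glue_port (MonoidHom.id D) QU t.gam v c i
      rw [h1, hport, hport]
      simp
    · have h1 : G.d v (c, u) = (c, QU.A.d v u) := glue_nonport (MonoidHom.id D) QU t.gam v c u hu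
      rw [h1]
      rcases u with x | y
      · show |(n : ℤ) - n| ≤ 1
        simp
      · show abs (abs (pt (Th.A.d v y)) - abs (pt y)) ≤ 1
        exact (abs_abs_sub_abs_le_abs_sub _ _).trans (pt_d v y)
  have key : ∀ z, (∃ l1, l1 <:+ l ∧ h (G.ev l1 z) = n) → A.ev l (g z) = g (z.1, bU.lift φ z.2) := by
    rintro z ⟨l1, hl1, hz⟩
    rw [← hG z]
    refine (lockstep (Bad := Bad) ga gd l z ?_).symm
    intro l' hl' hbad
    have h1 := pot_traj2 ha hd z hl1 hl'
    have h2 : h (G.ev l' z) = 0 := by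
      have h3 : (G.ev l' z).2 = Sum.inr e0 := hbad
      have h4 : G.ev l' z = ((G.ev l' z).1, Sum.inr e0) := Prod.ext rfl h3
      rw [h4]
      show |pt e0| = 0
      rw [pt_cen]
      simp
    rw [hz, h2] at h1
    simp at h1
    have : (l.length : ℤ) < n := hln
    omega
  rw [A.hom_wd]
  rcases x with x | ⟨y, m⟩
  · have h1 := key (c, Sum.inl x) ⟨[], List.nil_suffix, rfl⟩
    rw [liftl] at h1
    exact h1
  · -- the conclusion from avoiding `omP`
    have fst_ev : ∀ (l : List (Option D)) (z : XT (Fin 2) S.X n × (S.Om → T)),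
        ((omS S.Q S.B S.om n).ev l z).1 = Th.A.ev l z.1 := fun l z =>
      intertwine (A := omS S.Q S.B S.om n) (B := Th.A) (β := Prod.fst) (fun _ => rfl)
        (fun _ _ => rfl) l z
    have conc : (omS S.Q S.B S.om n).Avoid l (y, m) {omP S.Q S.Om n} →
        A.ev l (t.e (c, Sum.inr (y, m))) =
          t.e (c, Sum.inr ((theta_built S.Q n).lift φ y, m)) := by
      intro hav
      rw [← omS_good n hw y m, FS.hom_wd]
      refine (lockstep (β := fun z => t.e (c, Sum.inr z)) (Bad := {omP S.Q S.Om n}) ?_ ?_ l (y, m)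
        hav).symm
      · intro z
        exact (t.ha c (Sum.inr z)).symm
      · intro v z hz
        refine (t.hd v c (Sum.inr z) ?_).symm
        rintro ⟨(i | i), hi⟩
        · have h3 : (Sum.inl (S.Q.port i) : S.X ⊕ (XT (Fin 2) S.X n × (S.Om → T))) =
            Sum.inr z := hi
          cases h3
        · have h3 : (Sum.inr (omP S.Q S.Om n) : S.X ⊕ (XT (Fin 2) S.X n × (S.Om → T))) =
            Sum.inr z := hi
          exact hz (Sum.inr_injective h3).symm
    show A.ev l (t.e (c, Sum.inr (y, m))) = t.e (c, Sum.inr ((theta_built S.Q n).lift φ y, m))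
    rcases lockstep_or (A := Th.A) (B := G) (β := fun y => (c, Sum.inr y)) (Bad := {po})
      (fun _ => rfl) (by
        intro v y hy
        refine (glue_nonport (MonoidHom.id D) QU t.gam v c (Sum.inr y) ?_).symm
        rintro ⟨(i | i), hi⟩
        · have h3 : (Sum.inl (S.Q.port i) : S.X ⊕ XT (Fin 2) S.X n) = Sum.inr y := hi
          cases h3
        · have h3 : (Sum.inr po : S.X ⊕ XT (Fin 2) S.X n) = Sum.inr y := hi
          exact hy (Sum.inr_injective h3).symm) l y with hav | ⟨l1, hl1, hbad, hstep⟩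
    · apply conc
      intro l' hl' hbad
      apply hav l' hl'
      have h1 := fst_ev l' (y, m)
      rw [hbad] at h1
      exact h1.symm
    · have hpo1 : Th.A.ev l1 y = po := hbad
      by_cases hm : m = 1
      · subst hm
        have h1 := key (c, Sum.inr y) ⟨l1, hl1, by
          rw [← hstep]
          show |pt (Th.A.ev l1 y)| = n
          rw [hpo1, pt_port]
          simp⟩
        rw [liftr] at h1
        exact h1
      · apply conc
        -- the trajectory of `y` avoids `e0`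
        have hav0 : ∀ l', l' <:+ l → Th.A.ev l' y ≠ e0 := by
          intro l' hl' h0
          have h1 := pot_traj2 (A := Th.A) (h := pt) (fun x => by rw [pt_a]; simp) pt_d y hl1 hl'
          rw [hpo1, h0, pt_port, pt_cen] at h1
          simp at h1
          have : (l.length : ℤ) < n := hln
          omega
        intro l' hl' hbad
        apply hm
        have h1 : (omS S.Q S.B S.om n).hom (wd l') (y, m) = omP S.Q S.Om n := by
          rw [FS.hom_wd]
          exact hbad
        rw [omS, FS.ext_hom] at h1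
        have h2 := congrArg Prod.snd h1
        funext u
        have h3 := congrFun h2 (S.B.hom (wd l') u)
        simp only [omP, Pi.one_apply] at h3
        have h4 : S.B.hom (wd l')⁻¹ (S.B.hom (wd l') u) = u := by simp
        rw [h4, FS.lam_avoid l' _ (by
          intro l'' hl'' hb
          have h5 : (S.B.prod Th.A).ev l'' (u, y) = (S.om, e0) := hb
          rw [FS.prod_ev] at h5
          exact hav0 l'' (hl''.trans hl') (congrArg Prod.snd h5)), one_mul] at h3
        exact h3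

end Pool.Agent.HJI
end

section

/-!
# HJ-24 Count
-/

set_option autoImplicit false

namespace Pool.Agent.HJI

open Equiv

variable {L X Y Z Om P P' C C0 : Type} [Group L]

/-- The token map of a chain position. -/
noncomputable def Yt (A : Perm (CE P × X)) (q : Fin 3 × X) : P ↪ CE P × X :=
  ⟨fun x => A⁻¹ (some (x, q.1), q.2), fun x x' hxx => by
    have h1 := A⁻¹.injective hxx
    have h2 := congrArg Prod.fst h1
    simpa using h2⟩

theorem Yt_apply (A : Perm (CE P × X)) (q : Fin 3 × X) (x : P) :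
    Yt A q x = A⁻¹ (some (x, q.1), q.2) := rfl

theorem moveT_outT (A : Perm (CE P × X)) (o : P) (y : P ↪ X) :
    moveT A⁻¹ (outT o y) = Yt A (2, y o) := rfl

theorem Yt_disj (A : Perm (CE P × X)) {q q' : Fin 3 × X} (h : q ≠ q') : Disj (Yt A q) (Yt A q') := by
  intro x x' hxx
  rw [Yt_apply, Yt_apply] at hxx
  have h1 := A⁻¹.injective hxx
  have h2 := congrArg Prod.fst h1
  have h3 := congrArg Prod.snd h1
  simp only [Option.some.injEq, Prod.mk.injEq] at h2 h3
  exact h (Prod.ext h2.2 h3)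

open Classical in
/-- The map of positions. -/
noncomputable def fpos (o' o : P) (v : D) (y : P ↪ X) (q : Fin 3 × X) : Fin 3 × X :=
  if q.2 = y o' then (if chi q.1 v = 1 then q else (q.1 - 1, y o))
  else if q.2 = y o ∧ q.1 ≠ 2 then (if chi (q.1 + 1) v = 1 then q else (q.1 + 1, y o'))
  else q

theorem evIn_inv [DecidableEq P] (p : L →* D) (o' o : P) (h : o' ≠ o) (v : L) (y : P ↪ X) :
    (evIn p o' o h v y)⁻¹ = evIn p o' o h v⁻¹ y := by
  rw [inv_eq_iff_mul_eq_one, evIn, evIn, ← eact_mul, mul_inv_cancel, eact_one]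

theorem evIn_inv_apply [DecidableEq P] (p : L →* D) (o' o : P) (h : o' ≠ o) (v : L) (y : P ↪ X)
    (x : P) (q : Fin 3 × X) (hq : ¬ (q.1 = 0 ∧ q.2 = y o' ∧ chi 0 (p v) ≠ 1)) :
    (evIn p o' o h v y)⁻¹ (some (x, q.1), q.2) =
      (some (x, (fpos o' o (p v) y q).1), (fpos o' o (p v) y q).2) := by
  have hoo : o ≠ o' := fun e => h e.symm
  obtain ⟨i, z⟩ := q
  have hchi : ∀ j, chi j (p v⁻¹) = 1 ↔ chi j (p v) = 1 := by
    intro j
    rw [map_inv, map_inv, inv_eq_one]
  rw [evIn_inv, evIn]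
  by_cases hz : z ∈ Set.range y
  · obtain ⟨k, rfl⟩ := hz
    rw [eact_token]
    simp only [MonoidHom.comp_apply, gamE]
    by_cases hk : k = o'
    · subst hk
      have hj : jtE k o ((some (x, i) : CE P), k) = some i := by simp [jtE]
      rw [edgeHom_some _ _ _ _ _ _ _ hj]
      by_cases hc : chi i (p v) = 1
      · rw [if_pos ((hchi i).2 hc)]
        simp [fpos, hc]
      · rw [if_neg (fun h' => hc ((hchi i).1 h'))]
        have hi : i ≠ 0 := by
          rintro rfl
          exact hq ⟨rfl, rfl, hc⟩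
        simp [fpos, hc, prE, hi]
    · have hyk : y k ≠ y o' := fun e => hk (y.injective e)
      by_cases hk2 : k = o
      · subst hk2
        by_cases hi : i = 2
        · have hj : jtE o' k ((some (x, i) : CE P), k) = none := by simp [jtE, hk, hi]
          rw [edgeHom_none _ _ _ _ _ _ hj]
          simp [fpos, hyk, hi]
        · have hj : jtE o' k ((some (x, i) : CE P), k) = some (i + 1) := by simp [jtE, hk, hi]
          rw [edgeHom_some _ _ _ _ _ _ _ hj]
          by_cases hc : chi (i + 1) (p v) = 1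
          · rw [if_pos ((hchi _).2 hc)]
            simp [fpos, hyk, hi, hc]
          · rw [if_neg (fun h' => hc ((hchi _).1 h'))]
            simp [fpos, hyk, hi, hc, prE, hk]
      · have hj : jtE o' o ((some (x, i) : CE P), k) = none := by simp [jtE, hk, hk2]
        rw [edgeHom_none _ _ _ _ _ _ hj]
        have hyk2 : y k ≠ y o := fun e => hk2 (y.injective e)
        simp [fpos, hyk, hyk2]
  · rw [eact_other _ _ _ _ _ hz]
    have h1 : z ≠ y o' := fun e => hz ⟨o', e.symm⟩
    have h2 : z ≠ y o := fun e => hz ⟨o, e.symm⟩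
    simp [fpos, h1, h2]

theorem Yt_evIn [DecidableEq P] (p : L →* D) (o' o : P) (h : o' ≠ o) (v : L) (y : P ↪ X)
    (A : Perm (CE P × X)) (q : Fin 3 × X) (hq : ¬ (q.1 = 0 ∧ q.2 = y o' ∧ chi 0 (p v) ≠ 1)) :
    Yt (evIn p o' o h v y * A) q = Yt A (fpos o' o (p v) y q) := by
  ext1 x
  rw [Yt_apply, Yt_apply, mul_inv_rev, Perm.mul_apply, evIn_inv_apply p o' o h v y x q hq]

/-- The positions on which `fpos` is the action of the event. -/
def okPos (o' : P) (v : D) (y : P ↪ X) (j : Fin 3) : Set (Fin 3 × X) :=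
  {q | j ≤ q.1 ∧ ¬ (q = (j, y o') ∧ chi j v ≠ 1)}

theorem okPos_ok {o' : P} {v : D} {y : P ↪ X} {j : Fin 3} {q : Fin 3 × X}
    (hq : q ∈ okPos o' v y j) : ¬ (q.1 = 0 ∧ q.2 = y o' ∧ chi 0 v ≠ 1) := by
  rintro ⟨h1, h2, h3⟩
  obtain ⟨h4, h5⟩ := hq
  rw [h1] at h4
  have hj : j = 0 := Fin.le_zero_iff.mp h4
  subst hj
  exact h5 ⟨Prod.ext h1 h2, h3⟩

theorem fpos_injOn [DecidableEq P] (p : L →* D) (o' o : P) (h : o' ≠ o) (v : L) (y : P ↪ X)
    (j : Fin 3) : Set.InjOn (fpos o' o (p v) y) (okPos o' (p v) y j) := by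
  intro q hq q' hq' heq
  have h1 := evIn_inv_apply p o' o h v y o q (okPos_ok hq)
  have h2 := evIn_inv_apply p o' o h v y o q' (okPos_ok hq')
  rw [heq, ← h2] at h1
  have h3 := (evIn p o' o h v y)⁻¹.injective h1
  simp only [Prod.mk.injEq, Option.some.injEq, true_and] at h3
  exact Prod.ext h3.1 h3.2

theorem fpos_le (o' o : P) (v : D) (y : P ↪ X) (j : Fin 3) (q : Fin 3 × X)
    (hq : q ∈ okPos o' v y j) : j ≤ (fpos o' o v y q).1 := by
  obtain ⟨i, z⟩ := q
  obtain ⟨h1, h2⟩ := hq
  simp only [Prod.mk.injEq] at h1 h2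
  unfold fpos
  simp only
  split_ifs with h3 h4 h5 h6
  · exact h1
  · have hij : i ≠ j := by
      rintro rfl
      exact h2 ⟨⟨rfl, h3⟩, h4⟩
    show j ≤ i - 1
    revert h1 hij
    clear h2 h4
    revert i j
    decide
  · exact h1
  · obtain ⟨-, h7⟩ := h5
    show j ≤ i + 1
    clear h2 h6
    revert i j
    decide
  · exact h1

open Classical in
theorem red_step [DecidableEq P] [Finite X] (p : L →* D) (o' o : P) (h : o' ≠ o)
    (M : List (L × (P ↪ X))) (j : Fin 3) :
    (red p o' o h M).2.length +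
        {q : Fin 3 × X | j ≤ q.1 ∧ isStart (Yt (red p o' o h M).1 q) (red p o' o h M).2 = true}.ncard ≤
      3 * Nat.card X + (M.filter (fun e => chi j (p e.1) ≠ 1)).length := by
  have : Nonempty P := ⟨o⟩
  induction M with
  | nil =>
    simp only [red, List.length_nil, zero_add, List.filter_nil, add_zero]
    have h1 : {q : Fin 3 × X | j ≤ q.1 ∧ isStart (Yt (1 : Perm (CE P × X)) q) ([] : List
        (L × (P ↪ CE P × X))) = true}.ncard ≤ (Set.univ : Set (Fin 3 × X)).ncard :=
      Set.ncard_le_ncard (Set.subset_univ _) (Set.toFinite _)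
    rw [Set.ncard_univ, Nat.card_prod, Nat.card_eq_fintype_card, Fintype.card_fin] at h1
    exact h1
  | cons e M ih =>
    set A := (red p o' o h M).1 with hA
    set N := (red p o' o h M).2 with hN
    have hr1 : (red p o' o h (e :: M)).1 = evIn p o' o h e.1 e.2 * A := rfl
    have hr2 : (red p o' o h (e :: M)).2 = ins e.1 (Yt A (2, e.2 o)) N := rfl
    rw [hr1, hr2, length_ins]
    set a : Fin 3 × X := (2, e.2 o) with ha
    set U := {q : Fin 3 × X | j ≤ q.1 ∧ isStart (Yt A q) N = true} with hU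
    set U' := {q : Fin 3 × X | j ≤ q.1 ∧ isStart (Yt (evIn p o' o h e.1 e.2 * A) q)
      (ins e.1 (Yt A a) N) = true} with hU'
    set Ex : Set (Fin 3 × X) := {q | q = (j, e.2 o') ∧ chi j (p e.1) ≠ 1} with hEx
    have hUf : U.Finite := Set.toFinite _
    have hok : ∀ q ∈ U' \ Ex, q ∈ okPos o' (p e.1) e.2 j := fun q hq => ⟨hq.1.1, hq.2⟩
    have h1 : (U' \ Ex).ncard ≤ (U \ {a}).ncard := by
      apply Set.ncard_le_ncard_of_injOn (fpos o' o (p e.1) e.2)
      · intro q hq
        have h2 := hok q hq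
        have h3 := hq.1.2
        rw [Yt_evIn p o' o h e.1 e.2 A q (okPos_ok h2)] at h3
        have h4 : fpos o' o (p e.1) e.2 q ≠ a := by
          intro h5
          rw [h5, isStart_ins_self] at h3
          exact absurd h3 (by decide)
        refine ⟨⟨fpos_le o' o (p e.1) e.2 j q h2, ?_⟩, h4⟩
        rwa [isStart_ins_disj e.1 (Yt_disj A h4.symm)] at h3
      · intro q hq q' hq' heq
        exact fpos_injOn p o' o h e.1 e.2 j (hok q hq) (hok q' hq') heq
    have h2 : U'.ncard ≤ (U' \ Ex).ncard + Ex.ncard :=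
      Set.ncard_le_ncard_sdiff_add_ncard _ _ (Set.toFinite _)
    have h3 : Ex.ncard ≤ if chi j (p e.1) ≠ 1 then 1 else 0 := by
      split_ifs with hc
      · have : Ex ⊆ {(j, e.2 o')} := fun q hq => hq.1
        refine (Set.ncard_le_ncard this (Set.toFinite _)).trans ?_
        rw [Set.ncard_singleton]
      · have : Ex = ∅ := by
          ext q
          simp only [hEx, Set.mem_ofPred_eq, Set.mem_empty_iff_false, iff_false]
          exact fun hq => hc hq.2
        rw [this, Set.ncard_empty]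
    have h4 : (U \ {a}).ncard + (if isStart (Yt A a) N = true then 1 else 0) = U.ncard := by
      by_cases hs : isStart (Yt A a) N = true
      · rw [if_pos hs]
        have hmem : a ∈ U := ⟨Fin.le_last _, hs⟩
        exact Set.ncard_sdiff_singleton_add_one hmem hUf
      · rw [if_neg hs, add_zero]
        have hmem : a ∉ U := fun hh => hs hh.2
        rw [Set.sdiff_singleton_eq_self hmem]
    have h5 : (List.filter (fun e => decide (chi j (p e.1) ≠ 1)) (e :: M)).length =
        (List.filter (fun e => decide (chi j (p e.1) ≠ 1)) M).length +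
          (if chi j (p e.1) ≠ 1 then 1 else 0) := by
      rw [List.filter_cons]
      split_ifs with hc hc' hc' <;> simp_all
    omega

theorem red_length [DecidableEq P] [Finite X] (p : L →* D) (o' o : P) (h : o' ≠ o)
    (M : List (L × (P ↪ X))) (j : Fin 3) :
    (red p o' o h M).2.length ≤ 3 * Nat.card X +
      (M.filter (fun e => chi j (p e.1) ≠ 1)).length := by
  have h1 := red_step p o' o h M j
  have h2 := Nat.le_add_right (red p o' o h M).2.length
    {q : Fin 3 × X | j ≤ q.1 ∧ isStart (Yt (red p o' o h M).1 q) (red p o' o h M).2 = true}.ncard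
  refine (h2.trans h1).trans (le_of_eq ?_)
  congr 3

theorem red_length' [DecidableEq P] [Finite X] (p : L →* D) (o' o : P) (h : o' ≠ o)
    (M : List (L × (P ↪ X))) :
    3 * (red p o' o h M).2.length ≤ 9 * Nat.card X + 2 * M.length := by
  have h0 := red_length p o' o h M 0
  have h1 := red_length p o' o h M 1
  have h2 := red_length p o' o h M 2
  have h3 : (M.filter (fun e => chi 0 (p e.1) ≠ 1)).length +
      (M.filter (fun e => chi 1 (p e.1) ≠ 1)).length +
      (M.filter (fun e => chi 2 (p e.1) ≠ 1)).length ≤ 2 * M.length := by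
    clear h0 h1 h2
    induction M with
    | nil => simp
    | cons e M ih =>
      have hc2 : chi 2 (p e.1) = chi 0 (p e.1) * chi 1 (p e.1) := rfl
      simp only [List.filter_cons, List.length_cons]
      rcases Int.units_eq_one_or (chi 0 (p e.1)) with h4 | h4 <;>
        rcases Int.units_eq_one_or (chi 1 (p e.1)) with h5 | h5 <;>
        simp [hc2, h4, h5] at ih ⊢ <;> omega
  omega

end Pool.Agent.HJI
end

section

/-!
# HJ-7 FinIdxB
-/

set_option autoImplicit false

namespace Pool.Agent.HJI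

open Equiv

variable {L X Y Z Om P P' C C0 : Type} [Group L]

/-- `H0 ∩ AA` maps onto the alternating group. -/
private theorem fib_good (S : Stage) (H0 : Subgroup F) [H0.Normal]
    (hidx : H0.index ≠ 0) (hlt : H0.index < Nat.card (alternatingGroup S.X))
    (h5 : 5 ≤ Nat.card S.X) (φ : Perm S.X) (hφ : φ ∈ alternatingGroup S.X) :
    ∃ κ ∈ H0, Good S.Q S.B S.om φ κ := by
  classical
  let M : Subgroup (alternatingGroup S.X) :=
    { carrier := {φ | ∃ κ ∈ H0, Good S.Q S.B S.om (φ : Perm S.X) κ}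
      mul_mem' := by
        rintro a b ⟨k, hk, hg⟩ ⟨k', hk', hg'⟩
        exact ⟨k * k', mul_mem hk hk', hg.mul hg'⟩
      one_mem' := ⟨1, one_mem _, Good.one⟩
      inv_mem' := by
        rintro a ⟨k, hk, hg⟩
        exact ⟨k⁻¹, inv_mem hk, hg.inv⟩ }
  have hN : M.Normal := by
    constructor
    rintro a ⟨k, hk, hg⟩ θ
    obtain ⟨w, hw⟩ := S.good θ θ.2
    exact ⟨w * k * w⁻¹, Subgroup.Normal.conj_mem inferInstance k hk w, (hw.mul hg).mul hw.inv⟩
  rcases alternatingGroup.normal_subgroup_eq_bot_or_eq_top h5 (N := M) with h | h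
  · exfalso
    have hfi : H0.FiniteIndex := ⟨hidx⟩
    have hfin : Finite (F ⧸ H0) := Subgroup.finite_quotient_of_finiteIndex
    let f : alternatingGroup S.X → F ⧸ H0 := fun θ =>
      (QuotientGroup.mk (Classical.choose (S.good θ θ.2)) : F ⧸ H0)
    have hf : Function.Injective f := by
      intro a b hab
      have h1 := QuotientGroup.eq.1 hab
      have h2 := Classical.choose_spec (S.good a a.2)
      have h3 := Classical.choose_spec (S.good b b.2)
      have h4 : a⁻¹ * b ∈ M := ⟨_, h1, h2.inv.mul h3⟩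
      rw [h, Subgroup.mem_bot] at h4
      exact (inv_mul_eq_one.1 h4)
    have h6 := Nat.card_le_card_of_injective f hf
    have h7 : H0.index = Nat.card (F ⧸ H0) := rfl
    omega
  · have h1 : (⟨φ, hφ⟩ : alternatingGroup S.X) ∈ M := by
      rw [h]
      exact Subgroup.mem_top _
    exact h1

private theorem fib_ai (σ : Perm X) (x : X) : σ (σ⁻¹ x) = x := by
  rw [← Perm.mul_apply, mul_inv_cancel, Perm.one_apply]

private theorem fib_ia (σ : Perm X) (x : X) : σ⁻¹ (σ x) = x := by
  rw [← Perm.mul_apply, inv_mul_cancel, Perm.one_apply]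

/-- the word `l` along a tile. -/
private theorem fib_lock {Q : Piece X (Fin 4)} {A : FS D Y}
    (t : Atlas (MonoidHom.id D) Q A C) (l : List (Option D)) (c : C) (x : X)
    (h : Q.A.Avoid l x (Set.range Q.port)) : t.e (c, Q.A.ev l x) = A.ev l (t.e (c, x)) :=
  lockstep (β := fun x => t.e (c, x)) (Bad := Set.range Q.port) (fun x => (t.ha c x).symm)
    (fun v x hx => (t.hd v c x hx).symm) l x h

/-- conjugation of a good element whose moved points avoid the ports. -/
private theorem fib_conj {Q : Piece X (Fin 4)} {B : FS D Om} {om : Om} {κ : F} {ψ : Perm X}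
    (l : List (Option D)) (hκ : Good Q B om ψ κ)
    (hψ : ∀ y, ψ y ≠ y → Q.A.Avoid l y (Set.range Q.port)) :
    Good Q B om (Q.A.ev l * ψ * (Q.A.ev l)⁻¹) (wd l * κ * (wd l)⁻¹) := by
  have hmv : ∀ y, ψ y ≠ y → ψ (ψ y) ≠ ψ y := fun y hy h => hy (ψ.injective h)
  refine ⟨⟨?_, ?_⟩, ?_⟩
  · intro Y C A t c z
    obtain ⟨⟨c', z'⟩, h0⟩ := t.e.surjective (A.hom (wd l)⁻¹ (t.e (c, z)))
    have h1 : A.ev l (t.e (c', z')) = t.e (c, z) := by
      rw [h0, ← A.hom_wd, ← Perm.mul_apply, ← map_mul, mul_inv_cancel, map_one, Perm.one_apply]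
    rw [map_mul, map_mul, Perm.mul_apply, Perm.mul_apply, ← h0, hκ.1.1 Y C A t, A.hom_wd]
    by_cases hz : ψ z' = z'
    · rw [hz, h1]
      congr 1
      refine Prod.ext rfl ?_
      show z = Q.A.ev l (ψ ((Q.A.ev l)⁻¹ z))
      by_cases hz2 : ψ ((Q.A.ev l)⁻¹ z) = (Q.A.ev l)⁻¹ z
      · rw [hz2]
        simp
      · exfalso
        have h2 := fib_lock t l c _ (hψ _ hz2)
        rw [fib_ai, ← h1] at h2
        have h3 := t.e.injective ((A.ev l).injective h2)
        have h4 : z' = (Q.A.ev l)⁻¹ z := congrArg Prod.snd h3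
        rw [← h4] at hz2
        exact hz2 hz
    · have h2 := fib_lock t l c' z' (hψ _ hz)
      rw [h1] at h2
      have h3 := t.e.injective h2
      have h4 : c' = c := congrArg Prod.fst h3
      have h5 : Q.A.ev l z' = z := congrArg Prod.snd h3
      rw [← fib_lock t l c' (ψ z') (hψ _ (hmv _ hz)), h4, ← h5]
      congr 1
      refine Prod.ext rfl ?_
      show Q.A.ev l (ψ z') = Q.A.ev l (ψ ((Q.A.ev l)⁻¹ (Q.A.ev l z')))
      rw [fib_ia]
  · intro Y C A t c0 z
    obtain ⟨⟨o, y⟩, hu⟩ : ∃ u, u = (B.prod A).hom (wd l)⁻¹ z := ⟨_, rfl⟩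
    obtain ⟨⟨c', z'⟩, rfl⟩ := t.e.surjective y
    rw [FS.lam_mul, FS.lam_mul, hκ.1.2 Y C A t, mul_one, FS.lam_inv, ← hu]
    have hk : (B.prod A).hom κ (o, t.e (c', z')) = (o, t.e (c', ψ z')) := by
      rw [FS.prod_hom, hκ.2, hκ.1.1 Y C A t]
      rfl
    have hav : ∀ x, Q.A.Avoid l x (Set.range Q.port) →
        (B.prod A).lam (om, t.e (c0, Q.port 2)) (wd l) (o, t.e (c', x)) = 1 := by
      intro x hx
      apply FS.lam_avoid
      intro l' hl' hmem
      rw [FS.prod_ev, Set.mem_singleton_iff] at hmem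
      have h6 : Q.A.Avoid l' x (Set.range Q.port) := fun l'' hl'' => hx l'' (hl''.trans hl')
      have h7 : A.ev l' (t.e (c', x)) = t.e (c0, Q.port 2) := congrArg Prod.snd hmem
      rw [← fib_lock t l' c' x h6] at h7
      have h8 : Q.A.ev l' x = Q.port 2 := congrArg Prod.snd (t.e.injective h7)
      exact h6.end ⟨2, h8.symm⟩
    have hmul : (B.prod A).hom (wd l * κ) ((B.prod A).hom (wd l)⁻¹ z) =
        (B.prod A).hom (wd l * κ) (o, t.e (c', z')) := by rw [← hu]
    rw [hk]
    by_cases hz : ψ z' = z'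
    · rw [hz, mul_inv_cancel]
    · rw [hav _ (hψ _ hz), hav _ (hψ _ (hmv _ hz)), inv_one, mul_one]
  · rw [map_mul, map_mul, hκ.2, mul_one, ← map_mul, mul_inv_cancel, map_one]

/-- the permutation of a good element is determined. -/
private theorem fib_unique {Q : Piece X (Fin 4)} {B : FS D Om} {om : Om} {w : F} {φ ψ : Perm X}
    (h : Good Q B om φ w) (h' : Good Q B om ψ w) : φ = ψ := by
  let t : Atlas (MonoidHom.id D) Q Q.A Unit :=
    { e := Equiv.punitProd X
      ha := fun _ _ => rfl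
      hd := fun _ _ _ _ => rfl }
  ext1 x
  have h1 := h.1.1 X Unit Q.A t () x
  have h2 := h'.1.1 X Unit Q.A t () x
  have h3 := t.e.injective (h1.symm.trans h2)
  exact congrArg Prod.snd h3

theorem Stage.exists_comm (S : Stage) (l : List (Option D)) (H0 : Subgroup F) [H0.Normal]
    (hidx : H0.index ≠ 0) (hlt : H0.index < Nat.card (alternatingGroup S.X))
    (hcard : 4 * (l.length + 1) + 4 < Nat.card S.X)
    (hmove : ∃ x, S.Q.A.ev l x ≠ x ∧ S.Q.A.Avoid l x (Set.range S.Q.port)) :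
    ∃ κ ∈ H0, wd l * κ * (wd l)⁻¹ * κ⁻¹ ∈ S.AA ∧ wd l * κ * (wd l)⁻¹ * κ⁻¹ ∉ S.N := by
  classical
  obtain ⟨x, hx, hxa⟩ := hmove
  set σ := S.Q.A.ev l with hσ
  -- choice of the other two points
  obtain ⟨x1, x2, h1a, h2a, h1x, h2x, h1g, h2g, h12⟩ : ∃ x1 x2 : S.X,
      S.Q.A.Avoid l x1 (Set.range S.Q.port) ∧ S.Q.A.Avoid l x2 (Set.range S.Q.port) ∧
      x1 ≠ x ∧ x2 ≠ x ∧ x1 ≠ σ x ∧ x2 ≠ σ x ∧ x1 ≠ x2 := by
    let f : Fin (l.length + 1) × Fin 4 → S.X := fun p => (S.Q.A.ev (l.drop p.1)).symm (S.Q.port p.2)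
    let Bd : Finset S.X := Finset.univ.image f ∪ {x, σ x}
    have hBd : Bd.card ≤ 4 * (l.length + 1) + 2 := by
      refine (Finset.card_union_le _ _).trans ?_
      have e1 : (Finset.univ.image f).card ≤ 4 * (l.length + 1) := by
        refine Finset.card_image_le.trans ?_
        rw [Finset.card_univ, Fintype.card_prod, Fintype.card_fin, Fintype.card_fin, mul_comm]
      have e2 : ({x, σ x} : Finset S.X).card ≤ 2 := Finset.card_le_two
      omega
    have hc : 1 < (Bdᶜ).card := by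
      rw [Finset.card_compl]
      rw [Nat.card_eq_fintype_card] at hcard
      omega
    have hav : ∀ y ∈ Bdᶜ, S.Q.A.Avoid l y (Set.range S.Q.port) ∧ y ≠ x ∧ y ≠ σ x := by
      intro y hy
      rw [Finset.mem_compl] at hy
      refine ⟨?_, ?_, ?_⟩
      · rintro l' hl' ⟨i, hi⟩
        apply hy
        apply Finset.mem_union_left
        rw [Finset.mem_image]
        refine ⟨(⟨l.length - l'.length, by omega⟩, i), Finset.mem_univ _, ?_⟩
        show (S.Q.A.ev (l.drop (l.length - l'.length))).symm (S.Q.port i) = y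
        rw [← List.suffix_iff_eq_drop.1 hl', hi, Equiv.symm_apply_apply]
      · rintro rfl
        exact hy (Finset.mem_union_right _ (by simp))
      · rintro rfl
        exact hy (Finset.mem_union_right _ (by simp))
    obtain ⟨x1, hx1, x2, hx2, h12⟩ := Finset.one_lt_card.1 hc
    obtain ⟨a1, a2, a3⟩ := hav x1 hx1
    obtain ⟨b1, b2, b3⟩ := hav x2 hx2
    exact ⟨x1, x2, a1, b1, a2, b2, a3, b3, h12⟩
  set ψ : Perm S.X := swap x x1 * swap x1 x2 with hψ
  have hψx : ψ x = x1 := by
    rw [hψ, Perm.mul_apply, swap_apply_of_ne_of_ne h1x.symm h2x.symm, swap_apply_left]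
  have hψs : ∀ y, y ≠ x → y ≠ x1 → y ≠ x2 → ψ y = y := by
    intro y hy hy1 hy2
    rw [hψ, Perm.mul_apply, swap_apply_of_ne_of_ne hy1 hy2, swap_apply_of_ne_of_ne hy hy1]
  have hψm : ψ ∈ alternatingGroup S.X := by
    rw [Perm.mem_alternatingGroup, hψ, Perm.sign_mul, Perm.sign_swap h1x.symm, Perm.sign_swap h12]
    decide
  obtain ⟨κ, hκ, hκg⟩ := fib_good S H0 hidx hlt (by omega) ψ hψm
  have hconj := fib_conj l hκg (by
    intro y hy
    by_cases e1 : y = x
    · rw [e1]; exact hxa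
    · by_cases e2 : y = x1
      · rw [e2]; exact h1a
      · by_cases e3 : y = x2
        · rw [e3]; exact h2a
        · exact absurd (hψs y e1 e2 e3) hy)
  rw [← hσ] at hconj
  have hcomm := hconj.mul hκg.inv
  refine ⟨κ, hκ, ⟨_, ?_, hcomm⟩, fun hN => ?_⟩
  · apply mul_mem _ (inv_mem hψm)
    rw [Perm.mem_alternatingGroup, Perm.sign_mul, Perm.sign_mul, Perm.sign_inv,
      Perm.mem_alternatingGroup.1 hψm, mul_one, Int.units_mul_self]
  · have h6 : σ * ψ * σ⁻¹ * ψ⁻¹ = 1 := fib_unique hcomm hN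
    have h7 : σ * ψ * σ⁻¹ = ψ := mul_inv_eq_one.1 h6
    have h8 := congrArg (fun τ : Perm S.X => τ (σ x)) h7
    have h9 : σ (ψ (σ⁻¹ (σ x))) = ψ (σ x) := h8
    rw [fib_ia, hψx, hψs (σ x) hx h1g.symm h2g.symm] at h9
    exact h1x (σ.injective h9)

end Pool.Agent.HJI
end

section

/-!
# HJ-12 Loc
-/

set_option autoImplicit false

namespace Pool.Agent.HJI

open Equiv

variable {L X Y Z Om P P' C C0 : Type} [Group L]

/-- The map `Fin 2 → P` with `0 ↦ o'`, `1 ↦ o`. -/
private def iL (o' o : P) (x : Fin 2) : P := if x = 0 then o' else o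

/-- The induced map of indices. -/
private def kL (o' o : P) (c : CE (Fin 2)) : CE P :=
  match c with
  | none => none
  | some (i, r) => some (iL o' o i, r)

private theorem iL_inj {o' o : P} (h : o' ≠ o) : Function.Injective (iL o' o) := by
  intro x y hxy
  fin_cases x <;> fin_cases y <;> simp_all [iL]

private theorem kL_inj {o' o : P} (h : o' ≠ o) : Function.Injective (kL o' o) := by
  intro c c' hc
  rcases c with _ | ⟨i, r⟩ <;> rcases c' with _ | ⟨i', r'⟩
  · rfl
  · simp [kL] at hc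
  · simp [kL] at hc
  · simp only [kL, Option.some.injEq, Prod.mk.injEq] at hc
    rw [iL_inj h hc.1, hc.2]

private theorem jt_kL [DecidableEq P] {o' o : P} (h : o' ≠ o) (c : CE (Fin 2)) (x : Fin 2) :
    jtE o' o (kL o' o c, iL o' o x) = jtE 0 1 (c, x) := by
  have h' : o ≠ o' := fun e => h e.symm
  rcases c with _ | ⟨i, r⟩
  · rfl
  · fin_cases x
    · simp [kL, iL, jtE]
    · simp [kL, iL, jtE, h']

private theorem pr_kL [DecidableEq P] {o' o : P} (h : o' ≠ o) (c : CE (Fin 2)) (x : Fin 2) :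
    prE o' o (kL o' o c, iL o' o x) =
      (kL o' o (prE 0 1 (c, x)).1, iL o' o (prE 0 1 (c, x)).2) := by
  have h' : o ≠ o' := fun e => h e.symm
  rcases c with _ | ⟨i, r⟩
  · rfl
  · fin_cases x
    · fin_cases r <;> simp [kL, iL, prE]
    · fin_cases r <;> simp [kL, iL, prE, h']

private theorem gam_kL [DecidableEq P] {o' o : P} (h : o' ≠ o) (v : D) (c : CE (Fin 2)) (x : Fin 2) :
    gamE o' o h v (kL o' o c, iL o' o x) =
      (kL o' o (gamE (0 : Fin 2) 1 (by decide) v (c, x)).1,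
        iL o' o (gamE (0 : Fin 2) 1 (by decide) v (c, x)).2) := by
  cases hj : jtE (0 : Fin 2) 1 (c, x) with
  | none =>
    rw [gamE, edgeHom_none _ _ _ _ _ _ (by rw [jt_kL h, hj]), gamE,
      edgeHom_none _ _ _ _ _ _ hj]
  | some j =>
    rw [gamE, edgeHom_some _ _ _ _ _ _ j (by rw [jt_kL h, hj]), gamE,
      edgeHom_some _ _ _ _ _ _ j hj]
    split_ifs
    · rfl
    · exact pr_kL h c x

/-- The map of the iterated extensions. -/
private structure JL [DecidableEq P] (Q0 : Piece X (Fin 2)) (Q : Piece Y P) (o' o : P)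
    (h : o' ≠ o) (m : ℕ) where
  j : XT (Fin 2) X m → XT P Y m
  inj : Function.Injective j
  p : ∀ x, j ((Q0.extN 0 1 (by decide) m).port x) = (Q.extN o' o h m).port (iL o' o x)
  a : ∀ x, j ((Q0.extN 0 1 (by decide) m).A.a x) = (Q.extN o' o h m).A.a (j x)
  d : ∀ v x, j ((Q0.extN 0 1 (by decide) m).A.d v x) = (Q.extN o' o h m).A.d v (j x)
  np : ∀ x, j x ∈ Set.range (Q.extN o' o h m).port →
    x ∈ Set.range (Q0.extN 0 1 (by decide) m).port

private theorem extN_port [DecidableEq P] (Q : Piece Y P) (o' o : P) (h : o' ≠ o) (m : ℕ) (i : P) :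
    (Q.extN o' o h (m + 1)).port i = ((some (i, 2) : CE P), (Q.extN o' o h m).port o) := rfl

private theorem extN_a [DecidableEq P] (Q : Piece Y P) (o' o : P) (h : o' ≠ o) (m : ℕ)
    (c : CE P) (x : XT P Y m) :
    (Q.extN o' o h (m + 1)).A.a (c, x) = (c, (Q.extN o' o h m).A.a x) := rfl

private theorem extN_d_port [DecidableEq P] (Q : Piece Y P) (o' o : P) (h : o' ≠ o) (m : ℕ)
    (v : D) (c : CE P) (i : P) :
    (Q.extN o' o h (m + 1)).A.d v (c, (Q.extN o' o h m).port i) =
      ((gamE o' o h v (c, i)).1, (Q.extN o' o h m).port (gamE o' o h v (c, i)).2) :=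
  glue_port (MonoidHom.id D) (Q.extN o' o h m) (gamE o' o h) v c i

private theorem extN_d_nonport [DecidableEq P] (Q : Piece Y P) (o' o : P) (h : o' ≠ o) (m : ℕ)
    (v : D) (c : CE P) (x : XT P Y m) (hx : x ∉ Set.range (Q.extN o' o h m).port) :
    (Q.extN o' o h (m + 1)).A.d v (c, x) = (c, (Q.extN o' o h m).A.d v x) :=
  glue_nonport (MonoidHom.id D) (Q.extN o' o h m) (gamE o' o h) v c x hx

private theorem JL_exists [DecidableEq P] (Q0 : Piece X (Fin 2)) (Q : Piece Y P) (o' o : P)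
    (h : o' ≠ o)
    (b0 : X → Y) (inj : Function.Injective b0) (h0 : b0 (Q0.port 0) = Q.port o')
    (h1 : b0 (Q0.port 1) = Q.port o) (ha : ∀ x, b0 (Q0.A.a x) = Q.A.a (b0 x))
    (hd : ∀ v x, b0 (Q0.A.d v x) = Q.A.d v (b0 x))
    (hnp0 : ∀ x, b0 x ∈ Set.range Q.port → x ∈ Set.range Q0.port) (m : ℕ) :
    Nonempty (JL Q0 Q o' o h m) := by
  induction m with
  | zero =>
    refine ⟨⟨b0, inj, ?_, ha, hd, hnp0⟩⟩
    intro x
    fin_cases x
    · exact h0
    · exact h1
  | succ m ih =>
    obtain ⟨J⟩ := ih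
    refine ⟨⟨fun z => (kL o' o z.1, J.j z.2), ?_, ?_, ?_, ?_, ?_⟩⟩
    · rintro ⟨c, x⟩ ⟨c', x'⟩ hz
      have e1 : kL o' o c = kL o' o c' := congrArg Prod.fst hz
      have e2 : J.j x = J.j x' := congrArg Prod.snd hz
      exact Prod.ext (kL_inj h e1) (J.inj e2)
    · intro x
      rw [extN_port, extN_port]
      exact Prod.ext rfl (J.p 1)
    · rintro ⟨c, x⟩
      exact Prod.ext rfl (J.a x)
    · rintro v ⟨c, x⟩
      by_cases hx : x ∈ Set.range (Q0.extN 0 1 (by decide) m).port
      · obtain ⟨i, rfl⟩ := hx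
        rw [extN_d_port]
        show (kL o' o _, J.j _) = (Q.extN o' o h (m + 1)).A.d v (kL o' o c, J.j _)
        rw [J.p, J.p, extN_d_port, gam_kL h]
      · have hx' : J.j x ∉ Set.range (Q.extN o' o h m).port := fun h' => hx (J.np x h')
        rw [extN_d_nonport _ _ _ _ _ _ _ _ hx]
        show (kL o' o c, J.j _) = (Q.extN o' o h (m + 1)).A.d v (kL o' o c, J.j x)
        rw [extN_d_nonport _ _ _ _ _ _ _ _ hx', J.d]
    · rintro ⟨c, x⟩ ⟨i, hi⟩
      rw [extN_port] at hi
      have e1 : (some (i, 2) : CE P) = kL o' o c := congrArg Prod.fst hi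
      have e2 : (Q.extN o' o h m).port o = J.j x := congrArg Prod.snd hi
      have e3 : (Q.extN o' o h m).port o = J.j ((Q0.extN 0 1 (by decide) m).port 1) := (J.p 1).symm
      have e4 : x = (Q0.extN 0 1 (by decide) m).port 1 := J.inj (by rw [← e2, e3])
      rcases c with _ | ⟨i', r⟩
      · simp [kL] at e1
      · simp only [kL, Option.some.injEq, Prod.mk.injEq] at e1
        refine ⟨i', ?_⟩
        rw [extN_port, e4, ← e1.2]

theorem locAt_extN [DecidableEq P] (Q0 : Piece X (Fin 2)) (Q : Piece Y P) (o' o : P) (h : o' ≠ o)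
    (b0 : X → Y) (inj : Function.Injective b0) (h0 : b0 (Q0.port 0) = Q.port o')
    (h1 : b0 (Q0.port 1) = Q.port o) (ha : ∀ x, b0 (Q0.A.a x) = Q.A.a (b0 x))
    (hd : ∀ v x, b0 (Q0.A.d v x) = Q.A.d v (b0 x))
    (hnp0 : ∀ x, b0 x ∈ Set.range Q.port → x ∈ Set.range Q0.port) {m k : ℕ} (hmk : m < k) (i : P) :
    ∃ b : LocAt (Q0.extN 0 1 (by decide) m) (Q.extN o' o h k) i, ∀ y x, b.b y ≠ cen P k x := by
  induction k, Nat.succ_le_of_lt hmk using Nat.le_induction generalizing i with
  | base =>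
    obtain ⟨J⟩ := JL_exists Q0 Q o' o h b0 inj h0 h1 ha hd hnp0 m
    have hp1 : J.j ((Q0.extN 0 1 (by decide) m).port 1) = (Q.extN o' o h m).port o := J.p 1
    refine ⟨⟨fun y => ((some (i, 2) : CE P), J.j y), ?_, ?_, ?_, ?_, ?_⟩, ?_⟩
    · intro y y' hy
      exact J.inj (congrArg Prod.snd hy)
    · show ((some (i, 2) : CE P), J.j _) = _
      rw [hp1]; rfl
    · intro y
      exact Prod.ext rfl (J.a y)
    · intro v y hy
      by_cases hx : y ∈ Set.range (Q0.extN 0 1 (by decide) m).port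
      · obtain ⟨l, rfl⟩ := hx
        have hl : l = 1 := by
          fin_cases l
          · exact absurd rfl hy
          · rfl
        subst hl
        rw [(Q0.extN 0 1 (by decide) m).fix]
        show ((some (i, 2) : CE P), J.j _) = (Q.extN o' o h (m + 1)).A.d v ((some (i, 2) : CE P), J.j _)
        rw [hp1]
        exact ((Q.extN o' o h (m + 1)).fix v i).symm
      · have hx' : J.j y ∉ Set.range (Q.extN o' o h m).port := fun h' => hx (J.np y h')
        show ((some (i, 2) : CE P), J.j _) = (Q.extN o' o h (m + 1)).A.d v ((some (i, 2) : CE P), J.j y)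
        rw [extN_d_nonport _ _ _ _ _ _ _ _ hx', J.d]
    · rintro y ⟨l, hl⟩
      rw [extN_port] at hl
      have e2 : (Q.extN o' o h m).port o = J.j y := congrArg Prod.snd hl
      exact J.inj (by rw [← e2, hp1])
    · intro y x hyx
      have : (some (i, 2) : CE P) = none := congrArg Prod.fst hyx
      cases this
  | succ k hk ih =>
    obtain ⟨b', -⟩ := ih (Nat.lt_of_succ_le hk) o
    refine ⟨⟨fun y => ((some (i, 2) : CE P), b'.b y), ?_, ?_, ?_, ?_, ?_⟩, ?_⟩
    · intro y y' hy
      exact b'.inj (congrArg Prod.snd hy)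
    · show ((some (i, 2) : CE P), b'.b _) = _
      rw [b'.hport]; rfl
    · intro y
      exact Prod.ext rfl (b'.ha y)
    · intro v y hy
      by_cases hx : b'.b y ∈ Set.range (Q.extN o' o h k).port
      · have hy1 := b'.hnp y hx
        rw [hy1, (Q0.extN 0 1 (by decide) m).fix]
        show ((some (i, 2) : CE P), b'.b _) =
          (Q.extN o' o h (k + 1)).A.d v ((some (i, 2) : CE P), b'.b _)
        rw [b'.hport]
        exact ((Q.extN o' o h (k + 1)).fix v i).symm
      · show ((some (i, 2) : CE P), b'.b _) =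
          (Q.extN o' o h (k + 1)).A.d v ((some (i, 2) : CE P), b'.b y)
        rw [extN_d_nonport _ _ _ _ _ _ _ _ hx, b'.hd v y hy]
    · rintro y ⟨l, hl⟩
      rw [extN_port] at hl
      have e2 : (Q.extN o' o h k).port o = b'.b y := congrArg Prod.snd hl
      exact b'.hnp y ⟨o, e2⟩
    · intro y x hyx
      have : (some (i, 2) : CE P) = none := congrArg Prod.fst hyx
      cases this

end Pool.Agent.HJI
end

section

/-!
# HJ-21 Lower
-/

set_option autoImplicit false

namespace Pool.Agent.HJI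

open Equiv

variable {L X Y Z Om P P' C C0 : Type} [Group L]

/-- In a transitive finite set of size `N` every point is reached by a word of length at most `N`. -/
theorem FS.Trans.exists_short {A : FS D X} [Finite X] (h : A.Trans) (x y : X) :
    ∃ w ∈ Ball (Nat.card X), A.hom w x = y := by
  classical
  have hex : ∃ n, ∃ l : List (Option D), l.length = n ∧ A.ev l x = y := by
    obtain ⟨w, hw⟩ := h x y
    obtain ⟨l, rfl⟩ := wd_surj w
    exact ⟨l.length, l, rfl, by rw [← A.hom_wd]; exact hw⟩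
  obtain ⟨l, hl, hly⟩ := Nat.find_spec hex
  have hmin : ∀ l' : List (Option D), A.ev l' x = y → Nat.find hex ≤ l'.length :=
    fun l' hl' => Nat.find_min' hex ⟨l', rfl, hl'⟩
  refine ⟨wd l, ⟨l, ?_, rfl⟩, by rw [A.hom_wd]; exact hly⟩
  by_contra hcon
  push Not at hcon
  have : Fintype X := Fintype.ofFinite X
  rw [Nat.card_eq_fintype_card] at hcon
  have hlt : Fintype.card X < Fintype.card (Fin (l.length + 1)) := by
    rw [Fintype.card_fin]; omega
  obtain ⟨i, j, hij, heq⟩ := Fintype.exists_ne_map_eq_of_card_lt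
    (fun i : Fin (l.length + 1) => A.ev (l.drop i) x) hlt
  wlog hlt2 : (i : ℕ) < j generalizing i j
  · have hne : (i : ℕ) ≠ j := fun e => hij (Fin.ext e)
    exact this j i hij.symm heq.symm (by omega)
  have h1 : A.ev (l.take i ++ l.drop j) x = y := by
    have h2 : A.ev (l.take i ++ l.drop i) x = y := by rw [List.take_append_drop]; exact hly
    rw [A.ev_append, Perm.mul_apply] at h2 ⊢
    rw [← h2]
    exact congrArg _ heq.symm
  have h2 := hmin _ h1
  have hj := j.2
  rw [List.length_append, List.length_take, List.length_drop] at h2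
  omega

theorem prod_mem_Ball {ι : Type} (h : ι → F) (r : ℕ) (hh : ∀ i, h i ∈ Ball r) (l : List ι) :
    (l.map h).prod ∈ Ball (l.length * r) := by
  induction l with
  | nil => exact mem_Ball_one _
  | cons i l ih =>
    rw [List.map_cons, List.prod_cons, List.length_cons]
    exact Ball_mono (by rw [Nat.succ_mul, Nat.add_comm]) (mul_mem_Ball (hh i) ih)

open Classical in
theorem lower_core {U : Type} [Finite U] (A : FS D U) (W : FS D (U × (Om → T))) (om : Om)
    (e0 : U) (t : T) (ht : t ≠ 1) (L : F) (ell : ℕ) (hell : L ∈ Ball ell) (htr : A.Trans)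
    (hLact : ∀ (y : U) (m : Om → T), W.hom L (y, m) =
      (y, fun u => (if u = om ∧ y = e0 then t else 1) * m u))
    (hext1 : ∀ (w : F) (z : U × (Om → T)), (W.hom w z).1 = A.hom w z.1)
    (hLA : A.hom L = 1) :
    2 ^ (Nat.card U) ≤
      ((fun w : F => W.hom w) '' Ball (Nat.card U * (ell + 2 * Nat.card U))).ncard := by
  choose f hfB hf using fun y : U => htr.exists_short y e0
  let g : U → F := fun y => (f y)⁻¹ * L * f y
  have hgB : ∀ y, g y ∈ Ball (ell + 2 * Nat.card U) := by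
    intro y
    have h1 := mul_mem_Ball (mul_mem_Ball (inv_mem_Ball (hfB y)) hell) (hfB y)
    exact Ball_mono (by omega) h1
  have hfix1 : ∀ (y : U) (z : U × (Om → T)), z.1 ≠ y → W.hom (g y) z = z := by
    intro y z hz
    have h1 : W.hom L (W.hom (f y) z) = W.hom (f y) z := by
      have h2 : (W.hom (f y) z).1 ≠ e0 := by
        rw [hext1, ← hf y]
        exact fun h => hz ((A.hom (f y)).injective h)
      generalize W.hom (f y) z = z' at h2
      obtain ⟨y', m'⟩ := z'
      rw [hLact]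
      refine Prod.ext rfl ?_
      funext u
      show (if u = om ∧ y' = e0 then t else 1) * m' u = m' u
      rw [if_neg (fun h => h2 h.2), one_mul]
    show W.hom ((f y)⁻¹ * L * f y) z = z
    rw [map_mul, map_mul, Perm.mul_apply, Perm.mul_apply, h1, ← Perm.mul_apply, ← map_mul,
      inv_mul_cancel, map_one, Perm.one_apply]
  have hmov : ∀ (y : U) (m : Om → T), W.hom (g y) (y, m) ≠ (y, m) := by
    intro y m h
    have h1 : W.hom L (W.hom (f y) (y, m)) = W.hom (f y) (y, m) := by
      have h3 : W.hom (f y) (W.hom ((f y)⁻¹ * L * f y) (y, m)) = W.hom (f y) (y, m) :=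
        congrArg _ h
      rw [← Perm.mul_apply, ← map_mul, mul_assoc, mul_inv_cancel_left, map_mul,
        Perm.mul_apply] at h3
      exact h3
    have h2 : (W.hom (f y) (y, m)).1 = e0 := by
      rw [hext1]; exact hf y
    generalize W.hom (f y) (y, m) = z' at h1 h2
    obtain ⟨y', m'⟩ := z'
    rw [hLact] at h1
    have h3 : (if om = om ∧ y' = e0 then t else 1) * m' om = m' om :=
      congrFun (congrArg Prod.snd h1) om
    rw [if_pos ⟨rfl, h2⟩] at h3
    exact ht (mul_eq_right.mp h3)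
  have hgfst : ∀ (y : U) (z : U × (Om → T)), (W.hom (g y) z).1 = z.1 := by
    intro y z
    rw [hext1]
    show A.hom ((f y)⁻¹ * L * f y) z.1 = z.1
    rw [map_mul, map_mul, hLA, mul_one, ← map_mul, inv_mul_cancel, map_one, Perm.one_apply]
  have hfixl : ∀ (l : List U) (z : U × (Om → T)), z.1 ∉ l → W.hom (l.map g).prod z = z := by
    intro l
    induction l with
    | nil => intro z _; simp
    | cons y l ih =>
      intro z hz
      rw [List.mem_cons, not_or] at hz
      rw [List.map_cons, List.prod_cons, map_mul, Perm.mul_apply, ih z hz.2, hfix1 y z hz.1]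
  have hfstl : ∀ (l : List U) (z : U × (Om → T)), (W.hom (l.map g).prod z).1 = z.1 := by
    intro l z
    induction l with
    | nil => simp
    | cons y'' l ih2 => rw [List.map_cons, List.prod_cons, map_mul, Perm.mul_apply, hgfst, ih2]
  have hmovl : ∀ (l : List U), l.Nodup → ∀ (y : U) (m : Om → T), y ∈ l →
      W.hom (l.map g).prod (y, m) ≠ (y, m) := by
    intro l
    induction l with
    | nil => intro _ y m hy; exact absurd hy (List.not_mem_nil)
    | cons y' l ih =>
      intro hnd y m hy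
      rw [List.nodup_cons] at hnd
      rw [List.map_cons, List.prod_cons, map_mul, Perm.mul_apply]
      by_cases hyy : y = y'
      · subst hyy
        rw [hfixl l (y, m) hnd.1]
        exact hmov y m
      · have hyl : y ∈ l := (List.mem_cons.mp hy).resolve_left hyy
        rw [hfix1 y' _ (by rw [hfstl]; exact hyy)]
        exact ih hnd.2 y m hyl
  have : Fintype U := Fintype.ofFinite U
  let G : Finset U → Perm (U × (Om → T)) := fun V => W.hom (V.toList.map g).prod
  have hGinj : Function.Injective G := by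
    intro V V' hVV
    ext y
    have h1 : ∀ V : Finset U, y ∈ V ↔ G V (y, 1) ≠ (y, 1) := by
      intro V
      constructor
      · intro hy
        exact hmovl _ V.nodup_toList y 1 (Finset.mem_toList.mpr hy)
      · intro h2
        by_contra hy
        exact h2 (hfixl _ (y, 1) (fun h3 => hy (Finset.mem_toList.mp h3)))
    rw [h1 V, h1 V', hVV]
  have hsub : Set.range G ⊆
      (fun w : F => W.hom w) '' Ball (Nat.card U * (ell + 2 * Nat.card U)) := by
    rintro _ ⟨V, rfl⟩
    refine ⟨(V.toList.map g).prod, ?_, rfl⟩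
    refine Ball_mono ?_ (prod_mem_Ball g _ hgB V.toList)
    apply Nat.mul_le_mul_right
    rw [Finset.length_toList, Nat.card_eq_fintype_card]
    exact Finset.card_le_univ V
  have hfin : ((fun w : F => W.hom w) '' Ball (Nat.card U * (ell + 2 * Nat.card U))).Finite :=
    (Ball_finite _).image _
  have h1 := Set.ncard_le_ncard hsub hfin
  have h2 : (Set.range G).ncard = 2 ^ Nat.card U := by
    rw [← Set.image_univ, Set.ncard_image_of_injective _ hGinj, Set.ncard_univ,
      Nat.card_eq_fintype_card, Fintype.card_finset, Nat.card_eq_fintype_card]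
  rw [h2] at h1
  exact h1

theorem Stage.lower (S : Stage) (hpl : ∀ x : T, ∃ w : F, PureLamp S.Q S.B S.om x w) :
    ∃ ell : ℕ, ∀ n1 : ℕ, (theta S.Q n1).A.Trans →
      2 ^ (Nat.card (XT (Fin 2) S.X n1)) ≤
        ((fun w : F => (omS S.Q S.B S.om n1).hom w) ''
          Ball (Nat.card (XT (Fin 2) S.X n1) * (ell + 2 * Nat.card (XT (Fin 2) S.X n1)))).ncard := by
  classical
  obtain ⟨t, ht⟩ : ∃ t : T, t ≠ 1 := by
    have : Nontrivial T := alternatingGroup.nontrivial_of_three_le_card (by simp)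
    exact exists_ne 1
  obtain ⟨L, hL⟩ := hpl t
  obtain ⟨ell, hell⟩ := exists_mem_Ball L
  refine ⟨ell, fun n1 htr => ?_⟩
  have he0' : (theta_built S.Q n1).t.e ((cenC (Fin 2) n1, ()), S.Q.port 2) =
      cen (Fin 2) n1 (S.Q.port 2) :=
    (S.Q.report ends).extN_built_cen 0 1 (by decide) n1 (S.Q.port 2)
  have hfix : (theta S.Q n1).A.Fixed (cen (Fin 2) n1 (S.Q.port 2)) := theta_cen_fixed S.Q n1
  obtain ⟨hL1, hL2, hL3⟩ := hL
  have hLA : (theta S.Q n1).A.hom L = 1 :=
    ActsBy.one_iff.1 hL1 _ _ (theta S.Q n1).A ⟨(theta_built S.Q n1).t⟩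
  have hlam := hL3 _ _ (theta S.Q n1).A (theta_built S.Q n1).t (cenC (Fin 2) n1, ())
    (by rw [he0']; exact hfix)
  rw [he0'] at hlam
  refine lower_core (theta S.Q n1).A (omS S.Q S.B S.om n1) S.om (cen (Fin 2) n1 (S.Q.port 2)) t ht L
    ell hell htr ?_ ?_ hLA
  · intro y m
    rw [omS, FS.ext_hom]
    have hBi : S.B.hom L⁻¹ = 1 := by rw [map_inv, hL2, inv_one]
    refine Prod.ext ?_ ?_
    · show (theta S.Q n1).A.hom L y = y
      rw [hLA]; rfl
    · funext u
      show (S.B.prod (theta S.Q n1).A).lam (S.om, cen (Fin 2) n1 (S.Q.port 2)) L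
        (S.B.hom L⁻¹ u, y) * m (S.B.hom L⁻¹ u) =
        (if u = S.om ∧ y = cen (Fin 2) n1 (S.Q.port 2) then t else 1) * m u
      rw [hBi, Perm.one_apply]
      by_cases h : u = S.om ∧ y = cen (Fin 2) n1 (S.Q.port 2)
      · rw [if_pos h, h.1, h.2, hlam.1]
      · rw [if_neg h, hlam.2 (u, y) (fun h' => h ⟨congrArg Prod.fst h', congrArg Prod.snd h'⟩)]
  · rintro w ⟨y, m⟩
    rw [omS, FS.ext_hom]

end Pool.Agent.HJI
end

section

/-!
# HJ-5 LambdaC
-/

set_option autoImplicit false

namespace Pool.Agent.HJI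

open Equiv

variable {L X Y Z Om P P' C C0 : Type} [Group L]

/-- Elements acting trivially on all A-sets and on `Om`, with the lamp `x` at the lamp point, and no
other lamps except possibly at the point over `o1`. -/
def AlmostPure (Q : Piece X (Fin 4)) (B : FS D Om) (om o1 : Om) (x : T) (w : F) : Prop :=
  ActsBy Q w 1 ∧ B.hom w = 1 ∧
  ∀ (Y C : Type) (A : FS D Y) (t : Atlas (MonoidHom.id D) Q A C) (c0 : C),
    A.Fixed (t.e (c0, Q.port 2)) →
      (B.prod A).lam (om, t.e (c0, Q.port 2)) w (om, t.e (c0, Q.port 2)) = x ∧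
      ∀ z, z ≠ (om, t.e (c0, Q.port 2)) → z ≠ (o1, t.e (c0, Q.port 2)) →
        (B.prod A).lam (om, t.e (c0, Q.port 2)) w z = 1

theorem Stage.almostPure (S : Stage) {x : T} {m k : F} (hm : PortActor S.Q S.B S.om x m)
    (hk : ActsBy S.Q k 1)
    (hl : ∀ (Y C : Type) (A : FS D Y) (t : Atlas (MonoidHom.id D) S.Q A C) (c0 : C) (o : S.Om) (y : Y),
        y ≠ t.e (c0, S.Q.port 2) → (S.B.prod A).lam (S.om, t.e (c0, S.Q.port 2)) k (o, y) = 1)
    (hom : S.B.hom k S.om ≠ S.om) :
    AlmostPure S.Q S.B S.om (S.B.hom k S.om) x (m * k * m⁻¹ * k⁻¹) := by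
  obtain ⟨hm1, hm2⟩ := hm
  refine ⟨?_, ?_, ?_⟩
  · rw [ActsBy.one_iff] at hk ⊢
    rintro Y C A t
    rw [map_mul, map_mul, map_mul, map_inv, map_inv, hk Y C A t]
    simp
  · rw [map_mul, map_mul, map_mul, map_inv, map_inv, hm1]
    simp
  · intro Y C A t c0 hf
    obtain ⟨hp, -, hlam⟩ := hm2 Y C A t
    obtain ⟨hl1, hl2⟩ := hlam c0 hf
    have hA : A.hom k = 1 := ActsBy.one_iff.1 hk Y C A ⟨t⟩
    have hl' := hl Y C A t c0
    generalize he : t.e (c0, S.Q.port 2) = e0 at *
    have hme : A.hom m e0 = e0 := by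
      have := hp c0 2
      rw [he] at this
      rw [this]
      exact hf _
    have hme' : A.hom m⁻¹ e0 = e0 := by
      rw [map_inv, Perm.inv_eq_iff_eq]
      exact hme.symm
    have hkinv : S.B.hom k⁻¹ S.om ≠ S.om := by
      intro h
      apply hom
      rw [map_inv, Perm.inv_eq_iff_eq] at h
      exact h.symm
    have hmain : ∀ o y, (S.B.prod A).lam (S.om, e0) (m * k * m⁻¹ * k⁻¹) (o, y) =
        (S.B.prod A).lam (S.om, e0) m (o, A.hom m⁻¹ y) *
        (S.B.prod A).lam (S.om, e0) k (S.B.hom k⁻¹ o, A.hom m⁻¹ y) *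
        ((S.B.prod A).lam (S.om, e0) m (S.B.hom k⁻¹ o, A.hom m⁻¹ y))⁻¹ *
        ((S.B.prod A).lam (S.om, e0) k (S.B.hom k⁻¹ o, y))⁻¹ := by
      intro o y
      rw [FS.lam_mul, FS.lam_mul, FS.lam_mul, FS.lam_inv, FS.lam_inv]
      simp only [FS.prod_hom]
      have e1 : A.hom k⁻¹ y = y := by rw [map_inv, hA]; simp
      have e2 : ∀ o, S.B.hom m⁻¹ o = o := by intro o; rw [map_inv, hm1]; simp
      have e3 : ∀ o, S.B.hom k (S.B.hom k⁻¹ o) = o := by intro o; rw [map_inv]; simp
      have e4 : ∀ y, A.hom k y = y := by intro y; rw [hA]; simp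
      rw [e1, e2, e3, e4]
    constructor
    · rw [hmain, hme', hl1, hl2 _ (fun h => hkinv (congrArg Prod.fst h))]
      simp
    · rintro ⟨o, y⟩ h1 h2
      rw [hmain]
      by_cases hy : y = e0
      · subst hy
        rw [hme']
        have h3 : S.B.hom k⁻¹ o ≠ S.om := by
          intro h
          rw [map_inv, Perm.inv_eq_iff_eq] at h
          exact h2 (by rw [h])
        rw [hl2 (o, y) h1, hl2 (S.B.hom k⁻¹ o, y) (fun h => h3 (congrArg Prod.fst h))]
        simp
      · have hy' : A.hom m⁻¹ y ≠ e0 := by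
          intro h
          apply hy
          rw [map_inv, Perm.inv_eq_iff_eq, hme] at h
          exact h
        rw [hl' _ _ hy', hl' _ _ hy, hl2 _ (fun h => hy' (congrArg Prod.snd h)),
          hl2 _ (fun h => hy' (congrArg Prod.snd h))]
        simp

theorem Stage.trivial_prod (S : Stage) {w : F} (h : ActsBy S.Q w 1) (h' : S.B.hom w = 1)
    {Y C : Type} (A : FS D Y) (t : Atlas (MonoidHom.id D) S.Q A C) (z : S.Om × Y) :
    (S.B.prod A).hom w z = z := by
  obtain ⟨o, y⟩ := z
  rw [FS.prod_hom, h', ActsBy.one_iff.1 h Y C A ⟨t⟩]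
  rfl

theorem Stage.pure_mul (S : Stage) {x x' : T} {w w' : F} (h : PureLamp S.Q S.B S.om x w)
    (h' : PureLamp S.Q S.B S.om x' w') : PureLamp S.Q S.B S.om (x * x') (w * w') := by
  refine ⟨by simpa using h.1.mul h'.1, by rw [map_mul, h.2.1, h'.2.1, mul_one], ?_⟩
  intro Y C A t c0 hf
  obtain ⟨h1, h2⟩ := h.2.2 Y C A t c0 hf
  obtain ⟨h1', h2'⟩ := h'.2.2 Y C A t c0 hf
  constructor
  · rw [FS.lam_mul, S.trivial_prod h'.1 h'.2.1 A t, h1, h1']
  · intro z hz
    rw [FS.lam_mul, S.trivial_prod h'.1 h'.2.1 A t, h2 z hz, h2' z hz, mul_one]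

theorem Stage.pure_inv (S : Stage) {x : T} {w : F} (h : PureLamp S.Q S.B S.om x w) :
    PureLamp S.Q S.B S.om x⁻¹ w⁻¹ := by
  have hi1 : ActsBy S.Q w⁻¹ 1 := by simpa using h.1.inv
  have hi2 : S.B.hom w⁻¹ = 1 := by rw [map_inv, h.2.1, inv_one]
  refine ⟨hi1, hi2, ?_⟩
  intro Y C A t c0 hf
  obtain ⟨h1, h2⟩ := h.2.2 Y C A t c0 hf
  constructor
  · rw [FS.lam_inv, S.trivial_prod hi1 hi2 A t, h1]
  · intro z hz
    rw [FS.lam_inv, S.trivial_prod hi1 hi2 A t, h2 z hz, inv_one]

theorem Stage.pure_commutator (S : Stage) {x x' : T} {w w' : F} {o1 o2 : S.Om} (ho : o1 ≠ o2)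
    (h : AlmostPure S.Q S.B S.om o1 x w) (h' : AlmostPure S.Q S.B S.om o2 x' w') :
    PureLamp S.Q S.B S.om (x * x' * x⁻¹ * x'⁻¹) (w * w' * w⁻¹ * w'⁻¹) := by
  have hi1 : ActsBy S.Q w⁻¹ 1 := by simpa using h.1.inv
  have hi2 : S.B.hom w⁻¹ = 1 := by rw [map_inv, h.2.1, inv_one]
  have hi1' : ActsBy S.Q w'⁻¹ 1 := by simpa using h'.1.inv
  have hi2' : S.B.hom w'⁻¹ = 1 := by rw [map_inv, h'.2.1, inv_one]
  refine ⟨by simpa using ((h.1.mul h'.1).mul hi1).mul hi1',
    by rw [map_mul, map_mul, map_mul, h.2.1, h'.2.1, hi2, hi2']; simp, ?_⟩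
  intro Y C A t c0 hf
  obtain ⟨h1, h2⟩ := h.2.2 Y C A t c0 hf
  obtain ⟨h1', h2'⟩ := h'.2.2 Y C A t c0 hf
  have hmain : ∀ z, (S.B.prod A).lam (S.om, t.e (c0, S.Q.port 2)) (w * w' * w⁻¹ * w'⁻¹) z =
      (S.B.prod A).lam (S.om, t.e (c0, S.Q.port 2)) w z *
      (S.B.prod A).lam (S.om, t.e (c0, S.Q.port 2)) w' z *
      ((S.B.prod A).lam (S.om, t.e (c0, S.Q.port 2)) w z)⁻¹ *
      ((S.B.prod A).lam (S.om, t.e (c0, S.Q.port 2)) w' z)⁻¹ := by
    intro z
    rw [FS.lam_mul, FS.lam_mul, FS.lam_mul, FS.lam_inv, FS.lam_inv]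
    simp only [S.trivial_prod hi1 hi2 A t, S.trivial_prod hi1' hi2' A t,
      S.trivial_prod h'.1 h'.2.1 A t]
  constructor
  · rw [hmain, h1, h1']
  · intro z hz
    rw [hmain]
    by_cases h3 : z = (o1, t.e (c0, S.Q.port 2))
    · have h4 : z ≠ (o2, t.e (c0, S.Q.port 2)) := by
        intro h5
        rw [h3] at h5
        exact ho (congrArg Prod.fst h5)
      rw [h2' z hz h4]
      simp
    · rw [h2 z hz h3]
      simp

/-- The values of pure lamps in `AAF`. -/
def Stage.pureSub (S : Stage) (h1 : ∃ w ∈ S.AAF, PureLamp S.Q S.B S.om 1 w) : Subgroup T where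
  carrier := {x | ∃ w ∈ S.AAF, PureLamp S.Q S.B S.om x w}
  mul_mem' := by
    rintro x x' ⟨w, hw, h⟩ ⟨w', hw', h'⟩
    exact ⟨w * w', mul_mem hw hw', S.pure_mul h h'⟩
  one_mem' := h1
  inv_mem' := by
    rintro x ⟨w, hw, h⟩
    exact ⟨w⁻¹, inv_mem hw, S.pure_inv h⟩

theorem Stage.exists_pureLamp (S : Stage)
    (hpa : ∀ x : T, ∃ w ∈ S.AAF, PortActor S.Q S.B S.om x w)
    (htr : ∃ k : Fin 2 → F,
      (∀ i, ActsBy S.Q (k i) 1) ∧
      (∀ i (Y C : Type) (A : FS D Y) (t : Atlas (MonoidHom.id D) S.Q A C) (c0 : C) (o : S.Om) (y : Y),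
        y ≠ t.e (c0, S.Q.port 2) → (S.B.prod A).lam (S.om, t.e (c0, S.Q.port 2)) (k i) (o, y) = 1) ∧
      S.B.hom (k 0) S.om ≠ S.om ∧ S.B.hom (k 1) S.om ≠ S.om ∧
      S.B.hom (k 0) S.om ≠ S.B.hom (k 1) S.om) (x : T) :
    ∃ w ∈ S.AAF, PureLamp S.Q S.B S.om x w := by
  obtain ⟨k, hk, hl, hk0, hk1, hk2⟩ := htr
  have hcomm : ∀ x x' : T, ∃ w ∈ S.AAF, PureLamp S.Q S.B S.om (x * x' * x⁻¹ * x'⁻¹) w := by
    intro x x'
    obtain ⟨m, hm, hmp⟩ := hpa x
    obtain ⟨m', hm', hmp'⟩ := hpa x'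
    have ha : m * k 0 * m⁻¹ * (k 0)⁻¹ ∈ S.AAF := by
      have h1 : k 0 * m⁻¹ * (k 0)⁻¹ ∈ S.AAF :=
        Subgroup.Normal.conj_mem inferInstance _ (inv_mem hm) _
      have h2 := mul_mem hm h1
      simpa [mul_assoc] using h2
    have ha' : m' * k 1 * m'⁻¹ * (k 1)⁻¹ ∈ S.AAF := by
      have h1 : k 1 * m'⁻¹ * (k 1)⁻¹ ∈ S.AAF :=
        Subgroup.Normal.conj_mem inferInstance _ (inv_mem hm') _
      have h2 := mul_mem hm' h1
      simpa [mul_assoc] using h2
    exact ⟨_, mul_mem (mul_mem (mul_mem ha ha') (inv_mem ha)) (inv_mem ha'),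
      S.pure_commutator hk2 (S.almostPure hmp (hk 0) (hl 0) hk0)
        (S.almostPure hmp' (hk 1) (hl 1) hk1)⟩
  have h1 : ∃ w ∈ S.AAF, PureLamp S.Q S.B S.om 1 w := by simpa using hcomm 1 1
  have htop : S.pureSub h1 = ⊤ := by
    rw [eq_top_iff, ← commutator_alternatingGroup_eq_top (α := Fin 5) (by simp),
      commutator_eq_closure, Subgroup.closure_le]
    rintro y ⟨g, g', rfl⟩
    exact hcomm g g'
  have hx : x ∈ S.pureSub h1 := by rw [htop]; exact Subgroup.mem_top x
  exact hx

end Pool.Agent.HJI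
end
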