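import Pool.Agent.Lib.MP_377081_al.AEven
import Pool.Agent.Lib.MP_377081_al.LambdaC

/-!
# The finite index lemma (paper 194, section 2)
-/

set_option autoImplicit false

namespace Pool.Agent.HJI

open Equiv

/-- The subgroup generated by the `H0`-conjugates of `g`. -/
def conjGen (g : F) (H0 : Subgroup F) : Subgroup F :=
  Subgroup.closure {q | ∃ h ∈ H0, q = h * g * h⁻¹}

theorem conjGen_mem {g : F} {H0 : Subgroup F} {h : F} (hh : h ∈ H0) : h * g * h⁻¹ ∈ conjGen g H0 :=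
  Subgroup.subset_closure ⟨h, hh, rfl⟩

theorem conjGen_self (g : F) (H0 : Subgroup F) : g ∈ conjGen g H0 := by
  have := conjGen_mem (g := g) (one_mem H0)
  simpa using this

theorem conjGen_conj {g : F} {H0 : Subgroup F} {h w : F} (hh : h ∈ H0) (hw : w ∈ conjGen g H0) :
    h * w * h⁻¹ ∈ conjGen g H0 := by
  induction hw using Subgroup.closure_induction with
  | mem x hx =>
    obtain ⟨k, hk, rfl⟩ := hx
    have := conjGen_mem (g := g) (mul_mem hh hk)
    simpa [mul_assoc] using this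
  | one => simp
  | mul x y _ _ hx hy =>
    have : h * (x * y) * h⁻¹ = (h * x * h⁻¹) * (h * y * h⁻¹) := by group
    rw [this]
    exact mul_mem hx hy
  | inv x _ hx =>
    have : h * x⁻¹ * h⁻¹ = (h * x * h⁻¹)⁻¹ := by group
    rw [this]
    exact inv_mem hx

/-- (Section 2) The finite index lemma. -/
theorem Stage.finite_index (S : Stage) (hpl : ∀ x : T, ∃ w ∈ S.AAF, PureLamp S.Q S.B S.om x w)
    (ha : S.Q.A.a ∈ alternatingGroup S.X)
    (l : List (Option D)) (H0 : Subgroup F) [H0.Normal]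
    (hidx : H0.index ≠ 0) (hlt : H0.index < Nat.card (alternatingGroup S.X))
    (hcard : 4 * (l.length + 1) + 4 < Nat.card S.X)
    (hmove : ∃ x, S.Q.A.ev l x ≠ x ∧ S.Q.A.Avoid l x (Set.range S.Q.port)) :
    (conjGen (wd l) H0 ⊔ S.N).index ≠ 0 := by
  obtain ⟨κ, hκ, h1, h2⟩ := S.exists_comm l H0 hidx hlt hcard hmove
  set N : Subgroup F := conjGen (wd l) H0 ⊔ S.N with hN
  have hNN : S.N ≤ N := le_sup_right
  have hQN : conjGen (wd l) H0 ≤ N := le_sup_left
  have hnorm : ∀ h ∈ H0, ∀ w ∈ N, h * w * h⁻¹ ∈ N := by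
    intro h hh w hw
    rw [hN, Subgroup.mem_sup_of_normal_right] at hw
    obtain ⟨q, hq, n, hn, rfl⟩ := hw
    have : h * (q * n) * h⁻¹ = (h * q * h⁻¹) * (h * n * h⁻¹) := by group
    rw [this]
    exact mul_mem (hQN (conjGen_conj hh hq)) (hNN (Subgroup.Normal.conj_mem inferInstance n hn h))
  have hmem : wd l * κ * (wd l)⁻¹ * κ⁻¹ ∈ N := by
    have : wd l * κ * (wd l)⁻¹ * κ⁻¹ = wd l * (κ * wd l * κ⁻¹)⁻¹ := by group
    rw [this]
    exact mul_mem (hQN (conjGen_self _ _)) (inv_mem (hQN (conjGen_mem hκ)))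
  have hAAF : S.AAF ≤ N :=
    S.AAF_le N H0 hNN hidx hlt (by omega) hnorm ⟨_, h1, hmem, h2⟩
  have hK : KerA S.Q ⊓ S.K ≤ N := (S.kerA_inf_K_le hpl).trans (sup_le hAAF hNN)
  have hle : S.AAF ⊔ (KerA S.Q ⊓ S.K) ≤ N := sup_le hAAF hK
  intro h0
  have := Subgroup.index_dvd_of_le hle
  rw [h0] at this
  exact S.AAF_sup_index ha (Nat.eq_zero_of_zero_dvd this)

end Pool.Agent.HJI
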