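import Pool.Agent.Lib.MP_377081_al.Step0

/-!
# HJ-29 Witness
-/

set_option autoImplicit false

namespace Pool.Agent.HJI

open Equiv
open scoped Pointwise

variable {L X Y Z Om P P' C C0 : Type} [Group L]

theorem exists_witness (Q N : Subgroup F) [N.Normal] (h : (Q ⊔ N).index ≠ 0) :
    ∃ ρ : ℕ, ∀ N' : Subgroup F, N'.Normal → (∀ w ∈ N, w ∈ Ball ρ → w ∈ N') →
      (Q ⊔ N').index ≠ 0 := by
  classical
  have hfi : Finite (F ⧸ (Q ⊔ N)) := Nat.finite_of_card_ne_zero h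
  have key : ∀ (s : Option D) (k : F ⧸ (Q ⊔ N)), ∃ (k' : F ⧸ (Q ⊔ N)) (q n : F), q ∈ Q ∧ n ∈ N ∧
      letF s * k.out = k'.out * (q * n) := by
    intro s k
    refine ⟨((letF s * k.out : F) : F ⧸ (Q ⊔ N)), ?_⟩
    have h1 : (((letF s * k.out : F) : F ⧸ (Q ⊔ N)).out)⁻¹ * (letF s * k.out) ∈ Q ⊔ N := by
      rw [← QuotientGroup.eq]
      exact QuotientGroup.out_eq' _
    have h2 : (((letF s * k.out : F) : F ⧸ (Q ⊔ N)).out)⁻¹ * (letF s * k.out) ∈
        ((Q : Set F) * (N : Set F)) := by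
      rw [← Subgroup.mul_normal]
      exact h1
    obtain ⟨q, hq, n, hn, hqn⟩ := h2
    refine ⟨q, n, hq, hn, ?_⟩
    have h3 : q * n = (((letF s * k.out : F) : F ⧸ (Q ⊔ N)).out)⁻¹ * (letF s * k.out) := hqn
    rw [h3]
    group
  choose k' q n hq hn hkey using key
  have hr : ∀ z : Option D × (F ⧸ (Q ⊔ N)), ∃ r, n z.1 z.2 ∈ Ball r := fun z => exists_mem_Ball _
  choose r hr using hr
  obtain ⟨ρ, hρ⟩ := Set.Finite.bddAbove (Set.finite_range r)
  refine ⟨ρ, fun N' hN' hball => ?_⟩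
  have := hN'
  have hn' : ∀ s k, n s k ∈ N' := fun s k =>
    hball _ (hn s k) (Ball_mono (hρ ⟨(s, k), rfl⟩) (hr (s, k)))
  have hsurj : Function.Surjective
      (fun k : F ⧸ (Q ⊔ N) => ((k.out : F) : F ⧸ (Q ⊔ N'))) := by
    intro x
    obtain ⟨g, rfl⟩ := QuotientGroup.mk_surjective x
    have hall : ∀ w : F, ∃ k : F ⧸ (Q ⊔ N), ((k.out : F) : F ⧸ (Q ⊔ N')) =
        ((w * ((1 : F) : F ⧸ (Q ⊔ N)).out : F) : F ⧸ (Q ⊔ N')) := by
      intro w
      induction w using F_induction with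
      | h1 => exact ⟨((1 : F) : F ⧸ (Q ⊔ N)), by rw [one_mul]⟩
      | h2 s w ih =>
        obtain ⟨k, hk⟩ := ih
        refine ⟨k' s k, ?_⟩
        have e1 : ((letF s * k.out : F) : F ⧸ (Q ⊔ N')) =
            ((letF s * (w * ((1 : F) : F ⧸ (Q ⊔ N)).out) : F) : F ⧸ (Q ⊔ N')) := by
          rw [QuotientGroup.eq] at hk ⊢
          have : (letF s * k.out)⁻¹ * (letF s * (w * ((1 : F) : F ⧸ (Q ⊔ N)).out)) =
            (k.out)⁻¹ * (w * ((1 : F) : F ⧸ (Q ⊔ N)).out) := by group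
          rw [this]
          exact hk
        have e2 : (((k' s k).out : F) : F ⧸ (Q ⊔ N')) =
            ((letF s * k.out : F) : F ⧸ (Q ⊔ N')) := by
          rw [hkey s k, QuotientGroup.eq]
          have : ((k' s k).out)⁻¹ * ((k' s k).out * (q s k * n s k)) = q s k * n s k := by group
          rw [this]
          exact (Q ⊔ N').mul_mem (Subgroup.mem_sup_left (hq s k)) (Subgroup.mem_sup_right (hn' s k))
        rw [e2, e1, mul_assoc]
    obtain ⟨k, hk⟩ := hall (g * (((1 : F) : F ⧸ (Q ⊔ N)).out)⁻¹)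
    refine ⟨k, ?_⟩
    simp only
    rw [hk]
    congr 1
    group
  have : Finite (F ⧸ (Q ⊔ N')) := Finite.of_surjective _ hsurj
  exact Subgroup.index_ne_zero_of_finite

end Pool.Agent.HJI
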