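import Pool.Agent.Lib.MP_377081_al.StepThm
import Pool.Agent.Lib.MP_377081_al.FinIdx
import Pool.Agent.Lib.MP_377081_al.BaseStage
import Pool.Agent.Lib.MP_377081_al.Witness

/-!
# The group (paper 194, section 7)
-/

set_option autoImplicit false

namespace Pool.Agent.HJI

open Equiv

/-! ## Enumeration of the pairs (element, normal subgroup of finite index) -/

theorem F_countable : Countable F := Function.Surjective.countable (f := wd) wd_surj

theorem homs_finite (n : ℕ) : Finite (F →* Perm (Fin n)) := by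
  refine Finite.of_injective (fun (f : F →* Perm (Fin n)) (s : Option D) => f (letF s)) ?_
  intro f g h
  exact F_hom_ext fun s => congrFun h s

theorem exists_enum : ∃ e : ℕ → F × (Σ n : ℕ, F →* Perm (Fin n)), Function.Surjective e := by
  have := F_countable
  have : ∀ n : ℕ, Finite (F →* Perm (Fin n)) := homs_finite
  have : Nonempty (F × (Σ n : ℕ, F →* Perm (Fin n))) := ⟨(1, ⟨0, 1⟩)⟩
  exact exists_surjective_nat _

/-- Every normal subgroup of finite index is the kernel of a homomorphism to some `Perm (Fin n)`. -/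
theorem exists_ker (H : Subgroup F) [H.Normal] (h : H.index ≠ 0) :
    ∃ z : Σ n : ℕ, F →* Perm (Fin n), z.2.ker = H := by
  have hf : H.FiniteIndex := ⟨h⟩
  have : Finite (F ⧸ H) := inferInstance
  obtain ⟨n, ⟨e⟩⟩ := Finite.exists_equiv_fin (F ⧸ H)
  refine ⟨⟨n, (e.permCongrHom.toMonoidHom.comp (MulAction.toPermHom (F ⧸ H) (F ⧸ H))).comp
    (QuotientGroup.mk' H)⟩, ?_⟩
  ext w
  rw [MonoidHom.mem_ker]
  constructor
  · intro hw
    have h1 := Equiv.congr_fun hw (e 1)
    simp only [MonoidHom.comp_apply] at h1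
    have h2 : e ((QuotientGroup.mk' H w) * 1) = e 1 := by simpa using h1
    have h3 := e.injective h2
    rw [mul_one] at h3
    exact (QuotientGroup.eq_one_iff w).1 h3
  · intro hw
    have h1 : QuotientGroup.mk' H w = 1 := (QuotientGroup.eq_one_iff w).2 hw
    rw [MonoidHom.comp_apply, h1, map_one]

/-! ## Adequate radii -/

/-- The radius `ρ` is adequate for the `i`-th stage `S`. -/
structure Adeq (e : ℕ → F × (Σ n : ℕ, F →* Perm (Fin n))) (i : ℕ) (S : Stage) (ρ : ℕ) : Prop where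
  ge : i ≤ ρ
  short : S.Short ρ
  wit : ∀ m < i, (conjGen (e m).1 (e m).2.2.ker ⊔ S.N).index ≠ 0 →
    ∀ N' : Subgroup F, N'.Normal → (∀ w ∈ S.N, w ∈ Ball ρ → w ∈ N') →
      (conjGen (e m).1 (e m).2.2.ker ⊔ N').index ≠ 0
  gr : 1 ≤ i → ∃ r : ℕ, 1 ≤ r ∧ 2 * r ≤ ρ ∧
    (((fun w : F => (w : F ⧸ S.N)) '' Ball r).ncard : ℝ) ≤ (1 + 1 / (i : ℝ)) ^ r

theorem exists_adeq (e : ℕ → F × (Σ n : ℕ, F →* Perm (Fin n))) (i : ℕ) (S : Stage) (ρ0 : ℕ)
    (hup : 1 ≤ i → ∃ R0, ∀ R ≥ R0, (((fun w : F => (w : F ⧸ S.N)) '' Ball R).ncard : ℝ) ≤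
      (1 + 1 / (i : ℝ)) ^ R) : ∃ ρ, ρ0 ≤ ρ ∧ Adeq e i S ρ := by
  classical
  have hw : ∀ m, ∃ ρm, (conjGen (e m).1 (e m).2.2.ker ⊔ S.N).index ≠ 0 →
      ∀ N' : Subgroup F, N'.Normal → (∀ w ∈ S.N, w ∈ Ball ρm → w ∈ N') →
      (conjGen (e m).1 (e m).2.2.ker ⊔ N').index ≠ 0 := by
    intro m
    by_cases h : (conjGen (e m).1 (e m).2.2.ker ⊔ S.N).index ≠ 0
    · obtain ⟨ρm, h1⟩ := exists_witness _ _ h
      exact ⟨ρm, fun _ => h1⟩
    · exact ⟨0, fun h' => absurd h' h⟩
  choose ρm hρm using hw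
  obtain ⟨ρs, hρs⟩ := S.exists_short
  have hg : ∃ r : ℕ, 1 ≤ i → 1 ≤ r ∧
      (((fun w : F => (w : F ⧸ S.N)) '' Ball r).ncard : ℝ) ≤ (1 + 1 / (i : ℝ)) ^ r := by
    by_cases h : 1 ≤ i
    · obtain ⟨R0, hR0⟩ := hup h
      exact ⟨max R0 1, fun _ => ⟨le_max_right _ _, hR0 _ (le_max_left _ _)⟩⟩
    · exact ⟨0, fun h' => absurd h' h⟩
  obtain ⟨r, hr⟩ := hg
  refine ⟨ρ0 + i + ρs + (Finset.range i).sup ρm + 2 * r, by omega, by omega, hρs _ (by omega), ?_, ?_⟩
  · intro m hm h0 N' hN' hN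
    refine hρm m h0 N' hN' fun w hw hwb => hN w hw (Ball_mono ?_ hwb)
    have := Finset.le_sup (f := ρm) (Finset.mem_range.2 hm)
    omega
  · intro h
    exact ⟨r, (hr h).1, by omega, (hr h).2⟩

/-- The relation between consecutive stages. -/
structure Next (i : ℕ) (S : Stage) (ρ : ℕ) (S' : Stage) (ρ' : ℕ) : Prop where
  rho : ρ ≤ ρ'
  K : S'.K ≤ S.K
  N : ∀ w ∈ S.N, w ∈ Ball ρ → w ∈ S'.N
  card : 4 * Nat.card S.X ≤ Nat.card S'.X
  mem : ∀ l : List (Option D), l.length ≤ ρ → wd l ∉ S.K →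
        ∃ x, S'.Q.A.ev l x ≠ x ∧ S'.Q.A.Avoid l x (Set.range S'.Q.port)
  low : ∃ n, i * (n + 1) ^ i < ((fun w : F => (w : F ⧸ S'.K)) '' Ball n).ncard

theorem exists_next (e : ℕ → F × (Σ n : ℕ, F →* Perm (Fin n))) (i : ℕ) (S : Stage) (ρ : ℕ)
    (h : Adeq e i S ρ) : ∃ (S' : Stage) (ρ' : ℕ), Adeq e (i + 1) S' ρ' ∧ Next i S ρ S' ρ' := by
  have hc : (1 : ℝ) < 1 + 1 / ((i + 1 : ℕ) : ℝ) := by
    have : (0 : ℝ) < 1 / ((i + 1 : ℕ) : ℝ) := by positivity
    linarith
  obtain ⟨S', h1, h2, h3, h4, h5, h6⟩ := S.step ρ i h.short _ hc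
  obtain ⟨ρ', hρ', ha⟩ := exists_adeq e (i + 1) S' ρ (fun _ => h6)
  exact ⟨S', ρ', ha, hρ', h1, h2, h3, h4, h5⟩

/-- The sequence of stages. -/
theorem exists_seq (e : ℕ → F × (Σ n : ℕ, F →* Perm (Fin n))) :
    ∃ (S : ℕ → Stage) (ρ : ℕ → ℕ), (∀ i, Adeq e i (S i) (ρ i)) ∧
      ∀ i, Next i (S i) (ρ i) (S (i + 1)) (ρ (i + 1)) := by
  obtain ⟨S0⟩ := exists_stage
  obtain ⟨ρ0, _, h0⟩ := exists_adeq e 0 S0 0 (fun h => absurd h (by norm_num))
  have hstep : ∀ (i : ℕ) (p : {p : Stage × ℕ // Adeq e i p.1 p.2}),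
      ∃ q : {q : Stage × ℕ // Adeq e (i + 1) q.1 q.2}, Next i p.1.1 p.1.2 q.1.1 q.1.2 := by
    rintro i ⟨⟨S, ρ⟩, h⟩
    obtain ⟨S', ρ', h1, h2⟩ := exists_next e i S ρ h
    exact ⟨⟨(S', ρ'), h1⟩, h2⟩
  choose f hf using hstep
  let s : (i : ℕ) → {p : Stage × ℕ // Adeq e i p.1 p.2} := fun i =>
    Nat.rec (motive := fun i => {p : Stage × ℕ // Adeq e i p.1 p.2}) ⟨(S0, ρ0), h0⟩ f i
  exact ⟨fun i => (s i).1.1, fun i => (s i).1.2, fun i => (s i).2, fun i => hf i (s i)⟩

/-! ## The group -/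

section Group
variable {e : ℕ → F × (Σ n : ℕ, F →* Perm (Fin n))} {S : ℕ → Stage} {ρ : ℕ → ℕ}
  (ha : ∀ i, Adeq e i (S i) (ρ i)) (hn : ∀ i, Next i (S i) (ρ i) (S (i + 1)) (ρ (i + 1)))

/-- The kernel. -/
noncomputable def NN (S : ℕ → Stage) : Subgroup F := ⨅ i, (S i).K

theorem mem_NN {S : ℕ → Stage} {w : F} : w ∈ NN S ↔ ∀ i, w ∈ (S i).K := Subgroup.mem_iInf

instance Stage.K_normal (S : Stage) : S.K.Normal := MonoidHom.normal_ker _

instance NN_normal (S : ℕ → Stage) : (NN S).Normal where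
  conj_mem w hw g := by
    rw [mem_NN] at hw ⊢
    exact fun i => Subgroup.Normal.conj_mem inferInstance w (hw i) g

theorem Stage.K_index (S : Stage) : S.K.index ≠ 0 := by
  have : Finite S.B.hom.range := inferInstance
  have h : S.B.hom.ker.FiniteIndex := inferInstance
  exact h.index_ne_zero

include hn in
theorem K_anti {i j : ℕ} (h : i ≤ j) : (S j).K ≤ (S i).K := by
  induction j, h using Nat.le_induction with
  | base => exact le_rfl
  | succ j _ ih => exact (hn j).K.trans ih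

include hn in
theorem rho_mono {i j : ℕ} (h : i ≤ j) : ρ i ≤ ρ j := by
  induction j, h using Nat.le_induction with
  | base => exact le_rfl
  | succ j _ ih => exact ih.trans (hn j).rho

include hn in
theorem N_ball_le (i : ℕ) {w : F} (hw : w ∈ (S i).N) (hb : w ∈ Ball (ρ i)) : w ∈ NN S := by
  have h1 : ∀ j, i ≤ j → w ∈ (S j).N := by
    intro j hj
    induction j, hj using Nat.le_induction with
    | base => exact hw
    | succ j hj ih => exact (hn j).N w ih (Ball_mono (rho_mono hn hj) hb)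
  rw [mem_NN]
  intro j
  rcases le_total i j with h | h
  · exact (S j).N_le_K (h1 j h)
  · exact K_anti hn h ((S i).N_le_K hw)

include hn in
theorem card_pow (i : ℕ) : 4 ^ i ≤ Nat.card (S i).X := by
  induction i with
  | zero => have := (S 0).card_ge; rw [pow_zero]; omega
  | succ i ih => rw [pow_succ]; have := (hn i).card; omega

/-- The hereditary just infinite property, upstairs. -/
theorem index_conjGen (he : Function.Surjective e) (ha : ∀ i, Adeq e i (S i) (ρ i))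
    (hn : ∀ i, Next i (S i) (ρ i) (S (i + 1)) (ρ (i + 1))) (w : F) (hw : w ∉ NN S) (H0 : Subgroup F)
    [H0.Normal] (hidx : H0.index ≠ 0) : (conjGen w H0 ⊔ NN S).index ≠ 0 := by
  obtain ⟨z, hz⟩ := exists_ker H0 hidx
  obtain ⟨m, hm⟩ := he (w, z)
  obtain ⟨l, rfl⟩ := wd_surj w
  rw [mem_NN] at hw
  push Not at hw
  obtain ⟨j, hj⟩ := hw
  -- a large index
  obtain ⟨i, hi⟩ : ∃ i, i = j + m + l.length + H0.index + 4 * (l.length + 1) + 8 := ⟨_, rfl⟩
  have hK : wd l ∉ (S i).K := fun h => hj (K_anti hn (by omega) h)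
  have hρ : l.length ≤ ρ i := le_trans (by omega) (ha i).ge
  have hmove := (hn i).mem l hρ hK
  have hcard : i + 1 < Nat.card (S (i + 1)).X :=
    lt_of_lt_of_le (Nat.lt_pow_self (by norm_num)) (card_pow hn (i + 1))
  have halt : Nat.card (S (i + 1)).X ≤ Nat.card (alternatingGroup (S (i + 1)).X) := by
    have : Nontrivial (S (i + 1)).X := by
      apply Finite.one_lt_card_iff_nontrivial.1
      omega
    rw [nat_card_alternatingGroup]
    obtain ⟨n, hn'⟩ : ∃ n, Nat.card (S (i + 1)).X = n + 4 := ⟨Nat.card (S (i + 1)).X - 4, by omega⟩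
    rw [hn', Nat.le_div_iff_mul_le (by norm_num)]
    have h1 : Nat.factorial (n + 4) = (n + 4) * Nat.factorial (n + 3) := Nat.factorial_succ (n + 3)
    have h2 : 2 ≤ Nat.factorial (n + 3) :=
      le_trans (by decide : 2 ≤ Nat.factorial 3) (Nat.factorial_le (by omega))
    rw [h1]
    exact Nat.mul_le_mul_left _ h2
  have hfin := (S (i + 1)).finite_index (S (i + 1)).pureLamp (S (i + 1)).a_mem l H0 hidx
    (by omega) (by omega) hmove
  have hwit := (ha (i + 1)).wit m (by omega)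
  rw [hm] at hwit
  simp only [hz] at hwit
  exact hwit hfin (NN S) inferInstance (fun w hw hb => N_ball_le hn (i + 1) hw hb)

end Group

/-- Images of balls and word growth in the frozen form. -/
theorem ball_eq (N : Subgroup F) [N.Normal] (S0 : Finset (F ⧸ N))
    (hS0 : ∀ q, q ∈ S0 ↔ ∃ s, ((letF s : F) : F ⧸ N) = q) (n : ℕ) :
    {g : F ⧸ N | ∃ l : List (F ⧸ N), l.length ≤ n ∧ (∀ x ∈ l, x ∈ S0 ∨ x⁻¹ ∈ S0) ∧ l.prod = g} =
      (fun w : F => (w : F ⧸ N)) '' Ball n := by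
  have hlet : ∀ x : F ⧸ N, (x ∈ S0 ∨ x⁻¹ ∈ S0) → ∃ s, ((letF s : F) : F ⧸ N) = x := by
    rintro x (h | h)
    · exact (hS0 x).1 h
    · obtain ⟨s, hs⟩ := (hS0 _).1 h
      refine ⟨invL s, ?_⟩
      rw [letF_invL, QuotientGroup.mk_inv, hs, inv_inv]
  ext g
  constructor
  · rintro ⟨l, hl, hx, rfl⟩
    have : ∃ l' : List (Option D), l'.length = l.length ∧ ((wd l' : F) : F ⧸ N) = l.prod := by
      clear hl
      induction l with
      | nil => exact ⟨[], rfl, by simp [wd_nil]⟩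
      | cons x l ih =>
        obtain ⟨l', h1, h2⟩ := ih (fun y hy => hx y (List.mem_cons_of_mem _ hy))
        obtain ⟨s, hs⟩ := hlet x (hx x List.mem_cons_self)
        refine ⟨s :: l', by simp [h1], ?_⟩
        rw [wd_cons, QuotientGroup.mk_mul, hs, h2, List.prod_cons]
    obtain ⟨l', h1, h2⟩ := this
    exact ⟨wd l', ⟨l', by omega, rfl⟩, h2⟩
  · rintro ⟨w, ⟨l, hl, rfl⟩, rfl⟩
    refine ⟨l.map (fun s => ((letF s : F) : F ⧸ N)), by simpa using hl, ?_, ?_⟩
    · intro x hx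
      rw [List.mem_map] at hx
      obtain ⟨s, _, rfl⟩ := hx
      exact Or.inl ((hS0 _).2 ⟨s, rfl⟩)
    · show _ = ((wd l : F) : F ⧸ N)
      clear hl
      induction l with
      | nil => simp [wd_nil]
      | cons s l ih => rw [List.map_cons, List.prod_cons, ih, wd_cons, QuotientGroup.mk_mul]

/-- The main theorem, in the form of the frozen statement. -/
theorem main : ∃ (G : Type) (_ : Group G), Group.FG G ∧ Infinite G ∧
      (∀ g : G, g ≠ 1 → ∃ H : Subgroup G, H.index ≠ 0 ∧ g ∉ H) ∧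
      (∀ H : Subgroup G, H.index ≠ 0 →
        ∀ N : Subgroup H, N.Normal → N ≠ ⊥ → N.index ≠ 0) ∧
      ∃ S : Finset G, Subgroup.closure (S : Set G) = ⊤ ∧
        (∀ C d : ℕ, ∃ n : ℕ, C * (n + 1) ^ d <
          {g : G | ∃ l : List G, l.length ≤ n ∧ (∀ x ∈ l, x ∈ S ∨ x⁻¹ ∈ S) ∧ l.prod = g}.ncard) ∧
        (∀ c : ℝ, 1 < c → ∃ n : ℕ,
          ({g : G | ∃ l : List G, l.length ≤ n ∧ (∀ x ∈ l, x ∈ S ∨ x⁻¹ ∈ S) ∧ l.prod = g}.ncard : ℝ)
            < c ^ n) := by
  classical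
  obtain ⟨e, he⟩ := exists_enum
  obtain ⟨S, ρ, ha, hn⟩ := exists_seq e
  set N : Subgroup F := NN S with hN
  have hlow : ∀ C d : ℕ, ∃ n : ℕ, C * (n + 1) ^ d < ((fun w : F => (w : F ⧸ N)) '' Ball n).ncard := by
    intro C d
    obtain ⟨n, hn1⟩ := (hn (C + d)).low
    refine ⟨n, lt_of_le_of_lt ?_ (lt_of_lt_of_le hn1 ?_)⟩
    · exact Nat.mul_le_mul (by omega) (Nat.pow_le_pow_right (by omega) (by omega))
    · have hle : N ≤ (S (C + d + 1)).K := iInf_le _ _
      have h5 : (fun w : F => (w : F ⧸ (S (C + d + 1)).K)) =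
          (fun q : F ⧸ N => QuotientGroup.map N (S (C + d + 1)).K (MonoidHom.id F) hle q) ∘
            (fun w : F => (w : F ⧸ N)) := by
        funext w
        rfl
      rw [h5, Set.image_comp]
      exact Set.ncard_image_le ((Ball_finite _).image _)
  have hup : ∀ c : ℝ, 1 < c → ∃ n : ℕ,
      (((fun w : F => (w : F ⧸ N)) '' Ball n).ncard : ℝ) < c ^ n := by
    intro c hc
    obtain ⟨i, hi⟩ := exists_nat_gt (1 / (c - 1))
    have hc1 : 0 < c - 1 := by linarith
    have hi0 : (0 : ℝ) < i := lt_trans (by positivity) hi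
    have hi1 : 1 ≤ i := by
      have : (0 : ℝ) < (i : ℝ) := hi0
      exact_mod_cast this
    obtain ⟨r, hr1, hr2, hr3⟩ := (ha i).gr hi1
    refine ⟨r, lt_of_le_of_lt (le_trans ?_ hr3) ?_⟩
    · -- the ball injects
      have hinj : ∀ w ∈ Ball r, ∀ w' ∈ Ball r, ((w : F) : F ⧸ (S i).N) = (w' : F ⧸ (S i).N) →
          ((w : F) : F ⧸ N) = (w' : F ⧸ N) := by
        intro w hw w' hw' h
        rw [QuotientGroup.eq] at h ⊢
        refine N_ball_le hn i h (Ball_mono ?_ (mul_mem_Ball (inv_mem_Ball hw) hw'))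
        omega
      -- choose representatives
      have h6 : ((fun w : F => (w : F ⧸ N)) '' Ball r).ncard ≤
          ((fun w : F => (w : F ⧸ (S i).N)) '' Ball r).ncard := by
        let g : F ⧸ (S i).N → F ⧸ N := fun q =>
          if h : ∃ w ∈ Ball r, ((w : F) : F ⧸ (S i).N) = q then ((h.choose : F) : F ⧸ N) else 1
        have hg : ∀ w ∈ Ball r, g (w : F ⧸ (S i).N) = (w : F ⧸ N) := by
          intro w hw
          have h : ∃ w' ∈ Ball r, ((w' : F) : F ⧸ (S i).N) = (w : F ⧸ (S i).N) := ⟨w, hw, rfl⟩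
          have h7 : g (w : F ⧸ (S i).N) = ((h.choose : F) : F ⧸ N) := dif_pos h
          rw [h7]
          exact hinj _ h.choose_spec.1 _ hw h.choose_spec.2
        have h8 : (fun w : F => (w : F ⧸ N)) '' Ball r ⊆
            g '' ((fun w : F => (w : F ⧸ (S i).N)) '' Ball r) := by
          rintro _ ⟨w, hw, rfl⟩
          exact ⟨_, ⟨w, hw, rfl⟩, hg w hw⟩
        exact (Set.ncard_le_ncard h8 (((Ball_finite r).image _).image _)).trans
          (Set.ncard_image_le ((Ball_finite r).image _))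
      exact_mod_cast h6
    · have h7 : 1 + 1 / (i : ℝ) < c := by
        have : 1 / (i : ℝ) < c - 1 := by
          rw [div_lt_iff₀ hi0]
          rw [div_lt_iff₀ hc1] at hi
          linarith
        linarith
      have h8 : (0 : ℝ) ≤ 1 + 1 / (i : ℝ) := by positivity
      exact pow_lt_pow_left₀ h7 h8 (by omega)
  obtain ⟨S0, hS0⟩ : ∃ S0 : Finset (F ⧸ N), ∀ q, q ∈ S0 ↔ ∃ s, ((letF s : F) : F ⧸ N) = q := by
    have : Fintype (Option D) := Fintype.ofFinite _
    exact ⟨Finset.univ.image (fun s : Option D => ((letF s : F) : F ⧸ N)), fun q => by simp⟩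
  have hcl : Subgroup.closure (S0 : Set (F ⧸ N)) = ⊤ := by
    rw [eq_top_iff]
    rintro q -
    obtain ⟨w, rfl⟩ := QuotientGroup.mk_surjective q
    induction w using F_induction with
    | h1 => exact one_mem _
    | h2 s w ih =>
      rw [QuotientGroup.mk_mul]
      exact mul_mem (Subgroup.subset_closure (Finset.mem_coe.2 ((hS0 _).2 ⟨s, rfl⟩))) ih
  refine ⟨F ⧸ N, inferInstance, ?_, ?_, ?_, ?_, S0, hcl, ?_, ?_⟩
  · exact (Group.fg_iff).2 ⟨S0, hcl, S0.finite_toSet⟩
  · -- infinite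
    by_contra hfin
    rw [not_infinite_iff_finite] at hfin
    obtain ⟨n, h⟩ := hlow (Nat.card (F ⧸ N)) 0
    have h1 : ((fun w : F => (w : F ⧸ N)) '' Ball n).ncard ≤ Nat.card (F ⧸ N) := by
      rw [← Set.ncard_univ]
      exact Set.ncard_le_ncard (Set.subset_univ _) Set.finite_univ
    simp only [pow_zero, mul_one] at h
    omega
  · -- residually finite
    intro g hg
    obtain ⟨w, rfl⟩ := QuotientGroup.mk_surjective g
    have hw : w ∉ N := fun h => hg ((QuotientGroup.eq_one_iff w).2 h)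
    rw [hN, mem_NN] at hw
    push Not at hw
    obtain ⟨i, hi⟩ := hw
    have hle : N ≤ (S i).K := iInf_le _ _
    refine ⟨(S i).K.map (QuotientGroup.mk' N), ?_, ?_⟩
    · intro h0
      have h1 := Subgroup.index_comap_of_surjective ((S i).K.map (QuotientGroup.mk' N))
        (QuotientGroup.mk'_surjective N)
      rw [h0, Subgroup.comap_map_eq_self (by simpa using hle)] at h1
      exact (S i).K_index h1
    · intro h
      rw [Subgroup.mem_map] at h
      obtain ⟨w', hw', h⟩ := h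
      have h2 : w'⁻¹ * w ∈ N := QuotientGroup.eq.1 h
      apply hi
      have := mul_mem hw' (hle h2)
      simpa using this
  · -- hereditarily just infinite
    intro H hH M hM hMne
    obtain ⟨⟨⟨g, hgH⟩, hgM⟩, hg1⟩ : ∃ g : M, g ≠ 1 := by
      rw [← Subgroup.nontrivial_iff_ne_bot] at hMne
      exact exists_ne 1
    obtain ⟨w, rfl⟩ := QuotientGroup.mk_surjective g
    have hw : w ∉ N := by
      intro h
      apply hg1
      have : ((w : F) : F ⧸ N) = 1 := (QuotientGroup.eq_one_iff w).2 h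
      exact Subtype.ext (Subtype.ext this)
    have hH' : (H.comap (QuotientGroup.mk' N)).index ≠ 0 := by
      rw [Subgroup.index_comap_of_surjective _ (QuotientGroup.mk'_surjective N)]
      exact hH
    have hfi : (H.comap (QuotientGroup.mk' N)).FiniteIndex := ⟨hH'⟩
    have hcore : (H.comap (QuotientGroup.mk' N)).normalCore.index ≠ 0 :=
      (inferInstance : (H.comap (QuotientGroup.mk' N)).normalCore.FiniteIndex).index_ne_zero
    have key := index_conjGen he ha hn w hw (H.comap (QuotientGroup.mk' N)).normalCore hcore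
    -- the subgroup is contained in the preimage of `M`
    have hle : conjGen w (H.comap (QuotientGroup.mk' N)).normalCore ⊔ N ≤
        (M.map H.subtype).comap (QuotientGroup.mk' N) := by
      refine sup_le ?_ ?_
      · rw [conjGen, Subgroup.closure_le]
        rintro q ⟨h, hh, rfl⟩
        have hhH : ((h : F) : F ⧸ N) ∈ H :=
          Subgroup.mem_comap.1 (Subgroup.normalCore_le (H.comap (QuotientGroup.mk' N)) hh)
        have h1 := hM.conj_mem ⟨(w : F ⧸ N), hgH⟩ hgM ⟨(h : F ⧸ N), hhH⟩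
        exact ⟨_, h1, by simp⟩
      · intro q hq
        have : QuotientGroup.mk' N q = 1 := (QuotientGroup.eq_one_iff q).2 hq
        rw [Subgroup.mem_comap, this]
        exact one_mem _
    have h2 : ((M.map H.subtype).comap (QuotientGroup.mk' N)).index ≠ 0 := by
      intro h0
      have := Subgroup.index_dvd_of_le hle
      rw [h0] at this
      exact key (Nat.eq_zero_of_zero_dvd this)
    rw [Subgroup.index_comap_of_surjective _ (QuotientGroup.mk'_surjective N)] at h2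
    intro h0
    apply h2
    rw [Subgroup.index_map_subtype, h0, zero_mul]
  · intro C d
    obtain ⟨n, h⟩ := hlow C d
    exact ⟨n, by rw [ball_eq N S0 hS0 n]; exact h⟩
  · intro c hc
    obtain ⟨n, h⟩ := hup c hc
    exact ⟨n, by rw [ball_eq N S0 hS0 n]; exact h⟩

end Pool.Agent.HJI
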