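import Pool.Agent.Lib.MP_377081_al.Constr

/-!
# Algebra of good and semi-good elements
-/

set_option autoImplicit false

namespace Pool.Agent.HJI

open Equiv

variable {X Y Z Om P P' C : Type}

theorem ActsBy.one (Q : Piece X P) : ActsBy Q 1 1 := by
  intro Y C A t c x
  simp

theorem ActsBy.mul {Q : Piece X P} {w w' : F} {φ ψ : Perm X} (h : ActsBy Q w φ) (h' : ActsBy Q w' ψ) :
    ActsBy Q (w * w') (φ * ψ) := by
  intro Y C A t c x
  rw [map_mul, Perm.mul_apply, h' Y C A t, h Y C A t, Perm.mul_apply]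

theorem ActsBy.inv {Q : Piece X P} {w : F} {φ : Perm X} (h : ActsBy Q w φ) :
    ActsBy Q w⁻¹ φ⁻¹ := by
  intro Y C A t c x
  apply (A.hom w).injective
  rw [h Y C A t]
  simp

/-- `ActsBy Q w 1` means that `w` is in the kernel of all A-sets. -/
theorem ActsBy.one_iff {Q : Piece X P} {w : F} :
    ActsBy Q w 1 ↔ ∀ (Y C : Type) (A : FS D Y), Nonempty (Atlas (MonoidHom.id D) Q A C) →
      A.hom w = 1 := by
  constructor
  · rintro h Y C A ⟨t⟩
    ext1 y
    obtain ⟨⟨c, x⟩, rfl⟩ := t.e.surjective y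
    rw [h Y C A t]
    rfl
  · intro h Y C A t c x
    rw [h Y C A ⟨t⟩]
    rfl

theorem ActsBy.conj_one {Q : Piece X P} {w : F} (h : ActsBy Q w 1) (g : F) :
    ActsBy Q (g * w * g⁻¹) 1 := by
  rw [ActsBy.one_iff] at h ⊢
  intro Y C A t
  rw [map_mul, map_mul, h Y C A t, mul_one, ← map_mul, mul_inv_cancel, map_one]

theorem Lampless.one (Q : Piece X P) (p : X) (B : FS D Om) (om : Om) : Lampless Q p B om 1 := by
  intro Y C A t c z
  exact FS.lam_one _ _ _

theorem Lampless.mul {Q : Piece X P} {p : X} {B : FS D Om} {om : Om} {w w' : F}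
    (h : Lampless Q p B om w) (h' : Lampless Q p B om w') : Lampless Q p B om (w * w') := by
  intro Y C A t c z
  rw [FS.lam_mul, h Y C A t, h' Y C A t, mul_one]

theorem Lampless.inv {Q : Piece X P} {p : X} {B : FS D Om} {om : Om} {w : F}
    (h : Lampless Q p B om w) : Lampless Q p B om w⁻¹ := by
  intro Y C A t c z
  rw [FS.lam_inv, h Y C A t, inv_one]

theorem Lampless.a (Q : Piece X P) (p : X) (B : FS D Om) (om : Om) :
    Lampless Q p B om (letF none) := by
  intro Y C A t c z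
  exact FS.lam_a _ _ _

variable {Q : Piece X (Fin 4)} {B : FS D Om} {om : Om}

theorem Semi.one : Semi Q B om 1 1 := ⟨ActsBy.one Q, Lampless.one _ _ _ _⟩

theorem Semi.mul {w w' : F} {φ ψ : Perm X} (h : Semi Q B om φ w) (h' : Semi Q B om ψ w') :
    Semi Q B om (φ * ψ) (w * w') := ⟨h.1.mul h'.1, h.2.mul h'.2⟩

theorem Semi.inv {w : F} {φ : Perm X} (h : Semi Q B om φ w) : Semi Q B om φ⁻¹ w⁻¹ :=
  ⟨h.1.inv, h.2.inv⟩

/-- The letter `a` is semi-good. -/
theorem Semi.a : Semi Q B om Q.A.a (letF none) := by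
  refine ⟨?_, Lampless.a _ _ _ _⟩
  intro Y C A t c x
  rw [FS.hom_letF]
  exact t.ha c x

theorem Good.one : Good Q B om 1 1 := ⟨Semi.one, map_one _⟩

theorem Good.mul {w w' : F} {φ ψ : Perm X} (h : Good Q B om φ w) (h' : Good Q B om ψ w') :
    Good Q B om (φ * ψ) (w * w') := ⟨h.1.mul h'.1, by rw [map_mul, h.2, h'.2, mul_one]⟩

theorem Good.inv {w : F} {φ : Perm X} (h : Good Q B om φ w) : Good Q B om φ⁻¹ w⁻¹ :=
  ⟨h.1.inv, by rw [map_inv, h.2, inv_one]⟩

/-- Conjugation of a good element by a semi-good element. -/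
theorem Good.conj_semi {w g : F} {φ ψ : Perm X} (h : Semi Q B om φ w) (h' : Good Q B om ψ g) :
    Good Q B om (φ * ψ * φ⁻¹) (w * g * w⁻¹) :=
  ⟨(h.mul h'.1).mul h.inv, by
    rw [map_mul, map_mul, h'.2, mul_one, ← map_mul, mul_inv_cancel, map_one]⟩

/-- Conjugation of a good element fixing all ports by a letter of `D`. -/
theorem Good.conj_d {g : F} {ψ : Perm X} (h' : Good Q B om ψ g) (hψ : ∀ i, ψ (Q.port i) = Q.port i)
    (v : D) :
    Good Q B om (Q.A.d v * ψ * (Q.A.d v)⁻¹) (letF (some v) * g * (letF (some v))⁻¹) := by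
  have hnp : ∀ x, x ∉ Set.range Q.port → ψ x ∉ Set.range Q.port := by
    rintro x hx ⟨i, hi⟩
    exact hx ⟨i, ψ.injective (by rw [hψ, hi])⟩
  have hg : ∀ (Y C : Type) (A : FS D Y) (t : Atlas (MonoidHom.id D) Q A C) (c : C) (i : Fin 4),
      A.hom g (t.e (c, Q.port i)) = t.e (c, Q.port i) := by
    intro Y C A t c i
    rw [h'.1.1 Y C A t, hψ]
  refine ⟨⟨?_, ?_⟩, ?_⟩
  · intro Y C A t c x
    rw [map_mul, map_mul, map_inv, FS.hom_letF, Perm.mul_apply, Perm.mul_apply]
    show A.d v (A.hom g ((A.d v)⁻¹ (t.e (c, x)))) = _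
    by_cases hx : x ∈ Set.range Q.port
    · obtain ⟨i, rfl⟩ := hx
      rw [← map_inv]
      obtain ⟨c', i', h⟩ := t.port_eq v⁻¹ c i
      have e1 : (Q.A.d v * ψ * (Q.A.d v)⁻¹) (Q.port i) = Q.port i := by
        rw [← map_inv, Perm.mul_apply, Perm.mul_apply, Q.fix, hψ, Q.fix]
      rw [h, hg, ← h, e1, ← Perm.mul_apply, ← map_mul, mul_inv_cancel, map_one, Perm.one_apply]
    · rw [← map_inv, t.hd _ _ _ hx, h'.1.1 Y C A t, t.hd _ _ _ (hnp _ (Piece.notMem_port hx _))]
      simp [Perm.mul_apply]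
  · intro Y C A t c0 z
    by_cases hf : (B.prod A).Fixed (om, t.e (c0, Q.port 2))
    · have hgj : (B.prod A).hom g (om, t.e (c0, Q.port 2)) = (om, t.e (c0, Q.port 2)) := by
        rw [FS.prod_hom, h'.2, hg]
        rfl
      rw [FS.lam_mul, FS.lam_mul, FS.lam_inv, h'.1.2 Y C A t, mul_one, FS.lam_d _ hf, FS.lam_d _ hf]
      have e1 : (B.prod A).hom g ((B.prod A).hom (letF (some v))⁻¹ z) = (om, t.e (c0, Q.port 2)) ↔
          (B.prod A).hom (letF (some v))⁻¹ z = (om, t.e (c0, Q.port 2)) :=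
        ⟨fun h => ((B.prod A).hom g).injective (by rw [h, hgj]), fun h => by rw [h, hgj]⟩
      by_cases h : (B.prod A).hom (letF (some v))⁻¹ z = (om, t.e (c0, Q.port 2))
      · rw [if_pos (e1.2 h), if_pos h, mul_inv_cancel]
      · rw [if_neg (fun h2 => h (e1.1 h2)), if_neg h, mul_inv_cancel]
    · exact FS.lam_not_fixed _ hf _ _
  · rw [map_mul, map_mul, h'.2, mul_one, ← map_mul, mul_inv_cancel, map_one]

/-- The normal subgroup `N*`. -/
def Nst (Q : Piece X (Fin 4)) (B : FS D Om) (om : Om) : Subgroup F where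
  carrier := {w | Good Q B om 1 w}
  mul_mem' h h' := by simpa using Good.mul h h'
  one_mem' := Good.one
  inv_mem' h := by simpa using Good.inv h

theorem mem_Nst {w : F} : w ∈ Nst Q B om ↔ Good Q B om 1 w := Iff.rfl

instance Nst_normal : (Nst Q B om).Normal where
  conj_mem w hw g := by
    rw [mem_Nst] at hw ⊢
    refine ⟨⟨hw.1.1.conj_one g, ?_⟩, ?_⟩
    · intro Y C A t c0 z
      have h1 : (B.prod A).hom w = 1 := by
        ext1 z
        obtain ⟨o, y⟩ := z
        rw [FS.prod_hom, hw.2, ActsBy.one_iff.1 hw.1.1 Y C A ⟨t⟩]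
        rfl
      rw [FS.lam_mul, FS.lam_mul, hw.1.2 Y C A t, mul_one, FS.lam_inv, h1, Perm.one_apply,
        mul_inv_cancel]
    · rw [map_mul, map_mul, hw.2, mul_one, ← map_mul, mul_inv_cancel, map_one]

/-- `N*` of a stage. -/
def Stage.N (S : Stage) : Subgroup F := Nst S.Q S.B S.om

instance (S : Stage) : S.N.Normal := Nst_normal

theorem Stage.N_le_K (S : Stage) : S.N ≤ S.K := fun _ hw => hw.2

/-- The subgroup of good elements with even permutation. -/
def Stage.AA (S : Stage) : Subgroup F where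
  carrier := {w | ∃ φ ∈ alternatingGroup S.X, Good S.Q S.B S.om φ w}
  mul_mem' := by
    rintro w w' ⟨φ, h, hg⟩ ⟨ψ, h', hg'⟩
    exact ⟨φ * ψ, mul_mem h h', hg.mul hg'⟩
  one_mem' := ⟨1, one_mem _, Good.one⟩
  inv_mem' := by
    rintro w ⟨φ, h, hg⟩
    exact ⟨φ⁻¹, inv_mem h, hg.inv⟩

/-- The normal closure of `AA`. -/
def Stage.AAF (S : Stage) : Subgroup F := Subgroup.normalClosure (S.AA : Set F)

instance (S : Stage) : S.AAF.Normal := Subgroup.normalClosure_normal

theorem Stage.AA_le_AAF (S : Stage) : S.AA ≤ S.AAF := Subgroup.subset_normalClosure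

theorem Stage.N_le_AA (S : Stage) : S.N ≤ S.AA := fun _ hw => ⟨1, one_mem _, hw⟩

/-- The kernel of all A-sets. -/
def KerA (Q : Piece X P) : Subgroup F where
  carrier := {w | ActsBy Q w 1}
  mul_mem' h h' := by simpa using ActsBy.mul h h'
  one_mem' := ActsBy.one Q
  inv_mem' h := by simpa using ActsBy.inv h

instance (Q : Piece X P) : (KerA Q).Normal where
  conj_mem _ hw g := ActsBy.conj_one hw g

/-- A port actor: acts on all A-sets of `Q` as `x` on the ports and trivially elsewhere, trivially on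
`Om`, with the lamp `x` at the lamp point only. -/
def PortActor (Q : Piece X (Fin 4)) (B : FS D Om) (om : Om) (x : T) (w : F) : Prop :=
  B.hom w = 1 ∧
  ∀ (Y C : Type) (A : FS D Y) (t : Atlas (MonoidHom.id D) Q A C),
    (∀ c i, A.hom w (t.e (c, Q.port i)) = A.d (tD x) (t.e (c, Q.port i))) ∧
    (∀ c y, y ∉ Set.range Q.port → A.hom w (t.e (c, y)) = t.e (c, y)) ∧
    ∀ c0, A.Fixed (t.e (c0, Q.port 2)) →
      (B.prod A).lam (om, t.e (c0, Q.port 2)) w (om, t.e (c0, Q.port 2)) = x ∧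
      ∀ z, z ≠ (om, t.e (c0, Q.port 2)) → (B.prod A).lam (om, t.e (c0, Q.port 2)) w z = 1

/-- A pure lamp: acts trivially on all A-sets and on `Om`, with the lamp `x` at the lamp point only. -/
def PureLamp (Q : Piece X (Fin 4)) (B : FS D Om) (om : Om) (x : T) (w : F) : Prop :=
  ActsBy Q w 1 ∧ B.hom w = 1 ∧
  ∀ (Y C : Type) (A : FS D Y) (t : Atlas (MonoidHom.id D) Q A C) (c0 : C),
    A.Fixed (t.e (c0, Q.port 2)) →
      (B.prod A).lam (om, t.e (c0, Q.port 2)) w (om, t.e (c0, Q.port 2)) = x ∧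
      ∀ z, z ≠ (om, t.e (c0, Q.port 2)) → (B.prod A).lam (om, t.e (c0, Q.port 2)) w z = 1

end Pool.Agent.HJI
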