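import Pool.Agent.Lib.MP_377081_al.Step0

/-!
# HJ-17 Junction
-/

set_option autoImplicit false

namespace Pool.Agent.HJI

open Equiv
open scoped commutatorElement

variable {L X Y Z Om P P' C C0 : Type} [Group L]

namespace Junct

/-! ### Trivial action of `T` on the joints -/

theorem chi_tD (j : Fin 3) (x : T) : chi j (tD x) = 1 := by
  fin_cases j <;> simp [chi, tD]

theorem edgeHom_tD (pr : Y → Y) (jt : Y → Option (Fin 3)) (h1 : ∀ z, jt (pr z) = jt z)
    (h2 : ∀ z, pr (pr z) = z) (x : T) (z : Y) : edgeHom pr jt h1 h2 (tD x) z = z := by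
  cases h : jt z with
  | none => exact edgeHom_none pr jt h1 h2 _ z h
  | some j => rw [edgeHom_some pr jt h1 h2 _ z j h, if_pos (chi_tD j x)]

theorem gamE_tD [DecidableEq P] {o' o : P} (h : o' ≠ o) (x : T) (z : CE P × P) :
    gamE o' o h (tD x) z = z := edgeHom_tD _ _ _ _ x z

/-- The action of `T` on `Ext` is tilewise. -/
theorem ext_tD [DecidableEq P] (Q : Piece X P) {o' o : P} (h : o' ≠ o) (x : T) (ce : CE P) (y : X) :
    (Q.ext o' o h).A.d (tD x) (ce, y) = (ce, Q.A.d (tD x) y) := by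
  show (glue (MonoidHom.id D) Q (gamE o' o h)).d (tD x) (ce, y) = _
  by_cases hy : y ∈ Set.range Q.port
  · obtain ⟨i, rfl⟩ := hy
    rw [glue_port, gamE_tD, Q.fix]
  · rw [glue_nonport _ _ _ _ _ _ hy]
    rfl

/-- The action of `T` on the iterated extension is tilewise. -/
theorem extN_tD [DecidableEq P] (Q : Piece X P) {o' o : P} (h : o' ≠ o) (x : T) (k : ℕ) (c : CT P k)
    (y : X) : (Q.extN o' o h k).A.d (tD x) ((Q.extN_built o' o h k).t.e (c, y)) =
      (Q.extN_built o' o h k).t.e (c, Q.A.d (tD x) y) := by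
  induction k with
  | zero => rfl
  | succ k ih =>
    obtain ⟨ce, ct⟩ := c
    show ((Q.extN o' o h k).ext o' o h).A.d (tD x) (ce, (Q.extN_built o' o h k).t.e (ct, y)) = _
    rw [ext_tD, ih]
    rfl

theorem theta_tD (Q : Piece X (Fin 4)) (k : ℕ) (x : T) (c : CT (Fin 2) k × Unit) (y : X) :
    (theta Q k).A.d (tD x) ((theta_built Q k).t.e (c, y)) =
      (theta_built Q k).t.e (c, Q.A.d (tD x) y) := by
  obtain ⟨c, u⟩ := c
  exact extN_tD (Q.report ends) (by decide) x k c y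

/-- In A-sets of an iterated extension the port `o'` of the tiles is always fixed by `T`. -/
theorem extN_port_tD [DecidableEq P] (R : Piece X P) {o' o : P} (h : o' ≠ o) (x : T) (k : ℕ)
    {Y C : Type} (A : FS D Y) (t : Atlas (MonoidHom.id D) (R.extN o' o h (k + 1)) A C) (c : C)
    (ct : CT P (k + 1)) :
    A.d (tD x) (t.e (c, (R.extN_built o' o h (k + 1)).t.e (ct, R.port o'))) =
      t.e (c, (R.extN_built o' o h (k + 1)).t.e (ct, R.port o')) := by
  induction k generalizing C with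
  | zero =>
    obtain ⟨ce, ⟨⟩⟩ := ct
    have hnp : ((ce, R.port o') : CE P × X) ∉ Set.range (R.ext o' o h).port := by
      rintro ⟨i, hi⟩
      exact h (R.port.injective (congrArg Prod.snd hi)).symm
    show A.d (tD x) (t.e (c, ((ce, R.port o') : CE P × X))) = t.e (c, ((ce, R.port o') : CE P × X))
    have h1 := t.hd (tD x) c ((ce, R.port o') : CE P × X) hnp
    rw [h1]
    show t.e (c, (R.ext o' o h).A.d (tD x) (ce, R.port o')) = _
    rw [ext_tD, R.fix]
  | succ k ih =>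
    obtain ⟨ce, ct⟩ := ct
    exact ih (t.comp (Built.up (R.extN o' o h (k + 1)) (gamE o' o h) (portE o) (gamE_portE h)))
      (c, ce) ct

theorem twN_built [DecidableEq P] (R : Piece X P) {o' o : P} (h : o' ≠ o) (σ : Perm X) (k : ℕ)
    (ct : CT P k) (y : X) :
    twN P σ k ((R.extN_built o' o h k).t.e (ct, y)) = (R.extN_built o' o h k).t.e (ct, σ y) := by
  induction k with
  | zero => rfl
  | succ k ih =>
    obtain ⟨ce, ct⟩ := ct
    show (ce, twN P σ k ((R.extN_built o' o h k).t.e (ct, y))) = _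
    rw [ih]
    rfl

theorem twN_mul (σ τ : Perm X) (k : ℕ) : twN P (σ * τ) k = twN P σ k * twN P τ k := by
  induction k with
  | zero => rfl
  | succ k ih =>
    show tw (CE P) (twN P (σ * τ) k) = tw (CE P) (twN P σ k) * tw (CE P) (twN P τ k)
    rw [ih, map_mul]

theorem twN_one (k : ℕ) : twN P (1 : Perm X) k = 1 := by
  induction k with
  | zero => rfl
  | succ k ih =>
    show tw (CE P) (twN P (1 : Perm X) k) = 1
    rw [ih, map_one]

/-- Tilewise action on an A-set. -/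
noncomputable def lft {p : L →* D} {Q : Piece X P} {A : FS L Y} (t : Atlas p Q A C) :
    Perm X →* Perm Y :=
  (permCongrHom t.e).toMonoidHom.comp (tw C)

theorem lft_apply {p : L →* D} {Q : Piece X P} {A : FS L Y} (t : Atlas p Q A C) (σ : Perm X) (c : C)
    (x : X) : lft t σ (t.e (c, x)) = t.e (c, σ x) := by
  show (Equiv.permCongr t.e (tw C σ)) (t.e (c, x)) = _
  simp [Equiv.permCongr_apply]

/-! ### The core -/

section Core
variable (Q : Piece X (Fin 4)) (B : FS D Z) (z0 : Z) (hz : B.Fixed z0)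

/-- The junction permutation. -/
noncomputable def vj (x : T) : Perm (Fin 5 × (X ⊕ Z)) := (x : Perm (Fin 5)).viaEmbedding (jpt Q Z)

theorem vj_mul (x y : T) : vj (Z := Z) Q (x * y) = vj Q x * vj Q y := by
  have := (Perm.viaEmbeddingHom (jpt Q Z)).map_mul (x : Perm (Fin 5)) (y : Perm (Fin 5))
  simpa [vj, Perm.viaEmbeddingHom_apply] using this

theorem vj_one : vj (Z := Z) Q 1 = 1 := by
  have := (Perm.viaEmbeddingHom (jpt Q Z)).map_one
  simpa [vj, Perm.viaEmbeddingHom_apply] using this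

theorem vj_inv (x : T) : vj (Z := Z) Q x⁻¹ = (vj Q x)⁻¹ := by
  rw [eq_inv_iff_mul_eq_one, ← vj_mul, inv_mul_cancel, vj_one]

theorem vj_jpt (x : T) (q : Fin 5) : vj (Z := Z) Q x (jpt Q Z q) = jpt Q Z ((x : Perm (Fin 5)) q) :=
  Perm.viaEmbedding_apply _ _ _

theorem vj_other (x : T) (p : Fin 5 × (X ⊕ Z)) (hp : p ∉ Set.range (jpt Q Z)) :
    vj (Z := Z) Q x p = p := Perm.viaEmbedding_apply_of_notMem _ _ _ hp

theorem jpt_eq (q : Fin 5) :
    jpt Q Z q = ((junc q).1, (Q.addP B z0 hz).port (junc q).2) := by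
  fin_cases q <;> rfl

theorem jpt_snd (q : Fin 5) : (jpt Q Z q).2 = Sum.inl (Q.port 0) ∨
    (jpt Q Z q).2 = Sum.inl (Q.port 1) := by
  fin_cases q
  · exact Or.inl rfl
  · exact Or.inl rfl
  · exact Or.inl rfl
  · exact Or.inl rfl
  · exact Or.inr rfl

theorem core_port (i : Fin 6) :
    (core Q B z0 hz).port i = ((portB i).1, (Q.addP B z0 hz).port (portB i).2) := rfl

theorem pair_inj {k k' : Fin 5} {j j' : Fin 4 ⊕ Unit}
    (h : ((k, (Q.addP B z0 hz).port j) : Fin 5 × (X ⊕ Z)) = (k', (Q.addP B z0 hz).port j')) :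
    (k, j) = (k', j') := by
  rw [Prod.mk.injEq] at h
  exact Prod.ext h.1 ((Q.addP B z0 hz).port.injective h.2)

theorem portB_ne_junc (i : Fin 6) (q : Fin 5) : portB i ≠ junc q := by
  revert i q; decide

theorem juncInv_none (z : Fin 5 × (Fin 4 ⊕ Unit)) (h : ∀ q, junc q ≠ z) : juncInv z = none := by
  rcases juncInv_none_or z with h' | ⟨q, hq⟩
  · exact h'
  · exact absurd hq (h q)

variable {Y C : Type} {A : FS D Y} (t : Atlas (MonoidHom.id D) (core Q B z0 hz) A C)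

theorem T_jpt (x : T) (c : C) (q : Fin 5) :
    A.d (tD x) (t.e (c, jpt Q Z q)) = t.e (c, jpt Q Z ((x : Perm (Fin 5)) q)) := by
  have hnp : jpt Q Z q ∉ Set.range (core Q B z0 hz).port := by
    rintro ⟨i, hi⟩
    rw [core_port, jpt_eq Q B z0 hz] at hi
    exact portB_ne_junc i q (pair_inj Q B z0 hz hi)
  rw [t.hd _ _ _ hnp]
  congr 2
  show (glue (MonoidHom.id D) (Q.addP B z0 hz) gamB).d (tD x) (jpt Q Z q) = _
  rw [jpt_eq Q B z0 hz, glue_port, Prod.mk.eta, gamB_junc, jpt_eq Q B z0 hz]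
  rfl

theorem T_port (x : T) (c : C) (k : Fin 5) (j : Fin 4 ⊕ Unit) (h1 : ∀ q, junc q ≠ (k, j))
    (h2 : ∀ i, portB i ≠ (k, j)) :
    A.d (tD x) (t.e (c, (k, (Q.addP B z0 hz).port j))) =
      t.e (c, (k, (Q.addP B z0 hz).port j)) := by
  have hnp : (k, (Q.addP B z0 hz).port j) ∉ Set.range (core Q B z0 hz).port := by
    rintro ⟨i, hi⟩
    rw [core_port] at hi
    exact h2 i (pair_inj Q B z0 hz hi)
  rw [t.hd _ _ _ hnp]
  congr 2
  show (glue (MonoidHom.id D) (Q.addP B z0 hz) gamB).d (tD x) (k, (Q.addP B z0 hz).port j) = _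
  rw [glue_port, gamB_other _ _ (juncInv_none _ h1), edgeB, edgeHom_tD]

theorem T_nonport (x : T) (c : C) (k : Fin 5) (u : X ⊕ Z)
    (hu : u ∉ Set.range (Q.addP B z0 hz).port) :
    A.d (tD x) (t.e (c, (k, u))) = t.e (c, (k, (Q.A.sum B).d (tD x) u)) := by
  have hnp : (k, u) ∉ Set.range (core Q B z0 hz).port := by
    rintro ⟨i, hi⟩
    rw [core_port] at hi
    exact hu ⟨_, congrArg Prod.snd hi⟩
  rw [t.hd _ _ _ hnp]
  congr 2
  show (glue (MonoidHom.id D) (Q.addP B z0 hz) gamB).d (tD x) (k, u) = _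
  rw [glue_nonport _ _ _ _ _ _ hu]
  rfl

theorem T_inr (x : T) (c : C) (k : Fin 5) (z : Z) :
    A.d (tD x) (t.e (c, (k, Sum.inr z))) = t.e (c, (k, Sum.inr (B.d (tD x) z))) := by
  by_cases hzz : z = z0
  · subst hzz
    rw [hz]
    refine T_port Q B z hz t x c k (Sum.inr ()) ?_ ?_
    · intro q; revert k; revert q; decide
    · intro i; revert k; revert i; decide
  · refine T_nonport Q B z0 hz t x c k (Sum.inr z) ?_
    rintro ⟨(i | i), hi⟩
    · exact absurd hi (by simp [Piece.addP])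
    · exact hzz (Sum.inr_injective hi).symm

theorem T_inl (H4 : ∀ x c, A.d (tD x) (t.e (c, (core Q B z0 hz).port 4)) =
      t.e (c, (core Q B z0 hz).port 4)) (x : T) (c : C) (k : Fin 5) (u : X)
    (h1 : (k, Sum.inl u) ∉ Set.range (jpt Q Z)) (h2 : u ≠ Q.port 3) :
    A.d (tD x) (t.e (c, (k, Sum.inl u))) = t.e (c, (k, Sum.inl (Q.A.d (tD x) u))) := by
  by_cases hu : u ∈ Set.range Q.port
  · obtain ⟨j, rfl⟩ := hu
    rw [Q.fix]
    have hj : ∀ q, junc q ≠ (k, Sum.inl j) := by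
      intro q hq
      apply h1
      refine ⟨q, ?_⟩
      rw [jpt_eq Q B z0 hz, hq]
      rfl
    by_cases hp : ∃ i, portB i = (k, Sum.inl j)
    · obtain ⟨i, hi⟩ := hp
      have hi4 : i = 4 := by
        have hj3 : j ≠ 3 := fun h => h2 (by rw [h])
        clear h1 h2 H4
        revert i j k
        decide
      subst hi4
      have := H4 x c
      rw [core_port, hi] at this
      exact this
    · exact T_port Q B z0 hz t x c k (Sum.inl j) hj (fun i hi => hp ⟨i, hi⟩)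
  · refine T_nonport Q B z0 hz t x c k (Sum.inl u) ?_
    rintro ⟨(i | i), hi⟩
    · exact hu ⟨i, Sum.inl_injective hi⟩
    · exact absurd hi (by simp [Piece.addP])

theorem T_three (H4 : ∀ x c, A.d (tD x) (t.e (c, (core Q B z0 hz).port 4)) =
      t.e (c, (core Q B z0 hz).port 4)) (x : T) (c : C) (k : Fin 5) :
    ∃ c' k', A.d (tD x) (t.e (c, (k, Sum.inl (Q.port 3)))) = t.e (c', (k', Sum.inl (Q.port 3))) := by
  have h1 : ∃ i, i ≠ 4 ∧ portB i = (k, Sum.inl 3) := by revert k; decide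
  obtain ⟨i, hi4, hi⟩ := h1
  have h3 : (core Q B z0 hz).port i = (k, Sum.inl (Q.port 3)) := by
    rw [core_port, hi]
    rfl
  obtain ⟨c', i', h⟩ := t.port_eq (tD x) c i
  rw [h3] at h
  have hi' : i' ≠ 4 := by
    rintro rfl
    rw [← H4 x c'] at h
    have h5 := t.e.injective ((A.d (tD x)).injective h)
    rw [← h3] at h5
    exact hi4 ((core Q B z0 hz).port.injective (congrArg Prod.snd h5))
  have h6 : ∃ k', portB i' = (k', Sum.inl 3) := by
    clear h
    revert i'; decide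
  obtain ⟨k', hk'⟩ := h6
  refine ⟨c', k', ?_⟩
  rw [h, core_port, hk']
  rfl

/-- The remaining part of the action of `T`. -/
noncomputable def rr (x : T) : Perm Y := (lft t (vj Q x))⁻¹ * A.d (tD x)

theorem vj_inv_other (x : T) (p : Fin 5 × (X ⊕ Z)) (hp : p ∉ Set.range (jpt Q Z)) :
    (vj (Z := Z) Q x)⁻¹ p = p := by
  rw [← vj_inv]; exact vj_other Q _ p hp

theorem vj_inv_jpt (x : T) (q : Fin 5) :
    (vj (Z := Z) Q x)⁻¹ (jpt Q Z ((x : Perm (Fin 5)) q)) = jpt Q Z q := by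
  rw [Perm.inv_eq_iff_eq, vj_jpt]

theorem vj_inv_inl (x : T) (k : Fin 5) (u : X) :
    ∃ k' u', (vj (Z := Z) Q x)⁻¹ (k, Sum.inl u) = (k', Sum.inl u') := by
  by_cases hp : ((k, Sum.inl u) : Fin 5 × (X ⊕ Z)) ∈ Set.range (jpt Q Z)
  · obtain ⟨q, hq⟩ := hp
    obtain ⟨q', rfl⟩ := (x : Perm (Fin 5)).surjective q
    rw [← hq, vj_inv_jpt]
    rcases jpt_snd (Z := Z) Q q' with h | h
    · exact ⟨(jpt Q Z q').1, Q.port 0, Prod.ext rfl h⟩
    · exact ⟨(jpt Q Z q').1, Q.port 1, Prod.ext rfl h⟩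
  · exact ⟨k, u, vj_inv_other Q x _ hp⟩

theorem rr_apply (x : T) (y : Y) (c : C) (p : Fin 5 × (X ⊕ Z)) (h : A.d (tD x) y = t.e (c, p)) :
    rr Q B z0 hz t x y = t.e (c, (vj Q x)⁻¹ p) := by
  rw [rr, Perm.mul_apply, h, ← map_inv, lft_apply]

theorem rr_jpt (x : T) (c : C) (q : Fin 5) :
    rr Q B z0 hz t x (t.e (c, jpt Q Z q)) = t.e (c, jpt Q Z q) := by
  rw [rr_apply Q B z0 hz t x _ c _ (T_jpt Q B z0 hz t x c q), vj_inv_jpt]

theorem inr_notMem (k : Fin 5) (z : Z) : ((k, Sum.inr z) : Fin 5 × (X ⊕ Z)) ∉ Set.range (jpt Q Z) := by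
  rintro ⟨q, hq⟩
  rcases jpt_snd (Z := Z) Q q with h | h <;> rw [hq] at h <;> simp at h

theorem rr_inr (x : T) (c : C) (k : Fin 5) (z : Z) :
    rr Q B z0 hz t x (t.e (c, (k, Sum.inr z))) = t.e (c, (k, Sum.inr (B.d (tD x) z))) := by
  rw [rr_apply Q B z0 hz t x _ c _ (T_inr Q B z0 hz t x c k z), vj_inv_other]
  exact inr_notMem Q _ _

variable (H4 : ∀ x c, A.d (tD x) (t.e (c, (core Q B z0 hz).port 4)) =
      t.e (c, (core Q B z0 hz).port 4))

include H4

theorem rr_inl_fix (x : T) (c : C) (k : Fin 5) (u : X) (h2 : u ≠ Q.port 3)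
    (hu : Q.A.d (tD x) u = u) :
    rr Q B z0 hz t x (t.e (c, (k, Sum.inl u))) = t.e (c, (k, Sum.inl u)) := by
  by_cases hp : ((k, Sum.inl u) : Fin 5 × (X ⊕ Z)) ∈ Set.range (jpt Q Z)
  · obtain ⟨q, hq⟩ := hp
    rw [← hq, rr_jpt]
  · rw [rr_apply Q B z0 hz t x _ c _ (T_inl Q B z0 hz t H4 x c k u hp h2), hu, vj_inv_other]
    exact hp

theorem rr_inl (x : T) (c : C) (k : Fin 5) (u : X) :
    ∃ c' k' u', rr Q B z0 hz t x (t.e (c, (k, Sum.inl u))) = t.e (c', (k', Sum.inl u')) := by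
  by_cases hp : ((k, Sum.inl u) : Fin 5 × (X ⊕ Z)) ∈ Set.range (jpt Q Z)
  · obtain ⟨q, hq⟩ := hp
    refine ⟨c, k, u, ?_⟩
    rw [← hq, rr_jpt]
  · by_cases h2 : u = Q.port 3
    · subst h2
      obtain ⟨c', k', h⟩ := T_three Q B z0 hz t H4 x c k
      obtain ⟨k'', u'', h'⟩ := vj_inv_inl (Z := Z) Q x k' (Q.port 3)
      exact ⟨c', k'', u'', by rw [rr_apply Q B z0 hz t x _ c' _ h, h']⟩
    · obtain ⟨k'', u'', h'⟩ := vj_inv_inl (Z := Z) Q x k (Q.A.d (tD x) u)
      exact ⟨c, k'', u'', by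
        rw [rr_apply Q B z0 hz t x _ c _ (T_inl Q B z0 hz t H4 x c k u hp h2), h']⟩

theorem rr_comm (φ : Perm X) (ψ : Perm Z) (h3 : φ (Q.port 3) = Q.port 3)
    (hφ : ∀ u, φ u ≠ u → ∀ x, Q.A.d (tD x) u = u)
    (hψ : ∀ x z, B.d (tD x) (ψ z) = ψ (B.d (tD x) z)) (x : T) :
    rr Q B z0 hz t x * lft t (tw (Fin 5) (sumCongr φ ψ)) =
      lft t (tw (Fin 5) (sumCongr φ ψ)) * rr Q B z0 hz t x := by
  have hfix : ∀ (c : C) (k : Fin 5) (u : X), φ u ≠ u →
      rr Q B z0 hz t x (t.e (c, (k, Sum.inl u))) = t.e (c, (k, Sum.inl u)) := by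
    intro c k u hu
    refine rr_inl_fix Q B z0 hz t H4 x c k u ?_ (hφ u hu x)
    rintro rfl
    exact hu h3
  ext1 y
  obtain ⟨⟨c, ⟨k, u⟩⟩, rfl⟩ := t.e.surjective y
  rw [Perm.mul_apply, Perm.mul_apply, lft_apply]
  rcases u with u | z
  · have e1 : (tw (Fin 5) (sumCongr φ ψ)) (k, Sum.inl u) = (k, Sum.inl (φ u)) := rfl
    rw [e1]
    by_cases hu : φ u = u
    · rw [hu]
      obtain ⟨c', k', u', h⟩ := rr_inl Q B z0 hz t H4 x c k u
      rw [h, lft_apply]
      have e2 : (tw (Fin 5) (sumCongr φ ψ)) (k', Sum.inl u') = (k', Sum.inl (φ u')) := rfl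
      rw [e2]
      by_cases hu' : φ u' = u'
      · rw [hu']
      · exfalso
        rw [← hfix c' k' u' hu'] at h
        have h5 := t.e.injective ((rr Q B z0 hz t x).injective h)
        have h6 : u = u' := Sum.inl_injective (congrArg (fun z => z.2.2) h5)
        rw [h6] at hu
        exact hu' hu
    · rw [hfix c k u hu, lft_apply, e1]
      exact hfix c k _ (fun h => hu (φ.injective h))
  · have e1 : ∀ z, (tw (Fin 5) (sumCongr φ ψ)) (k, Sum.inr z) = (k, Sum.inr (ψ z)) := fun _ => rfl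
    rw [e1, rr_inr, rr_inr, lft_apply, e1, hψ]

theorem comm_eq (φ : Perm X) (ψ : Perm Z) (h3 : φ (Q.port 3) = Q.port 3)
    (hφ : ∀ u, φ u ≠ u → ∀ x, Q.A.d (tD x) u = u)
    (hψ : ∀ x z, B.d (tD x) (ψ z) = ψ (B.d (tD x) z)) (x : T) :
    ⁅A.d (tD x), lft t (tw (Fin 5) (sumCongr φ ψ))⁆ =
      lft t ⁅(vj Q x : Perm (Fin 5 × (X ⊕ Z))), tw (Fin 5) (sumCongr φ ψ)⁆ := by
  have h1 : A.d (tD x) = lft t (vj Q x) * rr Q B z0 hz t x := by
    rw [rr]; group
  have h2 := rr_comm Q B z0 hz t H4 φ ψ h3 hφ hψ x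
  rw [map_commutatorElement, commutatorElement_def, commutatorElement_def, h1]
  generalize lft t (vj Q x) = V at *
  generalize lft t (tw (Fin 5) (sumCongr φ ψ)) = S at *
  generalize rr Q B z0 hz t x = R at *
  calc V * R * S * (V * R)⁻¹ * S⁻¹ = V * (R * S) * R⁻¹ * V⁻¹ * S⁻¹ := by group
    _ = V * (S * R) * R⁻¹ * V⁻¹ * S⁻¹ := by rw [h2]
    _ = V * S * V⁻¹ * S⁻¹ := by group

end Core

theorem comm_group {G : Type} [Group G] {a b a' b' : G} (h2 : Commute a' b)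
    (h3 : Commute a' b') (h4 : Commute b' a) :
    ⁅a * a'⁻¹, b * b'⁻¹⁆ = ⁅a, b⁆ := by
  have e1 : (a * a'⁻¹) * (b * b'⁻¹) = a * b * (a'⁻¹ * b'⁻¹) := by
    have := h2.inv_left.eq
    calc (a * a'⁻¹) * (b * b'⁻¹) = a * (a'⁻¹ * b) * b'⁻¹ := by group
      _ = a * (b * a'⁻¹) * b'⁻¹ := by rw [this]
      _ = _ := by group
  have e2 : (b * b'⁻¹) * (a * a'⁻¹) = b * a * (a'⁻¹ * b'⁻¹) := by
    have := h4.inv_left.eq
    have h3' := h3.inv_inv.eq
    calc (b * b'⁻¹) * (a * a'⁻¹) = b * (b'⁻¹ * a) * a'⁻¹ := by group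
      _ = b * (a * b'⁻¹) * a'⁻¹ := by rw [this]
      _ = b * a * (b'⁻¹ * a'⁻¹) := by group
      _ = _ := by rw [h3']
  have e3 : ⁅a * a'⁻¹, b * b'⁻¹⁆ = ((a * a'⁻¹) * (b * b'⁻¹)) * ((b * b'⁻¹) * (a * a'⁻¹))⁻¹ := by
    rw [commutatorElement_def]; group
  rw [e3, e1, e2, commutatorElement_def]
  group

theorem disj (Q : Piece X (Fin 4)) (σ τ : Perm (Fin 5 × (X ⊕ Z))) (x y : T)
    (h : ∀ q q', σ (jpt Q Z q) ≠ τ (jpt Q Z q')) :
    Commute (σ * vj Q x * σ⁻¹) (τ * vj Q y * τ⁻¹) := by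
  refine Perm.Disjoint.commute ?_
  intro p
  by_cases h1 : σ⁻¹ p ∈ Set.range (jpt Q Z)
  · by_cases h2 : τ⁻¹ p ∈ Set.range (jpt Q Z)
    · exfalso
      obtain ⟨q, hq⟩ := h1
      obtain ⟨q', hq'⟩ := h2
      apply h q q'
      rw [hq, hq']
      simp
    · right
      rw [Perm.mul_apply, Perm.mul_apply, vj_other Q y _ h2]
      simp
  · left
    rw [Perm.mul_apply, Perm.mul_apply, vj_other Q x _ h1]
    simp

theorem vj_comm (Q : Piece X (Fin 4)) (x y : T) :
    (vj Q ⁅x, y⁆ : Perm (Fin 5 × (X ⊕ Z))) =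
      ⁅(vj Q x : Perm (Fin 5 × (X ⊕ Z))), (vj Q y : Perm (Fin 5 × (X ⊕ Z)))⁆ := by
  rw [commutatorElement_def, commutatorElement_def, vj_mul, vj_mul, vj_mul, vj_inv, vj_inv]

theorem comm_vj (Q : Piece X (Fin 4)) (σ σ' : Perm (Fin 5 × (X ⊕ Z))) (x y : T)
    (h1 : ∀ q q', σ (jpt Q Z q) ≠ jpt Q Z q') (h2 : ∀ q q', σ' (jpt Q Z q) ≠ jpt Q Z q')
    (h3 : ∀ q q', σ (jpt Q Z q) ≠ σ' (jpt Q Z q')) :
    ⁅⁅(vj Q x : Perm (Fin 5 × (X ⊕ Z))), σ⁆, ⁅(vj Q y : Perm (Fin 5 × (X ⊕ Z))), σ'⁆⁆ =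
      vj Q ⁅x, y⁆ := by
  have e1 : ⁅(vj Q x : Perm (Fin 5 × (X ⊕ Z))), σ⁆ = vj Q x * (σ * vj Q x * σ⁻¹)⁻¹ := by
    rw [commutatorElement_def]; group
  have e2 : ⁅(vj Q y : Perm (Fin 5 × (X ⊕ Z))), σ'⁆ = vj Q y * (σ' * vj Q y * σ'⁻¹)⁻¹ := by
    rw [commutatorElement_def]; group
  have d1 : ∀ z, Commute (σ * vj Q x * σ⁻¹) (vj Q z) := by
    intro z
    have := disj Q σ 1 x z (fun q q' => h1 q q')
    simpa using this
  have d2 : ∀ z, Commute (σ' * vj Q y * σ'⁻¹) (vj Q z) := by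
    intro z
    have := disj Q σ' 1 y z (fun q q' => h2 q q')
    simpa using this
  rw [e1, e2, vj_comm]
  exact comm_group (d1 y) (disj Q σ σ' x y h3) (d2 x)

theorem extN_port [DecidableEq P] (R : Piece X P) {o' o : P} (h : o' ≠ o) (k : ℕ) (i : P) :
    ∃ ct, (R.extN o' o h (k + 1)).port i = (R.extN_built o' o h (k + 1)).t.e (ct, R.port o) := by
  induction k generalizing i with
  | zero => exact ⟨(some (i, 2), ()), rfl⟩
  | succ k ih =>
    obtain ⟨ct, hct⟩ := ih o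
    refine ⟨(some (i, 2), ct), ?_⟩
    show (some (i, 2), (R.extN o' o h (k + 1)).port o) =
      (some (i, 2), (R.extN_built o' o h (k + 1)).t.e (ct, R.port o))
    rw [hct]

theorem theta_port (Q : Piece X (Fin 4)) (k : ℕ) (i : Fin 2) (hk : k = 0 → i = 1) :
    ∃ c, (theta Q k).port i = (theta_built Q k).t.e (c, Q.port 3) := by
  cases k with
  | zero =>
    obtain rfl := hk rfl
    exact ⟨((), ()), rfl⟩
  | succ k =>
    obtain ⟨ct, hct⟩ := extN_port (Q.report ends) (o' := 0) (o := 1) (by decide) k i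
    exact ⟨(ct, ()), hct⟩

/-- Data of a permutation used to separate the junction. -/
structure Sep (Q : Piece X (Fin 4)) (φ : Perm X) (u v : X) : Prop where
  p0 : φ (Q.port 0) = u
  p1 : φ (Q.port 1) = v
  p2 : φ (Q.port 2) = Q.port 2
  p3 : φ (Q.port 3) = Q.port 3
  fix : ∀ z, φ z ≠ z → ∀ x, Q.A.d (tD x) z = z

theorem Sep.comm {Q : Piece X (Fin 4)} {φ : Perm X} {u v : X} (h : Sep Q φ u v) (x : T) (z : X) :
    Q.A.d (tD x) (φ z) = φ (Q.A.d (tD x) z) := by
  by_cases hz : φ z = z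
  · rw [hz]
    by_contra hc
    have h1 : φ (Q.A.d (tD x) z) ≠ Q.A.d (tD x) z := fun h => hc h.symm
    have h2 := h.fix _ h1 x
    have h3 := (Q.A.d (tD x)).injective h2
    rw [h3] at h1
    exact h1 hz
  · rw [h.fix z hz x, h.fix (φ z) (fun h' => hz (φ.injective h')) x]

theorem Sep.lift_comm {Q : Piece X (Fin 4)} {φ : Perm X} {u v : X} (h : Sep Q φ u v) (n : ℕ) (x : T)
    (y : XT (Fin 2) X n) :
    (theta Q n).A.d (tD x) ((theta_built Q n).lift φ y) =
      (theta_built Q n).lift φ ((theta Q n).A.d (tD x) y) := by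
  obtain ⟨⟨c, z⟩, rfl⟩ := (theta_built Q n).t.e.surjective y
  rw [Built.lift_e, theta_tD, theta_tD, Built.lift_e, h.comm]

theorem Sep.lift_cen {Q : Piece X (Fin 4)} {φ : Perm X} {u v : X} (h : Sep Q φ u v) (n : ℕ) :
    (theta_built Q n).lift φ (cen (Fin 2) n (Q.port 2)) = cen (Fin 2) n (Q.port 2) := by
  have h4 : (theta_built Q n).t.e ((cenC (Fin 2) n, ()), Q.port 2) = cen (Fin 2) n (Q.port 2) :=
    (Q.report ends).extN_built_cen 0 1 (by decide) n (Q.port 2)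
  rw [← h4, Built.lift_e, h.p2]

theorem Sep.lift_port {Q : Piece X (Fin 4)} {φ : Perm X} {u v : X} (h : Sep Q φ u v) (n : ℕ) :
    (theta_built Q n).lift φ ((theta Q n).port 1) = (theta Q n).port 1 := by
  obtain ⟨c, hc⟩ := theta_port Q n 1 (fun _ => rfl)
  rw [hc, Built.lift_e, h.p3]

/-- The part of `liftS` on `Omega'`. -/
noncomputable def psi (Q : Piece X (Fin 4)) (Om : Type) (n : ℕ) (φ : Perm X) :
    Perm (XT (Fin 2) X n × (Om → T)) :=
  Equiv.prodCongr ((theta_built Q n).lift φ) (Equiv.refl (Om → T))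

theorem Sep.psi_comm {Q : Piece X (Fin 4)} {φ : Perm X} {u v : X} (h : Sep Q φ u v) (B : FS D Om)
    (om : Om) (n : ℕ) (x : T) (z : XT (Fin 2) X n × (Om → T)) :
    (omS Q B om n).d (tD x) (psi Q Om n φ z) = psi Q Om n φ ((omS Q B om n).d (tD x) z) := by
  obtain ⟨y, m⟩ := z
  have h1 : (theta_built Q n).lift φ y = cen (Fin 2) n (Q.port 2) ↔ y = cen (Fin 2) n (Q.port 2) := by
    conv_lhs => rw [← h.lift_cen n]
    exact ((theta_built Q n).lift φ).injective.eq_iff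
  refine Prod.ext (h.lift_comm n x y) ?_
  funext u
  classical
  exact congrArg₂ (· * ·) (if_congr (and_congr_right fun _ => and_congr_left fun _ => h1) rfl rfl) rfl

theorem psi_omP {Q : Piece X (Fin 4)} {φ : Perm X} {u v : X} (h : Sep Q φ u v) (n : ℕ) :
    psi Q Om n φ (omP Q Om n) = omP Q Om n :=
  Prod.ext (h.lift_port n) rfl

theorem omS_hom {Q : Piece X (Fin 4)} {B : FS D Om} {om : Om} {n : ℕ} {w : F} {φ : Perm X}
    (h : ActsBy (addS Q B om n) w (liftS Q Om n φ)) :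
    (omS Q B om n).hom w = psi Q Om n φ := by
  ext1 z
  have h1 := h _ _ _ (Built.refl (addS Q B om n)).t () (Sum.inr z)
  have h2 : (addS Q B om n).A.hom w (Sum.inr z) = Sum.inr ((omS Q B om n).hom w z) :=
    (intertwine_hom (A := omS Q B om n) (B := (addS Q B om n).A) (β := Sum.inr) (fun _ => rfl)
      (fun _ _ => rfl) w z).symm
  have h3 : (addS Q B om n).A.hom w (Sum.inr z) = Sum.inr (psi Q Om n φ z) := h1
  exact Sum.inr_injective (h2.symm.trans h3)

theorem omS_comm {Q : Piece X (Fin 4)} {B : FS D Om} {om : Om} {n : ℕ} {w : F} {φ : Perm X} {u v : X}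
    (hs : Sep Q φ u v) (h : ActsBy (addS Q B om n) w (liftS Q Om n φ)) (x : T) :
    (omS Q B om n).hom ⁅letF (some (tD x)), w⁆ = 1 := by
  rw [map_commutatorElement, commutatorElement_eq_one_iff_mul_comm, omS_hom h, FS.hom_letF]
  ext1 z
  exact hs.psi_comm B om n x z


theorem sep_swap [DecidableEq X] {Q : Piece X (Fin 4)} {u v : X} (huv : u ≠ v)
    (hu : u ∉ Set.range Q.port) (hv : v ∉ Set.range Q.port) (hu' : ∀ t : T, Q.A.d (tD t) u = u)
    (hv' : ∀ t : T, Q.A.d (tD t) v = v) :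
    Sep Q (swap (Q.port 0) u * swap (Q.port 1) v) u v := by
  have hne : ∀ i, Q.port i ≠ u := fun i h => hu ⟨i, h⟩
  have hne' : ∀ i, Q.port i ≠ v := fun i h => hv ⟨i, h⟩
  have hp : ∀ i j : Fin 4, i ≠ j → Q.port i ≠ Q.port j := fun i j h h' => h (Q.port.injective h')
  refine ⟨?_, ?_, ?_, ?_, ?_⟩
  · rw [Perm.mul_apply, swap_apply_of_ne_of_ne (hp 0 1 (by decide)) (hne' 0), swap_apply_left]
  · rw [Perm.mul_apply, swap_apply_left, swap_apply_of_ne_of_ne (hne' 0).symm huv.symm]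
  · rw [Perm.mul_apply, swap_apply_of_ne_of_ne (hp 2 1 (by decide)) (hne' 2),
      swap_apply_of_ne_of_ne (hp 2 0 (by decide)) (hne 2)]
  · rw [Perm.mul_apply, swap_apply_of_ne_of_ne (hp 3 1 (by decide)) (hne' 3),
      swap_apply_of_ne_of_ne (hp 3 0 (by decide)) (hne 3)]
  · intro z hz x
    by_cases h1 : z = Q.port 0
    · rw [h1, Q.fix]
    by_cases h2 : z = Q.port 1
    · rw [h2, Q.fix]
    by_cases h3 : z = u
    · rw [h3, hu']
    by_cases h4 : z = v
    · rw [h4, hv']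
    exfalso
    apply hz
    rw [Perm.mul_apply, swap_apply_of_ne_of_ne h2 h4, swap_apply_of_ne_of_ne h1 h3]

theorem sig_jpt {Q : Piece X (Fin 4)} {φ : Perm X} {u v : X} (hs : Sep Q φ u v) (ψ : Perm Z)
    (q : Fin 5) : ((tw (Fin 5) (sumCongr φ ψ)) (jpt Q Z q)).2 = Sum.inl u ∨
      ((tw (Fin 5) (sumCongr φ ψ)) (jpt Q Z q)).2 = Sum.inl v := by
  have h1 : ((tw (Fin 5) (sumCongr φ ψ)) (jpt Q Z q)).2 = sumCongr φ ψ (jpt Q Z q).2 := rfl
  rw [h1]
  rcases jpt_snd (Z := Z) Q q with h | h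
  · left
    rw [h, ← hs.p0]
    rfl
  · right
    rw [h, ← hs.p1]
    rfl

section Main
variable {Q : Piece X (Fin 4)} {B : FS D Om} {om : Om} {n1 k : ℕ}

/-- The atlas of core tiles. -/
noncomputable def coreAtlas {Y C : Type} {A : FS D Y}
    (t : Atlas (MonoidHom.id D) (coreS Q B om n1 (k + 1)) A C) :
    Atlas (MonoidHom.id D) (core Q (omS Q B om n1) (omP Q Om n1) (omP_fixed Q B om n1)) A
      (C × CT (Fin 6) (k + 1)) :=
  t.comp ((core Q (omS Q B om n1) (omP Q Om n1) (omP_fixed Q B om n1)).extN_built 4 5 (by decide)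
    (k + 1))

theorem coreAtlas_H4 {Y C : Type} {A : FS D Y}
    (t : Atlas (MonoidHom.id D) (coreS Q B om n1 (k + 1)) A C) (x : T) (c : C × CT (Fin 6) (k + 1)) :
    A.d (tD x) ((coreAtlas t).e (c, (core Q (omS Q B om n1) (omP Q Om n1)
        (omP_fixed Q B om n1)).port 4)) =
      (coreAtlas t).e (c, (core Q (omS Q B om n1) (omP Q Om n1) (omP_fixed Q B om n1)).port 4) :=
  extN_port_tD (core Q (omS Q B om n1) (omP Q Om n1) (omP_fixed Q B om n1)) (by decide) x k A t c.1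
    c.2

theorem coreAtlas_hom {Y C : Type} {A : FS D Y}
    (t : Atlas (MonoidHom.id D) (coreS Q B om n1 (k + 1)) A C) {w : F} {φ : Perm X}
    (h : ActsBy (addS Q B om n1) w (liftS Q Om n1 φ)) :
    A.hom w = lft (coreAtlas t) (tw (Fin 5) (sumCongr φ (psi Q Om n1 φ))) := by
  ext1 y
  obtain ⟨⟨c, ⟨i, u⟩⟩, rfl⟩ := (coreAtlas t).e.surjective y
  rw [lft_apply]
  exact h _ _ _ ((coreAtlas t).comp (Built.up (addS Q B om n1) gamB portB gamB_portB)) (c, i) u

theorem coreS_port_fix {Y C : Type} {A : FS D Y}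
    (t : Atlas (MonoidHom.id D) (coreS Q B om n1 (k + 1)) A C) {w : F} {φ : Perm X} {u v : X}
    (hs : Sep Q φ u v) (h : ActsBy (addS Q B om n1) w (liftS Q Om n1 φ)) (c : C) (i : Fin 6) :
    A.hom w (t.e (c, (coreS Q B om n1 (k + 1)).port i)) =
      t.e (c, (coreS Q B om n1 (k + 1)).port i) := by
  obtain ⟨ct, hct⟩ := extN_port (core Q (omS Q B om n1) (omP Q Om n1) (omP_fixed Q B om n1))
    (o' := 4) (o := 5) (by decide) k i
  have h1 : (coreS Q B om n1 (k + 1)).port i = _ := hct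
  have h2 : t.e (c, (coreS Q B om n1 (k + 1)).port i) =
      (coreAtlas t).e ((c, ct), ((4 : Fin 5), Sum.inl (Q.port 3))) := by rw [h1]; rfl
  rw [h2, coreAtlas_hom t h, lft_apply]
  congr 2
  show ((4 : Fin 5), Sum.inl (φ (Q.port 3))) = _
  rw [hs.p3]

/-- The commutator of a letter of `T` with a tilewise element. -/
theorem nu_hom {Y C : Type} {A : FS D Y}
    (t : Atlas (MonoidHom.id D) (coreS Q B om n1 (k + 1)) A C) {w : F} {φ : Perm X} {u v : X}
    (hs : Sep Q φ u v) (h : ActsBy (addS Q B om n1) w (liftS Q Om n1 φ)) (x : T) :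
    A.hom ⁅letF (some (tD x)), w⁆ = lft (coreAtlas t)
      ⁅(vj Q x : Perm (Fin 5 × (X ⊕ (XT (Fin 2) X n1 × (Om → T))))),
        tw (Fin 5) (sumCongr φ (psi Q Om n1 φ))⁆ := by
  rw [map_commutatorElement, FS.hom_letF, coreAtlas_hom t h]
  exact comm_eq Q (omS Q B om n1) (omP Q Om n1) (omP_fixed Q B om n1) (coreAtlas t)
    (coreAtlas_H4 t) φ (psi Q Om n1 φ) hs.p3 hs.fix (fun x z => hs.psi_comm B om n1 x z) x

theorem nu_lampless {w : F} {φ : Perm X} {u v : X}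
    (hs : Sep Q φ u v) (h : ActsBy (addS Q B om n1) w (liftS Q Om n1 φ)) (i : Fin 6)
    (hl : Lampless (coreS Q B om n1 (k + 1)) ((coreS Q B om n1 (k + 1)).port i)
        (omS Q B om n1) (omP Q Om n1) w) (x : T) :
    Lampless (coreS Q B om n1 (k + 1)) ((coreS Q B om n1 (k + 1)).port i)
        (omS Q B om n1) (omP Q Om n1) ⁅letF (some (tD x)), w⁆ := by
  intro Y C A t c0 z
  by_cases hf : ((omS Q B om n1).prod A).Fixed
      (omP Q Om n1, t.e (c0, (coreS Q B om n1 (k + 1)).port i))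
  · have hwj : ((omS Q B om n1).prod A).hom w
        (omP Q Om n1, t.e (c0, (coreS Q B om n1 (k + 1)).port i)) =
        (omP Q Om n1, t.e (c0, (coreS Q B om n1 (k + 1)).port i)) := by
      rw [FS.prod_hom, coreS_port_fix t hs h, omS_hom h, psi_omP hs]
    have hl1 := hl Y C A t c0
    have hl2 := hl.inv Y C A t c0
    rw [commutatorElement_def, FS.lam_mul, FS.lam_mul, FS.lam_mul, hl1, hl2, mul_one, mul_one,
      FS.lam_inv, FS.lam_d _ hf, FS.lam_d _ hf]
    generalize (omP Q Om n1, t.e (c0, (coreS Q B om n1 (k + 1)).port i)) = j at *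
    generalize ((omS Q B om n1).prod A) = M at *
    have e0 : ∀ z, M.hom (letF (some (tD x))) z = j ↔ z = j := by
      intro z
      rw [FS.hom_letF]
      exact hf.iff _ _
    have e0' : ∀ z, M.hom (letF (some (tD x)))⁻¹ z = j ↔ z = j := by
      intro z
      rw [map_inv, Perm.inv_eq_iff_eq, (e0 j).2 rfl]
    have e1 : ∀ z, M.hom w z = j ↔ z = j :=
      fun z => ⟨fun h1 => (M.hom w).injective (by rw [h1, hwj]), fun h1 => by rw [h1, hwj]⟩
    by_cases hz : M.hom w⁻¹ z = j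
    · rw [if_pos ((e0' _).2 hz)]
      rw [if_pos ((e1 _).2 ((e0' _).2 hz)), mul_inv_cancel]
    · rw [if_neg (fun h1 => hz ((e0' _).1 h1))]
      rw [if_neg (fun h1 => hz ((e0' _).1 ((e1 _).1 h1))), mul_inv_cancel]
  · exact FS.lam_not_fixed _ hf _ _

end Main

end Junct

open Junct in
theorem Stage.exists_junctionActor (S : Stage) {n1 n2 : ℕ} (hn : 1 ≤ n2)
    (hw : ∀ φ ∈ alternatingGroup S.X, ∃ w : F,
      ActsBy (addS S.Q S.B S.om n1) w (liftS S.Q S.Om n1 φ) ∧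
      ∀ i, Lampless (coreS S.Q S.B S.om n1 n2) ((coreS S.Q S.B S.om n1 n2).port i)
        (omS S.Q S.B S.om n1) (omP S.Q S.Om n1) w) (x : T) :
    ∃ w : F, ActsBy (coreS S.Q S.B S.om n1 n2) w
        (twN (Fin 6) ((x : Perm (Fin 5)).viaEmbedding (jpt S.Q _)) n2) ∧
      (∀ i, Lampless (coreS S.Q S.B S.om n1 n2) ((coreS S.Q S.B S.om n1 n2).port i)
        (omS S.Q S.B S.om n1) (omP S.Q S.Om n1) w) ∧
      (omS S.Q S.B S.om n1).hom w = 1 := by
  classical
  obtain ⟨k, rfl⟩ : ∃ k, n2 = k + 1 := ⟨n2 - 1, by omega⟩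
  obtain ⟨y, hy⟩ := S.tfix
  -- the two separating permutations
  have hyne : ∀ i j : Fin 8, i ≠ j → y i ≠ y j := fun i j h h' => h (y.injective h')
  have hs1 := sep_swap (hyne 0 1 (by decide)) (hy 0).1 (hy 1).1 (hy 0).2 (hy 1).2
  have hs2 := sep_swap (hyne 2 3 (by decide)) (hy 2).1 (hy 3).1 (hy 2).2 (hy 3).2
  have hsw : ∀ i j, swap (S.Q.port 0) (y i) * swap (S.Q.port 1) (y j) ∈ alternatingGroup S.X := by
    intro i j
    rw [Perm.mem_alternatingGroup, map_mul, Perm.sign_swap (fun h => (hy i).1 ⟨0, h⟩),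
      Perm.sign_swap (fun h => (hy j).1 ⟨1, h⟩)]
    rfl
  obtain ⟨w1, hw1, hl1⟩ := hw _ (hsw 0 1)
  obtain ⟨w2, hw2, hl2⟩ := hw _ (hsw 2 3)
  generalize swap (S.Q.port 0) (y 0) * swap (S.Q.port 1) (y 1) = φ1 at *
  generalize swap (S.Q.port 0) (y 2) * swap (S.Q.port 1) (y 3) = φ2 at *
  -- the subgroup of good elements
  let H : Subgroup T :=
    { carrier := {x | ∃ w : F, ActsBy (coreS S.Q S.B S.om n1 (k + 1)) w
          (twN (Fin 6) (vj S.Q x) (k + 1)) ∧
        (∀ i, Lampless (coreS S.Q S.B S.om n1 (k + 1)) ((coreS S.Q S.B S.om n1 (k + 1)).port i)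
          (omS S.Q S.B S.om n1) (omP S.Q S.Om n1) w) ∧
        (omS S.Q S.B S.om n1).hom w = 1}
      mul_mem' := by
        rintro x x' ⟨w, h1, h2, h3⟩ ⟨w', h1', h2', h3'⟩
        refine ⟨w * w', ?_, fun i => (h2 i).mul (h2' i), by rw [map_mul, h3, h3', mul_one]⟩
        rw [vj_mul, twN_mul]
        exact h1.mul h1'
      one_mem' := by
        refine ⟨1, ?_, fun i => Lampless.one _ _ _ _, map_one _⟩
        rw [vj_one, twN_one]
        exact ActsBy.one _
      inv_mem' := by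
        rintro x ⟨w, h1, h2, h3⟩
        refine ⟨w⁻¹, ?_, fun i => (h2 i).inv, by rw [map_inv, h3, inv_one]⟩
        have h4 : twN (Fin 6) (vj (Z := XT (Fin 2) S.X n1 × (S.Om → T)) S.Q x⁻¹) (k + 1) =
            (twN (Fin 6) (vj S.Q x) (k + 1))⁻¹ := by
          rw [eq_inv_iff_mul_eq_one, ← twN_mul, ← vj_mul, inv_mul_cancel, vj_one, twN_one]
        rw [h4]
        exact h1.inv }
  have hcomm : ∀ a b : T, ⁅a, b⁆ ∈ H := by
    intro a b
    refine ⟨⁅⁅letF (some (tD a)), w1⁆, ⁅letF (some (tD b)), w2⁆⁆, ?_, ?_, ?_⟩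
    · intro Y C A t c z
      obtain ⟨⟨ct, p⟩, rfl⟩ := ((core S.Q (omS S.Q S.B S.om n1) (omP S.Q S.Om n1)
        (omP_fixed S.Q S.B S.om n1)).extN_built 4 5 (by decide) (k + 1)).t.e.surjective z
      have e1 := twN_built (core S.Q (omS S.Q S.B S.om n1) (omP S.Q S.Om n1)
        (omP_fixed S.Q S.B S.om n1)) (o' := 4) (o := 5) (by decide) (vj S.Q ⁅a, b⁆) (k + 1) ct p
      rw [e1, map_commutatorElement, nu_hom t hs1 hw1, nu_hom t hs2 hw2, ← map_commutatorElement,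
        comm_vj]
      · exact lft_apply (coreAtlas t) _ (c, ct) p
      · intro q q' h
        have h5 := sig_jpt hs1 (psi S.Q S.Om n1 φ1) q
        rw [h] at h5
        rcases jpt_snd (Z := XT (Fin 2) S.X n1 × (S.Om → T)) S.Q q' with h6 | h6 <;>
          rcases h5 with h5 | h5 <;> rw [h6] at h5
        · exact (hy 0).1 ⟨0, Sum.inl_injective h5⟩
        · exact (hy 1).1 ⟨0, Sum.inl_injective h5⟩
        · exact (hy 0).1 ⟨1, Sum.inl_injective h5⟩
        · exact (hy 1).1 ⟨1, Sum.inl_injective h5⟩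
      · intro q q' h
        have h5 := sig_jpt hs2 (psi S.Q S.Om n1 φ2) q
        rw [h] at h5
        rcases jpt_snd (Z := XT (Fin 2) S.X n1 × (S.Om → T)) S.Q q' with h6 | h6 <;>
          rcases h5 with h5 | h5 <;> rw [h6] at h5
        · exact (hy 2).1 ⟨0, Sum.inl_injective h5⟩
        · exact (hy 3).1 ⟨0, Sum.inl_injective h5⟩
        · exact (hy 2).1 ⟨1, Sum.inl_injective h5⟩
        · exact (hy 3).1 ⟨1, Sum.inl_injective h5⟩
      · intro q q' h
        have h5 := sig_jpt hs1 (psi S.Q S.Om n1 φ1) q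
        have h6 := sig_jpt hs2 (psi S.Q S.Om n1 φ2) q'
        rw [h] at h5
        rcases h5 with h5 | h5 <;> rcases h6 with h6 | h6 <;> rw [h6] at h5
        · exact hyne 2 0 (by decide) (Sum.inl_injective h5)
        · exact hyne 3 0 (by decide) (Sum.inl_injective h5)
        · exact hyne 2 1 (by decide) (Sum.inl_injective h5)
        · exact hyne 3 1 (by decide) (Sum.inl_injective h5)
    · intro i
      have g1 := nu_lampless hs1 hw1 i (hl1 i) a
      have g2 := nu_lampless hs2 hw2 i (hl2 i) b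
      rw [commutatorElement_def]
      exact ((g1.mul g2).mul g1.inv).mul g2.inv
    · rw [map_commutatorElement, omS_comm hs1 hw1, omS_comm hs2 hw2, commutatorElement_self]
  have htop : H = ⊤ := by
    rw [eq_top_iff, ← commutator_alternatingGroup_eq_top (α := Fin 5) (by simp), commutator_eq_closure,
      Subgroup.closure_le]
    rintro _ ⟨a, b, rfl⟩
    exact hcomm a b
  have hx : x ∈ H := by rw [htop]; exact Subgroup.mem_top x
  exact hx

end Pool.Agent.HJI
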