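import Pool.Agent.Lib.MP_377081_al.Step0

/-!
# HJ-20 Memory
-/

set_option autoImplicit false

namespace Pool.Agent.HJI

open Equiv

variable {L X Y Z Om P P' C C0 : Type} [Group L]

private theorem Memory_exists_avoid {U : Type} [Finite U] (A : FS D U) (e0 po : U)
    (l : List (Option D)) (h : 2 * (l.length + 1) < Nat.card U) :
    ∃ y : U, ∀ l' : List (Option D), l' <:+ l → A.ev l' y ≠ e0 ∧ A.ev l' y ≠ po := by
  classical
  have : Fintype U := Fintype.ofFinite U
  by_contra hcon
  push Not at hcon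
  set M : List U := l.tails.flatMap (fun l' => [(A.ev l').symm e0, (A.ev l').symm po]) with hM
  have hlen : M.length = 2 * (l.length + 1) := by
    rw [hM, List.length_flatMap]
    simp only [List.length_cons, List.length_nil, List.map_const', List.sum_replicate,
      List.length_tails, smul_eq_mul]
    ring
  have hall : ∀ y : U, y ∈ M := by
    intro y
    obtain ⟨l', hl', h'⟩ := hcon y
    rw [hM, List.mem_flatMap]
    refine ⟨l', (List.mem_tails _ _).2 hl', ?_⟩
    by_cases h0 : A.ev l' y = e0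
    · rw [← h0]
      simp
    · rw [← h' h0]
      simp
  have hcard : Nat.card U ≤ M.length := by
    rw [Nat.card_eq_fintype_card, ← Finset.card_univ]
    have : (Finset.univ : Finset U) ⊆ M.toFinset := fun y _ => List.mem_toFinset.2 (hall y)
    exact (Finset.card_le_card this).trans (List.toFinset_card_le M)
  omega

private theorem Memory_exists_ne_one : ∃ t : T, t ≠ 1 := by
  refine ⟨⟨swap 0 1 * swap 1 2, ?_⟩, ?_⟩
  · rw [Equiv.Perm.mem_alternatingGroup]
    decide
  · intro h
    have h1 := congrArg Subtype.val h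
    revert h1
    decide

theorem Stage.memory (S : Stage) {n1 ρ : ℕ} (hcard : 2 * (ρ + 1) < Nat.card (XT (Fin 2) S.X n1))
    (l : List (Option D)) (hl : l.length ≤ ρ) (hg : wd l ∉ S.K) :
    ∃ z : XT (Fin 2) S.X n1 × (S.Om → T), (omS S.Q S.B S.om n1).ev l z ≠ z ∧
      (omS S.Q S.B S.om n1).Avoid l z {omP S.Q S.Om n1} := by
  classical
  have hg' : S.B.hom (wd l) ≠ 1 := fun h => hg (MonoidHom.mem_ker.2 h)
  obtain ⟨u, hu⟩ : ∃ u, S.B.hom (wd l) u ≠ u := by
    by_contra hcon
    push Not at hcon
    exact hg' (Equiv.ext hcon)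
  obtain ⟨t, ht⟩ := Memory_exists_ne_one
  obtain ⟨y, hy⟩ := Memory_exists_avoid (theta S.Q n1).A (cen (Fin 2) n1 (S.Q.port 2))
    ((theta S.Q n1).port 1) l (by omega)
  have hfst : ∀ (l' : List (Option D)) (m : S.Om → T),
      ((omS S.Q S.B S.om n1).ev l' (y, m)).1 = (theta S.Q n1).A.ev l' y := by
    intro l' m
    rw [← FS.hom_wd, omS, FS.ext_hom, FS.hom_wd]
  refine ⟨(y, Function.update 1 u t), ?_, ?_⟩
  · intro h
    rw [← FS.hom_wd, omS, FS.ext_hom] at h
    have h2 := congrFun (congrArg Prod.snd h) (S.B.hom (wd l) u)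
    have hinv : S.B.hom (wd l)⁻¹ (S.B.hom (wd l) u) = u := by
      rw [map_inv]
      simp
    have hlam : (S.B.prod (theta S.Q n1).A).lam (S.om, cen (Fin 2) n1 (S.Q.port 2)) (wd l) (u, y)
        = 1 := by
      apply FS.lam_avoid
      intro l' hl' hmem
      rw [← FS.hom_wd, FS.prod_hom, FS.hom_wd, FS.hom_wd] at hmem
      exact (hy l' hl').1 (congrArg Prod.snd hmem)
    simp only [hinv, hlam, one_mul, Function.update_self] at h2
    rw [Function.update_of_ne hu] at h2
    exact ht h2
  · intro l' hl' hmem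
    have h3 := hfst l' (Function.update 1 u t)
    rw [Set.mem_singleton_iff] at hmem
    rw [hmem] at h3
    exact (hy l' hl').2 h3.symm

end Pool.Agent.HJI
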