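import Pool.Agent.Lib.MP_377081_al.AEven
import Pool.Agent.Lib.MP_377081_al.LambdaC

/-!
# HJ-25 Rep
-/

set_option autoImplicit false

namespace Pool.Agent.HJI

open Equiv

variable {L X Y Z Om P P' C C0 : Type} [Group L]

theorem rep [DecidableEq P] [Finite P] [Finite X] (p : L →* D) (Q : Piece X P) (o' o : P)
    (h : o' ≠ o) (k : ℕ) : ∃ c : ℕ, ∀ l : List (Option L),
      ∃ (π : Perm (XT P X k)) (M : List (L × (P ↪ XT P X k))),
        3 ^ k * M.length ≤ 2 ^ k * l.length + c ∧
        ∀ (C : Type) (γ : L →* Perm (C × P)), (glue p (Q.extN o' o h k) γ).ev l =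
          tw C π * evAct γ M := by
  induction k with
  | zero =>
    refine ⟨0, fun l => ⟨evp p Q l, events p Q l, ?_, fun C γ => base_rep p Q l γ⟩⟩
    have := events_length p Q l
    rw [pow_zero, pow_zero, one_mul, one_mul]
    exact this
  | succ k ih =>
    obtain ⟨c, hc⟩ := ih
    refine ⟨2 * c + 9 * 3 ^ k * Nat.card (XT P X k), fun l => ?_⟩
    obtain ⟨π, M, hlen, hrep⟩ := hc l
    refine ⟨(tw (CE P) π * (red p o' o h M).1 : Perm (CE P × XT P X k)),
      ((red p o' o h M).2 : List (L × (P ↪ CE P × XT P X k))), ?_, ?_⟩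
    · have h1 := red_length' p o' o h M
      have h2 := Nat.mul_le_mul_left (3 ^ k) h1
      calc 3 ^ (k + 1) * ((red p o' o h M).2).length
          = 3 ^ k * (3 * ((red p o' o h M).2).length) := by ring
        _ ≤ 3 ^ k * (9 * Nat.card (XT P X k) + 2 * M.length) := h2
        _ = 2 * (3 ^ k * M.length) + 9 * 3 ^ k * Nat.card (XT P X k) := by ring
        _ ≤ 2 * (2 ^ k * l.length + c) + 9 * 3 ^ k * Nat.card (XT P X k) := by omega
        _ = 2 ^ (k + 1) * l.length + (2 * c + 9 * 3 ^ k * Nat.card (XT P X k)) := by ring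
    · intro C γ
      apply Equiv.ext
      rintro ⟨c0, ⟨ce, x⟩⟩
      have h1 := glue_ext_ev p (Q.extN o' o h k) o' o h γ l c0 ce x
      have h2 := evAct_gamUp p o' o h γ M ((c0, ce), x)
      have h3 : ∀ z : (C × CE P) × XT P X k, Equiv.prodAssoc C (CE P) (XT P X k)
          (tw (C × CE P) π z) = tw C (tw (CE P) π) (Equiv.prodAssoc C (CE P) (XT P X k) z) := by
        rintro ⟨⟨a, b⟩, d⟩
        rfl
      refine h1.trans ?_
      rw [hrep (C × CE P) (gamUp p o' o h γ), Perm.mul_apply, h3, h2]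
      rfl

end Pool.Agent.HJI
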