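import Pool.Agent.Lib.MP_377081_al.AEven
import Pool.Agent.Lib.MP_377081_al.AltNew
import Pool.Agent.Lib.MP_377081_al.LambdaC
import Pool.Agent.Lib.MP_377081_al.Junction
import Pool.Agent.Lib.MP_377081_al.Memory
import Pool.Agent.Lib.MP_377081_al.Rep
import Pool.Agent.Lib.MP_377081_al.BSets

/-!
# The next stage and the step theorem (paper 194, sections 4 and 7)
-/

set_option autoImplicit false

namespace Pool.Agent.HJI

open Equiv

/-! ## Preliminaries -/

/-- Pure lamps exist. -/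
theorem Stage.pureLamp (S : Stage) (x : T) : ∃ w ∈ S.AAF, PureLamp S.Q S.B S.om x w :=
  S.exists_pureLamp S.exists_portActor (S.exists_translations S.a_mem) x

theorem Stage.pureLamp' (S : Stage) (x : T) : ∃ w : F, PureLamp S.Q S.B S.om x w := by
  obtain ⟨w, _, h⟩ := S.pureLamp x
  exact ⟨w, h⟩

/-- The tile has at least 12 points. -/
theorem Stage.card_ge (S : Stage) : 12 ≤ Nat.card S.X := by
  obtain ⟨y, hy⟩ := S.tfix
  have hinj : Function.Injective (Sum.elim y S.Q.port : Fin 8 ⊕ Fin 4 → S.X) := by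
    rintro (i | i) (j | j) h
    · exact congrArg Sum.inl (y.injective h)
    · exact absurd ⟨j, h.symm⟩ (hy i).1
    · exact absurd ⟨i, h⟩ (hy j).1
    · exact congrArg Sum.inr (S.Q.port.injective h)
  have := Nat.card_le_card_of_injective _ hinj
  simpa using this

/-- The corridor has an atlas of tiles, with the lamp point in the centre. -/
theorem theta_built_cen {X : Type} (Q : Piece X (Fin 4)) (n : ℕ) (x : X) :
    (theta_built Q n).t.e ((cenC (Fin 2) n, ()), x) = cen (Fin 2) n x :=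
  (Q.report ends).extN_built_cen 0 1 (by decide) n x

/-- The potential controls distances. -/
theorem pot_ev {X : Type} (Q : Piece X (Fin 4)) (k : ℕ) (l : List (Option D)) (y : XT (Fin 2) X k) :
    |pot k ((theta Q k).A.ev l y) - pot k y| ≤ l.length := by
  induction l with
  | nil => simp [FS.ev_nil]
  | cons s l ih =>
    rw [FS.ev_cons, Perm.mul_apply]
    have h1 : |pot k ((theta Q k).A.step s ((theta Q k).A.ev l y)) -
        pot k ((theta Q k).A.ev l y)| ≤ 1 := by
      cases s with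
      | none => simp [FS.step, pot_a]
      | some v => exact pot_d Q k v _
    rw [abs_le] at *
    push_cast [List.length_cons] at *
    constructor <;> linarith [h1.1, h1.2, ih.1, ih.2]

theorem theta_far {X : Type} (Q : Piece X (Fin 4)) {ρ k : ℕ} (h : ρ < 2 * k) (l : List (Option D))
    (hl : l.length ≤ ρ) : (theta Q k).A.ev l ((theta Q k).port 1) ≠ (theta Q k).port 0 := by
  intro h0
  have h1 := pot_ev Q k l ((theta Q k).port 1)
  rw [h0, pot_port_one, pot_port_zero, abs_le] at h1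
  have h2 := h1.1
  have : (l.length : ℤ) ≤ ρ := by exact_mod_cast hl
  have h3 : (ρ : ℤ) < 2 * k := by exact_mod_cast h
  linarith

theorem card_XT (P X : Type) [Finite P] (k : ℕ) :
    Nat.card (XT P X k) = (Nat.card (CE P)) ^ k * Nat.card X := by
  induction k with
  | zero => simp [XT]
  | succ k ih =>
    show Nat.card (CE P × XT P X k) = _
    rw [Nat.card_prod, ih, pow_succ]
    ring

theorem card_theta (X : Type) (k : ℕ) : Nat.card (XT (Fin 2) X k) = 7 ^ k * Nat.card X := by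
  rw [card_XT]
  congr 2
  simp [CE]

theorem gamB_four (v : D) (j : Fin 4) :
    gamB v ((4 : Fin 5), (Sum.inl j : Fin 4 ⊕ Unit)) = (4, Sum.inl j) := by
  have h1 : juncInv ((4 : Fin 5), (Sum.inl j : Fin 4 ⊕ Unit)) = none := by
    revert j; decide
  have h2 : jtB ((4 : Fin 5), (Sum.inl j : Fin 4 ⊕ Unit)) = none := by
    revert j; decide
  rw [gamB_other v _ h1, edgeB, edgeHom_none _ _ _ _ _ _ h2]

section CoreFacts
variable {X Z : Type} (Q : Piece X (Fin 4)) (B : FS D Z) (z0 : Z) (hz : B.Fixed z0)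

theorem bas_coreN_port (n : ℕ) (i : Fin 6) :
    bas (Fin 6) (n + 1) ((coreN Q B z0 hz (n + 1)).port i) = (4, Sum.inl (Q.port 3)) := by
  induction n generalizing i with
  | zero => rfl
  | succ n ih => exact ih 5

end CoreFacts

theorem coreS_built_cen {X Om : Type} (Q : Piece X (Fin 4)) (B : FS D Om) (om : Om) (n1 n2 : ℕ)
    (k : Fin 5) (x : X ⊕ (XT (Fin 2) X n1 × (Om → T))) :
    (coreS_built Q B om n1 n2).t.e ((cenC (Fin 6) n2, k), x) = cen (Fin 6) n2 (k, x) :=
  (core Q (omS Q B om n1) (omP Q Om n1) (omP_fixed Q B om n1)).extN_built_cen 4 5 (by decide) n2 (k, x)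

/-- Nonports of the centre copies are moved internally. -/
theorem coreS_dd_cen {X Om : Type} (Q : Piece X (Fin 4)) (B : FS D Om) (om : Om) (n1 n2 : ℕ)
    (k : Fin 5) (x : X ⊕ (XT (Fin 2) X n1 × (Om → T))) (hx : x ∉ Set.range (addS Q B om n1).port)
    (v : D) : (coreS Q B om n1 n2).A.d v (cen (Fin 6) n2 (k, x)) =
      cen (Fin 6) n2 (k, (addS Q B om n1).A.d v x) := by
  have h := (coreS_built Q B om n1 n2).t.hd v (cenC (Fin 6) n2, k) x hx
  rwa [coreS_built_cen, coreS_built_cen] at h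

theorem coreS_aa_cen {X Om : Type} (Q : Piece X (Fin 4)) (B : FS D Om) (om : Om) (n1 n2 : ℕ)
    (k : Fin 5) (x : X ⊕ (XT (Fin 2) X n1 × (Om → T))) :
    (coreS Q B om n1 n2).A.a (cen (Fin 6) n2 (k, x)) =
      cen (Fin 6) n2 (k, (addS Q B om n1).A.a x) := by
  have h := (coreS_built Q B om n1 n2).t.ha (cenC (Fin 6) n2, k) x
  rwa [coreS_built_cen, coreS_built_cen] at h

/-- Points of the centre copies are not ports (for `n2 ≥ 1`). -/
theorem cen_ne_port {X Om : Type} (Q : Piece X (Fin 4)) (B : FS D Om) (om : Om) (n1 : ℕ) {n2 : ℕ}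
    (hn : 1 ≤ n2) (k : Fin 5) (hk : k ≠ 4) (x : X ⊕ (XT (Fin 2) X n1 × (Om → T))) (i : Fin 6) :
    (coreS Q B om n1 n2).port i ≠ cen (Fin 6) n2 (k, x) := by
  obtain ⟨n, rfl⟩ : ∃ n, n2 = n + 1 := ⟨n2 - 1, by omega⟩
  intro h
  have h1 := bas_coreN_port Q (omS Q B om n1) (omP Q Om n1) (omP_fixed Q B om n1) n i
  have h2 : bas (Fin 6) (n + 1) ((coreS Q B om n1 (n + 1)).port i) = (4, Sum.inl (Q.port 3)) := h1
  rw [h, bas_cen] at h2
  exact hk (congrArg Prod.fst h2)

/-! ## Good words on the next stage -/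

section Next
variable (S : Stage) {n1 n2 ρ : ℕ}

theorem Stage.compatA' (hρ : ρ < n1) {φ : Perm S.X} {w : F} (hl : w ∈ Ball ρ)
    (hw : Good S.Q S.B S.om φ w) : ActsBy (addS S.Q S.B S.om n1) w (liftS S.Q S.Om n1 φ) := by
  obtain ⟨l, hl, rfl⟩ := hl
  exact S.compatA hρ hl hw (pot n1) (pot_a S.Q n1) (pot_d S.Q n1) (pot_port_one S.Q n1) (pot_cen n1 _)

theorem Stage.compatB' (h1 : ρ + 1 < n1) (h2 : ρ + 1 < n2) {φ : Perm S.X} {w : F} (hl : w ∈ Ball ρ)
    (hw : Good S.Q S.B S.om φ w) (i : Fin 6) :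
    Lampless (coreS S.Q S.B S.om n1 n2) ((coreS S.Q S.B S.om n1 n2).port i)
      (omS S.Q S.B S.om n1) (omP S.Q S.Om n1) w := by
  obtain ⟨l, hl, rfl⟩ := hl
  obtain ⟨b1, hb1⟩ := locAt_extN (S.Q.report ends) (S.Q.report ends) 0 1 (by decide) id
    Function.injective_id rfl rfl (fun _ => rfl) (fun _ _ => rfl) (fun _ h => h) h1 1
  have hbase : ∃ b : LocAt ((S.Q.report ends).extN 0 1 (by decide) (ρ + 1))
      (coreS S.Q S.B S.om n1 n2) i,
      ∀ y x, b.b y ≠ cen (Fin 6) n2 x := by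
    refine locAt_extN (S.Q.report ends) (core S.Q (omS S.Q S.B S.om n1) (omP S.Q S.Om n1)
      (omP_fixed S.Q S.B S.om n1)) 4 5 (by decide) (fun x => (4, Sum.inl x)) ?_ rfl rfl
      (fun _ => rfl) ?_ ?_ h2 i
    · intro x y h
      exact Sum.inl_injective (congrArg Prod.snd h)
    · intro v x
      show _ = (glue (MonoidHom.id D) (S.Q.addP (omS S.Q S.B S.om n1) (omP S.Q S.Om n1)
        (omP_fixed S.Q S.B S.om n1)) gamB).d v (4, Sum.inl x)
      by_cases hx : x ∈ Set.range S.Q.port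
      · obtain ⟨j, rfl⟩ := hx
        have e1 : (Sum.inl (S.Q.port j) : S.X ⊕ (XT (Fin 2) S.X n1 × (S.Om → T))) =
            (S.Q.addP (omS S.Q S.B S.om n1) (omP S.Q S.Om n1)
              (omP_fixed S.Q S.B S.om n1)).port (Sum.inl j) := rfl
        rw [e1, glue_port]
        rw [gamB_four v j]
        exact Prod.ext rfl (congrArg Sum.inl (S.Q.fix v j))
      · rw [glue_nonport]
        · rfl
        · rintro ⟨(j | j), hj⟩
          · exact hx ⟨j, Sum.inl_injective hj⟩
          · exact Sum.inr_ne_inl hj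
    · rintro x ⟨j, hj⟩
      have h3 : ((portB j).1, (S.Q.addP (omS S.Q S.B S.om n1) (omP S.Q S.Om n1)
              (omP_fixed S.Q S.B S.om n1)).port (portB j).2) = ((4 : Fin 5), Sum.inl x) := hj
      rw [Prod.mk.injEq] at h3
      have h4 : ∀ j : Fin 6, (portB j).1 = 4 → (portB j).2 = Sum.inl 0 ∨ (portB j).2 = Sum.inl 3 := by
        decide
      rcases h4 j h3.1 with h5 | h5
      · rw [h5] at h3
        exact ⟨0, Sum.inl_injective h3.2⟩
      · rw [h5] at h3
        exact ⟨1, Sum.inl_injective h3.2⟩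
  obtain ⟨b2, _⟩ := hbase
  exact S.compatB hl hw i b1 (fun y => hb1 y _) b2 (fun l hl => theta_far S.Q (by omega) l hl)

theorem Stage.port_mem (n1 n2 : ℕ) (i : Fin 4) :
    (coreS S.Q S.B S.om n1 n2).port (four i) ∈ tileS S.Q S.B S.om n1 n2 :=
  tile_port_mem _ _ _ _ _ S.trX i

theorem Stage.core_mem (n1 n2 : ℕ) (k : Fin 5) (x : S.X) (hk : k ≠ 4) :
    cen (Fin 6) n2 (k, (Sum.inl x : S.X ⊕ (XT (Fin 2) S.X n1 × (S.Om → T)))) ∈
        tileS S.Q S.B S.om n1 n2 :=
  tile_core_mem _ _ _ _ _ S.trX k hk x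

/-- `Omega'` is transitive. -/
theorem Stage.omS_trans (n1 : ℕ) : (omS S.Q S.B S.om n1).Trans := by
  have h := S.ext_trans S.pureLamp' (theta S.Q n1).A (theta_built S.Q n1).t (theta_trans S.Q S.trX n1)
    (cenC (Fin 2) n1, ())
  rw [theta_built_cen] at h
  exact h (theta_cen_fixed S.Q n1)

/-- Short good words for all even permutations. -/
def Stage.Short (ρ : ℕ) : Prop :=
  ∀ φ ∈ alternatingGroup S.X, ∃ w ∈ Ball ρ, Good S.Q S.B S.om φ w

theorem Stage.exists_short : ∃ ρ, ∀ ρ' ≥ ρ, S.Short ρ' := by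
  classical
  have h : ∀ φ : alternatingGroup S.X, ∃ r, ∃ w ∈ Ball r, Good S.Q S.B S.om φ w := by
    intro φ
    obtain ⟨w, hw⟩ := S.good φ φ.2
    obtain ⟨r, hr⟩ := exists_mem_Ball w
    exact ⟨r, w, hr, hw⟩
  choose r hr using h
  refine ⟨Finset.univ.sup r, fun ρ' hρ' φ hφ => ?_⟩
  obtain ⟨w, hw, hg⟩ := hr ⟨φ, hφ⟩
  exact ⟨w, Ball_mono ((Finset.le_sup (Finset.mem_univ _)).trans hρ') hw, hg⟩

theorem Stage.good_next (h1 : ρ + 1 < n1) (h2 : ρ + 1 < n2) (hs : S.Short ρ)
    [Fintype (tileS S.Q S.B S.om n1 n2)] [DecidableEq (tileS S.Q S.B S.om n1 n2)]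
    (ψ : Perm (tileS S.Q S.B S.om n1 n2)) (hψ : ψ ∈ alternatingGroup (tileS S.Q S.B S.om n1 n2)) :
    ∃ w : F, Good (newQ S.Q S.B S.om n1 n2 (S.port_mem n1 n2)) (omS S.Q S.B S.om n1)
      (omP S.Q S.Om n1) ψ w := by
  have hw : ∀ φ ∈ alternatingGroup S.X, ∃ w : F,
      ActsBy (addS S.Q S.B S.om n1) w (liftS S.Q S.Om n1 φ) ∧
      ∀ i, Lampless (coreS S.Q S.B S.om n1 n2) ((coreS S.Q S.B S.om n1 n2).port i)
        (omS S.Q S.B S.om n1) (omP S.Q S.Om n1) w := by
    intro φ hφ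
    obtain ⟨w, hw, hg⟩ := hs φ hφ
    exact ⟨w, S.compatA' (by omega) hw hg, fun i => S.compatB' h1 h2 hw hg i⟩
  exact S.alt_new (S.port_mem n1 n2) (by have := S.card_ge; omega) (S.core_mem n1 n2)
    (fun y hy h => tile_centre _ _ _ _ _ y hy h) hw (S.exists_junctionActor (by omega) hw) ψ hψ

theorem Stage.even4_X : Even4 S.Q.A := Even4.of_trans S.trX S.even

theorem Stage.even4_core (n1 n2 : ℕ) : Even4 (coreS S.Q S.B S.om n1 n2).A := by
  have hX := S.even4_X
  have hO : Even4 (omS S.Q S.B S.om n1) := by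
    have : Nonempty S.Om := ⟨S.om⟩
    exact Even4.of_trans (S.omS_trans n1) (four_dvd_ext _ _ _ _)
  have hs : Even4 (S.Q.A.sum (omS S.Q S.B S.om n1)) := hX.sum hO
  have hc : Even4 (core S.Q (omS S.Q S.B S.om n1) (omP S.Q S.Om n1) (omP_fixed S.Q S.B S.om n1)).A :=
    Even4.glue _ hs _
  have : ∀ n, Even4 (coreN S.Q (omS S.Q S.B S.om n1) (omP S.Q S.Om n1)
      (omP_fixed S.Q S.B S.om n1) n).A := by
    intro n
    induction n with
    | zero => exact hc
    | succ n ih => exact Even4.glue _ ih _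
  exact this n2

instance tileS_finite (n1 n2 : ℕ) : Finite (tileS S.Q S.B S.om n1 n2) := by
  have : Finite (XT (Fin 6) (Fin 5 × (S.X ⊕ (XT (Fin 2) S.X n1 × (S.Om → T)))) n2) := inferInstance
  exact Subtype.finite

open Classical in
/-- The next stage. -/
noncomputable def Stage.next (n1 n2 ρ : ℕ) (h1 : ρ + 1 < n1) (h2 : ρ + 1 < n2) (hs : S.Short ρ) :
    Stage :=
  letI : Fintype (tileS S.Q S.B S.om n1 n2) := Fintype.ofFinite _
  { X := tileS S.Q S.B S.om n1 n2
    Om := XT (Fin 2) S.X n1 × (S.Om → T)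
    Q := newQ S.Q S.B S.om n1 n2 (S.port_mem n1 n2)
    B := omS S.Q S.B S.om n1
    om := omP S.Q S.Om n1
    om_fix := omP_fixed S.Q S.B S.om n1
    trX := by
      intro x y
      obtain ⟨w, hw⟩ := FS.Rel.trans (FS.Rel.symm x.2) y.2
      refine ⟨w, Subtype.ext ?_⟩
      have := intertwine_hom (A := (newQ S.Q S.B S.om n1 n2 (S.port_mem n1 n2)).A)
        (B := (coreS S.Q S.B S.om n1 n2).A) (β := Subtype.val) (fun _ => rfl) (fun _ _ => rfl) w x
      rw [this]
      exact hw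
    trO := S.omS_trans n1
    cardO := by
      have hX := S.card_ge
      have : Nonempty S.Om := ⟨S.om⟩
      rw [Nat.card_prod, card_theta]
      have h3 : 1 ≤ Nat.card (S.Om → T) := Nat.one_le_iff_ne_zero.2 Nat.card_pos.ne'
      have h4 : 1 ≤ 7 ^ n1 := Nat.one_le_pow _ _ (by norm_num)
      calc 3 ≤ 1 * 12 * 1 := by norm_num
        _ ≤ 7 ^ n1 * Nat.card S.X * Nat.card (S.Om → T) := by gcongr
    tfix := by
      obtain ⟨y, hy⟩ := S.tfix
      refine ⟨⟨fun i => ⟨cen (Fin 6) n2 (0, Sum.inl (y i)), S.core_mem n1 n2 0 (y i) (by decide)⟩,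
        ?_⟩, ?_⟩
      · intro i j h
        have h3 := cen_injective n2 (congrArg Subtype.val h)
        exact y.injective (Sum.inl_injective (congrArg Prod.snd h3))
      · intro i
        refine ⟨?_, fun t => Subtype.ext ?_⟩
        · rintro ⟨j, hj⟩
          exact cen_ne_port S.Q S.B S.om n1 (by omega) 0 (by decide) _ _ (congrArg Subtype.val hj)
        · have hnp : (Sum.inl (y i) : S.X ⊕ (XT (Fin 2) S.X n1 × (S.Om → T))) ∉
              Set.range (addS S.Q S.B S.om n1).port := by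
            rintro ⟨(j | j), hj⟩
            · exact (hy i).1 ⟨j, Sum.inl_injective hj⟩
            · exact Sum.inr_ne_inl hj
          have h3 := coreS_dd_cen S.Q S.B S.om n1 n2 0 (Sum.inl (y i)) hnp (tD t)
          refine h3.trans ?_
          have h4 : (addS S.Q S.B S.om n1).A.d (tD t) (Sum.inl (y i)) = Sum.inl (y i) :=
            congrArg Sum.inl ((hy i).2 t)
          rw [h4]
          rfl
    even := by
      have h := S.even4_core n1 n2 (tileS S.Q S.B S.om n1 n2)
        (tileSet_a _ _ _ _ _) (tileSet_d _ _ _ _ _)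
      refine h.trans (dvd_of_eq (Nat.card_congr ?_).symm)
      exact
        { toFun := fun x => ⟨x.1.1, x.1.2, fun h => x.2 (Subtype.ext h)⟩
          invFun := fun x => ⟨⟨x.1, x.2.1⟩, fun h => x.2.2 (congrArg Subtype.val h)⟩
          left_inv := fun _ => rfl
          right_inv := fun _ => rfl }
    good := fun ψ hψ => S.good_next h1 h2 hs ψ hψ }

end Next

end Pool.Agent.HJI
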