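import Pool.Agent.Lib.MP_377081_al.Step

/-!
# The step theorem (paper 194, section 7)
-/

set_option autoImplicit false

namespace Pool.Agent.HJI

open Equiv

section Next
variable (S : Stage) {n1 n2 ρ : ℕ} (h1 : ρ + 1 < n1) (h2 : ρ + 1 < n2) (hs : S.Short ρ)

theorem Stage.next_K : (S.next n1 n2 ρ h1 h2 hs).K = (omS S.Q S.B S.om n1).hom.ker := rfl

theorem Stage.next_K_le : (S.next n1 n2 ρ h1 h2 hs).K ≤ S.K := by
  have : Nonempty (XT (Fin 2) S.X n1) := ⟨(theta S.Q n1).port 1⟩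
  exact ext_ker_le S.B S.om (theta S.Q n1).A (cen (Fin 2) n1 (S.Q.port 2))

/-- Elements acting trivially on the core and lampless there are in the next `N*`. -/
theorem Stage.mem_next_N {w : F} (hw : ActsBy (coreS S.Q S.B S.om n1 n2) w 1)
    (hl : ∀ i, Lampless (coreS S.Q S.B S.om n1 n2) ((coreS S.Q S.B S.om n1 n2).port i)
      (omS S.Q S.B S.om n1) (omP S.Q S.Om n1) w) (hO : (omS S.Q S.B S.om n1).hom w = 1) :
    w ∈ (S.next n1 n2 ρ h1 h2 hs).N := by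
  refine ⟨⟨?_, ?_⟩, hO⟩
  · exact sub_actsBy (coreS S.Q S.B S.om n1 n2) (tileS S.Q S.B S.om n1 n2) _ _ four
      (S.port_mem n1 n2) hw 1 (fun _ => rfl)
  · exact sub_lampless (coreS S.Q S.B S.om n1 n2) (tileS S.Q S.B S.om n1 n2) _ _ four
      (S.port_mem n1 n2) 2 _ _ (hl (four 2))

theorem Stage.next_N_of_N {w : F} (hw : w ∈ S.N) (hρ : w ∈ Ball ρ) :
    w ∈ (S.next n1 n2 ρ h1 h2 hs).N := by
  have hg : Good S.Q S.B S.om 1 w := hw
  apply S.mem_next_N h1 h2 hs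
  · have h3 := (coreS_built S.Q S.B S.om n1 n2).actsBy (S.compatA' (n1 := n1) (by omega) hρ hg)
    convert h3 using 1
    have hl1 : (theta_built S.Q n1).lift (1 : Perm S.X) = 1 := by
      ext1 y
      obtain ⟨⟨c, x⟩, rfl⟩ := (theta_built S.Q n1).t.e.surjective y
      rw [Built.lift_e]
      rfl
    have hl2 : liftS S.Q S.Om n1 (1 : Perm S.X) = 1 := by
      ext1 y
      rcases y with x | ⟨y, m⟩
      · rfl
      · show Sum.inr ((theta_built S.Q n1).lift 1 y, m) = _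
        rw [hl1]
        rfl
    ext1 y
    obtain ⟨⟨c, x⟩, rfl⟩ := (coreS_built S.Q S.B S.om n1 n2).t.e.surjective y
    rw [Built.lift_e, hl2]
    rfl
  · exact fun i => S.compatB' h1 h2 hρ hg i
  · ext1 y
    obtain ⟨y, m⟩ := y
    rw [omS_good n1 hg]
    obtain ⟨⟨c, x⟩, rfl⟩ := (theta_built S.Q n1).t.e.surjective y
    rw [Built.lift_e]
    rfl

theorem Stage.next_card : 4 * Nat.card S.X ≤ Nat.card (S.next n1 n2 ρ h1 h2 hs).X := by
  show 4 * Nat.card S.X ≤ Nat.card (tileS S.Q S.B S.om n1 n2)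
  have hinj : Function.Injective (fun z : Fin 4 × S.X =>
      (⟨cen (Fin 6) n2 (Fin.castSucc z.1, Sum.inl z.2), S.core_mem n1 n2 (Fin.castSucc z.1) z.2 (by
        have := z.1.castSucc_lt_last
        exact ne_of_lt this)⟩ : tileS S.Q S.B S.om n1 n2)) := by
    rintro ⟨i, x⟩ ⟨j, y⟩ h
    have h3 := cen_injective n2 (congrArg Subtype.val h)
    rw [Prod.mk.injEq] at h3
    exact Prod.ext (Fin.castSucc_injective _ h3.1) (Sum.inl_injective h3.2)
  have := Nat.card_le_card_of_injective _ hinj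
  simpa using this

/-- The memory property, for the new tile. -/
theorem Stage.newQ_memory (h2 : ρ + 1 < n2)
    (hcard : 2 * (ρ + 1) < Nat.card (XT (Fin 2) S.X n1))
    (l : List (Option D)) (hl : l.length ≤ ρ) (hg : wd l ∉ S.K) :
    ∃ x, (newQ S.Q S.B S.om n1 n2 (S.port_mem n1 n2)).A.ev l x ≠ x ∧
      (newQ S.Q S.B S.om n1 n2 (S.port_mem n1 n2)).A.Avoid l x
        (Set.range (newQ S.Q S.B S.om n1 n2 (S.port_mem n1 n2)).port) := by
  obtain ⟨z, hz1, hz2⟩ := S.memory hcard l hl hg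
  set β : XT (Fin 2) S.X n1 × (S.Om → T) → tileS S.Q S.B S.om n1 n2 := fun z =>
    ⟨cen (Fin 6) n2 (0, Sum.inr z), tile_om_mem _ _ _ _ _ S.trX (S.omS_trans n1) z⟩ with hβ
  have hβinj : Function.Injective β := by
    intro y y' h
    have h3 := cen_injective n2 (congrArg Subtype.val h)
    exact Sum.inr_injective (congrArg Prod.snd h3)
  have ha : ∀ y, β ((omS S.Q S.B S.om n1).a y) =
      (newQ S.Q S.B S.om n1 n2 (S.port_mem n1 n2)).A.a (β y) := by
    intro y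
    exact Subtype.ext (coreS_aa_cen S.Q S.B S.om n1 n2 0 (Sum.inr y)).symm
  have hd : ∀ v y, y ∉ ({omP S.Q S.Om n1} : Set _) →
      β ((omS S.Q S.B S.om n1).d v y) =
        (newQ S.Q S.B S.om n1 n2 (S.port_mem n1 n2)).A.d v (β y) := by
    intro v y hy
    refine Subtype.ext (coreS_dd_cen S.Q S.B S.om n1 n2 0 (Sum.inr y) ?_ v).symm
    rintro ⟨(j | j), hj⟩
    · exact Sum.inl_ne_inr hj
    · exact hy (Sum.inr_injective hj).symm
  refine ⟨β z, ?_, ?_⟩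
  · rw [← lockstep ha hd l z hz2]
    exact fun h => hz1 (hβinj h)
  · intro l' hl'
    have h3 : (omS S.Q S.B S.om n1).Avoid l' z {omP S.Q S.Om n1} :=
      fun l'' hl'' => hz2 l'' (hl''.trans hl')
    rw [← lockstep ha hd l' z h3]
    rintro ⟨i, hi⟩
    exact cen_ne_port S.Q S.B S.om n1 (by omega) 0 (by decide) _ _ (congrArg Subtype.val hi)

/-- The memory property. -/
theorem Stage.next_memory (hcard : 2 * (ρ + 1) < Nat.card (XT (Fin 2) S.X n1))
    (l : List (Option D)) (hl : l.length ≤ ρ) (hg : wd l ∉ S.K) :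
    ∃ x, (S.next n1 n2 ρ h1 h2 hs).Q.A.ev l x ≠ x ∧
      (S.next n1 n2 ρ h1 h2 hs).Q.A.Avoid l x (Set.range (S.next n1 n2 ρ h1 h2 hs).Q.port) :=
  S.newQ_memory h2 hcard l hl hg

end Next

/-- Large powers. -/
theorem exists_large (a i ell : ℕ) (ha : 1 ≤ a) : ∃ n0, ∀ n ≥ n0,
    i * (7 ^ n * a * (ell + 2 * (7 ^ n * a)) + 1) ^ i < 2 ^ (7 ^ n * a) := by
  -- `N = 7 ^ n * a` is at least `n`; polynomial versus exponential
  have key : ∃ N0, ∀ N ≥ N0, i * (N * (ell + 2 * N) + 1) ^ i < 2 ^ N := by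
    have h : Filter.Tendsto (fun N : ℕ => ((i : ℝ) * ((ell : ℝ) + 3) ^ i) * ((N : ℝ) ^ (2 * i) / 2 ^ N))
        Filter.atTop (nhds (((i : ℝ) * ((ell : ℝ) + 3) ^ i) * 0)) :=
      (tendsto_pow_const_div_const_pow_of_one_lt (2 * i) (by norm_num : (1 : ℝ) < 2)).const_mul _
    rw [mul_zero] at h
    obtain ⟨N0, hN0⟩ := Filter.eventually_atTop.1 (h.eventually (gt_mem_nhds one_pos))
    refine ⟨max N0 1, fun N hN => ?_⟩
    have h3 := hN0 N (le_of_max_le_left hN)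
    have hN1 : 1 ≤ N := le_of_max_le_right hN
    have h4 : (0 : ℝ) < 2 ^ N := by positivity
    rw [← mul_div_assoc, div_lt_one h4] at h3
    have h5 : ((i * (N * (ell + 2 * N) + 1) ^ i : ℕ) : ℝ) ≤
        (i : ℝ) * ((ell : ℝ) + 3) ^ i * (N : ℝ) ^ (2 * i) := by
      push_cast
      rw [mul_assoc, pow_mul, ← mul_pow]
      have hN1' : (1 : ℝ) ≤ N := by exact_mod_cast hN1
      gcongr
      nlinarith [mul_nonneg (Nat.cast_nonneg (α := ℝ) ell) (mul_nonneg (Nat.cast_nonneg (α := ℝ) N)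
        (sub_nonneg.2 hN1')), mul_nonneg (sub_nonneg.2 hN1') (Nat.cast_nonneg (α := ℝ) N)]
    have h6 : ((i * (N * (ell + 2 * N) + 1) ^ i : ℕ) : ℝ) < ((2 ^ N : ℕ) : ℝ) := by
      push_cast at *
      linarith
    exact_mod_cast h6
  obtain ⟨N0, hN0⟩ := key
  refine ⟨N0, fun n hn => hN0 _ ?_⟩
  calc N0 ≤ n := hn
    _ ≤ 7 ^ n := (Nat.lt_pow_self (by norm_num)).le
    _ ≤ 7 ^ n * a := Nat.le_mul_of_pos_right _ ha

/-- The step theorem. -/
theorem Stage.step (S : Stage) (ρ i : ℕ) (hs : S.Short ρ) (c : ℝ) (hc : 1 < c) :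
    ∃ S' : Stage,
      S'.K ≤ S.K ∧
      (∀ w ∈ S.N, w ∈ Ball ρ → w ∈ S'.N) ∧
      4 * Nat.card S.X ≤ Nat.card S'.X ∧
      (∀ l : List (Option D), l.length ≤ ρ → wd l ∉ S.K →
        ∃ x, S'.Q.A.ev l x ≠ x ∧ S'.Q.A.Avoid l x (Set.range S'.Q.port)) ∧
      (∃ n, i * (n + 1) ^ i < ((fun w : F => (w : F ⧸ S'.K)) '' Ball n).ncard) ∧
      (∃ R0, ∀ R ≥ R0, (((fun w : F => (w : F ⧸ S'.N)) '' Ball R).ncard : ℝ) ≤ c ^ R) := by
  have hX := S.card_ge
  obtain ⟨ell, hell⟩ := S.lower S.pureLamp'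
  obtain ⟨m0, hm0⟩ := exists_large (Nat.card S.X) i ell (by omega)
  -- choice of `n1`
  obtain ⟨n1, hn1⟩ : ∃ n1, n1 = max m0 (2 * (ρ + 2)) := ⟨_, rfl⟩
  have h1 : ρ + 1 < n1 := by
    have := le_max_right m0 (2 * (ρ + 2))
    omega
  have hcard : 2 * (ρ + 1) < Nat.card (XT (Fin 2) S.X n1) := by
    rw [card_theta]
    have h3 : n1 < 7 ^ n1 := Nat.lt_pow_self (by norm_num)
    have h4 : 7 ^ n1 * 1 ≤ 7 ^ n1 * Nat.card S.X := Nat.mul_le_mul_left _ (by omega)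
    have := le_max_right m0 (2 * (ρ + 2))
    omega
  -- choice of `n2`
  obtain ⟨k0, hk0⟩ := upper_growth (core S.Q (omS S.Q S.B S.om n1) (omP S.Q S.Om n1)
    (omP_fixed S.Q S.B S.om n1)) 4 5 (by decide) (omS S.Q S.B S.om n1) (omP S.Q S.Om n1) c hc
    (fun k => rep _ _ 4 5 (by decide) k)
  obtain ⟨n2, hn2⟩ : ∃ n2, n2 = max k0 (ρ + 2) := ⟨_, rfl⟩
  have h2 : ρ + 1 < n2 := by
    have := le_max_right k0 (ρ + 2)
    omega
  refine ⟨S.next n1 n2 ρ h1 h2 hs, S.next_K_le h1 h2 hs, fun w hw hρ => S.next_N_of_N h1 h2 hs hw hρ,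
    S.next_card h1 h2 hs, fun l hl hg => S.next_memory h1 h2 hs hcard l hl hg, ?_, ?_⟩
  · -- lower growth
    have h3 := hell n1 (theta_trans S.Q S.trX n1)
    rw [card_theta] at h3
    refine ⟨7 ^ n1 * Nat.card S.X * (ell + 2 * (7 ^ n1 * Nat.card S.X)), ?_⟩
    have h4 := hm0 n1 (by rw [hn1]; exact le_max_left _ _)
    refine lt_of_lt_of_le h4 (h3.trans ?_)
    -- the image in the quotient by the kernel has the same cardinality
    have h5 : (fun w : F => (omS S.Q S.B S.om n1).hom w) =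
        (fun q : F ⧸ (S.next n1 n2 ρ h1 h2 hs).K =>
          QuotientGroup.kerLift (omS S.Q S.B S.om n1).hom q) ∘ (fun w : F => (w : F ⧸ _)) := by
      funext w
      rfl
    rw [h5, Set.image_comp]
    exact Set.ncard_image_le ((Ball_finite _).image _)
  · -- upper growth
    obtain ⟨R0, hR0⟩ := hk0 n2 (by rw [hn2]; exact le_max_left _ _)
    refine ⟨R0, fun R hR => hR0 R hR _ ?_⟩
    intro l l' hB hg
    obtain ⟨ha, hb, hc'⟩ := class_eq (coreS S.Q S.B S.om n1 n2) (omS S.Q S.B S.om n1) (omP S.Q S.Om n1)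
      (omP_fixed S.Q S.B S.om n1) l l' hB hg
    exact S.mem_next_N h1 h2 hs ha hb hc'

end Pool.Agent.HJI
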